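import Mathlib

/-!
The numerical part of the recursion `P k ≤ (k choose q) P q exp (-(c q (k-q)))`:
`P k ≤ exp (-(1-2η) c k²/2 + K k)`.
-/

set_option autoImplicit false

open scoped Nat

namespace Pool.Agent.Helper63.RKS

lemma choose_le_exp {k δ : ℕ} (hδ : 0 < δ) {η : ℝ} (hη : 0 < η) (h : η * k ≤ δ) :
    (k.choose δ : ℝ) ≤ Real.exp ((1 + Real.log (1 / η)) * δ) := by
  have hδ0 : (0 : ℝ) < δ := by exact_mod_cast hδ
  rcases Nat.eq_zero_or_pos k with rfl | hk
  · rw [Nat.choose_eq_zero_of_lt hδ]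
    simp only [Nat.cast_zero]
    positivity
  have hk0 : (0 : ℝ) < k := by exact_mod_cast hk
  have h1 : (k.choose δ : ℝ) ≤ (k : ℝ) ^ δ / (δ ! : ℝ) := Nat.choose_le_pow_div δ k
  have h2 : (δ : ℝ) ^ δ / (δ ! : ℝ) ≤ Real.exp δ := Real.pow_div_factorial_le_exp (x := (δ : ℝ)) hδ0.le δ
  have h3 : (k : ℝ) ^ δ / (δ ! : ℝ) = ((δ : ℝ) ^ δ / (δ ! : ℝ)) * ((k : ℝ) / δ) ^ δ := by
    rw [div_pow]; field_simp
  have h4 : (k : ℝ) / δ ≤ 1 / η := by
    rw [div_le_div_iff₀ hδ0 hη]; linarith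
  calc (k.choose δ : ℝ) ≤ ((δ : ℝ) ^ δ / (δ ! : ℝ)) * ((k : ℝ) / δ) ^ δ := by rw [← h3]; exact h1
    _ ≤ Real.exp δ * (1 / η) ^ δ := by
        apply mul_le_mul h2 (pow_le_pow_left₀ (by positivity) h4 δ) (by positivity)
          (Real.exp_pos _).le
    _ = Real.exp ((1 + Real.log (1 / η)) * δ) := by
        rw [add_mul, one_mul, Real.exp_add, mul_comm (Real.log (1 / η)), Real.exp_nat_mul,
          Real.exp_log (by positivity)]

/-- the numerical induction -/
theorem stage_num {P : ℕ → ℝ} (h0 : ∀ k, 0 ≤ P k) (h1 : ∀ k, P k ≤ 1) {c η Lg : ℝ} (hc : 0 < c)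
    (hη : 0 < η) (hη1 : η ≤ 1 / 4) (hcη : c ≤ η)
    (hrec : ∀ k q : ℕ, q ≤ k → c * q ≤ Lg →
      P k ≤ (k.choose q : ℝ) * P q * Real.exp (-(c * q * (k - q : ℕ)))) :
    ∀ k : ℕ, c * k ≤ Lg →
      P k ≤ Real.exp (-((1 - 2 * η) * c * k ^ 2 / 2) + (1 + Real.log (1 / η)) * k) := by
  set K : ℝ := 1 + Real.log (1 / η) with hK
  have hK1 : 1 ≤ K := by
    have : 0 ≤ Real.log (1 / η) := Real.log_nonneg (by rw [le_div_iff₀ hη]; linarith)
    rw [hK]; linarith
  intro k
  induction k using Nat.strong_induction_on with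
  | _ k ih =>
  intro hkL
  have hk0 : (0 : ℝ) ≤ k := Nat.cast_nonneg k
  by_cases hsmall : η * k < 1
  · refine (h1 k).trans (Real.one_le_exp ?_)
    have h2 : c * k ≤ 1 := (mul_le_mul_of_nonneg_right hcη hk0).trans hsmall.le
    have h3 : (1 - 2 * η) * c * k ^ 2 / 2 ≤ k / 2 := by
      have h4 : (1 - 2 * η) * (c * k) ≤ 1 := by
        have h5 : 0 ≤ c * k := by positivity
        nlinarith
      calc (1 - 2 * η) * c * k ^ 2 / 2 = ((1 - 2 * η) * (c * k)) * k / 2 := by ring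
        _ ≤ 1 * k / 2 := by gcongr
        _ = k / 2 := by ring
    have h6 : (k : ℝ) ≤ K * k := le_mul_of_one_le_left hk0 hK1
    linarith
  · push Not at hsmall
    set δ : ℕ := ⌈η * k⌉₊ with hδ
    have hδ1 : η * k ≤ δ := Nat.le_ceil _
    have hδ2 : (δ : ℝ) < η * k + 1 := Nat.ceil_lt_add_one (by positivity)
    have hδpos : 0 < δ := by
      have : (0 : ℝ) < δ := by linarith
      exact_mod_cast this
    have hkpos : 0 < k := by
      rcases Nat.eq_zero_or_pos k with h | h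
      · rw [h] at hsmall; norm_num at hsmall
      · exact h
    have hkp : (0 : ℝ) < k := by exact_mod_cast hkpos
    have hδk : (δ : ℝ) ≤ 2 * η * k := by linarith
    have hδk' : δ ≤ k := by
      have : (δ : ℝ) ≤ k := by nlinarith
      exact_mod_cast this
    set m : ℕ := k - δ with hm
    have hmk : m + δ = k := by omega
    have hmr : (m : ℝ) + δ = k := by exact_mod_cast hmk
    have hm0 : (0 : ℝ) ≤ m := Nat.cast_nonneg m
    have hδ0 : (0 : ℝ) ≤ δ := Nat.cast_nonneg δ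
    have hmL : c * m ≤ Lg := by
      refine le_trans ?_ hkL
      apply mul_le_mul_of_nonneg_left _ hc.le
      linarith
    have h2 := ih m (by omega) hmL
    have h3 := hrec k m (by omega) hmL
    have h4 : (k.choose m : ℝ) ≤ Real.exp (K * δ) := by
      rw [← Nat.choose_symm (by omega : m ≤ k), show k - m = δ by omega]
      exact choose_le_exp hδpos hη hδ1
    rw [show k - m = δ by omega] at h3
    have h5 : (k.choose m : ℝ) * P m * Real.exp (-(c * m * (δ : ℕ))) ≤
        Real.exp (K * δ) * Real.exp (-((1 - 2 * η) * c * m ^ 2 / 2) + K * m) *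
          Real.exp (-(c * m * (δ : ℕ))) := by
      apply mul_le_mul_of_nonneg_right _ (Real.exp_pos _).le
      exact mul_le_mul h4 h2 (h0 m) (Real.exp_pos _).le
    refine (h3.trans h5).trans ?_
    rw [← Real.exp_add, ← Real.exp_add]
    apply Real.exp_le_exp.2
    have h6 : (1 - 2 * η) * (δ / 2) ≤ 2 * η * m := by
      have : (1 - 2 * η) * k ≤ m := by linarith
      nlinarith
    have h7 : 0 ≤ c * δ * (2 * η * m - (1 - 2 * η) * (δ / 2)) := by
      apply mul_nonneg (by positivity); linarith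
    rw [← hmr]
    nlinarith

end Pool.Agent.Helper63.RKS
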