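import Pool.Agent.Helper63.RKS.StageProb
import Pool.Agent.Helper63.RKS.StageNum

/-!
Sets of measure at least `2^(-g d)`, `g < g*`, contain the mean field proportion of overlaps.
-/

set_option autoImplicit false

open MeasureTheory Set Filter Topology

namespace Pool.Agent.Helper63.RKS

open Pool.Agent.Helper49.EJ Pool.Agent.Helper47.KP

variable {d : ℕ}

/-- sets of measure at least `ε / κ` contain the proportion `(1 - κ) p` of conflicts -/
theorem sat_of [NeZero d] (hd : 3 ≤ d) (hp : 0 < pc d) {r : ℝ} (hr0 : 0 < r) (hr1 : r ≤ 1 / 2)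
    {J : ℕ} (hJ : (J : ℝ) * (r ^ 2 - r + 1) ≤ r * d / 2 - r ^ 2 * (d - 1) - 1) {ε : ℝ}
    (hε : 0 < ε) (hε2 : 1 / (pc d * (Nat.choose (J + 1 + (d - 3)) (J + 1) : ℝ)) ≤ ε ^ 2)
    {a κ : ℝ} (hκ : 0 < κ) (ha : ε ≤ κ * a) : Sat (sig d) (Rc (d := d)) ((1 - κ) * pc d) a := by
  intro A hA hAa
  have hRm : ∀ x : Sph d, MeasurableSet {z | Rc x z} :=
    fun x => (measurable_prodMk_left (x := x)) measurable_Rc
  set φ : Sph d → ℝ := A.indicator fun _ => 1 with hφ
  have hBM : BM φ 1 := by
    refine ⟨measurable_const.indicator hA, fun x => ?_⟩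
    simp only [hφ, indicator]
    split_ifs <;> norm_num
  have h0 : ∫ t, capf t / pc d ∂(den d) = 1 := by
    rw [integral_div]; exact div_self hp.ne'
  have hG : ∀ t, |capf t / pc d| ≤ 1 / pc d := fun t => by
    rw [abs_of_nonneg (div_nonneg (capf_nonneg t) hp.le)]
    exact div_le_div_of_nonneg_right (capf_le t) hp.le
  have key := op_ineq hd (g := fun t => capf t / pc d) (measurable_capf.div_const _) hG h0 hε.le
    (fun j hj => coef_ge hd hp hr0 hr1 hJ hε hε2 j hj) hBM
  have e1 : ∫ x : Sph d, φ x ∂(sig d) = (sig d).real A := by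
    rw [hφ, integral_indicator hA, setIntegral_const, smul_eq_mul, mul_one]
  have e2 : ∫ x : Sph d, φ x ^ 2 ∂(sig d) = (sig d).real A := by
    rw [← e1]
    congr 1; funext x
    simp only [hφ, indicator]
    split_ifs <;> norm_num
  have e3 : QF (fun t => capf t / pc d) φ =
      (∫ x in A, (sig d).real (A ∩ {z | Rc x z}) ∂(sig d)) / pc d := by
    unfold QF
    rw [← integral_indicator hA, ← integral_div]
    congr 1; funext x
    have e4 : ∫ y : Sph d, φ y * (capf (inner ℝ (x : EE d) (y : EE d)) / pc d) ∂(sig d) =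
        (sig d).real (A ∩ {z | Rc x z}) / pc d := by
      have e5 : (fun y : Sph d => φ y * (capf (inner ℝ (x : EE d) (y : EE d)) / pc d)) =
          fun y => ((A ∩ {z | Rc x z}).indicator (fun _ => (1 : ℝ)) y) / pc d := by
        funext y
        by_cases hy : y ∈ A
        · by_cases hy2 : Rc x y
          · have : y ∈ A ∩ {z | Rc x z} := ⟨hy, hy2⟩
            rw [indicator_of_mem this, hφ, indicator_of_mem hy]
            unfold Rc at hy2
            unfold capf; rw [if_pos hy2]; ring
          · have : y ∉ A ∩ {z | Rc x z} := fun h => hy2 h.2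
            rw [indicator_of_notMem this]
            unfold Rc at hy2
            unfold capf; rw [if_neg hy2]; ring
        · have : y ∉ A ∩ {z | Rc x z} := fun h => hy h.1
          rw [indicator_of_notMem this, hφ, indicator_of_notMem hy]; ring
      rw [e5, integral_div, integral_indicator (hA.inter (hRm x)), setIntegral_const, smul_eq_mul,
        mul_one]
    rw [e4]
    by_cases hx : x ∈ A
    · rw [hφ, indicator_of_mem hx, indicator_of_mem hx]; ring
    · rw [hφ, indicator_of_notMem hx, indicator_of_notMem hx]; ring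
  rw [e1, e2, e3] at key
  set m := (sig d).real A with hm
  have hm0 : ε ≤ κ * m := ha.trans (mul_le_mul_of_nonneg_left hAa hκ.le)
  have hmn : 0 ≤ m := measureReal_nonneg
  have h1 : (1 - κ) * m ^ 2 ≤ m ^ 2 - ε * m := by nlinarith
  have h2 := h1.trans key
  rw [le_div_iff₀ hp] at h2
  linarith

/-- **Sharp supersaturation.** Eventually every set of measure at least `2^(-g d)` contains at
least `(1 - κ)` times the mean field number of conflicts. -/
theorem sat_eventually {g κ : ℝ} (hg : g < gst) (hκ : 0 < κ) : ∀ᶠ d : ℕ in atTop, 4 ≤ d ∧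
    ∀ _ : NeZero d, Sat (sig d) (Rc (d := d)) ((1 - κ) * pc d) ((2 : ℝ) ^ (-(g * d))) := by
  have hl2 : 0 < Real.log 2 := Real.log_pos (by norm_num)
  have hδ : 0 < (gst - g) * Real.log 2 := mul_pos (by linarith) hl2
  have hev : ∀ᶠ d : ℕ in atTop, (1 / 2) * Real.log d + (Real.log 40 - 2 * Real.log κ) ≤
      (gst - g) * Real.log 2 * d := by
    have h1 : Tendsto (fun d : ℕ => (2 * Real.log d + 2) / (d : ℝ)) atTop (𝓝 0) := tendsto_logd
    have h2 : Tendsto (fun d : ℕ => |Real.log 40 - 2 * Real.log κ| / (d : ℝ)) atTop (𝓝 0) :=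
      tendsto_const_div_atTop_nhds_zero_nat _
    have h3 := (h1.add h2).eventually_lt_const (show 0 + 0 < (gst - g) * Real.log 2 by simpa using hδ)
    filter_upwards [h3, eventually_ge_atTop 1] with d hd hd1
    have hd0 : (0 : ℝ) < d := by exact_mod_cast hd1
    have hlog : 0 ≤ Real.log d := Real.log_natCast_nonneg d
    rw [← add_div, div_lt_iff₀ hd0] at hd
    have := le_abs_self (Real.log 40 - 2 * Real.log κ)
    linarith
  have hk : ∀ᶠ d : ℕ in atTop, 2 ≤ kap * d := by
    have := (tendsto_natCast_atTop_atTop (R := ℝ)).const_mul_atTop kap_pos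
    exact this.eventually_ge_atTop 2
  filter_upwards [hev, choose_growth hδ, hk, eventually_ge_atTop 4] with d h1 h2 h3 h4
  refine ⟨h4, fun hne => ?_⟩
  have hd0 : (0 : ℝ) < d := by exact_mod_cast (by omega : 0 < d)
  have hp := pc_pos h4
  have ⟨hb1, hb2⟩ := sqrt3_bounds
  set a : ℝ := (2 : ℝ) ^ (-(g * d)) with ha
  have ha0 : 0 < a := Real.rpow_pos_of_pos (by norm_num) _
  set ch : ℝ := ((Nat.choose (JJ d + 1 + (d - 3)) (JJ d + 1) : ℕ) : ℝ) with hch
  have hch0 : 0 < ch := by rw [hch]; exact_mod_cast Nat.choose_pos (by omega)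
  refine sat_of (by omega) hp (r := 2 - Real.sqrt 3) (by linarith) (by linarith)
    (JJ_cond h3) (ε := κ * a) (by positivity) ?_ hκ le_rfl
  rw [div_le_iff₀ (mul_pos hp hch0)]
  have hpl : Real.log (1 / 40) + d * Real.log (Real.sqrt 3 / 2) - 1 / 2 * Real.log d ≤
      Real.log (pc d) := by
    have h5 := Real.log_le_log (by have := s32_pos; positivity) (pc_ge h4)
    rw [Real.log_div (by have := s32_pos; positivity) (Real.sqrt_pos.2 hd0).ne',
      Real.log_mul (by norm_num) (by have := s32_pos; positivity), Real.log_pow,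
      Real.log_sqrt hd0.le] at h5
    linarith
  have h6 : Real.log (Real.sqrt 3 / 2) = -Real.log (2 / Real.sqrt 3) := by
    rw [← Real.log_inv, inv_div]
  have h7 : Real.log (1 / 40) = -Real.log 40 := by rw [one_div, Real.log_inv]
  have h9 : Real.log ((κ * a) ^ 2) = -2 * g * d * Real.log 2 + 2 * Real.log κ := by
    rw [Real.log_pow, Real.log_mul hκ.ne' ha0.ne', ha, Real.log_rpow (by norm_num)]
    push_cast; ring
  have hE := En_eq
  have h10 : 0 ≤ Real.log ((κ * a) ^ 2 * (pc d * ch)) := by
    rw [Real.log_mul (by positivity) (by positivity), Real.log_mul hp.ne' hch0.ne', h9]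
    have h11 : (En - (gst - g) * Real.log 2) * d - d * Real.log (2 / Real.sqrt 3) =
        (2 * gst * Real.log 2 - (gst - g) * Real.log 2) * d := by
      rw [← hE]; ring
    rw [h6, h7] at hpl
    nlinarith
  exact (Real.log_nonneg_iff (by positivity)).1 h10

end Pool.Agent.Helper63.RKS
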