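import Mathlib

/-!
The bounded differences inequality for independent points.
-/

set_option autoImplicit false

open MeasureTheory Set

namespace Pool.Agent.Helper63.RKS

variable {X : Type*} [MeasurableSpace X]

private theorem hoeff {μ : Measure X} [IsProbabilityMeasure μ] {Y : X → ℝ} (hY : Measurable Y)
    (hb : ∀ u, |Y u| ≤ 1) (h0 : ∫ u, Y u ∂μ = 0) (r : ℝ) :
    ∫ u, Real.exp (r * Y u) ∂μ ≤ Real.exp (r ^ 2 / 2) := by
  have h1 := ProbabilityTheory.hasSubgaussianMGF_of_mem_Icc_of_integral_eq_zero (μ := μ) (a := -1)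
    (b := 1) hY.aemeasurable (Filter.Eventually.of_forall fun u => abs_le.1 (hb u)) h0
  have h2 := h1.mgf_le r
  unfold ProbabilityTheory.mgf at h2
  refine h2.trans (le_of_eq ?_)
  congr 1
  have h3 : (((‖(1 : ℝ) - -1‖₊ / 2) ^ 2 : NNReal) : ℝ) = 1 := by
    push_cast
    rw [Real.norm_eq_abs]
    norm_num
  rw [h3]
  ring

private theorem int_bd {α : Type*} [MeasurableSpace α] {μ : Measure α} [IsProbabilityMeasure μ]
    {g : α → ℝ} (hg : Measurable g) {K : ℝ} (hb : ∀ x, |g x| ≤ K) : Integrable g μ :=
  Integrable.of_bound hg.aestronglyMeasurable K (Filter.Eventually.of_forall hb)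

private theorem int_exp {α : Type*} [MeasurableSpace α] {μ : Measure α} [IsProbabilityMeasure μ]
    {g : α → ℝ} (hg : Measurable g) {K : ℝ} (hb : ∀ x, |g x| ≤ K) (r : ℝ) :
    Integrable (fun x => Real.exp (r * g x)) μ := by
  refine int_bd (K := Real.exp (|r| * K)) (Real.measurable_exp.comp (hg.const_mul r)) fun x => ?_
  rw [abs_of_pos (Real.exp_pos _)]
  apply Real.exp_le_exp.2
  calc r * g x ≤ |r * g x| := le_abs_self _
    _ = |r| * |g x| := abs_mul _ _
    _ ≤ |r| * K := mul_le_mul_of_nonneg_left (hb x) (abs_nonneg _)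

private theorem abs_int_le {α : Type*} [MeasurableSpace α] {μ : Measure α}
    [IsProbabilityMeasure μ] {g : α → ℝ} {K : ℝ} (hb : ∀ x, |g x| ≤ K) : |∫ x, g x ∂μ| ≤ K := by
  have h := norm_integral_le_of_norm_le_const (μ := μ) (f := g) (C := K)
    (Filter.Eventually.of_forall hb)
  rw [probReal_univ, mul_one] at h
  exact h

/-- the exponential moment -/
theorem mcd_mgf (μ : Measure X) [IsProbabilityMeasure μ] : ∀ (n : ℕ) (f : (Fin n → X) → ℝ),
    Measurable f → ∀ K : ℝ, (∀ x, |f x| ≤ K) →
    (∀ (x : Fin n → X) (i : Fin n) (y : X), |f (Function.update x i y) - f x| ≤ 1) → ∀ r : ℝ,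
    ∫ x, Real.exp (r * f x) ∂(Measure.pi fun _ : Fin n => μ) ≤
      Real.exp (n * r ^ 2 / 2) * Real.exp (r * ∫ x, f x ∂(Measure.pi fun _ : Fin n => μ)) := by
  intro n
  induction n with
  | zero =>
    intro f hf K hK hd r
    have e : ∀ x : Fin 0 → X, f x = f (fun i => i.elim0) := fun x => by
      congr 1; funext i; exact i.elim0
    simp_rw [e]
    simp
  | succ n ih =>
    intro f hf K hK hd r
    have hmp := measurePreserving_piFinSuccAbove (fun _ : Fin (n + 1) => μ) 0
    have hsymm := hmp.symm
    set F : X × (Fin n → X) → ℝ := fun q =>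
      f ((MeasurableEquiv.piFinSuccAbove (fun _ : Fin (n + 1) => X) 0).symm q) with hF
    have hFm : Measurable F := hf.comp (MeasurableEquiv.measurable _)
    have hFK : ∀ q, |F q| ≤ K := fun q => hK _
    have hcons : ∀ (y : X) (x : Fin n → X),
        (MeasurableEquiv.piFinSuccAbove (fun _ : Fin (n + 1) => X) 0).symm (y, x) =
          Fin.cons y x := by
      intro y x
      simp [MeasurableEquiv.piFinSuccAbove]
      rfl
    have hint : ∀ h : ℝ → ℝ, ∫ x, h (f x) ∂(Measure.pi fun _ : Fin (n + 1) => μ) =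
        ∫ q, h (F q) ∂(μ.prod (Measure.pi fun _ : Fin n => μ)) := by
      intro h
      have := hsymm.integral_comp' (g := fun x => h (f x))
      exact this.symm
    rw [hint (fun t => Real.exp (r * t)), hint (fun t => t)]
    set ν := Measure.pi fun _ : Fin n => μ with hν
    set g : (Fin n → X) → ℝ := fun x => ∫ y, F (y, x) ∂μ with hg
    have hFsw : Measurable fun q : (Fin n → X) × X => F (q.2, q.1) :=
      hFm.comp (measurable_snd.prodMk measurable_fst)
    have hgm : Measurable g :=
      (hFsw.stronglyMeasurable.integral_prod_right' (ν := μ)).measurable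
    have hgK : ∀ x, |g x| ≤ K := fun x => abs_int_le fun y => hFK _
    have hFx : ∀ x, Measurable fun y => F (y, x) := fun x =>
      hFm.comp (measurable_id.prodMk measurable_const)
    have hgd : ∀ (x : Fin n → X) (i : Fin n) (y : X),
        |g (Function.update x i y) - g x| ≤ 1 := by
      intro x i z
      rw [hg]
      simp only
      rw [← integral_sub (int_bd (hFx _) fun y => hFK _) (int_bd (hFx _) fun y => hFK _)]
      refine abs_int_le fun y => ?_
      have h1 := hd (Fin.cons y x) i.succ z
      simp only [hF]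
      rw [hcons, hcons, Fin.cons_update]
      exact h1
    have hEg : ∫ q, F q ∂(μ.prod ν) = ∫ x, g x ∂ν := by
      rw [integral_prod_symm _ (int_bd hFm hFK)]
    have hE : ∫ q, Real.exp (r * F q) ∂(μ.prod ν) =
        ∫ x, ∫ y, Real.exp (r * F (y, x)) ∂μ ∂ν := by
      rw [integral_prod_symm _ (int_exp hFm hFK r)]
    rw [hEg, hE]
    have hin : ∀ x, ∫ y, Real.exp (r * F (y, x)) ∂μ ≤
        Real.exp (r ^ 2 / 2) * Real.exp (r * g x) := by
      intro x
      have hX : ∀ y, |F (y, x) - g x| ≤ 1 := by
        intro y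
        have h3 : F (y, x) - g x = ∫ y', (F (y, x) - F (y', x)) ∂μ := by
          rw [integral_sub (integrable_const _) (int_bd (hFx x) fun y => hFK _), integral_const,
            probReal_univ, one_smul]
        rw [h3]
        refine abs_int_le fun y' => ?_
        have h4 := hd (Fin.cons y' x) 0 y
        simp only [hF]
        rw [hcons, hcons]
        rwa [Fin.update_cons_zero] at h4
      have h0 : ∫ y, (F (y, x) - g x) ∂μ = 0 := by
        rw [integral_sub (int_bd (hFx x) fun y => hFK _) (integrable_const _), integral_const,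
          probReal_univ, one_smul]
        exact sub_self _
      have h5 := hoeff ((hFx x).sub_const (g x)) hX h0 r
      have h6 : ∫ y, Real.exp (r * F (y, x)) ∂μ =
          Real.exp (r * g x) * ∫ y, Real.exp (r * (F (y, x) - g x)) ∂μ := by
        rw [← integral_const_mul]
        refine integral_congr_ae (Filter.Eventually.of_forall fun y => ?_)
        show Real.exp (r * F (y, x)) = Real.exp (r * g x) * Real.exp (r * (F (y, x) - g x))
        rw [← Real.exp_add]
        congr 1
        ring
      rw [h6, mul_comm]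
      exact mul_le_mul_of_nonneg_right h5 (Real.exp_pos _).le
    have hexpsw : Measurable fun q : (Fin n → X) × X => Real.exp (r * F (q.2, q.1)) :=
      Real.measurable_exp.comp (hFsw.const_mul r)
    have hI1 : Integrable (fun x => ∫ y, Real.exp (r * F (y, x)) ∂μ) ν :=
      (int_exp hFm hFK r).integral_prod_right
    calc ∫ x, ∫ y, Real.exp (r * F (y, x)) ∂μ ∂ν ≤
          ∫ x, Real.exp (r ^ 2 / 2) * Real.exp (r * g x) ∂ν :=
          integral_mono hI1 ((int_exp hgm hgK r).const_mul _) hin
      _ = Real.exp (r ^ 2 / 2) * ∫ x, Real.exp (r * g x) ∂ν := integral_const_mul _ _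
      _ ≤ Real.exp (r ^ 2 / 2) * (Real.exp (n * r ^ 2 / 2) *
            Real.exp (r * ∫ x, g x ∂ν)) :=
          mul_le_mul_of_nonneg_left (ih g hgm K hgK hgd r) (Real.exp_pos _).le
      _ = _ := by
          rw [← mul_assoc, ← Real.exp_add]
          congr 2
          push_cast
          ring

/-- **The bounded differences inequality.** -/
theorem mcdiarmid (μ : Measure X) [IsProbabilityMeasure μ] {n : ℕ} (hn : 0 < n)
    (f : (Fin n → X) → ℝ) (hf : Measurable f) {K : ℝ} (hK : ∀ x, |f x| ≤ K)
    (hd : ∀ (x : Fin n → X) (i : Fin n) (y : X), |f (Function.update x i y) - f x| ≤ 1)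
    {t : ℝ} (ht : 0 ≤ t) :
    (Measure.pi fun _ : Fin n => μ).real
      {x | f x ≤ ∫ x, f x ∂(Measure.pi fun _ : Fin n => μ) - t} ≤
      Real.exp (-(t ^ 2 / (2 * n))) := by
  have hn0 : (0 : ℝ) < n := by exact_mod_cast hn
  set ν := Measure.pi fun _ : Fin n => μ with hν
  set m := ∫ x, f x ∂ν with hm
  set r : ℝ := -(t / n) with hr
  have h1 := mcd_mgf μ n f hf K hK hd r
  have hMar := mul_meas_ge_le_integral_of_nonneg (μ := ν)
    (f := fun x => Real.exp (r * f x)) (Filter.Eventually.of_forall fun x => (Real.exp_pos _).le)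
    (int_exp hf hK r) (Real.exp (r * (m - t)))
  have hsub : {x | f x ≤ m - t} ⊆ {x | Real.exp (r * (m - t)) ≤ Real.exp (r * f x)} := by
    intro x hx
    apply Real.exp_le_exp.2
    have hr0 : r ≤ 0 := by rw [hr]; have : 0 ≤ t / n := by positivity
                           linarith
    exact mul_le_mul_of_nonpos_left hx hr0
  have h2 : ν.real {x | f x ≤ m - t} ≤ ν.real {x | Real.exp (r * (m - t)) ≤ Real.exp (r * f x)} :=
    measureReal_mono hsub (measure_ne_top _ _)
  have h3 : Real.exp (r * (m - t)) * ν.real {x | f x ≤ m - t} ≤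
      Real.exp (n * r ^ 2 / 2) * Real.exp (r * m) := by
    calc _ ≤ Real.exp (r * (m - t)) * ν.real {x | Real.exp (r * (m - t)) ≤ Real.exp (r * f x)} :=
          mul_le_mul_of_nonneg_left h2 (Real.exp_pos _).le
      _ ≤ _ := hMar.trans h1
  have h4 : ν.real {x | f x ≤ m - t} ≤
      Real.exp (n * r ^ 2 / 2) * Real.exp (r * m) * Real.exp (-(r * (m - t))) := by
    rw [Real.exp_neg, ← div_eq_mul_inv, le_div_iff₀ (Real.exp_pos _), mul_comm]
    exact h3
  refine h4.trans (le_of_eq ?_)
  rw [← Real.exp_add, ← Real.exp_add]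
  congr 1
  rw [hr]
  field_simp
  ring

end Pool.Agent.Helper63.RKS
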