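import Pool.Agent.Helper63.RKS.Sat
import Pool.Agent.Helper49.EJ.HC
import Pool.Agent.Helper84.RK.Cap

/-!
The probability that `k` random balls touching the central ball do not overlap: mean field upper
bound.
-/

set_option autoImplicit false

open MeasureTheory Set Filter Topology

namespace Pool.Agent.Helper63.RKS

open Pool.Agent.Helper49.EJ Pool.Agent.Helper47.KP

lemma kp_eq (d k : ℕ) : kp d k = (Measure.pi fun _ : Fin k => sig d).real (Indep (Rc (d := d)) k) := by
  unfold kp Indep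
  rw [Kiss_eq]

lemma tendsto_pc : Tendsto pc atTop (𝓝 0) := by
  have ⟨hb1, hb2⟩ := sqrt3_bounds
  have h1 : Tendsto (fun d : ℕ => 10 * (Real.sqrt 3 / 2) ^ d) atTop (𝓝 (10 * 0)) :=
    (tendsto_pow_atTop_nhds_zero_of_lt_one (by positivity) (by linarith)).const_mul 10
  rw [mul_zero] at h1
  refine tendsto_of_tendsto_of_tendsto_of_le_of_le' tendsto_const_nhds h1 ?_ ?_
  · filter_upwards [eventually_ge_atTop 4] with d hd
    exact (pc_pos hd).le
  · filter_upwards [eventually_ge_atTop 4] with d hd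
    refine (Pool.Agent.Helper84.RK.pc_le hd).trans ?_
    apply div_le_self (by positivity)
    rw [Real.one_le_sqrt]
    exact_mod_cast (by omega : 1 ≤ d)

/-- **The recursion on the sphere.** -/
theorem kp_rec {g κ : ℝ} (hg : g < gst) (hκ0 : 0 < κ) (hκ1 : κ < 1) :
    ∀ᶠ d : ℕ in atTop, 4 ≤ d ∧ ∀ k q : ℕ, q ≤ k → (1 - κ) * pc d * q ≤ g * Real.log 2 * d →
      kp d k ≤ (k.choose q : ℝ) * kp d q * Real.exp (-((1 - κ) * pc d * q * (k - q : ℕ))) := by
  have hsmall : ∀ᶠ d : ℕ in atTop, pc d ≤ κ / 2 := by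
    have := tendsto_pc.eventually_lt_const (show 0 < κ / 2 by positivity)
    filter_upwards [this] with d hd using hd.le
  filter_upwards [sat_eventually (g := g) (κ := κ / 2) hg (by positivity), hsmall] with d h1 h2
  obtain ⟨h4, hS⟩ := h1
  refine ⟨h4, fun k q hq hL => ?_⟩
  have hne : NeZero d := ⟨by omega⟩
  have hsat := hS hne
  have hp := pc_pos h4
  set p := pc d with hpd
  have hp1 : p ≤ 1 := pc_le_one (by omega)
  set a : ℝ := (2 : ℝ) ^ (-(g * d)) with ha
  have ha0 : 0 < a := Real.rpow_pos_of_pos (by norm_num) _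
  set b : ℝ := Real.exp (-((1 - κ) * p * q)) with hb
  have hab : a ≤ b := by
    rw [ha, hb, Real.rpow_def_of_pos (by norm_num)]
    apply Real.exp_le_exp.2
    linarith
  have hb1 : b ≤ 1 := by
    rw [hb, Real.exp_le_one_iff]
    have : 0 ≤ (1 - κ) * p * q := by
      have : 0 ≤ 1 - κ := by linarith
      positivity
    linarith
  have hAv : ∀ t, (sig d).real (Av (sig d) (Rc (d := d)) q t) ≤ b := by
    intro t
    have h5 := Av_bound (μ := sig d) measurable_Rc (p := (1 - κ / 2) * p) (ε := κ / 2) (a := a)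
      (mul_pos (by linarith) hp) (by linarith) (by linarith) (by nlinarith) ha0 hsat q t
    refine h5.trans (max_le hab ?_)
    have h6 : 1 - (1 - κ / 2) * ((1 - κ / 2) * p) ≤ Real.exp (-((1 - κ) * p)) := by
      have h7 := Real.add_one_le_exp (-((1 - κ) * p))
      nlinarith [sq_nonneg κ]
    have h8 : 0 ≤ 1 - (1 - κ / 2) * ((1 - κ / 2) * p) := by
      have h9 : (1 - κ / 2) * (1 - κ / 2) ≤ 1 := by nlinarith
      nlinarith
    calc (1 - (1 - κ / 2) * ((1 - κ / 2) * p)) ^ q ≤ Real.exp (-((1 - κ) * p)) ^ q :=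
          pow_le_pow_left₀ h8 h6 q
      _ = b := by rw [hb, ← Real.exp_nat_mul]; congr 1; ring
  have h := recursion (μ := sig d) measurable_Rc hq (Real.exp_pos _).le hb1 hAv
  rw [← kp_eq, ← kp_eq] at h
  refine h.trans (le_of_eq ?_)
  rw [← Real.exp_nat_mul]
  congr 2
  ring

/-- **Mean field upper bound.** -/
theorem kp_upper {g κ : ℝ} (hg : g < gst) (hκ0 : 0 < κ) (hκ1 : κ < 1) :
    ∃ K : ℝ, 1 ≤ K ∧ ∀ᶠ d : ℕ in atTop, ∀ k : ℕ, pc d * k ≤ g * Real.log 2 * d →
      kp d k ≤ Real.exp (-((1 - κ) * pc d * k ^ 2 / 2) + K * k) := by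
  set η : ℝ := κ / 8 with hη
  have hη0 : 0 < η := by rw [hη]; positivity
  refine ⟨1 + Real.log (1 / η), ?_, ?_⟩
  · have : 0 ≤ Real.log (1 / η) := Real.log_nonneg (by rw [le_div_iff₀ hη0, hη]; linarith)
    linarith
  have hsmall : ∀ᶠ d : ℕ in atTop, pc d ≤ η := by
    filter_upwards [tendsto_pc.eventually_lt_const hη0] with d hd using hd.le
  filter_upwards [kp_rec (g := g) (κ := κ / 2) hg (by positivity) (by linarith), hsmall]
    with d h1 h2
  obtain ⟨h4, hrec⟩ := h1
  have hne : NeZero d := ⟨by omega⟩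
  have hp := pc_pos h4
  intro k hk
  set p := pc d with hpd
  have hck : (1 - κ / 2) * p * k ≤ g * Real.log 2 * d := by
    refine le_trans ?_ hk
    apply mul_le_mul_of_nonneg_right _ (Nat.cast_nonneg k)
    exact mul_le_of_le_one_left hp.le (by linarith)
  have h := stage_num (P := kp d) (kp_nonneg d) (kp_le_one d) (c := (1 - κ / 2) * p) (η := η)
    (Lg := g * Real.log 2 * d) (mul_pos (by linarith) hp) hη0 (by rw [hη]; linarith)
    ((mul_le_of_le_one_left hp.le (by linarith)).trans h2) hrec k hck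
  refine h.trans (Real.exp_le_exp.2 ?_)
  have h5 : (1 - κ) * p * k ^ 2 / 2 ≤ (1 - 2 * η) * ((1 - κ / 2) * p) * k ^ 2 / 2 := by
    have h6 : 1 - κ ≤ (1 - 2 * η) * (1 - κ / 2) := by rw [hη]; nlinarith
    have h7 : 0 ≤ p * (k : ℝ) ^ 2 / 2 := by positivity
    calc (1 - κ) * p * k ^ 2 / 2 = (1 - κ) * (p * k ^ 2 / 2) := by ring
      _ ≤ (1 - 2 * η) * (1 - κ / 2) * (p * k ^ 2 / 2) := mul_le_mul_of_nonneg_right h6 h7
      _ = _ := by ring
  linarith

end Pool.Agent.Helper63.RKS
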