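import Pool.Agent.Helper63.RKS.TriG
import Pool.Agent.Helper63.RKS.Pk

/-!
Random candidates: the lower bound `(1 - ε) log (n p) / p` for the largest kissing subset.
-/

set_option autoImplicit false

open MeasureTheory Set Metric ProbabilityTheory Filter Topology
open scoped ENNReal RealInnerProductSpace
open Pool.Agent.Helper47.KP

namespace Pool.Agent.Helper63.RKS

open Pool.Agent.Helper84.RK Pool.Agent.Helper49.EJ

/-- the end `s*` of the range -/
noncomputable def sT : ℝ := Real.logb 2 (2 / Real.sqrt 3) + gst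

lemma cc_35 : cc (3 / 5) = Real.logb 2 (5 / 4) := by
  unfold cc
  have h : (1 : ℝ) - (3 / 5) ^ 2 = ((5 / 4) ^ 2)⁻¹ := by norm_num
  rw [h, Real.logb_inv, Real.logb_pow]
  push_cast
  ring

lemma sT_eq : sT = Real.logb 2 (2 + Real.sqrt 3) / Real.sqrt 3 - Real.logb 2 3 / 2 :=
  threshold_eq

lemma sT_lt_num : sT < 31 / 100 := by
  rw [sT_eq]
  have hs1 : 173 / 100 < Real.sqrt 3 := by
    rw [Real.lt_sqrt (by norm_num)]; norm_num
  have hs2 : Real.sqrt 3 < 17321 / 10000 := by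
    rw [Real.sqrt_lt' (by norm_num)]; norm_num
  have h1 : Real.logb 2 (2 + Real.sqrt 3) < 19 / 10 := by
    rw [Real.logb_lt_iff_lt_rpow (by norm_num) (by positivity)]
    have h2 : (37321 / 10000 : ℝ) ^ (10 : ℕ) < ((2 : ℝ) ^ (19 / 10 : ℝ)) ^ (10 : ℕ) := by
      rw [← Real.rpow_natCast ((2 : ℝ) ^ (19 / 10 : ℝ)), ← Real.rpow_mul (by norm_num)]
      norm_num
    have h4 := lt_of_pow_lt_pow_left₀ 10 (by positivity) h2
    linarith
  have h2 : Real.logb 2 (2 + Real.sqrt 3) / Real.sqrt 3 < 110 / 100 := by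
    rw [div_lt_iff₀ (by linarith)]
    linarith
  have h3 : (158 / 100 : ℝ) < Real.logb 2 3 := by
    rw [Real.lt_logb_iff_rpow_lt (by norm_num) (by norm_num)]
    have h4 : ((2 : ℝ) ^ (158 / 100 : ℝ)) ^ (50 : ℕ) < (3 : ℝ) ^ (50 : ℕ) := by
      rw [← Real.rpow_natCast ((2 : ℝ) ^ (158 / 100 : ℝ)), ← Real.rpow_mul (by norm_num)]
      norm_num
    exact lt_of_pow_lt_pow_left₀ 50 (by positivity) h4
  linarith

lemma sT_lt_one : sT < 1 := by have := sT_lt_num; linarith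

lemma sT_lt : sT < cc (3 / 5) := by
  rw [cc_35]
  refine sT_lt_num.trans ?_
  rw [Real.lt_logb_iff_rpow_lt (by norm_num) (by norm_num)]
  have h4 : ((2 : ℝ) ^ (31 / 100 : ℝ)) ^ (100 : ℕ) < (5 / 4 : ℝ) ^ (100 : ℕ) := by
    rw [← Real.rpow_natCast ((2 : ℝ) ^ (31 / 100 : ℝ)), ← Real.rpow_mul (by norm_num)]
    norm_num
  exact lt_of_pow_lt_pow_left₀ 100 (by positivity) h4

lemma lin_le_rpow (C : ℝ) {η : ℝ} (hη : 0 < η) :
    ∀ᶠ d : ℕ in atTop, C * d + 1 ≤ (2 : ℝ) ^ (η * d) := by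
  have h2 : Tendsto (fun d : ℕ => (d : ℝ) * ((1 / 2 : ℝ) ^ η) ^ d) atTop (𝓝 0) := by
    have := tendsto_self_mul_const_pow_of_lt_one (r := (1 / 2 : ℝ) ^ η) (by positivity)
      (Real.rpow_lt_one (by norm_num) (by norm_num) hη)
    exact this
  have h3 : (0 : ℝ) < 1 / (|C| + 1) := by positivity
  filter_upwards [h2.eventually (gt_mem_nhds h3), eventually_ge_atTop 1] with d hd hd1
  have hd1' : (1 : ℝ) ≤ d := by exact_mod_cast hd1
  have e1 : ((1 / 2 : ℝ) ^ η) ^ d = ((2 : ℝ) ^ (η * (d : ℝ)))⁻¹ := by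
    rw [← Real.rpow_natCast, ← Real.rpow_mul (by norm_num), one_div, Real.inv_rpow (by norm_num)]
  have hp : (0 : ℝ) < 2 ^ (η * (d : ℝ)) := by positivity
  rw [e1, ← div_eq_mul_inv, div_lt_div_iff₀ hp (by positivity)] at hd
  have h4 : C * d ≤ |C| * d := mul_le_mul_of_nonneg_right (le_abs_self C) (by linarith)
  nlinarith

/-- the measure of the cap from below -/
lemma pc_lower {η : ℝ} (hη : 0 < η) : ∀ᶠ d : ℕ in atTop,
    (2 : ℝ) ^ (-((Real.logb 2 (2 / Real.sqrt 3) + η) * d)) ≤ pc d := by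
  obtain ⟨d₀, -, h⟩ := cap_exp (s := 1 / 2) (by norm_num) (by norm_num) hη
  filter_upwards [eventually_ge_atTop d₀] with d hd
  have := (h d hd).1
  rwa [pc_eq_real, cc_half] at this

/-- `log (n p)` tends to infinity linearly -/
lemma log_np {s₁ : ℝ} (h1 : Real.logb 2 (2 / Real.sqrt 3) < s₁) : ∃ c : ℝ, 0 < c ∧
    ∀ᶠ d : ℕ in atTop, ∀ n : ℝ, (2 : ℝ) ^ (s₁ * d) ≤ n → (2 : ℝ) ^ (c * d) ≤ n * pc d ∧
      c * Real.log 2 * d ≤ Real.log (n * pc d) := by
  set s0 := Real.logb 2 (2 / Real.sqrt 3) with hs0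
  refine ⟨(s₁ - s0) / 2, by linarith, ?_⟩
  filter_upwards [pc_lower (η := (s₁ - s0) / 2) (by linarith)] with d hd n hn
  have h2 : (2 : ℝ) ^ ((s₁ - s0) / 2 * d) ≤ n * pc d := by
    calc (2 : ℝ) ^ ((s₁ - s0) / 2 * d) = (2 : ℝ) ^ (s₁ * d) *
          (2 : ℝ) ^ (-((s0 + (s₁ - s0) / 2) * d)) := by
          rw [← Real.rpow_add (by norm_num)]; congr 1; ring
      _ ≤ n * pc d := mul_le_mul hn hd (by positivity) (le_trans (by positivity) hn)
  refine ⟨h2, ?_⟩
  have h3 := Real.log_le_log (by positivity) h2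
  rw [Real.log_rpow (by norm_num)] at h3
  linarith

/-- the probability that the points are not good is exponentially small -/
lemma good_small {s₁ s₂ : ℝ} (h1 : Real.logb 2 (2 / Real.sqrt 3) < s₁) (h2 : s₂ < sT) {ε : ℝ}
    (hε : 0 < ε) : ∃ K : ℕ, ∃ δ : ℝ, 0 < δ ∧ ∀ᶠ d : ℕ in atTop, 4 ≤ d ∧ ∀ n : ℕ,
      (2 : ℝ) ^ (s₁ * d) ≤ n → (n : ℝ) ≤ 2 ^ (s₂ * d) →
      (Measure.pi fun _ : Fin n => sig d).real
        {x | ¬ ∃ M : Finset (Fin n), Good3 x ε (pc d) K M} ≤ (2 : ℝ) ^ (-(δ * d)) := by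
  obtain ⟨c, hc, hcev⟩ := log_np h1
  set η : ℝ := (cc (3 / 5) - s₂) / 2 with hη
  have hη0 : 0 < η := by rw [hη]; have := sT_lt; linarith
  set K : ℕ := ⌈(3 * |s₂| + 1) / η⌉₊ with hK
  have hKη : 3 * |s₂| + 1 ≤ K * η := by
    have h3 : (3 * |s₂| + 1) / η ≤ K := Nat.le_ceil _
    rwa [div_le_iff₀ hη0] at h3
  obtain ⟨d₀, hd₀, hcap⟩ := cap_exp (s := 3 / 5) (by norm_num) (by norm_num) hη0
  set δ : ℝ := min (c / 2) (1 / 2) with hδ
  have hδ0 : 0 < δ := by rw [hδ]; positivity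
  have hδ1 : δ ≤ c / 2 := min_le_left _ _
  have hδ2 : δ ≤ 1 / 2 := min_le_right _ _
  refine ⟨K, δ, hδ0, ?_⟩
  have hev1 := const_le_rpow (C := 2 / ε ^ 3) (η := c / 2) (by positivity)
  have hev2 := const_le_rpow (C := 2) (η := 1 / 2) (by norm_num)
  filter_upwards [hcev, hev1, hev2, eventually_ge_atTop d₀, eventually_ge_atTop 4]
    with d hnp hC hC2 hdd hd4
  refine ⟨hd4, fun n hn1 hn2 => ?_⟩
  have : NeZero d := ⟨by omega⟩
  have hd0 : (0 : ℝ) ≤ d := Nat.cast_nonneg d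
  have hn0 : (0 : ℝ) < n := lt_of_lt_of_le (by positivity) hn1
  have hn : 1 ≤ n := by exact_mod_cast hn0
  have hp := pc_pos hd4
  have hg := good3_prob (d := d) (by omega) hn (V := pc d) (pc_eq_real d).symm hp hε K
  refine hg.trans ?_
  have ha : 1 / (ε ^ 3 * n * pc d) ≤ (2 : ℝ) ^ (-(δ * d)) / 2 := by
    obtain ⟨h3, -⟩ := hnp n hn1
    rw [div_le_iff₀ (by positivity)]
    have h4 : (2 : ℝ) ^ (c * d) = 2 ^ (c / 2 * d) * 2 ^ (c / 2 * d) := by
      rw [← Real.rpow_add (by norm_num)]; congr 1; ring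
    have h5 : (2 : ℝ) ^ (-(c / 2 * d)) ≤ 2 ^ (-(δ * d)) := by
      apply Real.rpow_le_rpow_of_exponent_le (by norm_num)
      nlinarith
    have h6 : (2 : ℝ) ^ (-(c / 2 * d)) * 2 ^ (c / 2 * d) = 1 := by
      rw [← Real.rpow_add (by norm_num)]; simp
    have h7 : 2 ≤ ε ^ 3 * (2 : ℝ) ^ (c / 2 * d) := by
      rw [div_le_iff₀ (by positivity)] at hC
      linarith
    calc (1 : ℝ) = (2 : ℝ) ^ (-(c / 2 * d)) * 2 ^ (c / 2 * d) := h6.symm
      _ ≤ (2 : ℝ) ^ (-(δ * d)) * 2 ^ (c / 2 * d) :=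
          mul_le_mul_of_nonneg_right h5 (by positivity)
      _ = (2 : ℝ) ^ (-(δ * d)) / 2 * (2 * 2 ^ (c / 2 * d)) := by ring
      _ ≤ (2 : ℝ) ^ (-(δ * d)) / 2 * ((ε ^ 3 * 2 ^ (c / 2 * d)) * 2 ^ (c / 2 * d)) := by
          gcongr
      _ = (2 : ℝ) ^ (-(δ * d)) / 2 * (ε ^ 3 * 2 ^ (c * d)) := by rw [h4]; ring
      _ ≤ (2 : ℝ) ^ (-(δ * d)) / 2 * (ε ^ 3 * (n * pc d)) := by gcongr
      _ = _ := by ring
  have hb : (n : ℝ) ^ (K + 3) * (den d).real (Ioi (3 / 5)) ^ K ≤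
      (2 : ℝ) ^ (-(δ * d)) / 2 := by
    have h3 := (hcap d hdd).2
    have h4 : (n : ℝ) ^ (K + 3) ≤ (2 : ℝ) ^ (s₂ * d * (K + 3)) := by
      rw [Real.rpow_mul (by norm_num)]
      have : ((K : ℝ) + 3) = ((K + 3 : ℕ) : ℝ) := by push_cast; ring
      rw [this, Real.rpow_natCast]
      exact pow_le_pow_left₀ hn0.le hn2 _
    have h5 : (den d).real (Ioi (3 / 5)) ^ K ≤
        (2 : ℝ) ^ (-((cc (3 / 5) - η) * d) * K) := by
      rw [Real.rpow_mul (by norm_num), Real.rpow_natCast]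
      exact pow_le_pow_left₀ measureReal_nonneg h3 _
    have h6 : (n : ℝ) ^ (K + 3) * (den d).real (Ioi (3 / 5)) ^ K ≤
        (2 : ℝ) ^ (-(d : ℝ)) := by
      refine (mul_le_mul h4 h5 (by positivity) (by positivity)).trans ?_
      rw [← Real.rpow_add (by norm_num)]
      apply Real.rpow_le_rpow_of_exponent_le (by norm_num)
      have h7 : s₂ ≤ |s₂| := le_abs_self _
      have h8 : cc (3 / 5) - η = s₂ + η := by
        rw [hη]; ring
      rw [h8]
      have h9 : s₂ * d * (K + 3) + -((s₂ + η) * d) * K = (3 * s₂ - K * η) * d := by ring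
      rw [h9]
      nlinarith
    refine h6.trans ?_
    have h7 : (2 : ℝ) ^ (-(d : ℝ)) * 2 ^ (1 / 2 * (d : ℝ)) = 2 ^ (-(1 / 2 * (d : ℝ))) := by
      rw [← Real.rpow_add (by norm_num)]; congr 1; ring
    have h8 : (2 : ℝ) ^ (-(1 / 2 * (d : ℝ))) ≤ 2 ^ (-(δ * d)) := by
      apply Real.rpow_le_rpow_of_exponent_le (by norm_num)
      nlinarith
    have h9 : (2 : ℝ) ^ (-(d : ℝ)) * 2 ≤ 2 ^ (-(1 / 2 * (d : ℝ))) := by
      rw [← h7]
      exact mul_le_mul_of_nonneg_left hC2 (by positivity)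
    linarith
  linarith

open Classical in
/-- **Lower bound for the largest kissing subset of random candidates.** -/
theorem largest_lower {s₁ s₂ : ℝ} (h1 : Real.logb 2 (2 / Real.sqrt 3) < s₁) (h2 : s₂ < sT)
    {ε : ℝ} (hε : 0 < ε) (hε1 : ε < 1) : ∃ δ : ℝ, 0 < δ ∧ ∀ᶠ d : ℕ in atTop, 4 ≤ d ∧ ∀ n : ℕ,
      (2 : ℝ) ^ (s₁ * d) ≤ n → (n : ℝ) ≤ 2 ^ (s₂ * d) →
      (Measure.pi fun _ : Fin n => sig d).real
        {x | ¬ ∃ I : Finset (Fin n), Pool.Agent.Helper84.RK.Kis x I ∧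
          (1 - ε) * Real.log (n * pc d) / pc d ≤ I.card} ≤ (2 : ℝ) ^ (-(δ * d)) := by
  set e : ℝ := ε / 8 with he
  have he0 : 0 < e := by rw [he]; positivity
  have he1 : e < 1 / 8 := by rw [he]; linarith
  obtain ⟨K, δ, hδ, hgood⟩ := good_small h1 h2 he0
  obtain ⟨c, hc, hcev⟩ := log_np h1
  have hK0 : (0 : ℝ) ≤ K := Nat.cast_nonneg K
  set B : ℝ := 2 * K + 4 with hB
  have hB0 : 0 < B := by rw [hB]; positivity
  -- the fugacity is `c₁ / Lr`
  set c₁ : ℝ := min (Real.exp (-1)) (min (e / 2) ((e / (4 * B)) ^ 2)) with hc1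
  have hc10 : 0 < c₁ := by
    rw [hc1]; exact lt_min (Real.exp_pos _) (lt_min (by positivity) (by positivity))
  have hc1a : c₁ ≤ Real.exp (-1) := min_le_left _ _
  have hc1b : c₁ ≤ e / 2 := (min_le_right _ _).trans (min_le_left _ _)
  have hc1c : c₁ ≤ (e / (4 * B)) ^ 2 := (min_le_right _ _).trans (min_le_right _ _)
  set C : ℝ := Real.log (e * c₁ / 2) with hC
  refine ⟨δ, hδ, ?_⟩
  have hcl : 0 < c * Real.log 2 := mul_pos hc (Real.log_pos (by norm_num))
  have htop : Tendsto (fun d : ℕ => c * Real.log 2 * (d : ℝ)) atTop atTop :=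
    (tendsto_natCast_atTop_atTop (R := ℝ)).const_mul_atTop hcl
  -- `log (1 + L) ≤ (e/2) L` for large `L`
  obtain ⟨L₁, hL₁⟩ : ∃ L₁ : ℝ, ∀ L : ℝ, L₁ ≤ L → Real.log (1 + L) ≤ e / 2 * L := by
    have h3 : Tendsto (fun x : ℝ => Real.log x / x) atTop (𝓝 0) := by
      have := Real.isLittleO_log_id_atTop
      rw [Asymptotics.isLittleO_iff_tendsto'] at this
      · exact this
      · filter_upwards [eventually_gt_atTop 0] with x hx h0
        exact absurd h0 hx.ne'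
    obtain ⟨x₁, hx₁⟩ := eventually_atTop.1 (h3.eventually (gt_mem_nhds
      (show (0 : ℝ) < e / 4 by positivity)))
    refine ⟨max x₁ 1, fun L hL => ?_⟩
    have hL1 : 1 ≤ L := (le_max_right _ _).trans hL
    have h4 := hx₁ (1 + L) (by have := (le_max_left _ _).trans hL; linarith)
    rw [div_lt_iff₀ (by linarith)] at h4
    nlinarith
  filter_upwards [hgood, hcev, htop.eventually_ge_atTop ((|C| + 1) / (e / 2)),
    htop.eventually_ge_atTop L₁] with d hg hnp hbig hbig2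
  obtain ⟨hd4, hg⟩ := hg
  refine ⟨hd4, fun n hn1 hn2 => ?_⟩
  have : NeZero d := ⟨by omega⟩
  have hp := pc_pos hd4
  have hn0 : (0 : ℝ) < n := lt_of_lt_of_le (by positivity) hn1
  refine le_trans (measureReal_mono ?_ (measure_ne_top _ _)) (hg n hn1 hn2)
  intro x hx hM
  apply hx
  obtain ⟨M, hM1, hM2, hM3⟩ := hM
  obtain ⟨-, hlog⟩ := hnp n hn1
  set p := pc d with hpd
  set L := Real.log (n * p) with hL
  have hLe : |C| + 1 ≤ e / 2 * L := by
    have h3 := hbig.trans hlog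
    rw [div_le_iff₀ (by positivity)] at h3
    linarith
  have hL0 : 0 < L := by
    have : 0 < e / 2 * L := by have := abs_nonneg C; linarith
    exact (mul_pos_iff_of_pos_left (by positivity)).1 this
  have hlogL : Real.log (1 + L) ≤ e / 2 * L := hL₁ L (hbig2.trans hlog)
  set lam : ℝ := c₁ / (1 + L) with hlam
  have hl0 : 0 < lam := by rw [hlam]; positivity
  have hlc : lam ≤ c₁ := by
    rw [hlam, div_le_iff₀ (by positivity)]
    nlinarith
  have hcomm : ∀ a b, Ad x a b → Ad x b a := fun a b h => ⟨h.1.symm, by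
    rw [real_inner_comm]; exact h.2⟩
  have hΔ : 0 < (1 + e) * n * p := by positivity
  have hκ : lam + 2 * B * Real.sqrt lam * Real.sqrt (1 + L) ≤ e := by
    have h3 : Real.sqrt lam * Real.sqrt (1 + L) = Real.sqrt c₁ := by
      rw [← Real.sqrt_mul hl0.le, hlam, div_mul_cancel₀ _ (by positivity)]
    have h4 : Real.sqrt c₁ ≤ e / (4 * B) := by
      rw [Real.sqrt_le_left (by positivity)]
      exact hc1c
    have h5 : 2 * B * Real.sqrt c₁ ≤ e / 2 := by
      calc 2 * B * Real.sqrt c₁ ≤ 2 * B * (e / (4 * B)) :=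
            mul_le_mul_of_nonneg_left h4 (by positivity)
        _ = e / 2 := by field_simp; ring
    rw [mul_assoc, h3]
    linarith
  have hloc : ∀ v ∈ M, ∀ X ⊆ Nb (Ad x) M v,
      (1 - e) * (Zf (Ad x) X lam * min (Real.log (Zf (Ad x) X lam)) (1 + L)) ≤
        Nf (Ad x) X lam := fun v hv X hX =>
    loc_ge (R := Ad x) hcomm (fun a h => h.1 rfl) hl0 le_rfl hB0.le (hM3 v hv X hX) (by linarith)
      hκ (by linarith)
  have h3 : Real.log (e * lam * ((1 + e) * n * p) / 2) = C + Real.log (1 + e) + L -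
      Real.log (1 + L) := by
    rw [hC, hL, ← Real.log_mul (by positivity) (by positivity),
      ← Real.log_mul (by positivity) (by positivity), ← hL, ← Real.log_div (by positivity)
      (by positivity), hlam]
    congr 1; ring
  have h4' : Real.log (1 + e) ≤ e := by
    have := Real.log_le_sub_one_of_pos (show 0 < 1 + e by linarith); linarith
  have hCneg : C + e ≤ 0 := by
    have h5 : e * c₁ / 2 ≤ Real.exp (-1) := by
      calc e * c₁ / 2 ≤ 1 * Real.exp (-1) / 1 := by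
            apply div_le_div₀ (by positivity) _ one_pos (by norm_num)
            exact mul_le_mul (by linarith) hc1a hc10.le zero_le_one
        _ = Real.exp (-1) := by ring
    have h6 := Real.log_le_log (by positivity) h5
    rw [Real.log_exp, ← hC] at h6
    linarith
  have hLr : 1 + Real.log (e * lam * ((1 + e) * n * p) / 2) ≤ 1 + L := by
    rw [h3]
    have : 0 ≤ Real.log (1 + L) := Real.log_nonneg (by linarith)
    linarith
  obtain ⟨W, hW, hWc⟩ := exists_largeL (R := Ad x) hcomm (fun a h => h.1 rfl) (M := M)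
    (κ := e) (L := 1 + L) (lam := lam) (η := e) (Δ := (1 + e) * n * p) he0.le (by linarith) hl0
    (hlc.trans hc1a) hloc he0 hΔ hLr hM2
  refine ⟨W, ?_, ?_⟩
  · intro i hi j hj hij
    have h3 := (mem_Ind.1 hW).2 i hi j hj
    by_contra hcon
    exact h3 ⟨hij, not_le.1 hcon⟩
  · have h4 : 0 ≤ Real.log (1 + e) := Real.log_nonneg (by linarith)
    have h5 : (1 - e) * L ≤ 1 + Real.log (e * lam * ((1 + e) * n * p) / 2) := by
      rw [h3]
      have := neg_abs_le C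
      linarith
    have h6 : ((1 - e) * n) * ((1 - e) * ((1 - e) * L)) ≤
        M.card * ((1 - e) * (1 + Real.log (e * lam * ((1 + e) * n * p) / 2))) := by
      apply mul_le_mul hM1 _ (by have : 0 ≤ 1 - e := by linarith
                                 positivity) (Nat.cast_nonneg _)
      exact mul_le_mul_of_nonneg_left h5 (by linarith)
    have h7 := h6.trans hWc
    rw [div_le_iff₀ hp]
    have h8 : (1 - ε) * ((1 + e) * (1 + e)) ≤ (1 - e) ^ 3 := by
      have : ε = 8 * e := by rw [he]; ring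
      rw [this]
      nlinarith [sq_nonneg e, mul_pos he0 he0, mul_pos (mul_pos he0 he0) he0]
    have h9 : ((1 + e) * (1 + e) * n) * ((1 - ε) * L) ≤ ((1 + e) * (1 + e) * n) * (W.card * p) := by
      calc ((1 + e) * (1 + e) * n) * ((1 - ε) * L) = ((1 - ε) * ((1 + e) * (1 + e))) * (n * L) := by
            ring
        _ ≤ (1 - e) ^ 3 * (n * L) := mul_le_mul_of_nonneg_right h8 (by positivity)
        _ = ((1 - e) * n) * ((1 - e) * ((1 - e) * L)) := by ring
        _ ≤ (1 + e) * ((1 + e) * n * p) * W.card := h7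
        _ = _ := by ring
    exact le_of_mul_le_mul_left h9 (by positivity)

end Pool.Agent.Helper63.RKS
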