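import Pool.Agent.Helper63.RKS.Stage

/-!
The recursion for the probability that `k` independent random points have no conflict.
-/

set_option autoImplicit false

open MeasureTheory Set

namespace Pool.Agent.Helper63.RKS

open Pool.Agent.Helper49.EJ

variable {X : Type*} [MeasurableSpace X] {μ : Measure X} {R : X → X → Prop}

lemma measurable_key [SFinite μ] (hR : MeasurableSet {p : X × X | R p.1 p.2}) (j : ℕ) :
    Measurable (fun p : (ℕ → X) × X => key μ R j p.1 p.2) := by
  have hS : MeasurableSet {p : ((ℕ → X) × X) × X | p.2 ∈ Av μ R j p.1.1 ∧ R p.1.2 p.2} := by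
    apply MeasurableSet.inter
    · exact (show Measurable (fun p : ((ℕ → X) × X) × X => (p.1.1, p.2)) by fun_prop)
        (measurable_Av hR j)
    · exact (show Measurable (fun p : ((ℕ → X) × X) × X => (p.1.2, p.2)) by fun_prop) hR
  exact measurable_measure_prodMk_left hS

lemma measurable_Srt [SFinite μ] (hR : MeasurableSet {p : X × X | R p.1 p.2}) {k : ℕ} (q : ℕ)
    (r : ℕ → Fin k) : MeasurableSet {t : ℕ → X | Srt μ R q t r} := by
  have e : {t : ℕ → X | Srt μ R q t r} = ⋂ j : ℕ, ⋂ l : ℕ, {t : ℕ → X | j < l → l < q →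
      key μ R j t (t l) < key μ R j t (t j) ∨
        (key μ R j t (t l) = key μ R j t (t j) ∧ r j < r l)} := by
    ext t; simp [Srt]
  rw [e]
  refine MeasurableSet.iInter fun j => MeasurableSet.iInter fun l => ?_
  have hk : ∀ i : ℕ, Measurable (fun t : ℕ → X => key μ R j t (t i)) := fun i =>
    (measurable_key hR j).comp (measurable_id.prodMk (measurable_pi_apply i))
  by_cases hjl : j < l
  · by_cases hlq : l < q
    · by_cases hr : r j < r l
      · have e2 : {t : ℕ → X | j < l → l < q → key μ R j t (t l) < key μ R j t (t j) ∨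
            (key μ R j t (t l) = key μ R j t (t j) ∧ r j < r l)} =
            {t : ℕ → X | key μ R j t (t l) < key μ R j t (t j)} ∪
            {t : ℕ → X | key μ R j t (t l) = key μ R j t (t j)} := by
          ext t; simp [hjl, hlq, hr]
        rw [e2]
        exact (measurableSet_lt (hk l) (hk j)).union (measurableSet_eq_fun (hk l) (hk j))
      · have e2 : {t : ℕ → X | j < l → l < q → key μ R j t (t l) < key μ R j t (t j) ∨
            (key μ R j t (t l) = key μ R j t (t j) ∧ r j < r l)} =
            {t : ℕ → X | key μ R j t (t l) < key μ R j t (t j)} := by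
          ext t; simp [hjl, hlq, hr]
        rw [e2]
        exact measurableSet_lt (hk l) (hk j)
    · simp [hlq]
  · simp [hjl]

/-- the conditions on the selected points -/
def BT (μ : Measure X) (R : X → X → Prop) {k : ℕ} (q : ℕ) (t : ℕ → X) (r : ℕ → Fin k) : Prop :=
  Srt μ R q t r ∧ ∀ i < q, ∀ j < q, i ≠ j → ¬ R (t i) (t j)

lemma measurable_BT [SFinite μ] (hR : MeasurableSet {p : X × X | R p.1 p.2}) {k : ℕ} (q : ℕ)
    (r : ℕ → Fin k) : MeasurableSet {t : ℕ → X | BT μ R q t r} := by
  suffices h : MeasurableSet {t : ℕ → X | ∀ i < q, ∀ j < q, i ≠ j → ¬ R (t i) (t j)} from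
    (measurable_Srt hR q r).inter h
  have e : {t : ℕ → X | ∀ i < q, ∀ j < q, i ≠ j → ¬ R (t i) (t j)} =
      ⋂ i : ℕ, ⋂ j : ℕ, {t : ℕ → X | i < q → j < q → i ≠ j → ¬ R (t i) (t j)} := by
    ext t
    simp only [mem_ofPred_eq, mem_iInter]
    exact ⟨fun h i j hi hj => h i hi j hj, fun h i hi j hj => h i j hi hj⟩
  rw [e]
  refine MeasurableSet.iInter fun i => MeasurableSet.iInter fun j => ?_
  by_cases h : i < q ∧ j < q ∧ i ≠ j
  · have e2 : {t : ℕ → X | i < q → j < q → i ≠ j → ¬ R (t i) (t j)} =
        (fun t : ℕ → X => (t i, t j)) ⁻¹' {p : X × X | R p.1 p.2}ᶜ := by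
      ext t
      obtain ⟨h1, h2, h3⟩ := h
      simp [h1, h2, h3]
    rw [e2]
    exact ((measurable_pi_apply i).prodMk (measurable_pi_apply j)) hR.compl
  · have e2 : {t : ℕ → X | i < q → j < q → i ≠ j → ¬ R (t i) (t j)} = univ := by
      ext t
      simp only [mem_ofPred_eq, mem_univ, iff_true]
      intro h1 h2 h3
      exact absurd ⟨h1, h2, h3⟩ h
    rw [e2]
    exact MeasurableSet.univ

lemma BT_congr {k q : ℕ} {t s : ℕ → X} (r : ℕ → Fin k) (h : ∀ i < q, t i = s i)
    (ht : BT μ R q t r) : BT μ R q s r := by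
  refine ⟨fun j l hjl hl => ?_, fun i hi j hj hij => ?_⟩
  · have h1 := ht.1 j l hjl hl
    rw [key_congr (fun i hi => h i (by omega)), key_congr (fun i hi => h i (by omega)), h l hl,
      h j (by omega)] at h1
    exact h1
  · rw [← h i hi, ← h j hj]
    exact ht.2 i hi j hj hij

/-- the selected points are `x (σ 0), ..., x (σ (q-1))`, in this order, and have no conflict -/
def Base (μ : Measure X) (R : X → X → Prop) {k q : ℕ} [NeZero k] (σ : Fin q ↪ Fin k) :
    Set (Fin k → X) :=
  {x | BT μ R q (x ∘ ext σ) (ext σ)}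

lemma measurable_Base [SFinite μ] (hR : MeasurableSet {p : X × X | R p.1 p.2}) {k q : ℕ}
    [NeZero k] (σ : Fin q ↪ Fin k) : MeasurableSet (Base μ R σ) := by
  have h : Measurable (fun x : Fin k → X => x ∘ ext σ) :=
    measurable_pi_lambda _ fun l => measurable_pi_apply _
  exact h (measurable_BT hR q (ext σ))

lemma Ev_bound [IsProbabilityMeasure μ] (hR : MeasurableSet {p : X × X | R p.1 p.2})
    {k q : ℕ} [NeZero k] (σ : Fin q ↪ Fin k) {b : ENNReal}
    (hb : ∀ t, μ (Av μ R q t) ≤ b) (hb1 : b ≤ 1) :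
    (Measure.pi fun _ : Fin k => μ) (Base μ R σ ∩ Ev μ R σ) ≤
      b ^ (k - q) * (Measure.pi fun _ : Fin k => μ) (Base μ R σ) := by
  classical
  obtain ⟨x0⟩ : Nonempty X := by
    by_contra hne
    rw [not_nonempty_iff] at hne
    have h1 : μ univ = 0 := by rw [univ_eq_empty_iff.2 hne, measure_empty]
    rw [measure_univ] at h1
    exact one_ne_zero h1
  set τ : Fin q → Fin k := ⇑σ with hτ
  set P : Fin k → Prop := fun i => ∃ l, τ l = i with hP
  set tt : ({i // P i} → X) → ℕ → X := fun u l => if h : P (ext τ l) then u ⟨ext τ l, h⟩ else x0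
    with htt
  have htm : Measurable tt := by
    apply measurable_pi_lambda
    intro l
    by_cases h : P (ext τ l)
    · have : (fun u : {i // P i} → X => tt u l) = fun u => u ⟨ext τ l, h⟩ := by
        funext u; simp only [htt]; rw [dif_pos h]
      rw [this]
      exact measurable_pi_apply _
    · have : (fun u : {i // P i} → X => tt u l) = fun u => x0 := by
        funext u; simp only [htt]; rw [dif_neg h]
      rw [this]
      exact measurable_const
  set B : Set ({i // P i} → X) := {u | BT μ R q (tt u) (ext τ)} with hB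
  have hBm : MeasurableSet B := htm (measurable_BT hR q (ext τ))
  set G : Set (({i // P i} → X) × ({i // ¬ P i} → X)) :=
    {w | w.1 ∈ B ∧ ∀ i : {i // ¬ P i}, w.2 i ∈ Av μ R q (tt w.1)} with hG
  have hGm : MeasurableSet G := by
    have : G = (Prod.fst ⁻¹' B) ∩ ⋂ i : {i // ¬ P i},
        {w : ({i // P i} → X) × ({i // ¬ P i} → X) | w.2 i ∈ Av μ R q (tt w.1)} := by
      ext w; simp [hG]
    rw [this]
    refine (measurable_fst hBm).inter (MeasurableSet.iInter fun i => ?_)
    have h1 : Measurable (fun w : ({i // P i} → X) × ({i // ¬ P i} → X) => (tt w.1, w.2 i)) :=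
      (htm.comp measurable_fst).prodMk ((measurable_pi_apply i).comp measurable_snd)
    exact h1 (measurable_Av hR q)
  have hmp := measurePreserving_piEquivPiSubtypeProd (fun _ : Fin k => μ) P
  have htx : ∀ x : Fin k → X, ∀ l < q,
      (x ∘ ext τ) l = tt ((MeasurableEquiv.piEquivPiSubtypeProd (fun _ : Fin k => X) P) x).1 l := by
    intro x l hl
    have hPl : P (ext τ l) := ⟨⟨l, hl⟩, (ext_of_lt τ hl).symm⟩
    simp only [htt, Function.comp_apply]
    rw [dif_pos hPl]
    rfl
  have hsub : Base μ R σ ∩ Ev μ R σ ⊆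
      (MeasurableEquiv.piEquivPiSubtypeProd (fun _ : Fin k => X) P) ⁻¹' G := by
    rintro x ⟨hx1, hx⟩
    refine ⟨BT_congr _ (htx x) hx1, fun i => ?_⟩
    have h := hx i.1 fun l hl => i.2 ⟨l, hl⟩
    have e : Av μ R q (x ∘ ext τ) =
        Av μ R q (tt ((MeasurableEquiv.piEquivPiSubtypeProd (fun _ : Fin k => X) P) x).1) :=
      Av_congr (htx x)
    rw [e] at h
    exact h
  have hBase : (MeasurableEquiv.piEquivPiSubtypeProd (fun _ : Fin k => X) P) ⁻¹'
      (Prod.fst ⁻¹' B) ⊆ Base μ R σ := by
    intro x hx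
    exact BT_congr _ (fun l hl => (htx x l hl).symm) hx
  refine (measure_mono hsub).trans ?_
  rw [hmp.measure_preimage hGm.nullMeasurableSet, Measure.prod_apply hGm]
  have hcard : k - q ≤ Fintype.card {i // ¬ P i} := by
    have h1 : Fintype.card {i // P i} ≤ q := by
      have h2 : Fintype.card {i // P i} ≤ Fintype.card (Fin q) := by
        apply Fintype.card_le_of_surjective (fun l : Fin q => (⟨τ l, l, rfl⟩ : {i // P i}))
        rintro ⟨i, l, rfl⟩
        exact ⟨l, rfl⟩
      simpa using h2
    have h3 : Fintype.card {i // ¬ P i} = Fintype.card (Fin k) - Fintype.card {i // P i} :=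
      Fintype.card_subtype_compl P
    rw [h3, Fintype.card_fin]
    omega
  have hint : ∀ u : {i // P i} → X,
      (Measure.pi fun _ : {i // ¬ P i} => μ) (Prod.mk u ⁻¹' G) ≤
        B.indicator (fun _ => b ^ (k - q)) u := by
    intro u
    by_cases hu : u ∈ B
    · rw [indicator_of_mem hu]
      have e : Prod.mk u ⁻¹' G = Set.pi univ (fun _ : {i // ¬ P i} => Av μ R q (tt u)) := by
        ext v
        simp only [hG, mem_preimage, mem_ofPred_eq, hu, true_and, mem_univ_pi]
      rw [e, Measure.pi_pi, Finset.prod_const, Finset.card_univ]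
      calc μ (Av μ R q (tt u)) ^ Fintype.card {i // ¬ P i} ≤ b ^ Fintype.card {i // ¬ P i} := by
            gcongr; exact hb _
        _ ≤ b ^ (k - q) := pow_le_pow_right_of_le_one' hb1 hcard
    · rw [indicator_of_notMem hu]
      have e : Prod.mk u ⁻¹' G = ∅ := by
        ext v
        simp [hG, hu]
      rw [e, measure_empty]
  calc ∫⁻ u, (Measure.pi fun _ : {i // ¬ P i} => μ) (Prod.mk u ⁻¹' G)
        ∂(Measure.pi fun _ : {i // P i} => μ)
      ≤ ∫⁻ u, B.indicator (fun _ => b ^ (k - q)) u ∂(Measure.pi fun _ : {i // P i} => μ) :=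
        lintegral_mono hint
    _ = b ^ (k - q) * (Measure.pi fun _ : {i // P i} => μ) B := by
        rw [lintegral_indicator_const hBm]
    _ ≤ b ^ (k - q) * (Measure.pi fun _ : Fin k => μ) (Base μ R σ) := by
        gcongr
        have h1 : (Measure.pi fun _ : Fin k => μ)
            ((MeasurableEquiv.piEquivPiSubtypeProd (fun _ : Fin k => X) P) ⁻¹'
              (Prod.fst ⁻¹' B)) = (Measure.pi fun _ : {i // P i} => μ) B := by
          rw [hmp.measure_preimage (measurable_fst hBm).nullMeasurableSet]
          have h2 : (Prod.fst ⁻¹' B : Set (({i // P i} → X) × ({i // ¬ P i} → X))) =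
              B ×ˢ univ := by
            ext w; simp
          rw [h2, Measure.prod_prod, measure_univ, mul_one]
        rw [← h1]
        exact measure_mono hBase

/-- different orders of the same selected set exclude each other -/
lemma Base_disjoint {k q : ℕ} [NeZero k] {σ ρ : Fin q ↪ Fin k} (hne : σ ≠ ρ)
    (him : Finset.univ.map σ = Finset.univ.map ρ) : Disjoint (Base μ R σ) (Base μ R ρ) := by
  rw [Set.disjoint_left]
  intro x h1 h2
  apply hne
  -- the first difference
  have hall : ∀ n : ℕ, ∀ i < n, i < q → ext σ i = ext ρ i := by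
    intro n
    induction n with
    | zero => intro i hi; omega
    | succ n ih =>
      intro i hi hiq
      rcases Nat.lt_succ_iff_lt_or_eq.1 hi with hi | rfl
      · exact ih i hi hiq
      by_contra hcon
      have hinjσ : ∀ a < q, ∀ b < q, ext σ a = ext σ b → a = b := by
        intro a ha b hb hab
        rw [ext_of_lt σ ha, ext_of_lt σ hb] at hab
        simpa using σ.injective hab
      have hinjρ : ∀ a < q, ∀ b < q, ext ρ a = ext ρ b → a = b := by
        intro a ha b hb hab
        rw [ext_of_lt ρ ha, ext_of_lt ρ hb] at hab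
        simpa using ρ.injective hab
      -- `ext σ i = ext ρ l` with `l > i`
      have hex1 : ∃ l < q, ext ρ l = ext σ i := by
        have h3 : σ ⟨i, hiq⟩ ∈ Finset.univ.map ρ := by
          rw [← him]; simp
        obtain ⟨l, -, hl⟩ := Finset.mem_map.1 h3
        exact ⟨l, l.2, by rw [ext_of_lt ρ l.2, ext_of_lt σ hiq, ← hl]⟩
      have hex2 : ∃ l < q, ext σ l = ext ρ i := by
        have h3 : ρ ⟨i, hiq⟩ ∈ Finset.univ.map σ := by
          rw [him]; simp
        obtain ⟨l, -, hl⟩ := Finset.mem_map.1 h3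
        exact ⟨l, l.2, by rw [ext_of_lt σ l.2, ext_of_lt ρ hiq, ← hl]⟩
      obtain ⟨l, hlq, hl⟩ := hex1
      obtain ⟨m, hmq, hm⟩ := hex2
      have hil : i < l := by
        rcases lt_trichotomy i l with h | rfl | h
        · exact h
        · exact absurd hl.symm hcon
        · exfalso
          have h3 := ih l h hlq
          rw [hl] at h3
          have := hinjσ l hlq i hiq h3
          omega
      have him' : i < m := by
        rcases lt_trichotomy i m with h | rfl | h
        · exact h
        · exact absurd hm hcon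
        · exfalso
          have h3 := ih m h hmq
          rw [hm] at h3
          have := hinjρ i hiq m hmq h3
          omega
      have hc : ∀ a < i, (x ∘ ext σ) a = (x ∘ ext ρ) a := by
        intro a ha
        simp only [Function.comp_apply]
        rw [ih a ha (by omega)]
      have h3 := h1.1 i m him' hmq
      have h4 := h2.1 i l hil hlq
      simp only [Function.comp_apply] at h3 h4
      rw [key_congr hc, key_congr hc, hm] at h3
      rw [hl] at h4
      rcases h3 with h3 | ⟨h3, h5⟩ <;> rcases h4 with h4 | ⟨h4, h6⟩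
      · exact absurd (h3.trans h4) (lt_irrefl _)
      · rw [h4] at h3; exact absurd h3 (lt_irrefl _)
      · rw [h3] at h4; exact absurd h4 (lt_irrefl _)
      · exact absurd (h5.trans h6) (lt_irrefl _)
  ext i
  have h3 := hall (i + 1) i (by omega) i.2
  rw [ext_of_lt σ i.2, ext_of_lt ρ i.2] at h3
  exact congrArg Fin.val h3

/-- the independent tuples -/
def Indep (R : X → X → Prop) (k : ℕ) : Set (Fin k → X) := {x | ∀ i j, i ≠ j → ¬ R (x i) (x j)}

lemma measurable_Indep (hR : MeasurableSet {p : X × X | R p.1 p.2}) (k : ℕ) :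
    MeasurableSet (Indep R k) := by
  have : Indep R k = ⋂ i : Fin k, ⋂ j : Fin k, {x : Fin k → X | i ≠ j → ¬ R (x i) (x j)} := by
    ext x; simp [Indep]
  rw [this]
  refine MeasurableSet.iInter fun i => MeasurableSet.iInter fun j => ?_
  by_cases hij : i = j
  · subst hij
    simp
  · have e : {x : Fin k → X | i ≠ j → ¬ R (x i) (x j)} =
        (fun x : Fin k → X => (x i, x j)) ⁻¹' {p : X × X | R p.1 p.2}ᶜ := by
      ext x; simp [hij]
    rw [e]
    exact ((measurable_pi_apply i).prodMk (measurable_pi_apply j)) hR.compl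

lemma subset_iUnion {k : ℕ} [NeZero k] {q : ℕ} (hq : q ≤ k) :
    Indep R k ⊆ ⋃ σ : Fin q ↪ Fin k, Base μ R σ ∩ Ev μ R σ := by
  intro x hx
  obtain ⟨τ, hinj, hpick, hτ⟩ := exists_fp (μ := μ) x hx q hq (Nat.pos_of_neZero k)
  set σ : Fin q ↪ Fin k := ⟨fun l => τ l, fun a b hab => Fin.ext (hinj a a.2 b b.2 hab)⟩ with hσ
  have he : ∀ l < q, ext σ l = τ l := by
    intro l hl
    rw [ext_of_lt σ hl]
    rfl
  have hc : ∀ j ≤ q, ∀ i < j, (x ∘ ext σ) i = (x ∘ τ) i := by
    intro j hj i hi
    simp only [Function.comp_apply]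
    rw [he i (by omega)]
  refine mem_iUnion.2 ⟨σ, ⟨⟨?_, ?_⟩, ?_⟩⟩
  · intro j l hjl hl
    rw [key_congr (hc j (by omega)), key_congr (hc j (by omega))]
    simp only [Function.comp_apply]
    rw [he l hl, he j (by omega)]
    apply hpick j (by omega)
    intro m hm hcon
    have := hinj m (by omega) l hl hcon
    omega
  · intro i hi j hj hij
    simp only [Function.comp_apply]
    rw [he i hi, he j hj]
    exact hx _ _ fun h => hij (hinj i hi j hj h)
  · intro i hi
    rw [Av_congr (hc q le_rfl)]
    apply hτ i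
    intro l hl
    rw [← he l hl, ext_of_lt σ hl]
    exact hi ⟨l, hl⟩

/-- sum over the orders of one selected set -/
lemma sum_Base_le [IsProbabilityMeasure μ] (hR : MeasurableSet {p : X × X | R p.1 p.2})
    {k q : ℕ} [NeZero k] (T : Finset (Fin k)) (hT : T.card = q) :
    ∑ σ : Fin q ↪ Fin k with Finset.univ.map σ = T, (Measure.pi fun _ : Fin k => μ) (Base μ R σ) ≤
      (Measure.pi fun _ : Fin q => μ) (Indep R q) := by
  classical
  rw [← measure_biUnion_finset]
  · have hf := measurePreserving_comp μ (T.orderEmbOfFin hT) (T.orderEmbOfFin hT).injective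
    rw [← hf.measure_preimage (measurable_Indep hR q).nullMeasurableSet]
    apply measure_mono
    intro x hx
    simp only [mem_iUnion, Finset.mem_filter, Finset.mem_univ, true_and, exists_prop] at hx
    obtain ⟨σ, hσ, hx1⟩ := hx
    intro i j hij
    have hi : T.orderEmbOfFin hT i ∈ Finset.univ.map σ := by
      rw [hσ]; exact Finset.orderEmbOfFin_mem T hT i
    have hj : T.orderEmbOfFin hT j ∈ Finset.univ.map σ := by
      rw [hσ]; exact Finset.orderEmbOfFin_mem T hT j
    obtain ⟨a, -, ha⟩ := Finset.mem_map.1 hi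
    obtain ⟨b, -, hb⟩ := Finset.mem_map.1 hj
    have h1 := hx1.2 a a.2 b b.2 (fun h => hij (by
      have h2 : a = b := Fin.ext h
      rw [h2, hb] at ha
      exact ((T.orderEmbOfFin hT).injective ha).symm))
    simp only [Function.comp_apply, ext_of_lt σ a.2, ext_of_lt σ b.2, Fin.eta] at h1 ⊢
    rw [ha, hb] at h1
    exact h1
  · intro σ hσ ρ hρ hne
    apply Base_disjoint hne
    simp only [Finset.coe_filter, Finset.mem_univ, true_and, mem_ofPred_eq] at hσ hρ
    rw [hσ, hρ]
  · intro σ _
    exact measurable_Base hR σ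

/-- **The recursion.** -/
theorem recursion [IsProbabilityMeasure μ] (hR : MeasurableSet {p : X × X | R p.1 p.2})
    {k q : ℕ} (hq : q ≤ k) {b : ℝ} (hb0 : 0 ≤ b) (hb1 : b ≤ 1)
    (hb : ∀ t, μ.real (Av μ R q t) ≤ b) :
    (Measure.pi fun _ : Fin k => μ).real (Indep R k) ≤
      (k.choose q : ℝ) * (Measure.pi fun _ : Fin q => μ).real (Indep R q) * b ^ (k - q) := by
  classical
  rcases Nat.eq_zero_or_pos k with rfl | hk
  · have hq0 : q = 0 := by omega
    subst hq0
    simp
  have : NeZero k := ⟨by omega⟩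
  have hbE : ∀ t, μ (Av μ R q t) ≤ ENNReal.ofReal b := by
    intro t
    rw [← ENNReal.ofReal_toReal (measure_ne_top μ (Av μ R q t))]
    exact ENNReal.ofReal_le_ofReal (hb t)
  have hbE1 : ENNReal.ofReal b ≤ 1 := by
    rw [← ENNReal.ofReal_one]; exact ENNReal.ofReal_le_ofReal hb1
  set Pq := (Measure.pi fun _ : Fin q => μ) (Indep R q) with hPq
  have h1 : (Measure.pi fun _ : Fin k => μ) (Indep R k) ≤
      ENNReal.ofReal ((k.choose q : ℝ) * (Measure.pi fun _ : Fin q => μ).real (Indep R q) *
        b ^ (k - q)) := by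
    calc (Measure.pi fun _ : Fin k => μ) (Indep R k)
        ≤ (Measure.pi fun _ : Fin k => μ) (⋃ σ : Fin q ↪ Fin k, Base μ R σ ∩ Ev μ R σ) :=
          measure_mono (subset_iUnion hq)
      _ ≤ ∑ σ : Fin q ↪ Fin k, (Measure.pi fun _ : Fin k => μ) (Base μ R σ ∩ Ev μ R σ) :=
          measure_iUnion_fintype_le _ _
      _ ≤ ∑ σ : Fin q ↪ Fin k, ENNReal.ofReal b ^ (k - q) *
            (Measure.pi fun _ : Fin k => μ) (Base μ R σ) :=
          Finset.sum_le_sum fun σ _ => Ev_bound hR σ hbE hbE1
      _ = ENNReal.ofReal b ^ (k - q) * ∑ σ : Fin q ↪ Fin k,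
            (Measure.pi fun _ : Fin k => μ) (Base μ R σ) := by rw [Finset.mul_sum]
      _ = ENNReal.ofReal b ^ (k - q) * ∑ T ∈ Finset.powersetCard q (Finset.univ : Finset (Fin k)),
            ∑ σ : Fin q ↪ Fin k with Finset.univ.map σ = T,
              (Measure.pi fun _ : Fin k => μ) (Base μ R σ) := by
          rw [Finset.sum_fiberwise_of_maps_to]
          intro σ _
          rw [Finset.mem_powersetCard]
          exact ⟨Finset.subset_univ _, by rw [Finset.card_map, Finset.card_univ,
            Fintype.card_fin]⟩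
      _ ≤ ENNReal.ofReal b ^ (k - q) * ∑ T ∈ Finset.powersetCard q
            (Finset.univ : Finset (Fin k)), Pq := by
          gcongr with T hT
          exact sum_Base_le hR T (Finset.mem_powersetCard.1 hT).2
      _ = ENNReal.ofReal ((k.choose q : ℝ) * (Measure.pi fun _ : Fin q => μ).real (Indep R q) *
            b ^ (k - q)) := by
          rw [Finset.sum_const, Finset.card_powersetCard, Finset.card_univ, Fintype.card_fin,
            nsmul_eq_mul, ENNReal.ofReal_mul (by positivity), ENNReal.ofReal_mul (by positivity),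
            ENNReal.ofReal_pow hb0, ENNReal.ofReal_natCast, ofReal_measureReal]
          ring
  exact ENNReal.toReal_le_of_le_ofReal (by positivity) h1

end Pool.Agent.Helper63.RKS
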