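import Pool.Agent.Helper63.RKS.Ang
import Pool.Agent.Helper63.RKS.StageProb
import Pool.Agent.Helper49.EJ.Upper
import Pool.Agent.Helper84.RK.All
import Pool.Agent.Helper63.RKS.LowSph

/-!
Random candidates beyond `s*`: kissing configurations are codes of smaller angles.
-/

set_option autoImplicit false

open MeasureTheory Set Metric Filter Topology
open scoped RealInnerProductSpace ENNReal

namespace Pool.Agent.Helper63.RKS

open Pool.Agent.Helper47.KP Pool.Agent.Helper84.RK

lemma pA_le_one {d : ℕ} [NeZero d] (hd : 3 ≤ d) {α : ℝ} : pA α d ≤ 1 := by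
  obtain ⟨x⟩ := exists_point (d := d)
  rw [pA_eq, ← real_cap hd x measurableSet_Ioi]
  exact measureReal_le_one

/-- supersaturation, in exponents -/
lemma supersat_exp {α κ g : ℝ} (hα0 : 0 < α) (hα1 : α < 1) (hκ : 0 < κ)
    (hk : (1 + 2 * κ) ^ 2 * (1 - α ^ 2) < 1) (hg : 2 * g < gg κ - cc α) :
    ∃ d₀ : ℕ, 3 ≤ d₀ ∧ ∀ (d : ℕ) [NeZero d], d₀ ≤ d →
      Pool.Agent.Helper49.EJ.Supersat (sig d) (RA (d := d) α) (pA α d) ((2 : ℝ) ^ (-(g * d))) := by
  set E := (gg κ - cc α) / 2 with hE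
  set η := (E - g) / 2 with hη
  have hη0 : 0 < η := by rw [hη]; linarith
  obtain ⟨d₁, h13, h1⟩ := PP_pos hα0 hκ hk
  obtain ⟨d₂, h23, h2⟩ := nrm_exp hκ hη0
  obtain ⟨d₃, h33, h3⟩ := cap_exp hα0.le hα1 hη0
  obtain ⟨d₄, h4⟩ := eventually_atTop.1 (const_le_rpow (C := 2) hη0)
  refine ⟨max (max d₁ d₂) (max d₃ d₄), by omega, fun d _ hd => ?_⟩
  have hd0 : (0 : ℝ) ≤ d := Nat.cast_nonneg d
  have hp1 := (h3 d (by omega)).1
  rw [← pA_eq] at hp1
  have hp0 : 0 < pA α d := lt_of_lt_of_le (by positivity) hp1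
  have h4' := h4 d (by omega)
  refine supersatA (by omega) hp0 (κ := κ) (ε := (2 : ℝ) ^ (-((E - η) * d)))
    (fun j hj t ht => h1 d (by omega) j hj t ht) (by positivity) (fun j hj => ?_) ?_
  · refine (h2 d (by omega) j (by linarith)).trans ?_
    refine le_trans (le_of_eq ?_) (mul_le_mul_of_nonneg_left hp1 (by positivity))
    rw [← Real.rpow_natCast ((2 : ℝ) ^ (-((E - η) * d))), ← Real.rpow_mul (by norm_num),
      ← Real.rpow_add (by norm_num)]
    congr 1
    push_cast
    rw [hE]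
    ring
  · calc 2 * (2 : ℝ) ^ (-((E - η) * d)) ≤ 2 ^ (η * d) * (2 : ℝ) ^ (-((E - η) * d)) :=
          mul_le_mul_of_nonneg_right h4' (by positivity)
      _ = 2 ^ (-(g * d)) := by
          rw [← Real.rpow_add (by norm_num)]
          congr 1
          have : E = g + 2 * η := by rw [hη]; ring
          rw [this]; ring

/-- the upper bound for the kissing subsets of `n ≤ 2^(s d)` random candidates -/
lemma ang_upper {α κ s η : ℝ} (hα : 1 / 2 ≤ α) (hα1 : α < 1) (hκ : 0 < κ)
    (hk : (1 + 2 * κ) ^ 2 * (1 - α ^ 2) < 1) (hs : 2 * s < cc α + gg κ) (hη : 0 < η) :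
    ∃ d₀ : ℕ, 3 ≤ d₀ ∧ ∀ (d : ℕ) [NeZero d], d₀ ≤ d → ∀ n : ℕ, (n : ℝ) ≤ 2 ^ (s * d) →
      (Measure.pi fun _ : Fin n => sig d).real
        {x | ∃ I, Pool.Agent.Helper49.EJ.Kis x I ∧ (2 : ℝ) ^ ((cc α + η) * d) ≤ (I.card : ℝ)} ≤
        Real.exp (-(2 : ℝ) ^ (cc α * d)) := by
  set c := cc α with hc
  have hc0 : 0 ≤ c := cc_nonneg (by linarith) hα1
  have hL : 0 < Real.log 2 := Real.log_pos (by norm_num)
  have hL1 : Real.log 2 ≤ 1 := by have := Real.log_two_lt_d9; linarith
  rcases le_or_gt s c with hsc | hsc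
  · refine ⟨3, le_rfl, fun d _ hd n hn => ?_⟩
    have hd0 : (0 : ℝ) < d := by
      have : (3 : ℝ) ≤ d := by exact_mod_cast hd
      linarith
    have : {x : Fin n → Sph d | ∃ I, Pool.Agent.Helper49.EJ.Kis x I ∧
        (2 : ℝ) ^ ((c + η) * d) ≤ (I.card : ℝ)} = ∅ := by
      rw [Set.eq_empty_iff_forall_notMem]
      rintro x ⟨I, -, hI⟩
      have h1 : (I.card : ℝ) ≤ n := by
        have := Finset.card_le_univ I
        rw [Fintype.card_fin] at this
        exact_mod_cast this
      have h2 : (2 : ℝ) ^ (s * d) < 2 ^ ((c + η) * d) := by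
        apply Real.rpow_lt_rpow_of_exponent_lt (by norm_num)
        nlinarith
      linarith
    rw [this, measureReal_empty]
    exact (Real.exp_pos _).le
  · set E := (gg κ - c) / 2 with hE
    set g := (s - c + E) / 2 with hg
    have hgE : 2 * g < gg κ - c := by rw [hg, hE]; linarith
    have hgs : s - c < g := by rw [hg]; linarith
    have hg0 : 0 < g := by linarith
    set β := g - (s - c) with hβ
    have hβ0 : 0 < β := by rw [hβ]; linarith
    set e := η / 4 with he
    have he0 : 0 < e := by rw [he]; linarith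
    obtain ⟨d₁, h13, h1⟩ := supersat_exp (by linarith) hα1 hκ hk hgE
    obtain ⟨d₂, h23, h2⟩ := cap_exp (s := α) (by linarith) hα1 he0
    obtain ⟨d₃, h3⟩ := eventually_atTop.1 (lin_le_rpow g (show 0 < 2 * e by linarith))
    obtain ⟨d₄, h4⟩ := eventually_atTop.1 (lin_le_rpow (4 * g) he0)
    refine ⟨max (max d₁ d₂) (max (max d₃ d₄) (⌈4 / (β * Real.log 2)⌉₊)), by omega,
      fun d _ hd n hn => ?_⟩
    have hd3 : 3 ≤ d := by omega
    have hd0 : (0 : ℝ) < d := by
      have : (3 : ℝ) ≤ d := by exact_mod_cast hd3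
      linarith
    have hs1 := h1 d (by omega)
    obtain ⟨hp1, hp2⟩ := h2 d (by omega)
    rw [← pA_eq, ← hc] at hp1 hp2
    have h3' := h3 d (by omega)
    have h4' := h4 d (by omega)
    have h5' : 4 ≤ β * Real.log 2 * d := by
      have h6 : 4 / (β * Real.log 2) ≤ d :=
        (Nat.le_ceil _).trans (by exact_mod_cast (by omega : ⌈4 / (β * Real.log 2)⌉₊ ≤ d))
      rw [div_le_iff₀ (mul_pos hβ0 hL)] at h6
      linarith
    set p := pA α d with hp
    set a : ℝ := (2 : ℝ) ^ (-(g * d)) with ha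
    have ha0 : 0 < a := by positivity
    have ha1 : a ≤ 1 := Real.rpow_le_one_of_one_le_of_nonpos (by norm_num) (by
      have := mul_pos hg0 hd0; linarith)
    have hp0 : 0 < p := lt_of_lt_of_le (by positivity) hp1
    have hple : p ≤ 1 := by
      exact pA_le_one hd3
    set q : ℕ := ⌈4 * g * d / p⌉₊ with hq
    set k : ℕ := ⌈(2 : ℝ) ^ ((c + η) * d)⌉₊ with hk'
    -- `q` is small
    have hqu : (q : ℝ) ≤ 2 ^ ((c + 2 * e) * d) := by
      have h6 : (q : ℝ) ≤ 4 * g * d / p + 1 := by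
        have := Nat.ceil_lt_add_one (show 0 ≤ 4 * g * d / p by positivity)
        exact this.le
      have h7 : 4 * g * d / p ≤ 4 * g * d * 2 ^ ((c + e) * d) := by
        rw [div_le_iff₀ hp0]
        have h8 : 1 ≤ 2 ^ ((c + e) * d) * p := by
          have h9 : (2 : ℝ) ^ ((c + e) * d) * 2 ^ (-((c + e) * d)) = 1 := by
            rw [← Real.rpow_add (by norm_num), add_neg_cancel, Real.rpow_zero]
          rw [← h9]
          exact mul_le_mul_of_nonneg_left hp1 (by positivity)
        have h10 : 0 ≤ 4 * g * d := by positivity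
        nlinarith
      have h8 : (1 : ℝ) ≤ 2 ^ ((c + e) * d) := Real.one_le_rpow (by norm_num) (by positivity)
      calc (q : ℝ) ≤ 4 * g * d * 2 ^ ((c + e) * d) + 1 := by linarith
        _ ≤ (4 * g * d + 1) * 2 ^ ((c + e) * d) := by linarith
        _ ≤ 2 ^ (e * d) * 2 ^ ((c + e) * d) := mul_le_mul_of_nonneg_right h4' (by positivity)
        _ = 2 ^ ((c + 2 * e) * d) := by
            rw [← Real.rpow_add (by norm_num)]; congr 1; ring
    have hkl : (2 : ℝ) ^ ((c + 4 * e) * d) ≤ k := by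
      have h6 : c + 4 * e = c + η := by rw [he]; ring
      rw [h6]
      exact Nat.le_ceil _
    have hgq : g * d * q ≤ k := by
      calc g * d * q ≤ 2 ^ (2 * e * d) * 2 ^ ((c + 2 * e) * d) := by
            apply mul_le_mul _ hqu (Nat.cast_nonneg _) (by positivity)
            linarith
        _ = 2 ^ ((c + 4 * e) * d) := by
            rw [← Real.rpow_add (by norm_num)]; congr 1; ring
        _ ≤ k := hkl
    have hqk : q ≤ k := by
      have h6 : (q : ℝ) ≤ k := by
        refine hqu.trans (le_trans ?_ hkl)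
        apply Real.rpow_le_rpow_of_exponent_le (by norm_num)
        nlinarith
      exact_mod_cast h6
    have hkc : (2 : ℝ) ^ (c * d) ≤ k := by
      refine le_trans ?_ hkl
      apply Real.rpow_le_rpow_of_exponent_le (by norm_num)
      nlinarith
    have hk0 : (0 : ℝ) < k := lt_of_lt_of_le (by positivity) hkc
    -- the available sets are small
    have hAv : ∀ t, (sig d).real (Pool.Agent.Helper49.EJ.Av (sig d) (RA (d := d) α) q t) ≤ a := by
      intro t
      refine (Pool.Agent.Helper49.EJ.Av_bound (measurable_RA α) hp0 hple ha0 hs1 q t).trans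
        (max_le le_rfl ?_)
      have h6 : 1 - p / 4 ≤ Real.exp (-(p / 4)) := by
        have := Real.add_one_le_exp (-(p / 4)); linarith
      calc (1 - p / 4) ^ q ≤ Real.exp (-(p / 4)) ^ q := pow_le_pow_left₀ (by linarith) h6 q
        _ = Real.exp (-(q * p / 4)) := by
            rw [← Real.exp_nat_mul]; congr 1; ring
        _ ≤ Real.exp (-(g * d)) := by
            apply Real.exp_le_exp.2
            have h7 : 4 * g * d / p ≤ q := Nat.le_ceil _
            rw [div_le_iff₀ hp0] at h7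
            linarith
        _ ≤ a := by
            rw [ha, Real.rpow_def_of_pos (by norm_num)]
            apply Real.exp_le_exp.2
            have h7 : 0 < g * d := by positivity
            nlinarith
    have hP : (Measure.pi fun _ : Fin k => sig d).real (Pool.Agent.Helper49.EJ.Kiss d k) ≤
        2 ^ k * a ^ (k - q) := by
      have hsub : Pool.Agent.Helper49.EJ.Kiss d k ⊆ Indep (RA (d := d) α) k := by
        intro x hx i j hij h
        have h6 := hx i j hij
        unfold RA at h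
        linarith
      refine (measureReal_mono hsub (measure_ne_top _ _)).trans
        ((recursion (measurable_RA α) hqk ha0.le ha1 hAv).trans ?_)
      apply mul_le_mul_of_nonneg_right _ (by positivity)
      have h6 : (k.choose q : ℝ) ≤ 2 ^ k := by exact_mod_cast Nat.choose_le_two_pow k q
      calc (k.choose q : ℝ) * (Measure.pi fun _ : Fin q => sig d).real (Indep (RA (d := d) α) q)
          ≤ 2 ^ k * 1 := mul_le_mul h6 measureReal_le_one measureReal_nonneg (by positivity)
        _ = 2 ^ k := mul_one _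
    have hsub : {x : Fin n → Sph d | ∃ I, Pool.Agent.Helper49.EJ.Kis x I ∧
        (2 : ℝ) ^ ((c + η) * d) ≤ (I.card : ℝ)} ⊆
        {x | ∃ I, Pool.Agent.Helper49.EJ.Kis x I ∧ k ≤ I.card} := by
      rintro x ⟨I, hI, h⟩
      exact ⟨I, hI, Nat.ceil_le.2 h⟩
    refine (measureReal_mono hsub (measure_ne_top _ _)).trans
      (Pool.Agent.Helper49.EJ.union_bound.trans ?_)
    have hchoose : (n.choose k : ℝ) ≤ (Real.exp 1 * 2 ^ ((s - c) * d)) ^ k := by
      have h1 : (n.choose k : ℝ) ≤ (n : ℝ) ^ k / (k.factorial : ℝ) := Nat.choose_le_pow_div k n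
      have h2 : (k : ℝ) ^ k / (k.factorial : ℝ) ≤ Real.exp k :=
        Real.pow_div_factorial_le_exp (x := (k : ℝ)) hk0.le k
      have h3 : (n : ℝ) / k ≤ 2 ^ ((s - c) * d) := by
        rw [div_le_iff₀ hk0]
        calc (n : ℝ) ≤ 2 ^ (s * d) := hn
          _ = 2 ^ ((s - c) * d) * 2 ^ (c * d) := by
              rw [← Real.rpow_add (by norm_num)]; congr 1; ring
          _ ≤ 2 ^ ((s - c) * d) * k := mul_le_mul_of_nonneg_left hkc (by positivity)
      calc (n.choose k : ℝ) ≤ (n : ℝ) ^ k / (k.factorial : ℝ) := h1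
        _ = ((k : ℝ) ^ k / (k.factorial : ℝ)) * ((n : ℝ) / k) ^ k := by
            rw [div_pow]; field_simp
        _ ≤ Real.exp k * (2 ^ ((s - c) * d)) ^ k :=
            mul_le_mul h2 (pow_le_pow_left₀ (by positivity) h3 k) (by positivity)
              (Real.exp_pos _).le
        _ = (Real.exp 1 * 2 ^ ((s - c) * d)) ^ k := by
            rw [mul_pow, ← Real.exp_nat_mul, mul_one]
    calc (n.choose k : ℝ) * (Measure.pi fun _ : Fin k => sig d).real
          (Pool.Agent.Helper49.EJ.Kiss d k)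
        ≤ (Real.exp 1 * 2 ^ ((s - c) * d)) ^ k * (2 ^ k * a ^ (k - q)) :=
          mul_le_mul hchoose hP measureReal_nonneg (by positivity)
      _ ≤ Real.exp (-(2 : ℝ) ^ (c * d)) := by
          rw [← Real.log_le_log_iff (by positivity) (by positivity), Real.log_exp,
            Real.log_mul (by positivity) (by positivity), Real.log_mul (by positivity)
            (by positivity), Real.log_pow, Real.log_mul (by positivity) (by positivity),
            Real.log_exp, Real.log_rpow (by norm_num), Real.log_pow, Real.log_pow, ha,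
            Real.log_rpow (by norm_num), Nat.cast_sub hqk]
          have e1 : (k : ℝ) * (1 + (s - c) * d * Real.log 2) + (k * Real.log 2 +
              (k - q) * (-(g * d) * Real.log 2)) =
              k * (1 + Real.log 2 - β * Real.log 2 * d) + (g * d * q) * Real.log 2 := by
            rw [hβ]; ring
          rw [e1]
          have h6 : (g * d * q) * Real.log 2 ≤ k * Real.log 2 :=
            mul_le_mul_of_nonneg_right hgq hL.le
          have h7 : (k : ℝ) * (1 + Real.log 2 - β * Real.log 2 * d) + k * Real.log 2 ≤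
              k * (-1) := by
            rw [← mul_add]
            apply mul_le_mul_of_nonneg_left _ hk0.le
            linarith
          linarith

lemma continuousAt_gg {κ : ℝ} : ContinuousAt gg κ := by
  have h := Real.continuous_mul_log
  have e : gg = fun k => ((1 + k) * Real.log (1 + k) - k * Real.log k) / Real.log 2 := by
    funext k
    unfold gg Real.logb
    ring
  rw [e]
  apply Continuous.continuousAt
  apply Continuous.div_const
  exact (h.comp (continuous_const.add continuous_id)).sub h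

/-- **Random candidates at a general angle.** -/
theorem ang {σ s η : ℝ} (hσ0 : 0 < σ) (hσ : σ ≤ Real.sqrt 3 / 2)
    (hs : 2 * s < Real.logb 2 (1 / σ) + gg ((1 - σ) / (2 * σ))) (hη : 0 < η) :
    ∃ d₀ : ℕ, 3 ≤ d₀ ∧ ∀ (d : ℕ) [NeZero d], d₀ ≤ d → ∀ n : ℕ, (n : ℝ) ≤ 2 ^ (s * d) →
      (Measure.pi fun _ : Fin n => sig d).real
        {x | ∃ I, Pool.Agent.Helper49.EJ.Kis x I ∧
          (2 : ℝ) ^ ((Real.logb 2 (1 / σ) + η) * d) ≤ (I.card : ℝ)} ≤
        Real.exp (-(2 : ℝ) ^ (Real.logb 2 (1 / σ) * d)) := by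
  have h3 : Real.sqrt 3 < 2 := by
    rw [Real.sqrt_lt' (by norm_num)]; norm_num
  have hσ1 : σ < 1 := by linarith
  have hσ2 : σ ^ 2 ≤ 3 / 4 := by
    have h4 : σ ^ 2 ≤ (Real.sqrt 3 / 2) ^ 2 := pow_le_pow_left₀ hσ0.le hσ 2
    rw [div_pow, Real.sq_sqrt (by norm_num)] at h4
    linarith
  set α : ℝ := Real.sqrt (1 - σ ^ 2) with hα
  have hα2 : α ^ 2 = 1 - σ ^ 2 := Real.sq_sqrt (by nlinarith)
  have hα0 : 0 ≤ α := Real.sqrt_nonneg _
  have hαh : 1 / 2 ≤ α := by
    rw [hα, Real.le_sqrt (by norm_num) (by linarith)]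
    linarith
  have hα1 : α < 1 := by
    rw [hα, Real.sqrt_lt' one_pos]
    have : 0 < σ ^ 2 := by positivity
    linarith
  have hcc : cc α = Real.logb 2 (1 / σ) := by
    have h1 : Real.logb 2 (1 / σ) = -Real.logb 2 σ := by rw [one_div, Real.logb_inv]
    unfold cc
    rw [hα2, show (1 : ℝ) - (1 - σ ^ 2) = σ ^ 2 by ring, Real.logb_pow, h1]
    push_cast
    ring
  set κs : ℝ := (1 - σ) / (2 * σ) with hκs
  have hκs0 : 0 < κs := div_pos (by linarith) (by linarith)
  obtain ⟨κ, hκ0, hκ1, hκ2⟩ : ∃ κ : ℝ, 0 < κ ∧ κ < κs ∧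
      2 * s < Real.logb 2 (1 / σ) + gg κ := by
    have h1 := (continuousAt_gg (κ := κs)).eventually (lt_mem_nhds
      (show 2 * s - Real.logb 2 (1 / σ) < gg κs by linarith))
    obtain ⟨e, he, h2⟩ := Metric.eventually_nhds_iff.1 h1
    refine ⟨κs - min (e / 2) (κs / 2), ?_, ?_, ?_⟩
    · have : min (e / 2) (κs / 2) ≤ κs / 2 := min_le_right _ _
      linarith
    · have : 0 < min (e / 2) (κs / 2) := lt_min (by linarith) (by linarith)
      linarith
    · have h5 : 0 < min (e / 2) (κs / 2) := lt_min (by linarith) (by linarith)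
      have h6 : min (e / 2) (κs / 2) ≤ e / 2 := min_le_left _ _
      have h7 := h2 (y := κs - min (e / 2) (κs / 2)) (by
        rw [Real.dist_eq, show κs - min (e / 2) (κs / 2) - κs = -min (e / 2) (κs / 2) by ring,
          abs_neg, abs_of_pos h5]
        linarith)
      linarith
  have hk : (1 + 2 * κ) ^ 2 * (1 - α ^ 2) < 1 := by
    have h1 : (1 + 2 * κ) * σ < 1 := by
      have h2 : κ * (2 * σ) < 1 - σ := by
        rw [hκs, lt_div_iff₀ (by linarith)] at hκ1
        exact hκ1
      nlinarith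
    have h2 : 0 < (1 + 2 * κ) * σ := by positivity
    rw [hα2, show (1 : ℝ) - (1 - σ ^ 2) = σ ^ 2 by ring, ← mul_pow]
    exact pow_lt_one₀ h2.le h1 (by norm_num)
  have := ang_upper (α := α) (κ := κ) (s := s) (η := η) hαh hα1 hκ0 hk
    (by rw [hcc]; exact hκ2) hη
  rw [hcc] at this
  exact this

/-- `σ = 19/25`: up to `2^(.53 d)` candidates -/
lemma num1 : (53 / 50 : ℝ) < Real.logb 2 (1 / (19 / 25)) +
    gg ((1 - 19 / 25) / (2 * (19 / 25))) := by
  have e : Real.logb 2 (1 / (19 / 25)) + gg ((1 - 19 / 25) / (2 * (19 / 25))) =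
      Real.logb 2 (25 ^ 19 * 22 ^ 22 / (19 ^ 38 * 3 ^ 3)) / 19 := by
    have h1 : (1 - 19 / 25 : ℝ) / (2 * (19 / 25)) = 3 / 19 := by norm_num
    rw [h1]
    unfold gg
    rw [show (1 : ℝ) + 3 / 19 = 22 / 19 by norm_num, show (1 : ℝ) / (19 / 25) = 25 / 19 by
      norm_num, Real.logb_div (by norm_num) (by norm_num), Real.logb_div (by norm_num)
      (by norm_num), Real.logb_div (by norm_num) (by norm_num), Real.logb_div (by norm_num)
      (by norm_num), Real.logb_mul (by norm_num) (by norm_num), Real.logb_mul (by norm_num)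
      (by norm_num), Real.logb_pow, Real.logb_pow, Real.logb_pow, Real.logb_pow]
    push_cast
    ring
  rw [e, lt_div_iff₀ (by norm_num)]
  refine lt_trans (show (53 / 50 * 19 : ℝ) < 141 / 7 by norm_num) ?_
  rw [Real.lt_logb_iff_rpow_lt (by norm_num) (by norm_num)]
  have h : ((2 : ℝ) ^ (141 / 7 : ℝ)) ^ (7 : ℕ) <
      (25 ^ 19 * 22 ^ 22 / (19 ^ 38 * 3 ^ 3) : ℝ) ^ (7 : ℕ) := by
    rw [← Real.rpow_natCast ((2 : ℝ) ^ (141 / 7 : ℝ)), ← Real.rpow_mul (by norm_num)]
    norm_num
  exact lt_of_pow_lt_pow_left₀ 7 (by positivity) h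

lemma num1' : Real.logb 2 (1 / (19 / 25)) < 396 / 1000 := by
  rw [Real.logb_lt_iff_lt_rpow (by norm_num) (by norm_num)]
  have h : ((1 / (19 / 25) : ℝ)) ^ (250 : ℕ) < ((2 : ℝ) ^ (396 / 1000 : ℝ)) ^ (250 : ℕ) := by
    rw [← Real.rpow_natCast ((2 : ℝ) ^ (396 / 1000 : ℝ)), ← Real.rpow_mul (by norm_num)]
    norm_num
  exact lt_of_pow_lt_pow_left₀ 250 (by positivity) h

/-- `σ = 41/50`: up to `2^(.4 d)` candidates -/
lemma num2 : (8 / 10 : ℝ) < Real.logb 2 (1 / (41 / 50)) +
    gg ((1 - 41 / 50) / (2 * (41 / 50))) := by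
  have e : Real.logb 2 (1 / (41 / 50)) + gg ((1 - 41 / 50) / (2 * (41 / 50))) =
      Real.logb 2 (50 ^ 82 * 91 ^ 91 / (41 ^ 82 * 82 ^ 82 * 9 ^ 9)) / 82 := by
    have h1 : (1 - 41 / 50 : ℝ) / (2 * (41 / 50)) = 9 / 82 := by norm_num
    rw [h1]
    unfold gg
    rw [show (1 : ℝ) + 9 / 82 = 91 / 82 by norm_num, show (1 : ℝ) / (41 / 50) = 50 / 41 by
      norm_num, Real.logb_div (by norm_num) (by norm_num), Real.logb_div (by norm_num)
      (by norm_num), Real.logb_div (by norm_num) (by norm_num), Real.logb_div (by norm_num)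
      (by norm_num), Real.logb_mul (by norm_num) (by norm_num), Real.logb_mul (by norm_num)
      (by norm_num), Real.logb_mul (by norm_num)
      (by norm_num), Real.logb_pow, Real.logb_pow, Real.logb_pow, Real.logb_pow, Real.logb_pow]
    push_cast
    ring
  rw [e, lt_div_iff₀ (by norm_num)]
  refine lt_trans (show (8 / 10 * 82 : ℝ) < 197 / 3 by norm_num) ?_
  rw [Real.lt_logb_iff_rpow_lt (by norm_num) (by norm_num)]
  have h : ((2 : ℝ) ^ (197 / 3 : ℝ)) ^ (3 : ℕ) <
      (50 ^ 82 * 91 ^ 91 / (41 ^ 82 * 82 ^ 82 * 9 ^ 9) : ℝ) ^ (3 : ℕ) := by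
    rw [← Real.rpow_natCast ((2 : ℝ) ^ (197 / 3 : ℝ)), ← Real.rpow_mul (by norm_num)]
    norm_num
  exact lt_of_pow_lt_pow_left₀ 3 (by positivity) h

lemma num2' : Real.logb 2 (1 / (41 / 50)) < 2864 / 10000 := by
  refine lt_trans ?_ (show (63 / 220 : ℝ) < 2864 / 10000 by norm_num)
  rw [Real.logb_lt_iff_lt_rpow (by norm_num) (by norm_num)]
  have h : ((1 / (41 / 50) : ℝ)) ^ (220 : ℕ) < ((2 : ℝ) ^ (63 / 220 : ℝ)) ^ (220 : ℕ) := by
    rw [← Real.rpow_natCast ((2 : ℝ) ^ (63 / 220 : ℝ)), ← Real.rpow_mul (by norm_num)]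
    norm_num
  exact lt_of_pow_lt_pow_left₀ 220 (by positivity) h

end Pool.Agent.Helper63.RKS
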