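import Pool.Agent.Helper63.RKS.Asm

/-!
The sharp theorems with the explicit constants: the probability of no overlap, and the largest
kissing subset of random candidates.
-/

set_option autoImplicit false

open MeasureTheory Set Metric ProbabilityTheory Filter Topology
open scoped ENNReal RealInnerProductSpace Nat
open Pool.Agent.Helper47.KP

namespace Pool.Agent.Helper63.RKS

open Pool.Agent.Helper84.RK Pool.Agent.Helper49.EJ

lemma gst_le_one : gst ≤ 1 := by
  unfold gst
  have hs1 : 5 / 3 < Real.sqrt 3 := by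
    rw [Real.lt_sqrt (by norm_num)]; norm_num
  have hs2 : Real.sqrt 3 < 2 := by
    rw [Real.sqrt_lt' (by norm_num)]; norm_num
  have h1 : Real.logb 2 (2 + Real.sqrt 3) < 2 := by
    rw [Real.logb_lt_iff_lt_rpow (by norm_num) (by positivity)]
    norm_num
    linarith
  have h2 : Real.logb 2 (2 + Real.sqrt 3) / Real.sqrt 3 < 6 / 5 := by
    rw [div_lt_iff₀ (by linarith)]
    linarith
  linarith

/-- **The probability of no overlap, with the constants.** -/
theorem pk_sharp (hcap : CapAsymp) {c : ℝ} (hc : c < sT - Real.logb 2 (2 / Real.sqrt 3)) {ε : ℝ}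
    (hε : 0 < ε) : ∀ᶠ d : ℕ in atTop, ∀ k : ℕ, (k : ℝ) ≤ c * (AA * ord d) → 0 < kp d k ∧
      |Real.log (kp d k) + Real.log 2 / (2 * AA) * (k ^ 2 * d / ord d)| ≤ ε * (d * ord d) := by
  set s0 := Real.logb 2 (2 / Real.sqrt 3) with hs0
  have hs0p : 0 < s0 := W_pos
  have hs31 := sT_lt_one
  have hs3u := sT_le
  rw [← hs0] at hs3u
  have hl2 : 0 < Real.log 2 := Real.log_pos (by norm_num)
  have hl21 : Real.log 2 ≤ 1 := by have := Real.log_two_lt_d9; linarith
  have hA := AA_pos
  have hA1 := AA_le_one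
  have hs03 : s0 < sT := by
    rw [hs0]; unfold sT; have := gst_pos; linarith
  -- the constants
  set w : ℝ := sT - s0 with hw
  have hw0 : 0 < w := by rw [hw]; linarith
  have hw1 : w ≤ 1 := by rw [hw]; linarith
  set c' : ℝ := max c (w / 2) with hc'
  have hc'0 : 0 < c' := lt_of_lt_of_le (by positivity) (le_max_right _ _)
  have hc'w : c' < w := max_lt hc (by linarith)
  set c₂ : ℝ := (c' + w) / 2 * Real.log 2 with hc2
  have hc2w : c₂ < w * Real.log 2 := by
    rw [hc2]; exact mul_lt_mul_of_pos_right (by linarith) hl2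
  have hc20 : 0 < c₂ := by rw [hc2]; positivity
  set c₁ : ℝ := min (c₂ / 2) (min (ε * Real.log 2 / 16) (1 / 2)) with hc1
  have hc10 : 0 < c₁ := by rw [hc1]; positivity
  have hc11 : c₁ ≤ c₂ / 2 := min_le_left _ _
  have hc12 : c₁ ≤ ε * Real.log 2 / 16 := (min_le_right _ _).trans (min_le_left _ _)
  have hc13 : c₁ ≤ 1 / 2 := (min_le_right _ _).trans (min_le_right _ _)
  set e : ℝ := min (ε / 16) (min (AA / 2) (AA * ((w - c') / 4))) with he
  have he0 : 0 < e := by
    rw [he]
    exact lt_min (by positivity) (lt_min (by positivity) (mul_pos hA (by linarith)))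
  have heε : e ≤ ε / 16 := min_le_left _ _
  have heA : e ≤ AA / 2 := (min_le_right _ _).trans (min_le_left _ _)
  have hec : e ≤ AA * ((w - c') / 4) := (min_le_right _ _).trans (min_le_right _ _)
  have he1 : e ≤ 1 / 2 := by linarith
  have hev : ∀ᶠ d : ℕ in atTop, 1 / c₁ ≤ d :=
    (tendsto_natCast_atTop_atTop (R := ℝ)).eventually_ge_atTop _
  filter_upwards [pk_lower (c₁ := c₁) (c₂ := c₂) hc10 hc2w he0 (by linarith),
    pk_upper (c₁ := c₁) (c₂ := c₂) hc10 (by
      refine hc2w.trans_le ?_
      exact mul_le_mul_of_nonneg_right (by linarith) hl2.le) he0 (by linarith),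
    RR_close hcap he0, hev] with d hlo hup hR hbig k hk
  obtain ⟨hd4, hlo⟩ := hlo
  obtain ⟨hR1, hR2⟩ := hR
  have : NeZero d := ⟨by omega⟩
  have hp := pc_pos hd4
  have hp1 : pc d ≤ 1 := pc_le_one (by omega)
  have hd0 : (0 : ℝ) < d := by exact_mod_cast (by omega : 0 < d)
  set p := pc d with hpd
  set o := ord d with ho
  have ho0 : 0 < o := ord_pos (by omega)
  rw [div_le_iff₀ hc10] at hbig
  set R := RR d with hR
  have hRp : R * p = d * Real.log 2 := by
    rw [hR]; unfold RR; rw [← hpd]; field_simp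
  have hR0 : 0 < R := by
    rw [hR]; unfold RR; positivity
  have hkc : (k : ℝ) ≤ c' * (AA * o) :=
    hk.trans (mul_le_mul_of_nonneg_right (le_max_left _ _) (by positivity))
  have hk0 : (0 : ℝ) ≤ k := Nat.cast_nonneg k
  -- the target
  set Q : ℝ := Real.log 2 / 2 * (k ^ 2 * d / o) with hQ
  have hQ0 : 0 ≤ Q := by rw [hQ]; positivity
  have eQ : Real.log 2 / (2 * AA) * (k ^ 2 * d / o) = Q / AA := by
    rw [hQ]; field_simp
  rw [eQ]
  have hdo : 0 < d * o := by positivity
  have hpk2 : p * k ^ 2 / 2 = k ^ 2 * d * Real.log 2 / (2 * R) := by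
    rw [div_eq_div_iff (by norm_num) (by positivity)]
    calc p * k ^ 2 * (2 * R) = 2 * k ^ 2 * (R * p) := by ring
      _ = _ := by rw [hRp]; ring
  rcases le_or_gt (c₁ * d) (p * k) with h | h
  · -- the main range
    have hk2 : p * k ≤ c₂ * d := by
      have h3 : c' * (AA * o) ≤ (c' + w) / 2 * R := by
        have h4 : c' * AA ≤ (c' + w) / 2 * (AA - e) := by
          have h5 : (c' + w) / 2 * e ≤ 1 * e := mul_le_mul_of_nonneg_right (by linarith) he0.le
          have h6 : 0 ≤ AA * (w - c') := mul_nonneg hA.le (by linarith)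
          linarith
        calc c' * (AA * o) = (c' * AA) * o := by ring
          _ ≤ ((c' + w) / 2 * (AA - e)) * o := mul_le_mul_of_nonneg_right h4 ho0.le
          _ = (c' + w) / 2 * ((AA - e) * o) := by ring
          _ ≤ _ := mul_le_mul_of_nonneg_left hR1 (by linarith)
      calc p * k ≤ p * ((c' + w) / 2 * R) := mul_le_mul_of_nonneg_left (hkc.trans h3) hp.le
        _ = (c' + w) / 2 * (R * p) := by ring
        _ = c₂ * d := by rw [hRp, hc2]; ring
    have hl := hlo k h hk2
    have hu := hup k h hk2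
    have hP0 : 0 < kp d k := lt_of_lt_of_le (Real.exp_pos _) hl
    have hl' := Real.log_le_log (Real.exp_pos _) hl
    have hu' := Real.log_le_log hP0 hu
    rw [Real.log_exp] at hl' hu'
    have e1 : (1 + e) * p * k ^ 2 / 2 = (1 + e) * (p * k ^ 2 / 2) := by ring
    have e2 : (1 - e) * p * k ^ 2 / 2 = (1 - e) * (p * k ^ 2 / 2) := by ring
    rw [e1] at hl'
    rw [e2] at hu'
    set Y : ℝ := p * k ^ 2 / 2 with hY
    have hkAA : (k : ℝ) ≤ AA * o := by
      refine hkc.trans ?_
      exact mul_le_of_le_one_left (by positivity) (by linarith)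
    have hQb : Q ≤ AA ^ 2 / 2 * (d * o) := by
      rw [hQ]
      have h3 : (k : ℝ) ^ 2 ≤ (AA * o) ^ 2 := pow_le_pow_left₀ hk0 hkAA 2
      calc Real.log 2 / 2 * (k ^ 2 * d / o) ≤ 1 / 2 * ((AA * o) ^ 2 * d / o) := by
            apply mul_le_mul (by linarith) _ (by positivity) (by norm_num)
            gcongr
        _ = _ := by field_simp
    have hYQ1 : Y * (AA - e) ≤ Q := by
      rw [hpk2, hQ]
      have h3 : (AA - e) * o ≤ R := hR1
      rw [div_mul_eq_mul_div, div_le_iff₀ (by positivity)]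
      calc k ^ 2 * d * Real.log 2 * (AA - e) = Real.log 2 / 2 * (k ^ 2 * d / o) *
            (2 * ((AA - e) * o)) := by field_simp
        _ ≤ _ := by gcongr
    have hYQ2 : Q ≤ Y * (AA + e) := by
      rw [hpk2, hQ, show k ^ 2 * d * Real.log 2 / (2 * R) * (AA + e) =
        k ^ 2 * d * Real.log 2 * (AA + e) / (2 * R) by ring, le_div_iff₀ (by positivity)]
      calc Real.log 2 / 2 * (k ^ 2 * d / o) * (2 * R) ≤ Real.log 2 / 2 * (k ^ 2 * d / o) *
            (2 * ((AA + e) * o)) := by gcongr
        _ = _ := by field_simp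
    have hY0 : 0 ≤ Y := by rw [hY]; positivity
    have hQA : Q / AA * AA = Q := by field_simp
    have hQA0 : 0 ≤ Q / AA := by positivity
    have hY2 : Y ≤ AA * (d * o) := by
      have h3 : Y * (AA / 2) ≤ AA ^ 2 / 2 * (d * o) := by
        calc Y * (AA / 2) ≤ Y * (AA - e) := mul_le_mul_of_nonneg_left (by linarith) hY0
          _ ≤ Q := hYQ1
          _ ≤ _ := hQb
      have h4 : Y * (AA / 2) ≤ (AA * (d * o)) * (AA / 2) := by
        calc _ ≤ AA ^ 2 / 2 * (d * o) := h3
          _ = _ := by ring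
      exact le_of_mul_le_mul_right h4 (by positivity)
    have hYY : Y ≤ d * o := hY2.trans (mul_le_of_le_one_left hdo.le hA1)
    have hdiff1 : Y - Q / AA ≤ e * (d * o) := by
      have h3 : (Y - Q / AA) * AA ≤ (e * (d * o)) * AA := by
        calc (Y - Q / AA) * AA = Y * (AA - e) + e * Y - Q / AA * AA := by ring
          _ ≤ Q + e * Y - Q := by rw [hQA]; linarith
          _ = e * Y := by ring
          _ ≤ e * (AA * (d * o)) := mul_le_mul_of_nonneg_left hY2 he0.le
          _ = _ := by ring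
      exact le_of_mul_le_mul_right h3 hA
    have hdiff2 : -(e * (d * o)) ≤ Y - Q / AA := by
      have h3 : (-(e * (d * o))) * AA ≤ (Y - Q / AA) * AA := by
        calc (-(e * (d * o))) * AA = -(e * (AA * (d * o))) := by ring
          _ ≤ -(e * Y) := neg_le_neg (mul_le_mul_of_nonneg_left hY2 he0.le)
          _ ≤ Y * (AA + e) - e * Y - Q := by linarith
          _ = _ := by rw [sub_mul, hQA]; ring
      exact le_of_mul_le_mul_right h3 hA
    have h3 : e * Y ≤ e * (d * o) := mul_le_mul_of_nonneg_left hYY he0.le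
    have h4 : e * (d * o) ≤ ε / 16 * (d * o) := mul_le_mul_of_nonneg_right heε hdo.le
    have h5 : 0 < ε * (d * o) := by positivity
    have e7 : (1 + e) * Y = Y + e * Y := by ring
    have e8 : (1 - e) * Y = Y - e * Y := by ring
    rw [e7] at hl'
    rw [e8] at hu'
    refine ⟨hP0, ?_⟩
    rw [abs_le]
    constructor <;> linarith
  · -- small `k`
    set k₁ : ℕ := ⌈c₁ * d / p⌉₊ with hk1
    have hk1a : c₁ * d ≤ p * k₁ := by
      have : c₁ * d / p ≤ k₁ := Nat.le_ceil _
      rw [div_le_iff₀ hp] at this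
      linarith
    have hk1b : p * k₁ ≤ 2 * c₁ * d := by
      have h3 : (k₁ : ℝ) ≤ c₁ * d / p + 1 := (Nat.ceil_lt_add_one (by positivity)).le
      have h4 := mul_le_mul_of_nonneg_left h3 hp.le
      have h5 : p * (c₁ * d / p + 1) = c₁ * d + p := by field_simp
      linarith
    have hkk : k ≤ k₁ := by
      have : p * k ≤ p * k₁ := by linarith
      have h3 : (k : ℝ) ≤ k₁ := le_of_mul_le_mul_left this hp
      exact_mod_cast h3
    have hl := hlo k₁ hk1a (hk1b.trans (by
      apply mul_le_mul_of_nonneg_right _ hd0.le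
      linarith))
    have hl' := Real.log_le_log (Real.exp_pos _) (hl.trans (kp_anti d hkk))
    rw [Real.log_exp] at hl'
    have hu' : Real.log (kp d k) ≤ 0 := Real.log_nonpos (kp_nonneg d k) (kp_le_one d k)
    have hRo : R ≤ 2 * o := hR2.trans (mul_le_mul_of_nonneg_right (by linarith) ho0.le)
    have hRo2 : R ≤ 2 * AA * o := hR2.trans (mul_le_mul_of_nonneg_right (by linarith) ho0.le)
    have hc1sq : 4 * c₁ ^ 2 ≤ c₁ * 2 := by
      have k1 : c₁ * c₁ ≤ c₁ * (1 / 2) := mul_le_mul_of_nonneg_left hc13 hc10.le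
      linarith
    have h3 : (1 + e) * p * k₁ ^ 2 / 2 ≤ ε / 2 * (d * o) := by
      have h4 : p * ((1 + e) * p * k₁ ^ 2 / 2) ≤ p * (ε / 2 * (d * o)) := by
        calc p * ((1 + e) * p * k₁ ^ 2 / 2) = (1 + e) / 2 * (p * k₁) ^ 2 := by ring
          _ ≤ (3 / 2) / 2 * (2 * c₁ * d) ^ 2 := by
              apply mul_le_mul (by linarith) (pow_le_pow_left₀ (by positivity) hk1b 2)
                (by positivity) (by norm_num)
          _ = 3 / 4 * (4 * c₁ ^ 2) * d ^ 2 := by ring
          _ ≤ 3 / 4 * (c₁ * 2) * d ^ 2 := by gcongr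
          _ ≤ 3 / 4 * (ε * Real.log 2 / 16 * 2) * d ^ 2 := by gcongr
          _ ≤ ε / 8 * (d * (R * p)) := by
              rw [hRp]
              have : 0 ≤ ε * Real.log 2 * d ^ 2 := by positivity
              linarith
          _ ≤ ε / 8 * (d * ((2 * o) * p)) := by gcongr
          _ ≤ p * (ε / 2 * (d * o)) := by
              have : 0 ≤ ε * (d * o) * p := by positivity
              linarith
      exact le_of_mul_le_mul_left h4 hp
    have h4 : Q / AA ≤ ε / 2 * (d * o) := by
      have hk2 : (k : ℝ) * Real.log 2 ≤ c₁ * R := by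
        have h5 : (k : ℝ) * p ≤ c₁ * d := by linarith
        have h6 : p * (k * Real.log 2) ≤ p * (c₁ * R) := by
          calc p * (k * Real.log 2) = (k * p) * Real.log 2 := by ring
            _ ≤ (c₁ * d) * Real.log 2 := mul_le_mul_of_nonneg_right h5 hl2.le
            _ = c₁ * (R * p) := by rw [hRp]; ring
            _ = _ := by ring
        exact le_of_mul_le_mul_left h6 hp
      have hk3 : (k : ℝ) * Real.log 2 ≤ c₁ * (2 * AA * o) :=
        hk2.trans (mul_le_mul_of_nonneg_left hRo2 hc10.le)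
      rw [div_le_iff₀ hA, hQ]
      have h7 : Real.log 2 * (Real.log 2 / 2 * (k ^ 2 * d / o)) ≤
          Real.log 2 * (ε / 2 * (d * o) * AA) := by
        calc Real.log 2 * (Real.log 2 / 2 * (k ^ 2 * d / o)) =
              (k * Real.log 2) ^ 2 * (d / (2 * o)) := by ring
          _ ≤ (c₁ * (2 * AA * o)) ^ 2 * (d / (2 * o)) := by
              apply mul_le_mul_of_nonneg_right _ (by positivity)
              exact pow_le_pow_left₀ (by positivity) hk3 2
          _ = (4 * c₁ ^ 2) * (AA ^ 2 / 2) * (d * o) := by field_simp; norm_num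
          _ ≤ (c₁ * 2) * (AA ^ 2 / 2) * (d * o) := by gcongr
          _ ≤ (ε * Real.log 2 / 16 * 2) * (AA ^ 2 / 2) * (d * o) := by gcongr
          _ = Real.log 2 * (ε / 16 * (d * o) * AA) * AA := by ring
          _ ≤ Real.log 2 * (ε / 16 * (d * o) * AA) * 1 := by gcongr
          _ ≤ _ := by
              have : 0 ≤ Real.log 2 * (ε * (d * o) * AA) := by positivity
              linarith
      exact le_of_mul_le_mul_left h7 hl2
    have h5 : 0 ≤ Q / AA := by positivity
    have h6 : 0 < ε * (d * o) := by positivity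
    refine ⟨lt_of_lt_of_le (Real.exp_pos _) (hl.trans (kp_anti d hkk)), ?_⟩
    rw [abs_le]
    constructor <;> linarith

/-- **The probability of no overlap from above, with the constants.** -/
theorem pk_up_sharp (hcap : CapAsymp) {c : ℝ} (hc : c < gst) {ε : ℝ}
    (hε : 0 < ε) : ∀ᶠ d : ℕ in atTop, ∀ k : ℕ, (k : ℝ) ≤ c * (AA * ord d) →
      kp d k ≤ Real.exp (-(Real.log 2 / (2 * AA) * (k ^ 2 * d / ord d)) + ε * (d * ord d)) := by
  have hl2 : 0 < Real.log 2 := Real.log_pos (by norm_num)
  have hl21 : Real.log 2 ≤ 1 := by have := Real.log_two_lt_d9; linarith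
  have hA := AA_pos
  have hA1 := AA_le_one
  have hgst := gst_pos
  have hgst1 : gst ≤ 1 := gst_le_one
  -- the constants
  set c' : ℝ := max c (gst / 2) with hc'
  have hc'0 : 0 < c' := lt_of_lt_of_le (by positivity) (le_max_right _ _)
  have hc'w : c' < gst := max_lt hc (by linarith)
  set c₂ : ℝ := (c' + gst) / 2 * Real.log 2 with hc2
  have hc2w : c₂ < gst * Real.log 2 := by
    rw [hc2]; exact mul_lt_mul_of_pos_right (by linarith) hl2
  have hc20 : 0 < c₂ := by rw [hc2]; positivity
  set c₁ : ℝ := min (c₂ / 2) (min (ε * Real.log 2 / 16) (1 / 2)) with hc1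
  have hc10 : 0 < c₁ := by rw [hc1]; positivity
  have hc11 : c₁ ≤ c₂ / 2 := min_le_left _ _
  have hc12 : c₁ ≤ ε * Real.log 2 / 16 := (min_le_right _ _).trans (min_le_left _ _)
  have hc13 : c₁ ≤ 1 / 2 := (min_le_right _ _).trans (min_le_right _ _)
  set e : ℝ := min (ε / 16) (min (AA / 2) (AA * ((gst - c') / 4))) with he
  have he0 : 0 < e := by
    rw [he]
    exact lt_min (by positivity) (lt_min (by positivity) (mul_pos hA (by linarith)))
  have heε : e ≤ ε / 16 := min_le_left _ _
  have heA : e ≤ AA / 2 := (min_le_right _ _).trans (min_le_left _ _)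
  have hec : e ≤ AA * ((gst - c') / 4) := (min_le_right _ _).trans (min_le_right _ _)
  filter_upwards [pk_upper (c₁ := c₁) (c₂ := c₂) hc10 hc2w he0 (by linarith),
    RR_close hcap he0, eventually_ge_atTop 4] with d hup hR hd4 k hk
  obtain ⟨hR1, hR2⟩ := hR
  have : NeZero d := ⟨by omega⟩
  have hp := pc_pos hd4
  have hd0 : (0 : ℝ) < d := by exact_mod_cast (by omega : 0 < d)
  set p := pc d with hpd
  set o := ord d with ho
  have ho0 : 0 < o := ord_pos (by omega)
  set R := RR d with hR
  have hRp : R * p = d * Real.log 2 := by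
    rw [hR]; unfold RR; rw [← hpd]; field_simp
  have hR0 : 0 < R := by
    rw [hR]; unfold RR; positivity
  have hkc : (k : ℝ) ≤ c' * (AA * o) :=
    hk.trans (mul_le_mul_of_nonneg_right (le_max_left _ _) (by positivity))
  have hk0 : (0 : ℝ) ≤ k := Nat.cast_nonneg k
  set Q : ℝ := Real.log 2 / 2 * (k ^ 2 * d / o) with hQ
  have hQ0 : 0 ≤ Q := by rw [hQ]; positivity
  have eQ : Real.log 2 / (2 * AA) * (k ^ 2 * d / o) = Q / AA := by
    rw [hQ]; field_simp
  rw [eQ]
  have hdo : 0 < d * o := by positivity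
  have hpk2 : p * k ^ 2 / 2 = k ^ 2 * d * Real.log 2 / (2 * R) := by
    rw [div_eq_div_iff (by norm_num) (by positivity)]
    calc p * k ^ 2 * (2 * R) = 2 * k ^ 2 * (R * p) := by ring
      _ = _ := by rw [hRp]; ring
  rcases le_or_gt (c₁ * d) (p * k) with h | h
  · have hk2 : p * k ≤ c₂ * d := by
      have h3 : c' * (AA * o) ≤ (c' + gst) / 2 * R := by
        have h4 : c' * AA ≤ (c' + gst) / 2 * (AA - e) := by
          have h5 : (c' + gst) / 2 * e ≤ 1 * e := mul_le_mul_of_nonneg_right (by linarith) he0.le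
          have h6 : 0 ≤ AA * (gst - c') := mul_nonneg hA.le (by linarith)
          linarith
        calc c' * (AA * o) = (c' * AA) * o := by ring
          _ ≤ ((c' + gst) / 2 * (AA - e)) * o := mul_le_mul_of_nonneg_right h4 ho0.le
          _ = (c' + gst) / 2 * ((AA - e) * o) := by ring
          _ ≤ _ := mul_le_mul_of_nonneg_left hR1 (by linarith)
      calc p * k ≤ p * ((c' + gst) / 2 * R) := mul_le_mul_of_nonneg_left (hkc.trans h3) hp.le
        _ = (c' + gst) / 2 * (R * p) := by ring
        _ = c₂ * d := by rw [hRp, hc2]; ring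
    have hu := hup k h hk2
    have e2 : (1 - e) * p * k ^ 2 / 2 = (1 - e) * (p * k ^ 2 / 2) := by ring
    rw [e2] at hu
    set Y : ℝ := p * k ^ 2 / 2 with hY
    have hkAA : (k : ℝ) ≤ AA * o := by
      refine hkc.trans ?_
      exact mul_le_of_le_one_left (by positivity) (by linarith)
    have hQb : Q ≤ AA ^ 2 / 2 * (d * o) := by
      rw [hQ]
      have h3 : (k : ℝ) ^ 2 ≤ (AA * o) ^ 2 := pow_le_pow_left₀ hk0 hkAA 2
      calc Real.log 2 / 2 * (k ^ 2 * d / o) ≤ 1 / 2 * ((AA * o) ^ 2 * d / o) := by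
            apply mul_le_mul (by linarith) _ (by positivity) (by norm_num)
            gcongr
        _ = _ := by field_simp
    have hYQ1 : Y * (AA - e) ≤ Q := by
      rw [hpk2, hQ]
      have h3 : (AA - e) * o ≤ R := hR1
      rw [div_mul_eq_mul_div, div_le_iff₀ (by positivity)]
      calc k ^ 2 * d * Real.log 2 * (AA - e) = Real.log 2 / 2 * (k ^ 2 * d / o) *
            (2 * ((AA - e) * o)) := by field_simp
        _ ≤ _ := by gcongr
    have hYQ2 : Q ≤ Y * (AA + e) := by
      rw [hpk2, hQ, show k ^ 2 * d * Real.log 2 / (2 * R) * (AA + e) =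
        k ^ 2 * d * Real.log 2 * (AA + e) / (2 * R) by ring, le_div_iff₀ (by positivity)]
      calc Real.log 2 / 2 * (k ^ 2 * d / o) * (2 * R) ≤ Real.log 2 / 2 * (k ^ 2 * d / o) *
            (2 * ((AA + e) * o)) := by gcongr
        _ = _ := by field_simp
    have hY0 : 0 ≤ Y := by rw [hY]; positivity
    have hQA : Q / AA * AA = Q := by field_simp
    have hY2 : Y ≤ AA * (d * o) := by
      have h3 : Y * (AA / 2) ≤ AA ^ 2 / 2 * (d * o) := by
        calc Y * (AA / 2) ≤ Y * (AA - e) := mul_le_mul_of_nonneg_left (by linarith) hY0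
          _ ≤ Q := hYQ1
          _ ≤ _ := hQb
      have h4 : Y * (AA / 2) ≤ (AA * (d * o)) * (AA / 2) := by
        calc _ ≤ AA ^ 2 / 2 * (d * o) := h3
          _ = _ := by ring
      exact le_of_mul_le_mul_right h4 (by positivity)
    have hYY : Y ≤ d * o := hY2.trans (mul_le_of_le_one_left hdo.le hA1)
    have hdiff2 : -(e * (d * o)) ≤ Y - Q / AA := by
      have h3 : (-(e * (d * o))) * AA ≤ (Y - Q / AA) * AA := by
        calc (-(e * (d * o))) * AA = -(e * (AA * (d * o))) := by ring
          _ ≤ -(e * Y) := neg_le_neg (mul_le_mul_of_nonneg_left hY2 he0.le)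
          _ ≤ Y * (AA + e) - e * Y - Q := by linarith
          _ = _ := by rw [sub_mul, hQA]; ring
      exact le_of_mul_le_mul_right h3 hA
    have h3 : e * Y ≤ e * (d * o) := mul_le_mul_of_nonneg_left hYY he0.le
    have h4 : e * (d * o) ≤ ε / 16 * (d * o) := mul_le_mul_of_nonneg_right heε hdo.le
    have h5 : 0 < ε * (d * o) := by positivity
    have e8 : (1 - e) * Y = Y - e * Y := by ring
    rw [e8] at hu
    refine hu.trans (Real.exp_le_exp.2 ?_)
    linarith
  · have hRo2 : R ≤ 2 * AA * o := hR2.trans (mul_le_mul_of_nonneg_right (by linarith) ho0.le)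
    have h4 : Q / AA ≤ ε / 2 * (d * o) := by
      have hk2 : (k : ℝ) * Real.log 2 ≤ c₁ * R := by
        have h5 : (k : ℝ) * p ≤ c₁ * d := by linarith
        have h6 : p * (k * Real.log 2) ≤ p * (c₁ * R) := by
          calc p * (k * Real.log 2) = (k * p) * Real.log 2 := by ring
            _ ≤ (c₁ * d) * Real.log 2 := mul_le_mul_of_nonneg_right h5 hl2.le
            _ = c₁ * (R * p) := by rw [hRp]; ring
            _ = _ := by ring
        exact le_of_mul_le_mul_left h6 hp
      have hk3 : (k : ℝ) * Real.log 2 ≤ c₁ * (2 * AA * o) :=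
        hk2.trans (mul_le_mul_of_nonneg_left hRo2 hc10.le)
      have hc1sq : 4 * c₁ ^ 2 ≤ c₁ * 2 := by
        have k1 : c₁ * c₁ ≤ c₁ * (1 / 2) := mul_le_mul_of_nonneg_left hc13 hc10.le
        linarith
      rw [div_le_iff₀ hA, hQ]
      have h7 : Real.log 2 * (Real.log 2 / 2 * (k ^ 2 * d / o)) ≤
          Real.log 2 * (ε / 2 * (d * o) * AA) := by
        calc Real.log 2 * (Real.log 2 / 2 * (k ^ 2 * d / o)) =
              (k * Real.log 2) ^ 2 * (d / (2 * o)) := by ring
          _ ≤ (c₁ * (2 * AA * o)) ^ 2 * (d / (2 * o)) := by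
              apply mul_le_mul_of_nonneg_right _ (by positivity)
              exact pow_le_pow_left₀ (by positivity) hk3 2
          _ = (4 * c₁ ^ 2) * (AA ^ 2 / 2) * (d * o) := by field_simp; norm_num
          _ ≤ (c₁ * 2) * (AA ^ 2 / 2) * (d * o) := by gcongr
          _ ≤ (ε * Real.log 2 / 16 * 2) * (AA ^ 2 / 2) * (d * o) := by gcongr
          _ = Real.log 2 * (ε / 16 * (d * o) * AA) * AA := by ring
          _ ≤ Real.log 2 * (ε / 16 * (d * o) * AA) * 1 := by gcongr
          _ ≤ _ := by
              have : 0 ≤ Real.log 2 * (ε * (d * o) * AA) := by positivity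
              linarith
      exact le_of_mul_le_mul_left h7 hl2
    have h6 : 0 < ε * (d * o) := by positivity
    refine (kp_le_one d k).trans (Real.one_le_exp ?_)
    linarith

end Pool.Agent.Helper63.RKS
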