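import Pool.Agent.Helper63.RKS.LargeUp
import Pool.Agent.Helper63.RKS.Mcd

/-!
Concentration of the largest kissing subset.
-/

set_option autoImplicit false

open MeasureTheory Set Metric ProbabilityTheory Filter Topology
open scoped ENNReal RealInnerProductSpace Nat
open Pool.Agent.Helper47.KP

namespace Pool.Agent.Helper63.RKS

open Pool.Agent.Helper84.RK Pool.Agent.Helper49.EJ

variable {d : ℕ}

lemma maxBalls_le_update {n : ℕ} (x : Fin n → Sph d) (i : Fin n) (y : Sph d) :
    maxBalls (Function.update x i y) ≤ maxBalls x + 1 := by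
  classical
  obtain ⟨I, hI, hI2⟩ := exists_maxBalls (Function.update x i y)
  have h1 : Pool.Agent.Helper49.EJ.Kis x (I.erase i) := by
    intro a ha b hb hab
    have h2 := hI a (Finset.mem_of_mem_erase ha) b (Finset.mem_of_mem_erase hb) hab
    rwa [Function.update_of_ne (Finset.ne_of_mem_erase ha),
      Function.update_of_ne (Finset.ne_of_mem_erase hb)] at h2
  have h2 := le_maxBalls h1
  have h3 := Finset.pred_card_le_card_erase (s := I) (a := i)
  omega

lemma maxBalls_diff {n : ℕ} (x : Fin n → Sph d) (i : Fin n) (y : Sph d) :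
    |(maxBalls (Function.update x i y) : ℝ) - maxBalls x| ≤ 1 := by
  have h1 := maxBalls_le_update x i y
  have h2 := maxBalls_le_update (Function.update x i y) i (x i)
  rw [Function.update_idem, Function.update_eq_self] at h2
  have h1' : (maxBalls (Function.update x i y) : ℝ) ≤ maxBalls x + 1 := by exact_mod_cast h1
  have h2' : (maxBalls x : ℝ) ≤ maxBalls (Function.update x i y) + 1 := by exact_mod_cast h2
  rw [abs_le]
  constructor <;> linarith

lemma le_maxBalls_iff {n : ℕ} (x : Fin n → Sph d) (a : ℝ) :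
    a ≤ maxBalls x ↔ ∃ I, Pool.Agent.Helper84.RK.Kis x I ∧ a ≤ (I.card : ℝ) := by
  constructor
  · intro h
    obtain ⟨I, hI, hI2⟩ := exists_maxBalls x
    exact ⟨I, hI, by rw [hI2]; exact h⟩
  · rintro ⟨I, hI, h⟩
    have : I.card ≤ maxBalls x := le_maxBalls hI
    exact h.trans (by exact_mod_cast this)

lemma measurable_maxBalls {n : ℕ} : Measurable fun x : Fin n → Sph d => (maxBalls x : ℝ) := by
  apply measurable_of_Ici
  intro a
  have e : (fun x : Fin n → Sph d => (maxBalls x : ℝ)) ⁻¹' Ici a =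
      ⋃ I : Finset (Fin n), {x : Fin n → Sph d | Pool.Agent.Helper84.RK.Kis x I ∧
        a ≤ (I.card : ℝ)} := by
    ext x
    simp only [mem_preimage, mem_Ici, mem_iUnion]
    exact le_maxBalls_iff x a
  rw [e]
  refine MeasurableSet.iUnion fun I => ?_
  by_cases hI : a ≤ (I.card : ℝ)
  · have e2 : {x : Fin n → Sph d | Pool.Agent.Helper84.RK.Kis x I ∧ a ≤ (I.card : ℝ)} =
        {x : Fin n → Sph d | Pool.Agent.Helper84.RK.Kis x I} := by
      ext x; simp [hI]
    rw [e2]
    exact measurableSet_KisS I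
  · have e2 : {x : Fin n → Sph d | Pool.Agent.Helper84.RK.Kis x I ∧ a ≤ (I.card : ℝ)} = ∅ := by
      ext x; simp [hI]
    rw [e2]
    exact MeasurableSet.empty

/-- from a small to a tiny probability -/
lemma lower_conc [NeZero d] {n : ℕ} (hn : 0 < n) {a η e : ℝ} (ha : 0 ≤ a) (he : 0 ≤ e)
    (hη : η ≤ e)
    (h : (Measure.pi fun _ : Fin n => sig d).real
      {x | ¬ ∃ I, Pool.Agent.Helper84.RK.Kis x I ∧ a ≤ (I.card : ℝ)} ≤ η) :
    (Measure.pi fun _ : Fin n => sig d).real
      {x | ¬ (1 - 2 * e) * a ≤ (maxBalls x : ℝ)} ≤ Real.exp (-((e * a) ^ 2 / (2 * n))) := by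
  set ν := Measure.pi fun _ : Fin n => sig d with hν
  set f : (Fin n → Sph d) → ℝ := fun x => (maxBalls x : ℝ) with hf
  have hfm : Measurable f := measurable_maxBalls
  have hfb : ∀ x, |f x| ≤ n := by
    intro x
    rw [abs_of_nonneg (Nat.cast_nonneg _)]
    obtain ⟨I, hI, hI2⟩ := exists_maxBalls x
    have : I.card ≤ n := by simpa using Finset.card_le_univ I
    rw [hf]
    simp only
    rw [← hI2]
    exact_mod_cast this
  have h1 := mcdiarmid (sig d) hn f hfm hfb maxBalls_diff (t := e * a) (by positivity)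
  refine le_trans (measureReal_mono ?_ (measure_ne_top _ _)) h1
  intro x hx
  have hx' : f x < (1 - 2 * e) * a := not_le.1 hx
  -- the mean
  have hint : Integrable f ν :=
    Integrable.of_bound hfm.aestronglyMeasurable n (Filter.Eventually.of_forall hfb)
  have hMar := mul_meas_ge_le_integral_of_nonneg (μ := ν) (f := f)
    (Filter.Eventually.of_forall fun x => Nat.cast_nonneg _) hint a
  have h2 : 1 - η ≤ ν.real {x | a ≤ f x} := by
    have h3 : (1 : ℝ) ≤ ν.real {x | a ≤ f x} + ν.real
        {x | ¬ ∃ I, Pool.Agent.Helper84.RK.Kis x I ∧ a ≤ (I.card : ℝ)} := by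
      refine le_trans ?_ (measureReal_union_le _ _)
      have h6 : {x | a ≤ f x} ∪
          {x | ¬ ∃ I, Pool.Agent.Helper84.RK.Kis x I ∧ a ≤ (I.card : ℝ)} = Set.univ := by
        apply Set.eq_univ_of_forall
        intro x
        by_cases h7 : a ≤ f x
        · exact Or.inl h7
        · exact Or.inr fun h8 => h7 ((le_maxBalls_iff x a).2 h8)
      rw [h6]
      simp
    linarith
  have h3 : (1 - e) * a ≤ ∫ x, f x ∂ν := by
    refine le_trans ?_ hMar
    rw [mul_comm]
    exact mul_le_mul_of_nonneg_left (by linarith) ha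
  show f x ≤ ∫ x, f x ∂ν - e * a
  linarith

end Pool.Agent.Helper63.RKS
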