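import Pool.Agent.Helper63.RKS.Asm
import Pool.Agent.Helper63.RKS.Conc

/-!
The largest kissing subset of random candidates, with explicit constants.
-/

set_option autoImplicit false

open MeasureTheory Set Metric ProbabilityTheory Filter Topology
open scoped ENNReal RealInnerProductSpace Nat
open Pool.Agent.Helper47.KP

namespace Pool.Agent.Helper63.RKS

open Pool.Agent.Helper84.RK Pool.Agent.Helper49.EJ

lemma top_le_of_mem {G l y : ℝ} (h0 : 0 < l) (hlG : l < G) (hy : l < y) (hyG : y ≤ G) :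
    top G l ≤ y ^ 2 / (2 * (y - l)) := by
  rcases le_or_gt G (2 * l) with h | h
  · rw [top_of_ge h, div_le_div_iff₀ (by linarith) (by linarith)]
    have h2 : 0 ≤ l * (G + y) - G * y := by
      have h3 : G * (G + y) ≤ 2 * l * (G + y) := mul_le_mul_of_nonneg_right h (by linarith)
      have h4 : G * y ≤ G * G := mul_le_mul_of_nonneg_left hyG (by linarith)
      linarith
    have h1 : 0 ≤ (G - y) * (l * (G + y) - G * y) := mul_nonneg (by linarith) h2
    have e : y ^ 2 * (2 * (G - l)) - G ^ 2 * (2 * (y - l)) =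
        2 * ((G - y) * (l * (G + y) - G * y)) := by ring
    linarith
  · rw [top_of_le h0 h.le, le_div_iff₀ (by linarith)]
    nlinarith [sq_nonneg (y - 2 * l)]

lemma top_mono {G l l' : ℝ} (h0 : 0 < l) (hl : l ≤ l') (hlG : l' < G) : top G l ≤ top G l' := by
  set y := lev G l' with hy
  have hy1 : l' < y := by rw [hy]; unfold lev; exact lt_min (by linarith) hlG
  have hy2 : y ≤ G := min_le_right _ _
  refine (top_le_of_mem h0 (by linarith) (by linarith) hy2).trans ?_
  unfold top
  rw [← hy]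
  apply div_le_div_of_nonneg_left (by positivity) (by linarith) (by linarith)

lemma top_hom {G l c : ℝ} (hc : 0 < c) : top (c * G) (c * l) = c * top G l := by
  have h : lev (c * G) (c * l) = c * lev G l := by
    unfold lev
    rw [show 2 * (c * l) = c * (2 * l) by ring, mul_min_of_nonneg _ _ hc.le]
  unfold top
  rw [h]
  rcases eq_or_ne (lev G l - l) 0 with h1 | h1
  · have : c * lev G l - c * l = 0 := by rw [← mul_sub, h1, mul_zero]
    rw [this, h1]; simp
  · rw [← mul_sub]
    field_simp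

lemma s0_lt_sT : Real.logb 2 (2 / Real.sqrt 3) < sT := by
  unfold sT; have := gst_pos; linarith

lemma top_nonneg {G l : ℝ} (hl : 0 < l) (hlG : l < G) : 0 ≤ top G l := by
  have h1 := lev_le_top hl hlG
  have : 0 < lev G l := by unfold lev; exact lt_min (by linarith) (by linarith)
  linarith

/-- fewer candidates, smaller kissing sets -/
lemma largest_mono {d : ℕ} [NeZero d] {n n' : ℕ} (h : n' ≤ n) (a : ℝ) :
    (Measure.pi fun _ : Fin n => sig d).real
      {x | ¬ ∃ I, Pool.Agent.Helper84.RK.Kis x I ∧ a ≤ (I.card : ℝ)} ≤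
    (Measure.pi fun _ : Fin n' => sig d).real
      {x | ¬ ∃ I, Pool.Agent.Helper84.RK.Kis x I ∧ a ≤ (I.card : ℝ)} := by
  classical
  have hmp := measurePreserving_comp' (sig d) (Fin.castLE h) (Fin.castLE_injective h)
  have hmeas : MeasurableSet {x : Fin n' → Sph d | ¬ ∃ I, Pool.Agent.Helper84.RK.Kis x I ∧
      a ≤ (I.card : ℝ)} := by
    have e : {x : Fin n' → Sph d | ¬ ∃ I, Pool.Agent.Helper84.RK.Kis x I ∧ a ≤ (I.card : ℝ)} =
        (⋃ I : Finset (Fin n'), {x : Fin n' → Sph d | Pool.Agent.Helper84.RK.Kis x I ∧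
          a ≤ (I.card : ℝ)})ᶜ := by
      ext x; simp
    rw [e]
    refine (MeasurableSet.iUnion fun I => ?_).compl
    by_cases hI : a ≤ (I.card : ℝ)
    · have e2 : {x : Fin n' → Sph d | Pool.Agent.Helper84.RK.Kis x I ∧ a ≤ (I.card : ℝ)} =
          {x : Fin n' → Sph d | Pool.Agent.Helper84.RK.Kis x I} := by
        ext x; simp [hI]
      rw [e2]
      exact measurableSet_KisS I
    · have e2 : {x : Fin n' → Sph d | Pool.Agent.Helper84.RK.Kis x I ∧ a ≤ (I.card : ℝ)} = ∅ := by
        ext x; simp [hI]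
      rw [e2]
      exact MeasurableSet.empty
  have hsub : {x : Fin n → Sph d | ¬ ∃ I, Pool.Agent.Helper84.RK.Kis x I ∧
      a ≤ (I.card : ℝ)} ⊆ (fun x : Fin n → Sph d => x ∘ Fin.castLE h) ⁻¹'
      {x | ¬ ∃ I, Pool.Agent.Helper84.RK.Kis x I ∧ a ≤ (I.card : ℝ)} := by
    rintro x hx ⟨I, hI, hI2⟩
    apply hx
    refine ⟨I.map (Fin.castLEEmb h), ?_, by rw [Finset.card_map]; exact hI2⟩
    intro i hi j hj hij
    obtain ⟨a', ha', rfl⟩ := Finset.mem_map.1 hi
    obtain ⟨b', hb', rfl⟩ := Finset.mem_map.1 hj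
    exact hI a' ha' b' hb' (fun h' => hij (by rw [h']))
  refine (measureReal_mono hsub (measure_ne_top _ _)).trans (le_of_eq ?_)
  rw [measureReal_def, measureReal_def, hmp.measure_preimage hmeas.nullMeasurableSet]

/-- the number of candidates -/
lemma floor_close {ε : ℝ} (hε : 0 < ε) : ∀ᶠ d : ℕ in atTop, ∀ s : ℝ, 0 ≤ s →
    (2 : ℝ) ^ ((s - ε) * d) ≤ (⌊(2 : ℝ) ^ (s * d)⌋₊ : ℝ) ∧
      (⌊(2 : ℝ) ^ (s * d)⌋₊ : ℝ) ≤ 2 ^ (s * d) := by
  filter_upwards [const_le_rpow (C := 2) hε] with d hd s hs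
  have h1 : (1 : ℝ) ≤ 2 ^ (s * d) := Real.one_le_rpow (by norm_num) (by positivity)
  refine ⟨?_, Nat.floor_le (by positivity)⟩
  have h2 : 1 ≤ ⌊(2 : ℝ) ^ (s * d)⌋₊ := Nat.le_floor (by simpa using h1)
  have h3 : (2 : ℝ) ^ (s * d) < ⌊(2 : ℝ) ^ (s * d)⌋₊ + 1 := Nat.lt_floor_add_one _
  have h4 : (1 : ℝ) ≤ (⌊(2 : ℝ) ^ (s * d)⌋₊ : ℝ) := by exact_mod_cast h2
  have e : (2 : ℝ) ^ (s * d) = 2 ^ ((s - ε) * d) * 2 ^ (ε * d) := by
    rw [← Real.rpow_add (by norm_num)]; congr 1; ring
  have h5 : (2 : ℝ) ^ ((s - ε) * d) * 2 ≤ 2 ^ (s * d) := by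
    rw [e]
    exact mul_le_mul_of_nonneg_left hd (by positivity)
  linarith

lemma gst_lt : gst < 1 / 5 := by
  unfold gst
  have hs1 : 5 / 3 < Real.sqrt 3 := by
    rw [Real.lt_sqrt (by norm_num)]; norm_num
  have hs2 : Real.sqrt 3 < 2 := by
    rw [Real.sqrt_lt' (by norm_num)]; norm_num
  have h1 : Real.logb 2 (2 + Real.sqrt 3) < 2 := by
    rw [Real.logb_lt_iff_lt_rpow (by norm_num) (by positivity)]
    norm_num
    linarith
  have h2 : Real.logb 2 (2 + Real.sqrt 3) / Real.sqrt 3 < 6 / 5 := by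
    rw [div_lt_iff₀ (by linarith)]
    linarith
  linarith

lemma W_gt_num : 1 / 5 < Real.logb 2 (2 / Real.sqrt 3) := by
  have hs0 : 0 < Real.sqrt 3 := Real.sqrt_pos.2 (by norm_num)
  rw [Real.lt_logb_iff_rpow_lt (by norm_num) (by positivity)]
  have h1 : ((2 : ℝ) ^ (1 / 5 : ℝ)) ^ (10 : ℕ) < (2 / Real.sqrt 3) ^ (10 : ℕ) := by
    rw [← Real.rpow_natCast ((2 : ℝ) ^ (1 / 5 : ℝ)), ← Real.rpow_mul (by norm_num), div_pow,
      show Real.sqrt 3 ^ 10 = (Real.sqrt 3 ^ 2) ^ 5 by ring, Real.sq_sqrt (by norm_num)]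
    norm_num
  exact lt_of_pow_lt_pow_left₀ 10 (by positivity) h1

/-- the last comparison of the lower bound -/
lemma low_num {A u m e ε R o : ℝ} (hA : 0 < A) (hA1 : A ≤ 1) (hu0 : 0 ≤ u) (hu1 : u ≤ 1)
    (he0 : 0 < e) (he : e ≤ 1 / 8) (heε : e ≤ ε / 16) (hR1 : (A - e) * o ≤ R) (hR0 : 0 ≤ R)
    (hRo : R ≤ 2 * o) (ho : 0 < o) (hm : m - e ≤ u) :
    (A * m - ε) * o ≤ (1 - 2 * e) * ((1 - e) * (u - 2 * e) * R) := by
  have h7 : (u - 6 * e) * R ≤ (1 - 2 * e) * ((1 - e) * (u - 2 * e) * R) := by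
    have e1 : (1 - 2 * e) * ((1 - e) * (u - 2 * e) * R) =
        ((1 - 2 * e) * (1 - e) * (u - 2 * e)) * R := by ring
    rw [e1]
    apply mul_le_mul_of_nonneg_right _ hR0
    have h1 : e * u ≤ e * 1 := mul_le_mul_of_nonneg_left hu1 he0.le
    have h2 : 0 < e * e := mul_pos he0 he0
    have h3 : 0 ≤ e * e * u := by positivity
    have h4 : e * e * e ≤ 1 / 8 * (e * e) := by nlinarith
    have e2 : (1 - 2 * e) * (1 - e) * (u - 2 * e) = u - 2 * e - 3 * (e * u) + 6 * (e * e) +
        2 * (e * e * u) - 4 * (e * e * e) := by ring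
    rw [e2]
    linarith
  refine le_trans ?_ h7
  have h8 : u * ((A - e) * o) ≤ u * R := mul_le_mul_of_nonneg_left hR1 hu0
  have h9 : 6 * e * R ≤ 6 * e * (2 * o) := mul_le_mul_of_nonneg_left hRo (by positivity)
  have h10 : u * (e * o) ≤ 1 * (e * o) := mul_le_mul_of_nonneg_right hu1 (by positivity)
  have h11 : A * (m - e) * o ≤ A * u * o := by
    apply mul_le_mul_of_nonneg_right _ ho.le
    exact mul_le_mul_of_nonneg_left hm hA.le
  have h12 : A * e * o ≤ 1 * e * o := by
    apply mul_le_mul_of_nonneg_right _ ho.le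
    exact mul_le_mul_of_nonneg_right hA1 he0.le
  have h13 : e * o ≤ ε / 16 * o := mul_le_mul_of_nonneg_right heε ho.le
  have e3 : u * ((A - e) * o) = A * u * o - u * (e * o) := by ring
  have e4 : A * (m - e) * o = A * m * o - A * e * o := by ring
  have e5 : (A * m - ε) * o = A * m * o - ε * o := by ring
  have e6 : (u - 6 * e) * R = u * R - 6 * e * R := by ring
  rw [e5, e6]
  have h14 : 0 < e * o := mul_pos he0 ho
  linarith

/-- **The largest kissing subset of `2^(s d)` random candidates, with the constants.** -/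
theorem largest_sharp (hcap : CapAsymp) {s₁ s₂ : ℝ} (h1 : Real.logb 2 (2 / Real.sqrt 3) < s₁)
    (h2 : s₂ < Real.logb 2 (2 / Real.sqrt 3) + gst) {ε : ℝ} (hε : 0 < ε) :
    ∃ δ : ℝ, 0 < δ ∧ ∀ᶠ d : ℕ in atTop, ∀ s : ℝ, s₁ ≤ s → s ≤ s₂ →
      (Measure.pi fun _ : Fin ⌊(2 : ℝ) ^ (s * d)⌋₊ => sig d).real
        {x | ¬ ((AA * (min s sT - Real.logb 2 (2 / Real.sqrt 3)) - ε) * ord d ≤ maxBalls x ∧
          maxBalls x ≤ (AA * top gst (s - Real.logb 2 (2 / Real.sqrt 3)) + ε) * ord d)} ≤
        Real.exp (-(2 : ℝ) ^ (δ * d)) := by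
  rcases lt_or_ge s₂ s₁ with h12 | h12
  · refine ⟨1, one_pos, ?_⟩
    filter_upwards with d s hs1 hs2
    exfalso; linarith
  set s0 := Real.logb 2 (2 / Real.sqrt 3) with hs0
  have hs0p : 0 < s0 := W_pos
  have hs0g := W_gt_num
  rw [← hs0] at hs0g
  have hgl := gst_lt
  have hl2 : 0 < Real.log 2 := Real.log_pos (by norm_num)
  have hA := AA_pos
  have hA1 := AA_le_one
  have hgst := gst_pos
  have hs03 : s0 < sT := s0_lt_sT
  have hs3u := sT_le
  rw [← hs0] at hs3u
  have hs31 := sT_lt_one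
  -- the upper constant is bounded
  set M : ℝ := top gst (s₂ - s0) with hM
  have hM0 : 0 ≤ M := top_nonneg (by linarith) (by linarith)
  -- parameters
  set e : ℝ := min (ε / (16 * (M + 1))) (min ((s₁ - s0) / 8) (min ((sT - s0) / 8) (1 / 8))) with he
  have he0 : 0 < e := by
    rw [he]
    refine lt_min (by positivity) (lt_min (by linarith) (lt_min (by linarith) (by norm_num)))
  have heM : e * (M + 1) ≤ ε / 16 := by
    have : e ≤ ε / (16 * (M + 1)) := min_le_left _ _
    calc e * (M + 1) ≤ ε / (16 * (M + 1)) * (M + 1) :=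
          mul_le_mul_of_nonneg_right this (by linarith)
      _ = ε / 16 := by field_simp
  have heε : e ≤ ε / 16 := (le_mul_of_one_le_right he0.le (by linarith)).trans heM
  have hes : e ≤ (s₁ - s0) / 8 := (min_le_right _ _).trans (min_le_left _ _)
  have hes3 : e ≤ (sT - s0) / 8 :=
    (min_le_right _ _).trans ((min_le_right _ _).trans (min_le_left _ _))
  have he8 : e ≤ 1 / 8 := (min_le_right _ _).trans ((min_le_right _ _).trans (min_le_right _ _))
  -- the lower range
  set s₅ : ℝ := sT - e with hs5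
  have hs5l : s₅ < sT := by rw [hs5]; linarith
  set s₄ : ℝ := min s₁ s₅ - e with hs4
  have hs4l : s0 + 2 * e < s₄ := by
    rw [hs4]
    have : s0 + 3 * e < min s₁ s₅ := lt_min (by linarith) (by rw [hs5]; linarith)
    linarith
  obtain ⟨δ, hδ, hlow⟩ := largest_lower (s₁ := s₄) (s₂ := s₅) (by linarith) hs5l he0 (by linarith)
  -- the exponents of the small probabilities
  set ρ : ℝ := (2 * s0 - s₂) / 4 with hρ
  have hρ0 : 0 < ρ := by rw [hρ]; linarith
  have hρs : ρ ≤ s0 / 4 := by rw [hρ]; linarith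
  refine ⟨ρ, hρ0, ?_⟩
  filter_upwards [hlow, largest_upper (s₁ := s₁ - e) (s₂ := s₂) (by linarith) h2 he0 (by linarith),
    RR_close hcap he0, log_close he0, floor_close he0, const_le_rpow (C := 2) hρ0,
    const_le_rpow (C := 1 / e) hδ, const_le_rpow (C := 32 / (e ^ 4)) (η := ρ) hρ0,
    pc_up2 (η := ρ / 2) (by positivity), eventually_ge_atTop 10]
    with d hlow hup hR hlog hfl hρd hδe hρe hpc hd10 s hs1 hs2
  obtain ⟨hd4, hlow⟩ := hlow
  obtain ⟨-, hup⟩ := hup
  obtain ⟨hR1, hR2⟩ := hR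
  have : NeZero d := ⟨by omega⟩
  have hp := pc_pos hd4
  have hd0 : (10 : ℝ) ≤ d := by exact_mod_cast hd10
  set o := ord d with ho
  have ho0 : 0 < o := ord_pos (by omega)
  have hR0 : 0 ≤ RR d := by unfold RR; positivity
  have hRo : RR d ≤ 2 * o := hR2.trans (mul_le_mul_of_nonneg_right (by linarith) ho0.le)
  set D : ℝ := Real.log 2 * d with hD
  have hD0 : 0 < D := mul_pos hl2 (by linarith)
  have hD1 : 1 ≤ D := by
    have h3 : (0.6 : ℝ) ≤ Real.log 2 := by
      have := Real.log_two_gt_d9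
      norm_num at this ⊢
      linarith
    calc (1 : ℝ) ≤ 0.6 * 10 := by norm_num
      _ ≤ Real.log 2 * d := mul_le_mul h3 hd0 (by norm_num) hl2.le
  have hRp : D / pc d = RR d := by
    rw [hD]; unfold RR; ring
  have hRpc : 1 / pc d ≤ RR d := by
    rw [← hRp]
    exact div_le_div_of_nonneg_right hD1 hp.le
  have hpcinv : (2 : ℝ) ^ ((s0 - ρ / 2) * d) ≤ 1 / pc d := by
    rw [le_div_iff₀ hp]
    rw [← hs0] at hpc
    calc (2 : ℝ) ^ ((s0 - ρ / 2) * d) * pc d ≤ 2 ^ ((s0 - ρ / 2) * d) * 2 ^ ((-s0 + ρ / 2) * d) :=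
          mul_le_mul_of_nonneg_left hpc (by positivity)
      _ = 1 := by
          rw [← Real.rpow_add (by norm_num),
            show (s0 - ρ / 2) * (d : ℝ) + (-s0 + ρ / 2) * d = 0 by ring, Real.rpow_zero]
  set n : ℕ := ⌊(2 : ℝ) ^ (s * d)⌋₊ with hn
  obtain ⟨hn1, hn2⟩ := hfl s (by linarith)
  rw [← hn] at hn1 hn2
  set t : ℝ := s - s0 with ht
  have ht0 : 0 < t := by rw [ht]; linarith
  have htg : t < gst := by rw [ht]; linarith
  have hn0 : (0 : ℝ) < n := lt_of_lt_of_le (by positivity) hn1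
  have hnn : 0 < n := by exact_mod_cast hn0
  have hρd1 : (1 : ℝ) ≤ 2 ^ (ρ * d) := by linarith
  -- lower bound
  have hl : (Measure.pi fun _ : Fin n => sig d).real
      {x | ¬ (AA * (min s sT - s0) - ε) * o ≤ (maxBalls x : ℝ)} ≤
        Real.exp (-(2 * 2 ^ (ρ * d))) := by
    set s' : ℝ := min s s₅ with hs'
    set n' : ℕ := ⌊(2 : ℝ) ^ (s' * d)⌋₊ with hn'
    have hs'0 : s0 + 3 * e < s' := by
      rw [hs']; exact lt_min (by linarith) (by rw [hs5]; linarith)
    obtain ⟨hn1', hn2'⟩ := hfl s' (by linarith)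
    rw [← hn'] at hn1' hn2'
    have hnn' : n' ≤ n := by
      rw [hn', hn]
      apply Nat.floor_le_floor
      apply Real.rpow_le_rpow_of_exponent_le (by norm_num)
      exact mul_le_mul_of_nonneg_right (min_le_left _ _) (by linarith)
    -- the numerical comparison
    set u : ℝ := s' - s0 with hu
    have hu0 : 3 * e < u := by rw [hu]; linarith
    have hu1 : u ≤ 1 := by
      rw [hu]
      have : s' ≤ s₅ := min_le_right _ _
      linarith
    have hL : (u - 2 * e) * D ≤ Real.log (n' * pc d) := by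
      have h3 := (hlog (s' - e)).1
      have h4 : Real.log (2 ^ ((s' - e) * d) * pc d) ≤ Real.log (n' * pc d) := by
        apply Real.log_le_log (by positivity)
        exact mul_le_mul_of_nonneg_right hn1' hp.le
      calc (u - 2 * e) * D = (s' - e - s0 - e) * D := by rw [hu]; ring
        _ ≤ _ := h3.trans h4
    set a : ℝ := (1 - e) * Real.log (n' * pc d) / pc d with ha
    have ha1 : (1 - e) * (u - 2 * e) * RR d ≤ a := by
      have h5 : (1 - e) * ((u - 2 * e) * D) / pc d ≤ a := by
        apply div_le_div_of_nonneg_right _ hp.le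
        exact mul_le_mul_of_nonneg_left hL (by linarith)
      have e1 : (1 - e) * ((u - 2 * e) * D) / pc d = (1 - e) * (u - 2 * e) * RR d := by
        rw [← hRp]; ring
      rwa [e1] at h5
    have hae : e / 2 * (1 / pc d) ≤ a := by
      refine le_trans ?_ ha1
      apply mul_le_mul _ hRpc (by positivity) _
      · calc e / 2 = 1 / 2 * e := by ring
          _ ≤ (1 - e) * (u - 2 * e) :=
            mul_le_mul (by linarith) (by linarith) he0.le (by linarith)
      · have : 0 ≤ (1 - e) := by linarith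
        have : 0 ≤ u - 2 * e := by linarith
        positivity
    have ha0 : 0 ≤ a := le_trans (by positivity) hae
    have h6 : min s sT - s0 - e ≤ u := by
      rw [hu, hs']
      have : min s sT - e ≤ min s s₅ := by
        apply le_min
        · have := min_le_left s sT; linarith
        · have := min_le_right s sT; rw [hs5]; linarith
      linarith
    have hcomp : (AA * (min s sT - s0) - ε) * o ≤ (1 - 2 * e) * a := by
      refine (low_num hA hA1 (by linarith) hu1 he0 he8 heε hR1 hR0 hRo ho0 h6).trans ?_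
      exact mul_le_mul_of_nonneg_left ha1 (by linarith)
    -- the probability
    have hprob := hlow n' (by
        refine le_trans ?_ hn1'
        apply Real.rpow_le_rpow_of_exponent_le (by norm_num)
        apply mul_le_mul_of_nonneg_right _ (by linarith)
        rw [hs4, hs']
        have : min s₁ s₅ ≤ min s s₅ := min_le_min_right _ hs1
        linarith) (by
        refine hn2'.trans ?_
        apply Real.rpow_le_rpow_of_exponent_le (by norm_num)
        exact mul_le_mul_of_nonneg_right (min_le_right _ _) (by linarith))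
    have hηe : (2 : ℝ) ^ (-(δ * d)) ≤ e := by
      rw [Real.rpow_neg (by norm_num)]
      rw [div_le_iff₀ he0] at hδe
      rw [inv_le_iff_one_le_mul₀ (by positivity)]
      linarith
    have hconc := lower_conc (d := d) hnn ha0 he0.le hηe ((largest_mono hnn' a).trans hprob)
    refine (measureReal_mono ?_ (measure_ne_top _ _)).trans (hconc.trans ?_)
    · intro x hx h7
      exact hx (hcomp.trans h7)
    · apply Real.exp_le_exp.2
      apply neg_le_neg
      rw [le_div_iff₀ (by positivity)]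
      have h7 : (n : ℝ) ≤ 2 ^ (s₂ * d) := by
        refine hn2.trans ?_
        apply Real.rpow_le_rpow_of_exponent_le (by norm_num)
        exact mul_le_mul_of_nonneg_right hs2 (by linarith)
      have h8 : e / 2 * 2 ^ ((s0 - ρ / 2) * d) ≤ a :=
        (mul_le_mul_of_nonneg_left hpcinv (by positivity)).trans hae
      have h9 : (e * (e / 2 * 2 ^ ((s0 - ρ / 2) * (d : ℝ)))) ^ 2 ≤ (e * a) ^ 2 :=
        pow_le_pow_left₀ (by positivity) (mul_le_mul_of_nonneg_left h8 he0.le) 2
      refine le_trans ?_ h9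
      have e10 : ((2 : ℝ) ^ ((s0 - ρ / 2) * d)) ^ 2 = 2 ^ ((2 * s0 - ρ) * d) := by
        rw [← Real.rpow_natCast, ← Real.rpow_mul (by norm_num)]
        congr 1; push_cast; ring
      have e11 : (2 : ℝ) ^ ((2 * s0 - ρ) * d) = 2 ^ (s₂ * d) * (2 ^ (ρ * d) * (2 ^ (ρ * d) *
          2 ^ (ρ * d))) := by
        rw [← Real.rpow_add (by norm_num), ← Real.rpow_add (by norm_num),
          ← Real.rpow_add (by norm_num)]
        congr 1
        rw [hρ]; ring
      have e12 : (e * (e / 2 * 2 ^ ((s0 - ρ / 2) * (d : ℝ)))) ^ 2 =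
          e ^ 4 / 4 * 2 ^ ((2 * s0 - ρ) * d) := by
        rw [mul_pow, mul_pow, e10]; ring
      rw [e12, e11]
      rw [div_le_iff₀ (by positivity)] at hρe
      set Y : ℝ := (2 : ℝ) ^ (ρ * d) with hY
      calc 2 * Y * (2 * n) ≤ 2 * Y * (2 * 2 ^ (s₂ * d)) := by gcongr
        _ = (2 ^ (s₂ * d)) * (4 * Y) := by ring
        _ ≤ (2 ^ (s₂ * d)) * (e ^ 4 / 4 * (Y * (Y * Y))) := by
            apply mul_le_mul_of_nonneg_left _ (by positivity)
            have h14 : 32 * Y ≤ Y * e ^ 4 * (Y * Y) := by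
              calc 32 * Y ≤ (Y * e ^ 4) * Y := mul_le_mul_of_nonneg_right hρe (by linarith)
                _ ≤ (Y * e ^ 4) * (Y * Y) := by
                    apply mul_le_mul_of_nonneg_left _ (by positivity)
                    exact le_mul_of_one_le_right (by linarith) hρd1
            have h15 : e ^ 4 / 4 * (Y * (Y * Y)) = (Y * e ^ 4 * (Y * Y)) / 4 := by ring
            rw [h15]
            linarith
        _ = _ := by ring
  -- upper bound
  have hu : (Measure.pi fun _ : Fin n => sig d).real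
      {x | ∃ I, Pool.Agent.Helper49.EJ.Kis x I ∧
        (AA * top gst t + ε) * o ≤ (I.card : ℝ)} ≤ Real.exp (-(2 * 2 ^ (ρ * d))) := by
    have hr1 : (2 : ℝ) ^ ((s₁ - e) * d) ≤ n := by
      refine le_trans ?_ hn1
      apply Real.rpow_le_rpow_of_exponent_le (by norm_num)
      apply mul_le_mul_of_nonneg_right _ (by linarith)
      linarith
    have hr2 : (n : ℝ) ≤ 2 ^ (s₂ * d) := by
      refine hn2.trans ?_
      apply Real.rpow_le_rpow_of_exponent_le (by norm_num)
      exact mul_le_mul_of_nonneg_right hs2 (by linarith)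
    refine le_trans (le_trans (measureReal_mono ?_ (measure_ne_top _ _)) (hup n hr1 hr2)) ?_
    · rintro x ⟨I, hI, hI2⟩
      refine ⟨I, hI, le_trans ?_ hI2⟩
      have hL1 : (t - 2 * e) * D ≤ Real.log (n * pc d) := by
        have h3 := (hlog (s - e)).1
        have h4 : Real.log (2 ^ ((s - e) * d) * pc d) ≤ Real.log (n * pc d) := by
          apply Real.log_le_log (by positivity)
          exact mul_le_mul_of_nonneg_right hn1 hp.le
        calc (t - 2 * e) * D = (s - e - s0 - e) * D := by rw [ht]; ring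
          _ ≤ _ := h3.trans h4
      have hL2 : Real.log (n * pc d) ≤ t * D := by
        have h3 := (hlog s).2
        refine le_trans ?_ h3
        apply Real.log_le_log (by positivity)
        exact mul_le_mul_of_nonneg_right hn2 hp.le
      have hL0 : 0 < Real.log (n * pc d) := by
        have : 0 < (t - 2 * e) * D := mul_pos (by rw [ht]; linarith) hD0
        linarith
      have h5 : top (gst * Real.log 2 * d) (Real.log (n * pc d)) ≤ D * top gst t := by
        rw [← top_hom hD0]
        have e1 : gst * Real.log 2 * d = D * gst := by rw [hD]; ring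
        rw [e1]
        apply top_mono hL0
        · linarith
        · exact mul_lt_mul_of_pos_left htg hD0
      have h6 : (1 + e) * top (gst * Real.log 2 * d) (Real.log (n * pc d)) / pc d ≤
          (1 + e) * top gst t * RR d := by
        calc (1 + e) * top (gst * Real.log 2 * d) (Real.log (n * pc d)) / pc d ≤
              (1 + e) * (D * top gst t) / pc d := by
              apply div_le_div_of_nonneg_right _ hp.le
              exact mul_le_mul_of_nonneg_left h5 (by linarith)
          _ = _ := by rw [← hRp]; ring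
      refine h6.trans ?_
      have hT0 : 0 ≤ top gst t := top_nonneg ht0 htg
      have hTM : top gst t ≤ M := top_mono ht0 (by rw [ht]; linarith) (by linarith)
      set T := top gst t with hT
      have h7 : (1 + e) * T * RR d ≤ (1 + e) * T * ((AA + e) * o) :=
        mul_le_mul_of_nonneg_left hR2 (by positivity)
      refine h7.trans ?_
      have h8 : (1 + e) * T * (AA + e) ≤ AA * T + ε := by
        have h9 : e * T ≤ ε / 16 := by
          calc e * T ≤ e * (M + 1) := mul_le_mul_of_nonneg_left (by linarith) he0.le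
            _ ≤ _ := heM
        have h10 : 0 ≤ e * T := by positivity
        have h11 : AA * (e * T) ≤ 1 * (e * T) := mul_le_mul_of_nonneg_right hA1 h10
        have h12 : e * (e * T) ≤ 1 * (e * T) := mul_le_mul_of_nonneg_right (by linarith) h10
        have e2 : (1 + e) * T * (AA + e) = AA * T + e * T + AA * (e * T) + e * (e * T) := by ring
        linarith
      calc (1 + e) * T * ((AA + e) * o) = ((1 + e) * T * (AA + e)) * o := by ring
        _ ≤ _ := mul_le_mul_of_nonneg_right h8 ho0.le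
    · apply Real.exp_le_exp.2
      apply neg_le_neg
      refine le_trans ?_ hpcinv
      calc 2 * (2 : ℝ) ^ (ρ * d) ≤ 2 ^ (ρ * d) * 2 ^ (ρ * d) :=
            mul_le_mul_of_nonneg_right hρd (by positivity)
        _ = 2 ^ (2 * ρ * d) := by rw [← Real.rpow_add (by norm_num)]; congr 1; ring
        _ ≤ _ := by
            apply Real.rpow_le_rpow_of_exponent_le (by norm_num)
            apply mul_le_mul_of_nonneg_right _ (by linarith)
            linarith
  -- assembly
  have hcov : {x : Fin n → Sph d | ¬ ((AA * (min s sT - s0) - ε) * o ≤ (maxBalls x : ℝ) ∧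
      (maxBalls x : ℝ) ≤ (AA * top gst t + ε) * o)} ⊆
      {x | ¬ (AA * (min s sT - s0) - ε) * o ≤ (maxBalls x : ℝ)} ∪
      {x | ∃ I, Pool.Agent.Helper49.EJ.Kis x I ∧ (AA * top gst t + ε) * o ≤ (I.card : ℝ)} := by
    intro x hx
    by_cases h3 : (AA * (min s sT - s0) - ε) * o ≤ (maxBalls x : ℝ)
    · right
      have h4 : ¬ (maxBalls x : ℝ) ≤ (AA * top gst t + ε) * o := fun h => hx ⟨h3, h⟩
      exact (le_maxBalls_iff x _).1 (not_le.1 h4).le
    · exact Or.inl h3
  refine (measureReal_mono hcov (measure_ne_top _ _)).trans ((measureReal_union_le _ _).trans ?_)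
  set Y : ℝ := (2 : ℝ) ^ (ρ * d) with hY
  have h3 : Real.exp (-(2 * Y)) ≤ Real.exp (-Y) / 2 := by
    rw [le_div_iff₀ (by norm_num)]
    have h4 : (2 : ℝ) ≤ Real.exp 1 := by have := Real.add_one_le_exp (1 : ℝ); linarith
    calc Real.exp (-(2 * Y)) * 2 ≤ Real.exp (-(2 * Y)) * Real.exp 1 :=
          mul_le_mul_of_nonneg_left h4 (Real.exp_pos _).le
      _ = Real.exp (-(2 * Y) + 1) := by rw [Real.exp_add]
      _ ≤ Real.exp (-Y) := by
          apply Real.exp_le_exp.2
          linarith
  linarith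

end Pool.Agent.Helper63.RKS
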