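import Pool.Agent.Helper84.RK.Cap

/-!
The sharp asymptotics of the measure of the cap of angular radius 60 degrees.
-/

set_option autoImplicit false

open MeasureTheory Set Filter Topology

namespace Pool.Agent.Helper63.RKS

open Pool.Agent.Helper47.KP Pool.Agent.Helper49.EJ

lemma wt_zero_of_le {D : ℕ} (hD : 1 ≤ D) {t : ℝ} (ht : 1 ≤ t ^ 2) : wt D t = 0 := by
  unfold wt
  rw [Real.sqrt_eq_zero_of_nonpos (by linarith), zero_pow (by omega)]

lemma wt_le_exp {D : ℕ} {t : ℝ} : wt D t ≤ Real.exp (-(D * t ^ 2 / 2)) := by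
  unfold wt
  have h1 : 1 - t ^ 2 ≤ Real.exp (-t ^ 2) := by
    have := Real.add_one_le_exp (-t ^ 2)
    linarith
  have h2 : Real.sqrt (1 - t ^ 2) ≤ Real.exp (-t ^ 2 / 2) := by
    rw [Real.exp_half]
    exact Real.sqrt_le_sqrt h1
  calc Real.sqrt (1 - t ^ 2) ^ D ≤ Real.exp (-t ^ 2 / 2) ^ D :=
        pow_le_pow_left₀ (Real.sqrt_nonneg _) h2 D
    _ = _ := by rw [← Real.exp_nat_mul]; congr 1; ring

/-- the whole mass -/
lemma int_wt_lim : Tendsto (fun D : ℕ => Real.sqrt D * ∫ t in (-1 : ℝ)..1, wt D t) atTop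
    (𝓝 (Real.sqrt (2 * Real.pi))) := by
  have hg : ∫ x : ℝ, Real.exp (-(1 / 2) * x ^ 2) = Real.sqrt (2 * Real.pi) := by
    rw [integral_gaussian]; congr 1; ring
  rw [← hg]
  have hlim : Tendsto (fun D : ℕ => ∫ u : ℝ, wt D (u / Real.sqrt D)) atTop
      (𝓝 (∫ x : ℝ, Real.exp (-(1 / 2) * x ^ 2))) := by
    apply tendsto_integral_filter_of_dominated_convergence
      (fun x : ℝ => Real.exp (-(1 / 2) * x ^ 2))
    · exact Filter.Eventually.of_forall fun D =>
        ((continuous_wt D).comp (continuous_id.div_const _)).aestronglyMeasurable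
    · filter_upwards [eventually_ge_atTop 1] with D hD
      refine Filter.Eventually.of_forall fun u => ?_
      rw [Real.norm_of_nonneg (wt_nonneg _ _)]
      refine wt_le_exp.trans (le_of_eq ?_)
      have hD0 : (0 : ℝ) < D := by exact_mod_cast hD
      rw [div_pow, Real.sq_sqrt hD0.le]
      congr 1
      field_simp
    · exact integrable_exp_neg_mul_sq (by norm_num)
    · refine Filter.Eventually.of_forall fun u => ?_
      have h1 : Tendsto (fun D : ℕ => (1 + -u ^ 2 / D) ^ D) atTop (𝓝 (Real.exp (-u ^ 2))) :=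
        Real.tendsto_one_add_div_pow_exp _
      have h2 := h1.sqrt
      have e1 : Real.sqrt (Real.exp (-u ^ 2)) = Real.exp (-(1 / 2) * u ^ 2) := by
        rw [← Real.exp_half]; congr 1; ring
      rw [e1] at h2
      refine h2.congr' ?_
      filter_upwards [eventually_ge_atTop (max 1 ⌈u ^ 2⌉₊)] with D hD
      have hD1 : 1 ≤ D := (le_max_left _ _).trans hD
      have hD2 : ⌈u ^ 2⌉₊ ≤ D := (le_max_right _ _).trans hD
      have hD0 : (0 : ℝ) < D := by exact_mod_cast hD1
      have hu : u ^ 2 ≤ D := (Nat.le_ceil _).trans (by exact_mod_cast hD2)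
      have h3 : (1 : ℝ) + -u ^ 2 / D = 1 - (u / Real.sqrt D) ^ 2 := by
        rw [div_pow, Real.sq_sqrt hD0.le]; ring
      have h4 : 0 ≤ 1 - (u / Real.sqrt D) ^ 2 := by
        rw [div_pow, Real.sq_sqrt hD0.le]
        have : u ^ 2 / D ≤ 1 := by rw [div_le_one hD0]; exact hu
        linarith
      unfold wt
      rw [h3, Real.sqrt_eq_iff_mul_self_eq (by positivity) (by positivity), ← mul_pow,
        Real.mul_self_sqrt h4]
  refine hlim.congr' ?_
  filter_upwards [eventually_ge_atTop 1] with D hD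
  have hD0 : (0 : ℝ) < D := by exact_mod_cast hD
  rw [Measure.integral_comp_div (fun y => wt D y), abs_of_nonneg (Real.sqrt_nonneg _), smul_eq_mul]
  congr 1
  rw [intervalIntegral.integral_of_le (by norm_num)]
  symm
  apply setIntegral_eq_integral_of_forall_compl_eq_zero
  intro x hx
  apply wt_zero_of_le hD
  rw [mem_Ioc, not_and_or, not_lt, not_le] at hx
  rcases hx with h | h <;> nlinarith

/-- the mass of the cap -/
lemma int_cap_lim : Tendsto (fun D : ℕ => D * (2 / Real.sqrt 3) ^ D *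
    ∫ t in (1 / 2 : ℝ)..1, wt D t) atTop (𝓝 (3 / 2)) := by
  have hs3 : 0 < Real.sqrt 3 := Real.sqrt_pos.2 (by norm_num)
  have hg : ∫ x in Ioi (0 : ℝ), Real.exp (-(2 / 3) * x) = 3 / 2 := by
    rw [integral_exp_mul_Ioi (by norm_num)]
    norm_num
  rw [← hg]
  have hpt : ∀ {D : ℕ}, 1 ≤ D → ∀ v : ℝ, 0 ≤ v → (2 / Real.sqrt 3) ^ D * wt D (1 / 2 + v / D) =
      Real.sqrt (1 + -(4 / 3) * (v / D) - 4 / 3 * (v / D) ^ 2) ^ D := by
    intro D hD v hv
    unfold wt
    rw [← mul_pow]
    congr 1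
    have e1 : 2 / Real.sqrt 3 = Real.sqrt (4 / 3) := by
      rw [Real.sqrt_div (by norm_num), show (4 : ℝ) = 2 ^ 2 by norm_num,
        Real.sqrt_sq (by norm_num)]
    rw [e1, ← Real.sqrt_mul (by norm_num)]
    congr 1
    ring
  have hlim : Tendsto (fun D : ℕ => ∫ v in Ioi (0 : ℝ),
      (2 / Real.sqrt 3) ^ D * wt D (1 / 2 + v / D)) atTop
      (𝓝 (∫ x in Ioi (0 : ℝ), Real.exp (-(2 / 3) * x))) := by
    apply tendsto_integral_filter_of_dominated_convergence
      (fun x : ℝ => Real.exp (-(2 / 3) * x))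
    · exact Filter.Eventually.of_forall fun D =>
        (continuous_const.mul ((continuous_wt D).comp
          (continuous_const.add (continuous_id.div_const _)))).aestronglyMeasurable
    · filter_upwards [eventually_ge_atTop 1] with D hD
      rw [ae_restrict_iff' measurableSet_Ioi]
      refine Filter.Eventually.of_forall fun v hv => ?_
      have hv0 : 0 < v := hv
      have hD0 : (0 : ℝ) < D := by exact_mod_cast hD
      rw [Real.norm_of_nonneg (mul_nonneg (by positivity) (wt_nonneg _ _)), hpt hD v hv0.le]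
      have h1 : 1 + -(4 / 3) * (v / D) - 4 / 3 * (v / D) ^ 2 ≤ Real.exp (-(4 / 3) * (v / D)) := by
        have := Real.add_one_le_exp (-(4 / 3) * (v / D))
        have h2 : 0 ≤ (v / D) ^ 2 := by positivity
        linarith
      calc Real.sqrt (1 + -(4 / 3) * (v / D) - 4 / 3 * (v / D) ^ 2) ^ D ≤
            Real.sqrt (Real.exp (-(4 / 3) * (v / D))) ^ D :=
            pow_le_pow_left₀ (Real.sqrt_nonneg _) (Real.sqrt_le_sqrt h1) D
        _ = Real.exp (-(2 / 3) * v) := by
            rw [← Real.exp_half, ← Real.exp_nat_mul]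
            congr 1
            field_simp
            ring
    · exact integrableOn_exp_mul_Ioi (by norm_num) 0
    · rw [ae_restrict_iff' measurableSet_Ioi]
      refine Filter.Eventually.of_forall fun v hv => ?_
      have hv0 : 0 < v := hv
      have h0 : Tendsto (fun D : ℕ => v / (D : ℝ)) atTop (𝓝 0) :=
        tendsto_const_nhds.div_atTop tendsto_natCast_atTop_atTop
      have h1 : Tendsto (fun D : ℕ => (1 + (-(4 / 3) * (v / D) - 4 / 3 * (v / D) ^ 2)) ^ D) atTop
          (𝓝 (Real.exp (-(4 / 3) * v))) := by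
        apply Real.tendsto_one_add_pow_exp_of_tendsto
        have h2 : Tendsto (fun D : ℕ => -(4 / 3) * v - 4 / 3 * v * (v / (D : ℝ))) atTop
            (𝓝 (-(4 / 3) * v - 4 / 3 * v * 0)) := tendsto_const_nhds.sub (h0.const_mul _)
        rw [mul_zero, sub_zero] at h2
        refine h2.congr' ?_
        filter_upwards [eventually_ge_atTop 1] with D hD
        have hD0 : (0 : ℝ) < D := by exact_mod_cast hD
        field_simp
      have h2 := h1.sqrt
      have e1 : Real.sqrt (Real.exp (-(4 / 3) * v)) = Real.exp (-(2 / 3) * v) := by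
        rw [← Real.exp_half]; congr 1; ring
      rw [e1] at h2
      refine h2.congr' ?_
      have hsmall : ∀ᶠ D : ℕ in atTop, v / (D : ℝ) < 1 / 4 := h0.eventually_lt_const (by norm_num)
      filter_upwards [eventually_ge_atTop 1, hsmall] with D hD hD4
      have hD0 : (0 : ℝ) < D := by exact_mod_cast hD
      rw [hpt hD v hv0.le]
      have h3 : 0 ≤ v / (D : ℝ) := by positivity
      have h4 : 0 ≤ 1 + -(4 / 3) * (v / D) - 4 / 3 * (v / D) ^ 2 := by nlinarith
      have e2 : 1 + (-(4 / 3) * (v / D) - 4 / 3 * (v / D) ^ 2) =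
          1 + -(4 / 3) * (v / D) - 4 / 3 * (v / D) ^ 2 := by ring
      rw [e2, Real.sqrt_eq_iff_mul_self_eq (by positivity) (by positivity), ← mul_pow,
        Real.mul_self_sqrt h4]
  refine hlim.congr' ?_
  filter_upwards [eventually_ge_atTop 1] with D hD
  have hD0 : (0 : ℝ) < D := by exact_mod_cast hD
  rw [integral_const_mul]
  have h1 : ∫ v in Ioi (0 : ℝ), wt D (1 / 2 + v / D) = D * ∫ t in (1 / 2 : ℝ)..1, wt D t := by
    have h2 : ∫ v in Ioi (0 : ℝ), wt D (1 / 2 + v / D) =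
        ∫ v : ℝ, (Ioi (1 / 2 : ℝ)).indicator (wt D) (1 / 2 + v / D) := by
      rw [← integral_indicator measurableSet_Ioi]
      congr 1
      funext v
      by_cases hv : 0 < v
      · rw [indicator_of_mem (show v ∈ Ioi (0 : ℝ) from hv), indicator_of_mem]
        rw [mem_Ioi]
        have : 0 < v / D := by positivity
        linarith
      · rw [indicator_of_notMem (show v ∉ Ioi (0 : ℝ) from hv), indicator_of_notMem]
        rw [mem_Ioi, not_lt]
        have : v / D ≤ 0 := div_nonpos_of_nonpos_of_nonneg (not_lt.1 hv) hD0.le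
        linarith
    rw [h2]
    have h3 := Measure.integral_comp_div (fun y => (Ioi (1 / 2 : ℝ)).indicator (wt D) (1 / 2 + y))
      (D : ℝ)
    rw [h3, abs_of_nonneg hD0.le, smul_eq_mul]
    congr 1
    rw [integral_add_left_eq_self (fun y => (Ioi (1 / 2 : ℝ)).indicator (wt D) y) (1 / 2),
      integral_indicator measurableSet_Ioi, intervalIntegral.integral_of_le (by norm_num)]
    apply setIntegral_eq_of_subset_of_forall_sdiff_eq_zero measurableSet_Ioi Ioc_subset_Ioi_self
    intro x hx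
    obtain ⟨hx1, hx2⟩ := hx
    apply wt_zero_of_le hD
    have h4 : 1 < x := by
      by_contra hcon
      exact hx2 ⟨hx1, not_lt.1 hcon⟩
    nlinarith
  rw [h1]
  ring

/-- **The measure of the cap.** -/
theorem pc_asymp : Tendsto (fun d : ℕ => pc d * (Real.sqrt d * (2 / Real.sqrt 3) ^ d)) atTop
    (𝓝 (Real.sqrt (8 / (3 * Real.pi)))) := by
  rw [← tendsto_add_atTop_iff_nat 3]
  have hs3 : 0 < Real.sqrt 3 := Real.sqrt_pos.2 (by norm_num)
  have hpi := Real.pi_pos
  have h1 := (int_cap_lim.mul (int_wt_lim.inv₀ (by positivity)))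
  have h0 : Tendsto (fun D : ℕ => Real.sqrt (1 + 3 / (D : ℝ))) atTop (𝓝 1) := by
    have h2 : Tendsto (fun D : ℕ => 1 + 3 / (D : ℝ)) atTop (𝓝 (1 + 0)) :=
      tendsto_const_nhds.add (tendsto_const_nhds.div_atTop tendsto_natCast_atTop_atTop)
    rw [add_zero] at h2
    have := h2.sqrt
    rwa [Real.sqrt_one] at this
  have h2 := (h1.mul h0).mul_const ((2 / Real.sqrt 3) ^ 3)
  have e1 : 3 / 2 * (Real.sqrt (2 * Real.pi))⁻¹ * 1 * (2 / Real.sqrt 3) ^ 3 =
      Real.sqrt (8 / (3 * Real.pi)) := by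
    symm
    rw [Real.sqrt_eq_iff_mul_self_eq (by positivity) (by positivity)]
    have e2 : Real.sqrt (2 * Real.pi) ^ 2 = 2 * Real.pi := Real.sq_sqrt (by positivity)
    have e3 : Real.sqrt 3 ^ 2 = 3 := Real.sq_sqrt (by norm_num)
    have e4 : 3 / 2 * (Real.sqrt (2 * Real.pi))⁻¹ * 1 * (2 / Real.sqrt 3) ^ 3 *
        (3 / 2 * (Real.sqrt (2 * Real.pi))⁻¹ * 1 * (2 / Real.sqrt 3) ^ 3) =
        9 / 4 * (Real.sqrt (2 * Real.pi) ^ 2)⁻¹ * (64 / (Real.sqrt 3 ^ 2) ^ 3) := by
      field_simp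
      ring
    rw [e4, e2, e3]
    field_simp
    norm_num
  rw [e1] at h2
  refine h2.congr' ?_
  filter_upwards [eventually_ge_atTop 1] with D hD
  have hD0 : (0 : ℝ) < D := by exact_mod_cast hD
  rw [pc_eq]
  unfold cst
  simp only [Nat.add_sub_cancel]
  have e2 : Real.sqrt ((D + 3 : ℕ) : ℝ) = Real.sqrt D * Real.sqrt (1 + 3 / (D : ℝ)) := by
    rw [← Real.sqrt_mul hD0.le]
    congr 1
    push_cast
    field_simp
  have e3 : Real.sqrt D * Real.sqrt D = D := Real.mul_self_sqrt hD0.le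
  have hsD : Real.sqrt D ≠ 0 := (Real.sqrt_pos.2 hD0).ne'
  rw [e2, pow_add, mul_inv]
  set I := ∫ t in (-1 : ℝ)..1, wt D t with hI
  set J := ∫ t in (1 / 2 : ℝ)..1, wt D t with hJ
  have e4 : (D : ℝ) * (Real.sqrt D)⁻¹ = Real.sqrt D := by
    rw [← div_eq_mul_inv, div_eq_iff hsD, e3]
  calc (D : ℝ) * (2 / Real.sqrt 3) ^ D * J * ((Real.sqrt D)⁻¹ * I⁻¹) *
        Real.sqrt (1 + 3 / (D : ℝ)) * (2 / Real.sqrt 3) ^ 3
      = ((D : ℝ) * (Real.sqrt D)⁻¹) * (I⁻¹ * J) * (Real.sqrt (1 + 3 / (D : ℝ)) *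
        ((2 / Real.sqrt 3) ^ D * (2 / Real.sqrt 3) ^ 3)) := by ring
    _ = _ := by rw [e4]; ring

end Pool.Agent.Helper63.RKS
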