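import Pool.Agent.Helper63.RKS.Asm

/-!
The number of balls in the hard-core model is concentrated.
-/

set_option autoImplicit false

open MeasureTheory Set Metric ProbabilityTheory Filter Topology
open scoped ENNReal RealInnerProductSpace Nat
open Pool.Agent.Helper47.KP

namespace Pool.Agent.Helper63.RKS

open Pool.Agent.Helper84.RK Pool.Agent.Helper49.EJ

/-- Chernoff bound for the weights, for the tilt `a` of any sign -/
lemma tail_le {P : ℕ → ℝ} (h0 : ∀ k, 0 ≤ P k) (h1 : ∀ k, P k ≤ 1) {lam : ℝ} (hl : 0 < lam)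
    (a m : ℝ) (S : Set ℕ) [DecidablePred (· ∈ S)] (hS : ∀ k ∈ S, a * m ≤ a * k) :
    ∑' k : ℕ, (if k ∈ S then Pool.Agent.Helper49.EJ.wt P lam k else 0) ≤
      Real.exp (-(a * m)) * ZZ P (lam * Real.exp a) := by
  have hle : 0 < lam * Real.exp a := by positivity
  have hs := summable_wt h0 h1 hl.le
  have hs3 : Summable (Pool.Agent.Helper49.EJ.wt P (lam * Real.exp a)) := summable_wt h0 h1 hle.le
  have hterm : ∀ k : ℕ, (if k ∈ S then Pool.Agent.Helper49.EJ.wt P lam k else 0) ≤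
      Real.exp (-(a * m)) * Pool.Agent.Helper49.EJ.wt P (lam * Real.exp a) k := by
    intro k
    have h2 : Pool.Agent.Helper49.EJ.wt P (lam * Real.exp a) k =
        Real.exp (a * k) * Pool.Agent.Helper49.EJ.wt P lam k := by
      unfold Pool.Agent.Helper49.EJ.wt
      have h3 : Real.exp (a * k) = Real.exp a ^ k := by
        rw [mul_comm, Real.exp_nat_mul]
      rw [h3, mul_pow]
      ring
    have h6 := wt_nonneg h0 hl.le (P := P) (lam := lam) k
    rw [h2, ← mul_assoc, ← Real.exp_add]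
    split_ifs with hk
    · apply le_mul_of_one_le_left h6
      apply Real.one_le_exp
      have := hS k hk
      linarith
    · exact mul_nonneg (Real.exp_pos _).le h6
  have hsS : Summable fun k : ℕ => (if k ∈ S then Pool.Agent.Helper49.EJ.wt P lam k else 0) := by
    refine Summable.of_nonneg_of_le (fun k => ?_) (fun k => ?_) hs
    · split_ifs
      · exact wt_nonneg h0 hl.le k
      · exact le_rfl
    · split_ifs
      · exact le_rfl
      · exact wt_nonneg h0 hl.le k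
  calc _ ≤ ∑' k, Real.exp (-(a * m)) * Pool.Agent.Helper49.EJ.wt P (lam * Real.exp a) k :=
        hsS.tsum_le_tsum hterm (hs3.mul_left _)
    _ = _ := by rw [tsum_mul_left]; rfl

open Classical in
/-- **The number of balls.** -/
theorem number {s₁ s₂ : ℝ} (h1 : Real.logb 2 (2 / Real.sqrt 3) < s₁) (h2 : s₂ < sT)
    (h12 : s₁ ≤ s₂) {ε : ℝ} (hε : 0 < ε) (hε1 : ε < 1) :
    ∀ᶠ d : ℕ in atTop, 4 ≤ d ∧ ∀ lam : ℝ, (2 : ℝ) ^ (s₁ * d) ≤ lam → lam ≤ 2 ^ (s₂ * d) →
      ∑' k : ℕ, (if ε * (Real.log (lam * pc d) / pc d) ≤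
        |(k : ℝ) - Real.log (lam * pc d) / pc d| then Pool.Agent.Helper49.EJ.wt (kp d) lam k else 0) ≤
      2 * Real.exp (-(ε / 8 * (min (ε / 4) (min ((s₁ - Real.logb 2 (2 / Real.sqrt 3)) / 2)
        ((sT - s₂) / 2))) * Real.log (lam * pc d) ^ 2 / pc d)) * ZZ (kp d) lam := by
  set s0 := Real.logb 2 (2 / Real.sqrt 3) with hs0
  have hl2 : 0 < Real.log 2 := Real.log_pos (by norm_num)
  have hs0p : 0 < s0 := W_pos
  have hs3u := sT_le
  have hs31 := sT_lt_one
  -- the step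
  set θ : ℝ := min (ε / 4) (min ((s₁ - s0) / 2) ((sT - s₂) / 2)) with hθ
  have hθ0 : 0 < θ := by
    rw [hθ]
    exact lt_min (by positivity) (lt_min (by linarith) (by linarith))
  have hθε : θ ≤ ε / 4 := min_le_left _ _
  have hθ1 : θ ≤ (s₁ - s0) / 2 := (min_le_right _ _).trans (min_le_left _ _)
  have hθ2 : θ ≤ (sT - s₂) / 2 := (min_le_right _ _).trans (min_le_right _ _)
  have hθl : θ < 1 / 4 := by linarith
  set e : ℝ := θ ^ 2 with he
  have he0 : 0 < e := by rw [he]; positivity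
  have he1 : e < 1 := by rw [he]; nlinarith
  obtain ⟨c, hc, hcev⟩ := log_np h1
  have hev : ∀ᶠ d : ℕ in atTop, 1 ≤ c * Real.log 2 * d := by
    have := (tendsto_natCast_atTop_atTop (R := ℝ)).const_mul_atTop (mul_pos hc hl2)
    exact this.eventually_ge_atTop _
  filter_upwards [Z_upper (s₁ := s₁ - θ) (s₂ := s₂ + θ) (by linarith) (by linarith) he0 he1,
    Z_lower (s₁ := s₁ - θ) (s₂ := s₂ + θ) (by linarith) (by linarith) (by linarith) he0 he1,
    hcev, hev] with d hU hL' hnp hbig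
  obtain ⟨hd4, hU⟩ := hU
  obtain ⟨-, hLo⟩ := hL'
  refine ⟨hd4, fun lam hlam1 hlam2 => ?_⟩
  have : NeZero d := ⟨by omega⟩
  have hp := pc_pos hd4
  have hp1 : pc d ≤ 1 := pc_le_one (by omega)
  have hlam0 : 0 < lam := lt_of_lt_of_le (by positivity) hlam1
  have hd0 : (0 : ℝ) ≤ d := Nat.cast_nonneg d
  obtain ⟨-, hlog⟩ := hnp lam hlam1
  set p := pc d with hpd
  set L := Real.log (lam * p) with hL
  have hL1 : 1 ≤ L := hbig.trans hlog
  have hLd : L ≤ Real.log 2 * d := by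
    have h3 : lam * p ≤ 2 ^ ((1 : ℝ) * d) := by
      calc lam * p ≤ 2 ^ (s₂ * d) * 1 := mul_le_mul hlam2 hp1 hp.le (by positivity)
        _ ≤ 2 ^ ((1 : ℝ) * d) := by
            rw [mul_one]
            apply Real.rpow_le_rpow_of_exponent_le (by norm_num)
            apply mul_le_mul_of_nonneg_right _ hd0
            linarith
    have h4 := Real.log_le_log (by positivity) h3
    rw [Real.log_rpow (by norm_num), one_mul] at h4
    linarith
  have hexp : Real.exp (θ * L) ≤ 2 ^ (θ * d) := by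
    rw [Real.rpow_def_of_pos (by norm_num)]
    apply Real.exp_le_exp.2
    nlinarith
  have hexp1 : 1 ≤ Real.exp (θ * L) := Real.one_le_exp (by positivity)
  have hexpm : (2 : ℝ) ^ (-θ * d) ≤ Real.exp (-(θ * L)) := by
    rw [Real.rpow_def_of_pos (by norm_num)]
    apply Real.exp_le_exp.2
    nlinarith
  have hexpm1 : Real.exp (-(θ * L)) ≤ 1 := by
    rw [Real.exp_le_one_iff]
    have : 0 ≤ θ * L := by positivity
    linarith
  have hup1 : (2 : ℝ) ^ ((s₁ - θ) * d) ≤ 2 ^ (s₁ * d) := by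
    apply Real.rpow_le_rpow_of_exponent_le (by norm_num)
    nlinarith
  have hup2 : (2 : ℝ) ^ (s₂ * d) ≤ 2 ^ ((s₂ + θ) * d) := by
    apply Real.rpow_le_rpow_of_exponent_le (by norm_num)
    nlinarith
  have hZl := hLo lam (hup1.trans hlam1) (hlam2.trans hup2)
  have hlamr : (2 : ℝ) ^ ((s₁ - θ) * d) ≤ lam * Real.exp (-(θ * L)) := by
    calc (2 : ℝ) ^ ((s₁ - θ) * d) = 2 ^ (s₁ * d) * 2 ^ (-θ * d) := by
          rw [← Real.rpow_add (by norm_num)]; congr 1; ring
      _ ≤ lam * Real.exp (-(θ * L)) := mul_le_mul hlam1 hexpm (by positivity) hlam0.le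
  have hlamr2 : lam * Real.exp (-(θ * L)) ≤ 2 ^ ((s₂ + θ) * d) :=
    (mul_le_of_le_one_right hlam0.le hexpm1).trans (hlam2.trans hup2)
  have hZm := hU _ hlamr hlamr2
  have hlogm : Real.log (lam * Real.exp (-(θ * L)) * p) = (1 - θ) * L := by
    rw [show lam * Real.exp (-(θ * L)) * p = lam * p * Real.exp (-(θ * L)) by ring,
      Real.log_mul (by positivity) (Real.exp_pos _).ne', Real.log_exp]
    ring
  rw [hlogm] at hZm
  have hlamr3 : (2 : ℝ) ^ ((s₁ - θ) * d) ≤ lam * Real.exp (θ * L) :=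
    (hup1.trans hlam1).trans (le_mul_of_one_le_right hlam0.le hexp1)
  have hlamr4 : lam * Real.exp (θ * L) ≤ 2 ^ ((s₂ + θ) * d) := by
    calc lam * Real.exp (θ * L) ≤ 2 ^ (s₂ * d) * 2 ^ (θ * d) :=
          mul_le_mul hlam2 hexp (by positivity) (by positivity)
      _ = 2 ^ ((s₂ + θ) * d) := by
          rw [← Real.rpow_add (by norm_num)]; congr 1; ring
  have hZp := hU _ hlamr3 hlamr4
  have hlogp : Real.log (lam * Real.exp (θ * L) * p) = (1 + θ) * L := by
    rw [show lam * Real.exp (θ * L) * p = lam * p * Real.exp (θ * L) by ring,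
      Real.log_mul (by positivity) (Real.exp_pos _).ne', Real.log_exp]
    ring
  rw [hlogp] at hZp
  -- the partition functions are positive
  have hZ0 : 0 < ZZ (kp d) lam :=
    lt_of_lt_of_le one_pos (one_le_ZZ (kp_nonneg d) (kp_le_one d) (kp_zero d) hlam0.le)
  have hZm0 : 0 < ZZ (kp d) (lam * Real.exp (-(θ * L))) := lt_of_lt_of_le one_pos
    (one_le_ZZ (kp_nonneg d) (kp_le_one d) (kp_zero d) (by positivity))
  have hZp0 : 0 < ZZ (kp d) (lam * Real.exp (θ * L)) := lt_of_lt_of_le one_pos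
    (one_le_ZZ (kp_nonneg d) (kp_le_one d) (kp_zero d) (by positivity))
  set Λ : ℝ := L / p with hΛ
  have hΛ0 : 0 < Λ := by rw [hΛ]; positivity
  -- the two tails
  have e1 := tail_le (P := kp d) (kp_nonneg d) (kp_le_one d) hlam0 (θ * L) ((1 + ε) * Λ)
    {k : ℕ | (1 + ε) * Λ ≤ k} (fun k hk => mul_le_mul_of_nonneg_left hk (by positivity))
  have e2 := tail_le (P := kp d) (kp_nonneg d) (kp_le_one d) hlam0 (-(θ * L)) ((1 - ε) * Λ)
    {k : ℕ | (k : ℝ) ≤ (1 - ε) * Λ} (fun k hk => by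
      have : θ * L * k ≤ θ * L * ((1 - ε) * Λ) := mul_le_mul_of_nonneg_left hk (by positivity)
      linarith)
  set E : ℝ := Real.exp (-(ε / 8 * θ * L ^ 2 / p)) with hE
  have hθ3 : 0 < θ * ε := by positivity
  have hθsq : θ ^ 2 ≤ θ * (ε / 4) := by
    rw [sq]; exact mul_le_mul_of_nonneg_left hθε hθ0.le
  have hθcu : θ ^ 3 ≤ θ * (ε / 4) := by nlinarith
  have hθqu : θ ^ 4 ≤ θ * (ε / 4) := by nlinarith
  have b1 : Real.exp (-(θ * L * ((1 + ε) * Λ))) * ZZ (kp d) (lam * Real.exp (θ * L)) ≤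
      E * ZZ (kp d) lam := by
    rw [← Real.exp_log hZp0, ← Real.exp_log hZ0, ← Real.exp_add, hE, ← Real.exp_add]
    apply Real.exp_le_exp.2
    have h3 : -(θ * L * ((1 + ε) * Λ)) + (1 + e) * ((1 + θ) * L) ^ 2 / (2 * p) ≤
        -(ε / 8 * θ * L ^ 2 / p) + (1 - e) * L ^ 2 / (2 * p) := by
      have h4 : -(θ * L * ((1 + ε) * Λ)) + (1 + e) * ((1 + θ) * L) ^ 2 / (2 * p) =
          (-(2 * θ * (1 + ε)) + (1 + e) * (1 + θ) ^ 2) * (L ^ 2 / (2 * p)) := by
        rw [hΛ]; field_simp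
      have h5 : -(ε / 8 * θ * L ^ 2 / p) + (1 - e) * L ^ 2 / (2 * p) =
          (-(ε / 4 * θ) + (1 - e)) * (L ^ 2 / (2 * p)) := by field_simp; ring
      rw [h4, h5]
      apply mul_le_mul_of_nonneg_right _ (by positivity)
      rw [he]
      have e3 : -(2 * θ * (1 + ε)) + (1 + θ ^ 2) * (1 + θ) ^ 2 =
          1 - 2 * (θ * ε) + 2 * θ ^ 2 + 2 * θ ^ 3 + θ ^ 4 := by ring
      rw [e3]
      linarith
    linarith
  have b2 : Real.exp (-(-(θ * L) * ((1 - ε) * Λ))) * ZZ (kp d) (lam * Real.exp (-(θ * L))) ≤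
      E * ZZ (kp d) lam := by
    rw [← Real.exp_log hZm0, ← Real.exp_log hZ0, ← Real.exp_add, hE, ← Real.exp_add]
    apply Real.exp_le_exp.2
    have h3 : -(-(θ * L) * ((1 - ε) * Λ)) + (1 + e) * ((1 - θ) * L) ^ 2 / (2 * p) ≤
        -(ε / 8 * θ * L ^ 2 / p) + (1 - e) * L ^ 2 / (2 * p) := by
      have h4 : -(-(θ * L) * ((1 - ε) * Λ)) + (1 + e) * ((1 - θ) * L) ^ 2 / (2 * p) =
          ((2 * θ * (1 - ε)) + (1 + e) * (1 - θ) ^ 2) * (L ^ 2 / (2 * p)) := by
        rw [hΛ]; field_simp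
      have h5 : -(ε / 8 * θ * L ^ 2 / p) + (1 - e) * L ^ 2 / (2 * p) =
          (-(ε / 4 * θ) + (1 - e)) * (L ^ 2 / (2 * p)) := by field_simp; ring
      rw [h4, h5]
      apply mul_le_mul_of_nonneg_right _ (by positivity)
      rw [he]
      have e3 : (2 * θ * (1 - ε)) + (1 + θ ^ 2) * (1 - θ) ^ 2 =
          1 - 2 * (θ * ε) + 2 * θ ^ 2 - 2 * θ ^ 3 + θ ^ 4 := by ring
      rw [e3]
      have : 0 < θ ^ 3 := by positivity
      linarith
    linarith
  have hs := summable_wt (kp_nonneg d) (kp_le_one d) hlam0.le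
  have hsS : ∀ S : Set ℕ, Summable fun k : ℕ =>
      (if k ∈ S then Pool.Agent.Helper49.EJ.wt (kp d) lam k else 0) := by
    intro S
    refine Summable.of_nonneg_of_le (fun k => ?_) (fun k => ?_) hs
    · split_ifs
      · exact wt_nonneg (kp_nonneg d) hlam0.le k
      · exact le_rfl
    · split_ifs
      · exact le_rfl
      · exact wt_nonneg (kp_nonneg d) hlam0.le k
  have hsum : ∑' k : ℕ, (if ε * Λ ≤ |(k : ℝ) - Λ| then
      Pool.Agent.Helper49.EJ.wt (kp d) lam k else 0) ≤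
      ∑' k : ℕ, ((if k ∈ {k : ℕ | (1 + ε) * Λ ≤ k} then
        Pool.Agent.Helper49.EJ.wt (kp d) lam k else 0) +
      (if k ∈ {k : ℕ | (k : ℝ) ≤ (1 - ε) * Λ} then
        Pool.Agent.Helper49.EJ.wt (kp d) lam k else 0)) := by
    refine Summable.tsum_le_tsum (fun k => ?_) (hsS {k | ε * Λ ≤ |(k : ℝ) - Λ|})
      ((hsS _).add (hsS _))
    have hw := wt_nonneg (kp_nonneg d) hlam0.le (P := kp d) (lam := lam) k
    by_cases hk : ε * Λ ≤ |(k : ℝ) - Λ|
    · rw [if_pos hk]
      rcases le_abs.1 hk with h | h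
      · rw [if_pos (show k ∈ {k : ℕ | (1 + ε) * Λ ≤ k} by
          show (1 + ε) * Λ ≤ k
          linarith)]
        split_ifs <;> linarith
      · rw [if_pos (show k ∈ {k : ℕ | (k : ℝ) ≤ (1 - ε) * Λ} by
          show (k : ℝ) ≤ (1 - ε) * Λ
          linarith)]
        split_ifs <;> linarith
    · rw [if_neg hk]
      split_ifs <;> linarith
  rw [(hsS _).tsum_add (hsS _)] at hsum
  linarith

open Classical in
/-- **The number of balls, with the constants.** -/
theorem number_sharp (hcap : CapAsymp) {s₁ s₂ : ℝ} (h1 : Real.logb 2 (2 / Real.sqrt 3) < s₁)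
    (h2 : s₂ < sT) {ε : ℝ} (hε : 0 < ε) : ∃ δ : ℝ, 0 < δ ∧ ∀ᶠ d : ℕ in atTop, ∀ s : ℝ, s₁ ≤ s →
      s ≤ s₂ →
      ∑' k : ℕ, (if ε * ord d ≤ |(k : ℝ) - AA * (s - Real.logb 2 (2 / Real.sqrt 3)) * ord d| then
        Pool.Agent.Helper49.EJ.wt (kp d) (2 ^ (s * d)) k else 0) ≤
      Real.exp (-(δ * (d * ord d))) * ZZ (kp d) (2 ^ (s * d)) := by
  rcases lt_or_ge s₂ s₁ with h12 | h12
  · refine ⟨1, one_pos, ?_⟩
    filter_upwards with d s hs1 hs2
    exfalso; linarith
  set s0 := Real.logb 2 (2 / Real.sqrt 3) with hs0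
  have hs0p : 0 < s0 := W_pos
  have hs31 := sT_lt_one
  have hl2 : 0 < Real.log 2 := Real.log_pos (by norm_num)
  have hl21 : Real.log 2 ≤ 1 := by have := Real.log_two_lt_d9; linarith
  have hl22 : (1 : ℝ) / 2 ≤ Real.log 2 := by
    have := Real.log_two_gt_d9
    norm_num at this ⊢
    linarith
  have hA := AA_pos
  have hA1 := AA_le_one
  set ε' : ℝ := min (ε / 4) (1 / 2) with hε'
  have hε'0 : 0 < ε' := by rw [hε']; positivity
  have hε'1 : ε' ≤ ε / 4 := min_le_left _ _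
  have hε'2 : ε' ≤ 1 / 2 := min_le_right _ _
  set e : ℝ := min (ε / 16) (min (AA / 2) ((s₁ - s0) / 2)) with he
  have he0 : 0 < e := by
    rw [he]
    exact lt_min (by positivity) (lt_min (by positivity) (by linarith))
  have heε : e ≤ ε / 16 := min_le_left _ _
  have heA : e ≤ AA / 2 := (min_le_right _ _).trans (min_le_left _ _)
  have hes : e ≤ (s₁ - s0) / 2 := (min_le_right _ _).trans (min_le_right _ _)
  set θ : ℝ := min (ε' / 4) (min ((s₁ - s0) / 2) ((sT - s₂) / 2)) with hθ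
  have hθ0 : 0 < θ := by
    rw [hθ]
    exact lt_min (by positivity) (lt_min (by linarith) (by linarith))
  set t₁ : ℝ := (s₁ - s0) / 2 with ht1
  have ht10 : 0 < t₁ := by rw [ht1]; linarith
  set δ : ℝ := ε' / 8 * θ * t₁ ^ 2 * (1 / 2) * (AA / 2) with hδ
  have hδ0 : 0 < δ := by rw [hδ]; positivity
  refine ⟨δ / 2, by positivity, ?_⟩
  have hev : ∀ᶠ d : ℕ in atTop, 2 / δ ≤ d :=
    (tendsto_natCast_atTop_atTop (R := ℝ)).eventually_ge_atTop _
  filter_upwards [number (s₁ := s₁) (s₂ := s₂) h1 h2 h12 hε'0 (by linarith),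
    RR_close hcap he0, log_close he0, hev] with d hm hR hlog hbig s hs1 hs2
  obtain ⟨hd4, hm⟩ := hm
  obtain ⟨hR1, hR2⟩ := hR
  obtain ⟨hL1, hL2⟩ := hlog s
  have : NeZero d := ⟨by omega⟩
  have hp := pc_pos hd4
  have hd0 : (0 : ℝ) < d := by exact_mod_cast (by omega : 0 < d)
  have hs1' : (2 : ℝ) ^ (s₁ * d) ≤ 2 ^ (s * d) :=
    Real.rpow_le_rpow_of_exponent_le (by norm_num) (mul_le_mul_of_nonneg_right hs1 hd0.le)
  have hs2' : (2 : ℝ) ^ (s * d) ≤ 2 ^ (s₂ * d) :=
    Real.rpow_le_rpow_of_exponent_le (by norm_num) (mul_le_mul_of_nonneg_right hs2 hd0.le)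
  have hm := hm _ hs1' hs2'
  set p := pc d with hpd
  set lam : ℝ := (2 : ℝ) ^ (s * d) with hlam
  have hlam0 : 0 < lam := by rw [hlam]; positivity
  set L := Real.log (lam * p) with hL
  set t : ℝ := s - s0 with ht
  set o := ord d with ho
  have ho0 : 0 < o := ord_pos (by omega)
  have ho1 : 1 ≤ o := by
    have h3 := self_le_ord (d := d) (by omega)
    have h4 : (1 : ℝ) ≤ d := by exact_mod_cast (by omega : 1 ≤ d)
    exact h4.trans h3
  have ht0 : 0 < t := by rw [ht]; linarith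
  have ht1' : t ≤ 1 := by rw [ht]; linarith
  set D : ℝ := Real.log 2 * d with hD
  have hD0 : 0 < D := mul_pos hl2 hd0
  set τ : ℝ := L / D with hτ
  have hLτ : L = τ * D := by rw [hτ]; field_simp
  have hτ1 : t - e ≤ τ := by
    rw [hτ, le_div_iff₀ hD0]; exact hL1
  have hτ2 : τ ≤ t := by
    rw [hτ, div_le_iff₀ hD0]; exact hL2
  have hRp : D / p = RR d := by
    rw [hD]; unfold RR; rw [← hpd]; ring
  have hR0 : 0 ≤ RR d := by
    unfold RR; positivity
  have hRo : RR d ≤ 2 * o := hR2.trans (mul_le_mul_of_nonneg_right (by linarith) ho0.le)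
  have hRo2 : AA / 2 * o ≤ RR d := by
    refine le_trans ?_ hR1
    exact mul_le_mul_of_nonneg_right (by linarith) ho0.le
  have hτt : t₁ ≤ τ := by rw [ht1]; linarith
  have hΛ : L / p = τ * RR d := by rw [hLτ, ← hRp]; ring
  -- the centre
  have hc1 : |τ * RR d - AA * t * o| ≤ ε / 4 * o := by
    rw [abs_le]
    constructor
    · have h3 : (t - e) * RR d ≤ τ * RR d := mul_le_mul_of_nonneg_right hτ1 hR0
      have h4 : t * ((AA - e) * o) ≤ t * RR d := mul_le_mul_of_nonneg_left hR1 ht0.le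
      have h5 : e * RR d ≤ e * (2 * o) := mul_le_mul_of_nonneg_left hRo he0.le
      have h6 : t * (e * o) ≤ 1 * (e * o) := mul_le_mul_of_nonneg_right ht1' (by positivity)
      have h7 : e * o ≤ ε / 16 * o := mul_le_mul_of_nonneg_right heε ho0.le
      have e3 : t * ((AA - e) * o) = AA * t * o - t * (e * o) := by ring
      have e4 : (t - e) * RR d = t * RR d - e * RR d := by ring
      have h8 : 0 < ε / 16 * o := by positivity
      linarith
    · have h3 : τ * RR d ≤ t * RR d := mul_le_mul_of_nonneg_right hτ2 hR0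
      have h4 : t * RR d ≤ t * ((AA + e) * o) := mul_le_mul_of_nonneg_left hR2 ht0.le
      have h6 : t * (e * o) ≤ 1 * (e * o) := mul_le_mul_of_nonneg_right ht1' (by positivity)
      have h7 : e * o ≤ ε / 16 * o := mul_le_mul_of_nonneg_right heε ho0.le
      have e3 : t * ((AA + e) * o) = AA * t * o + t * (e * o) := by ring
      have h8 : 0 < ε / 16 * o := by positivity
      linarith
  have hΛo : L / p ≤ 2 * o := by
    rw [hΛ]
    calc τ * RR d ≤ 1 * (2 * o) := mul_le_mul (by linarith) hRo hR0 (by norm_num)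
      _ = 2 * o := one_mul _
  have hs := summable_wt (kp_nonneg d) (kp_le_one d) hlam0.le
  have hsS : ∀ S : Set ℕ, Summable fun k : ℕ =>
      (if k ∈ S then Pool.Agent.Helper49.EJ.wt (kp d) lam k else 0) := by
    intro S
    refine Summable.of_nonneg_of_le (fun k => ?_) (fun k => ?_) hs
    · split_ifs
      · exact wt_nonneg (kp_nonneg d) hlam0.le k
      · exact le_rfl
    · split_ifs
      · exact le_rfl
      · exact wt_nonneg (kp_nonneg d) hlam0.le k
  have hsum : ∑' k : ℕ, (if ε * o ≤ |(k : ℝ) - AA * t * o| then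
      Pool.Agent.Helper49.EJ.wt (kp d) lam k else 0) ≤
      ∑' k : ℕ, (if ε' * (L / p) ≤ |(k : ℝ) - L / p| then
        Pool.Agent.Helper49.EJ.wt (kp d) lam k else 0) := by
    refine Summable.tsum_le_tsum (fun k => ?_) (hsS {k | ε * o ≤ |(k : ℝ) - AA * t * o|})
      (hsS {k | ε' * (L / p) ≤ |(k : ℝ) - L / p|})
    have hw := wt_nonneg (kp_nonneg d) hlam0.le (P := kp d) (lam := lam) k
    by_cases hk : ε * o ≤ |(k : ℝ) - AA * t * o|
    · rw [if_pos hk, if_pos]
      have h3 : |(k : ℝ) - AA * t * o| ≤ |(k : ℝ) - L / p| + |τ * RR d - AA * t * o| := by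
        rw [hΛ]
        have := abs_add_le ((k : ℝ) - τ * RR d) (τ * RR d - AA * t * o)
        have e3 : (k : ℝ) - τ * RR d + (τ * RR d - AA * t * o) = k - AA * t * o := by ring
        rwa [e3] at this
      have h4 : ε' * (L / p) ≤ ε / 4 * (2 * o) := by
        have h5 : 0 ≤ L / p := by
          rw [hΛ]
          exact mul_nonneg (by linarith) hR0
        exact mul_le_mul hε'1 hΛo h5 (by positivity)
      have h8 : 0 < ε * o := by positivity
      linarith
    · rw [if_neg hk]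
      split_ifs <;> linarith
  refine hsum.trans (hm.trans ?_)
  have hZ0 : 0 ≤ ZZ (kp d) lam := by
    have := one_le_ZZ (kp_nonneg d) (kp_le_one d) (kp_zero d) hlam0.le
    linarith
  apply mul_le_mul_of_nonneg_right _ hZ0
  -- the exponent
  have h3 : δ * (d * o) ≤ ε' / 8 * θ * L ^ 2 / p := by
    have e3 : ε' / 8 * θ * L ^ 2 / p = ε' / 8 * θ * (τ ^ 2 * D * RR d) := by
      rw [hLτ, ← hRp]; ring
    rw [e3]
    have h4 : t₁ ^ 2 * (1 / 2 * d) * (AA / 2 * o) ≤ τ ^ 2 * D * RR d := by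
      apply mul_le_mul _ hRo2 (by positivity) (by positivity)
      apply mul_le_mul (pow_le_pow_left₀ ht10.le hτt 2) _ (by positivity) (by positivity)
      exact mul_le_mul_of_nonneg_right hl22 hd0.le
    calc δ * (d * o) = ε' / 8 * θ * (t₁ ^ 2 * (1 / 2 * d) * (AA / 2 * o)) := by rw [hδ]; ring
      _ ≤ _ := mul_le_mul_of_nonneg_left h4 (by positivity)
  have h4 : 1 ≤ δ / 2 * (d * o) := by
    rw [div_le_iff₀ hδ0] at hbig
    have h5 : (1 : ℝ) ≤ δ / 2 * d := by linarith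
    calc (1 : ℝ) ≤ (δ / 2 * d) * 1 := by linarith
      _ ≤ (δ / 2 * d) * o := mul_le_mul_of_nonneg_left ho1 (by linarith)
      _ = _ := by ring
  have h5 : (2 : ℝ) ≤ Real.exp 1 := by have := Real.add_one_le_exp (1 : ℝ); linarith
  calc 2 * Real.exp (-(ε' / 8 * θ * L ^ 2 / p)) ≤ Real.exp 1 * Real.exp (-(δ * (d * o))) := by
        apply mul_le_mul h5 (Real.exp_le_exp.2 (by linarith)) (Real.exp_pos _).le
          (Real.exp_pos _).le
    _ = Real.exp (1 + -(δ * (d * o))) := by rw [Real.exp_add]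
    _ ≤ Real.exp (-(δ / 2 * (d * o))) := by
        apply Real.exp_le_exp.2
        have : δ * (d * o) = δ / 2 * (d * o) + δ / 2 * (d * o) := by ring
        linarith

end Pool.Agent.Helper63.RKS
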