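import Pool.Agent.Helper84.RK.Num
import Pool.Agent.Helper49.EJ.Cap

/-!
Supersaturation for conflicts at a general angle: `x` and `y` are in conflict if `⟪x, y⟫ > α`.
-/

set_option autoImplicit false

open MeasureTheory Set Metric Polynomial
open scoped RealInnerProductSpace ENNReal

namespace Pool.Agent.Helper63.RKS

open Pool.Agent.Helper47.KP Pool.Agent.Helper49.EJ Pool.Agent.Helper84.RK

variable {d : ℕ}

/-- two points of the sphere are in conflict if their inner product exceeds `α` -/
def RA (α : ℝ) (x y : Sph d) : Prop := α < ⟪(x : EE d), (y : EE d)⟫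

/-- indicator of the cap -/
noncomputable def capA (α t : ℝ) : ℝ := if α < t then 1 else 0

lemma measurable_capA (α : ℝ) : Measurable (capA α) :=
  Measurable.ite measurableSet_Ioi measurable_const measurable_const

lemma capA_sq (α t : ℝ) : capA α t ^ 2 = capA α t := by
  unfold capA; split_ifs <;> norm_num

lemma capA_nonneg (α t : ℝ) : 0 ≤ capA α t := by
  unfold capA; split_ifs <;> norm_num

lemma capA_le (α t : ℝ) : capA α t ≤ 1 := by
  unfold capA; split_ifs <;> norm_num

/-- the measure of the cap -/
noncomputable def pA (α : ℝ) (d : ℕ) : ℝ := ∫ t, capA α t ∂(den d)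

lemma pA_eq (α : ℝ) (d : ℕ) : pA α d = (den d).real (Ioi α) := by
  unfold pA
  have h1 : ∀ t, capA α t = (Ioi α).indicator (fun _ => (1 : ℝ)) t := by
    intro t
    unfold capA
    by_cases ht : α < t
    · rw [if_pos ht, indicator_of_mem (show t ∈ Ioi α from ht)]
    · rw [if_neg ht, indicator_of_notMem (show t ∉ Ioi α from ht)]
  simp only [h1]
  rw [integral_indicator_const _ measurableSet_Ioi]
  simp

lemma measurable_RA (α : ℝ) : MeasurableSet {p : Sph d × Sph d | RA α p.1 p.2} :=
  (isOpen_Ioi.preimage continuous_inner2).measurableSet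

/-- the coefficients of the cap are bounded below -/
lemma coefA_ge [NeZero d] {α : ℝ} (hp : 0 < pA α d) {κ ε : ℝ}
    (hpos : ∀ j : ℕ, (j : ℝ) ≤ κ * d → ∀ t : ℝ, α ≤ t → 0 < (PP d j).eval t)
    (hε : 0 < ε) (hnrm : ∀ j : ℕ, κ * d < (j : ℝ) → nrm d j ≤ ε ^ 2 * pA α d)
    (j : ℕ) :
    -ε ≤ ∫ t, (capA α t / pA α d) * (PP d j).eval t ∂(den d) := by
  by_cases hjJ : (j : ℝ) ≤ κ * d
  · have h0 : 0 ≤ ∫ t, (capA α t / pA α d) * (PP d j).eval t ∂(den d) := by
      apply integral_nonneg
      intro t
      simp only [Pi.zero_apply]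
      by_cases ht : α < t
      · have := hpos j hjJ t ht.le
        exact mul_nonneg (div_nonneg (capA_nonneg α t) hp.le) this.le
      · unfold capA; rw [if_neg ht]; simp
    linarith
  · push Not at hjJ
    obtain ⟨C, hC0, hC⟩ := exists_bd_PP (d := d) j
    set c := ε * pA α d with hc
    have hc0 : 0 < c := mul_pos hε hp
    have hi1 : Integrable (fun t => (capA α t / pA α d) * (PP d j).eval t) (den d) := by
      refine integrable_den_of_bound (C := 1 / pA α d * C)
        (((measurable_capA α).div_const _).mul (PP d j).continuous.measurable) fun t ht => ?_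
      rw [abs_mul]
      apply mul_le_mul _ (hC t ht) (abs_nonneg _) (by positivity)
      rw [abs_of_nonneg (div_nonneg (capA_nonneg α t) hp.le)]
      exact div_le_div_of_nonneg_right (capA_le α t) hp.le
    have hia : Integrable (fun t => c * (capA α t / pA α d ^ 2)) (den d) := by
      refine integrable_den_of_bound (C := c * (1 / pA α d ^ 2))
        (((measurable_capA α).div_const _).const_mul _) fun t _ => ?_
      rw [abs_of_nonneg (mul_nonneg hc0.le (div_nonneg (capA_nonneg α t) (by positivity)))]
      exact mul_le_mul_of_nonneg_left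
        (div_le_div_of_nonneg_right (capA_le α t) (by positivity)) hc0.le
    have hib : Integrable (fun t => (PP d j).eval t ^ 2 / c) (den d) := by
      refine integrable_den_of_bound (C := C ^ 2 / c)
        (((PP d j).continuous.measurable.pow_const 2).div_const _) fun t ht => ?_
      rw [abs_of_nonneg (div_nonneg (sq_nonneg _) hc0.le)]
      apply div_le_div_of_nonneg_right _ hc0.le
      rw [← sq_abs]
      exact pow_le_pow_left₀ (abs_nonneg _) (hC t ht) 2
    have hi2 : Integrable (fun t => c * (capA α t / pA α d ^ 2) + (PP d j).eval t ^ 2 / c)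
        (den d) := hia.add hib
    have h1 : ∫ t, -(capA α t / pA α d) * (PP d j).eval t ∂(den d) ≤
        ∫ t, (c * (capA α t / pA α d ^ 2) + (PP d j).eval t ^ 2 / c) / 2 ∂(den d) := by
      apply integral_mono
      · have := hi1.neg
        refine this.congr (Filter.Eventually.of_forall fun t => ?_)
        simp only [Pi.neg_apply]; ring
      · exact hi2.div_const 2
      · intro t
        have e1 : capA α t / pA α d ^ 2 = (capA α t / pA α d) ^ 2 := by rw [div_pow, capA_sq]
        show -(capA α t / pA α d) * (PP d j).eval t ≤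
          (c * (capA α t / pA α d ^ 2) + (PP d j).eval t ^ 2 / c) / 2
        rw [e1]
        set u := capA α t / pA α d
        set v := (PP d j).eval t
        have h2 : 0 ≤ (c * u + v) ^ 2 / c := by positivity
        have h3 : (c * u + v) ^ 2 / c = c * u ^ 2 + v ^ 2 / c + 2 * (u * v) := by
          field_simp; ring
        linarith
    have h2 : ∫ t, (c * (capA α t / pA α d ^ 2) + (PP d j).eval t ^ 2 / c) / 2 ∂(den d) =
        (c * (pA α d / pA α d ^ 2) + nrm d j / c) / 2 := by
      rw [integral_div, integral_add hia hib, integral_const_mul, integral_div, integral_div,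
        integral_sq_den]
      rfl
    have h3 : c * (pA α d / pA α d ^ 2) = ε := by
      rw [hc]; field_simp
    have h4 : nrm d j / c ≤ ε := by
      rw [div_le_iff₀ hc0]
      calc nrm d j ≤ _ := hnrm j hjJ
        _ = ε * c := by rw [hc]; ring
    have h5 : ∫ t, -(capA α t / pA α d) * (PP d j).eval t ∂(den d) =
        -∫ t, (capA α t / pA α d) * (PP d j).eval t ∂(den d) := by
      rw [← integral_neg]
      congr 1; funext t; ring
    rw [h5, h2, h3] at h1
    linarith

/-- sets of measure at least `2 ε` contain many pairs in conflict -/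
theorem supersatA [NeZero d] (hd : 3 ≤ d) {α : ℝ} (hp : 0 < pA α d) {κ ε : ℝ}
    (hpos : ∀ j : ℕ, (j : ℝ) ≤ κ * d → ∀ t : ℝ, α ≤ t → 0 < (PP d j).eval t)
    (hε : 0 < ε) (hnrm : ∀ j : ℕ, κ * d < (j : ℝ) → nrm d j ≤ ε ^ 2 * pA α d)
    {a : ℝ} (ha : 2 * ε ≤ a) : Supersat (sig d) (RA (d := d) α) (pA α d) a := by
  intro A hA hAa
  have hRm : ∀ x : Sph d, MeasurableSet {z | RA α x z} :=
    fun x => (measurable_prodMk_left (x := x)) (measurable_RA α)
  set φ : Sph d → ℝ := A.indicator fun _ => 1 with hφ
  have hBM : BM φ 1 := by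
    refine ⟨measurable_const.indicator hA, fun x => ?_⟩
    simp only [hφ, indicator]
    split_ifs <;> norm_num
  have h0 : ∫ t, capA α t / pA α d ∂(den d) = 1 := by
    rw [integral_div]; exact div_self hp.ne'
  have hG : ∀ t, |capA α t / pA α d| ≤ 1 / pA α d := fun t => by
    rw [abs_of_nonneg (div_nonneg (capA_nonneg α t) hp.le)]
    exact div_le_div_of_nonneg_right (capA_le α t) hp.le
  have key := op_ineq hd (g := fun t => capA α t / pA α d) ((measurable_capA α).div_const _) hG h0
    hε.le (fun j _ => coefA_ge hp hpos hε hnrm j) hBM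
  have e1 : ∫ x : Sph d, φ x ∂(sig d) = (sig d).real A := by
    rw [hφ, integral_indicator hA, setIntegral_const, smul_eq_mul, mul_one]
  have e2 : ∫ x : Sph d, φ x ^ 2 ∂(sig d) = (sig d).real A := by
    rw [← e1]
    congr 1; funext x
    simp only [hφ, indicator]
    split_ifs <;> norm_num
  have e3 : QF (fun t => capA α t / pA α d) φ =
      (∫ x in A, (sig d).real (A ∩ {z | RA α x z}) ∂(sig d)) / pA α d := by
    unfold QF
    rw [← integral_indicator hA, ← integral_div]
    congr 1; funext x
    have e4 : ∫ y : Sph d, φ y * (capA α ⟪(x : EE d), (y : EE d)⟫ / pA α d) ∂(sig d) =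
        (sig d).real (A ∩ {z | RA α x z}) / pA α d := by
      have e5 : (fun y : Sph d => φ y * (capA α ⟪(x : EE d), (y : EE d)⟫ / pA α d)) =
          fun y => ((A ∩ {z | RA α x z}).indicator (fun _ => (1 : ℝ)) y) / pA α d := by
        funext y
        by_cases hy : y ∈ A
        · by_cases hy2 : RA α x y
          · have : y ∈ A ∩ {z | RA α x z} := ⟨hy, hy2⟩
            rw [indicator_of_mem this, hφ, indicator_of_mem hy]
            unfold RA at hy2
            unfold capA; rw [if_pos hy2]; ring
          · have : y ∉ A ∩ {z | RA α x z} := fun h => hy2 h.2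
            rw [indicator_of_notMem this]
            unfold RA at hy2
            unfold capA; rw [if_neg hy2]; ring
        · have : y ∉ A ∩ {z | RA α x z} := fun h => hy h.1
          rw [indicator_of_notMem this, hφ, indicator_of_notMem hy]; ring
      rw [e5, integral_div, integral_indicator (hA.inter (hRm x)), setIntegral_const, smul_eq_mul,
        mul_one]
    rw [e4]
    by_cases hx : x ∈ A
    · rw [hφ, indicator_of_mem hx, indicator_of_mem hx]; ring
    · rw [hφ, indicator_of_notMem hx, indicator_of_notMem hx]; ring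
  rw [e1, e2, e3] at key
  set m := (sig d).real A with hm
  have hm0 : 2 * ε ≤ m := ha.trans hAa
  have h1 : m ^ 2 / 2 ≤ m ^ 2 - ε * m := by nlinarith
  have h2 := h1.trans key
  rw [le_div_iff₀ hp] at h2
  linarith

end Pool.Agent.Helper63.RKS
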