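import Pool.Agent.Helper49.EJ.Gibbs

/-!
Partition functions of weight sequences with the mean field bound; the Gibbs inequality.
-/

set_option autoImplicit false

open scoped Nat

namespace Pool.Agent.Helper63.RKS

open Pool.Agent.Helper49.EJ

variable {P : ℕ → ℝ}

/-- one weight -/
lemma wt_mean_field (h0 : ∀ k, 0 ≤ P k) (h1 : ∀ k, P k ≤ 1) {p c K lam : ℝ} (hp : 0 < p)
    (hc : 0 < c) (hlam : 0 < lam) {k : ℕ}
    (H1 : P k ≤ Real.exp (-(c * k ^ 2 / 2) + K * k)) :
    wt P lam k ≤ Real.exp (Real.log (lam * p) ^ 2 / (2 * c) + Real.exp K / p) := by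
  set l := Real.log (lam * p) with hl
  have hE : 0 < Real.exp K := Real.exp_pos K
  rcases Nat.eq_zero_or_pos k with rfl | hk
  · have : wt P lam 0 ≤ 1 := by unfold wt; simpa using h1 0
    refine this.trans (Real.one_le_exp ?_)
    positivity
  have hk0 : (0 : ℝ) < k := by exact_mod_cast hk
  have h2 : (k : ℝ) ^ k / (k ! : ℝ) ≤ Real.exp k :=
    Real.pow_div_factorial_le_exp (x := (k : ℝ)) hk0.le k
  have h3 : lam ^ k / (k ! : ℝ) = ((k : ℝ) ^ k / (k ! : ℝ)) * (lam / k) ^ k := by
    rw [div_pow]; field_simp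
  have h4 : (lam / k) ^ k = Real.exp (k * (l - Real.log (p * k))) := by
    have h5 : l - Real.log (p * k) = Real.log (lam / k) := by
      rw [hl, ← Real.log_div (by positivity) (by positivity)]
      congr 1
      field_simp
    rw [h5, Real.exp_nat_mul, Real.exp_log (by positivity)]
  have h6 : wt P lam k ≤ Real.exp (k + k * (l - Real.log (p * k)) +
      (-(c * k ^ 2 / 2) + K * k)) := by
    unfold wt
    rw [h3, h4, Real.exp_add, Real.exp_add]
    apply mul_le_mul _ H1 (h0 k) (by positivity)
    exact mul_le_mul_of_nonneg_right h2 (Real.exp_pos _).le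
  refine h6.trans (Real.exp_le_exp.2 ?_)
  have h7 : k * l - c * k ^ 2 / 2 ≤ l ^ 2 / (2 * c) := by
    rw [le_div_iff₀ (by positivity)]
    nlinarith [sq_nonneg (l - c * k)]
  have h8 : k * (1 + K - Real.log (p * k)) ≤ Real.exp K / p := by
    have h9 := Real.log_le_sub_one_of_pos (show 0 < Real.exp K / (p * k) by positivity)
    rw [Real.log_div (by positivity) (by positivity), Real.log_exp] at h9
    have h10 : 1 + K - Real.log (p * k) ≤ Real.exp K / (p * k) := by linarith
    calc k * (1 + K - Real.log (p * k)) ≤ k * (Real.exp K / (p * k)) :=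
          mul_le_mul_of_nonneg_left h10 hk0.le
      _ = Real.exp K / p := by field_simp
  nlinarith

/-- **The partition function from above.** -/
theorem Z_num (h0 : ∀ k, 0 ≤ P k) (h1 : ∀ k, P k ≤ 1) (hP : P 0 = 1) {p c K lam : ℝ}
    (hp : 0 < p) (hc : 0 < c) (hlam : 0 < lam) {q : ℕ}
    (hq : Real.log (lam * p) ≤ c * q)
    (H1 : ∀ k ≤ q, P k ≤ Real.exp (-(c * k ^ 2 / 2) + K * k))
    (H2 : ∀ k, q ≤ k → P k ≤ (k.choose q : ℝ) * P q * Real.exp (-(c * q * (k - q : ℕ)))) :
    Real.log (ZZ P lam) ≤ Real.log (lam * p) ^ 2 / (2 * c) + (Real.exp K + 1) / p + q := by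
  set A : ℝ := Real.log (lam * p) ^ 2 / (2 * c) + Real.exp K / p with hA
  have hw : ∀ k ≤ q, wt P lam k ≤ Real.exp A := fun k hk =>
    wt_mean_field h0 h1 hp hc hlam (H1 k hk)
  have hs := summable_wt h0 h1 hlam.le
  have hsplit : ZZ P lam = ∑ k ∈ Finset.range q, wt P lam k + ∑' k, wt P lam (k + q) := by
    unfold ZZ
    rw [hs.sum_add_tsum_nat_add q]
  set b : ℝ := lam * Real.exp (-(c * q)) with hb
  have hb0 : 0 ≤ b := by rw [hb]; positivity
  have hbp : b ≤ 1 / p := by
    have h3 : Real.exp (-(c * q)) ≤ (lam * p)⁻¹ := by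
      rw [Real.exp_neg]
      apply inv_anti₀ (by positivity)
      rw [← Real.exp_log (show 0 < lam * p by positivity)]
      exact Real.exp_le_exp.2 hq
    calc b ≤ lam * (lam * p)⁻¹ := mul_le_mul_of_nonneg_left h3 hlam.le
      _ = 1 / p := by field_simp
  have htail : ∑' k, wt P lam (k + q) ≤ Real.exp A * Real.exp (1 / p) := by
    have hterm : ∀ j, wt P lam (j + q) ≤ wt P lam q * (b ^ j / (j ! : ℝ)) := by
      intro j
      have h3 := H2 (j + q) (Nat.le_add_left q j)
      rw [Nat.add_sub_cancel] at h3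
      have h4 : ((j + q).choose q : ℝ) * (q ! : ℝ) * (j ! : ℝ) = ((j + q)! : ℝ) := by
        have := Nat.choose_mul_factorial_mul_factorial (Nat.le_add_left q j)
        rw [Nat.add_sub_cancel] at this
        exact_mod_cast this
      unfold wt
      calc lam ^ (j + q) / ((j + q)! : ℝ) * P (j + q)
          ≤ lam ^ (j + q) / ((j + q)! : ℝ) * (((j + q).choose q : ℝ) * P q *
            Real.exp (-(c * q * j))) := mul_le_mul_of_nonneg_left h3 (by positivity)
        _ = lam ^ q / (q ! : ℝ) * P q * (b ^ j / (j ! : ℝ)) := by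
            have h5 : Real.exp (-(c * q * j)) = Real.exp (-(c * q)) ^ j := by
              rw [← Real.exp_nat_mul]; congr 1; ring
            have h6 : (0 : ℝ) < ((j + q).choose q : ℝ) := by
              exact_mod_cast Nat.choose_pos (Nat.le_add_left q j)
            rw [h5, ← h4, hb, mul_pow, pow_add]
            field_simp
    have h3 : Summable (fun j => wt P lam q * (b ^ j / (j ! : ℝ))) :=
      (Real.summable_pow_div_factorial b).mul_left _
    have h4 : Summable (fun j => wt P lam (j + q)) := (summable_nat_add_iff q).2 hs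
    calc ∑' k, wt P lam (k + q) ≤ ∑' j, wt P lam q * (b ^ j / (j ! : ℝ)) :=
          h4.tsum_le_tsum hterm h3
      _ = wt P lam q * Real.exp b := by
          rw [tsum_mul_left, Real.exp_eq_exp_ℝ, NormedSpace.exp_eq_tsum_div]
      _ ≤ Real.exp A * Real.exp (1 / p) := by
          apply mul_le_mul (hw q le_rfl) (Real.exp_le_exp.2 hbp) (Real.exp_pos _).le
            (Real.exp_pos _).le
  have hhead : ∑ k ∈ Finset.range q, wt P lam k ≤ q * Real.exp A := by
    calc ∑ k ∈ Finset.range q, wt P lam k ≤ ∑ _k ∈ Finset.range q, Real.exp A := by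
          apply Finset.sum_le_sum
          intro k hk
          exact hw k (Finset.mem_range.1 hk).le
      _ = q * Real.exp A := by simp
  have hexp1 : 1 ≤ Real.exp (1 / p) := Real.one_le_exp (by positivity)
  have hZ : ZZ P lam ≤ Real.exp (A + 1 / p + q) := by
    rw [hsplit, Real.exp_add, Real.exp_add]
    have h5 : (q : ℝ) + 1 ≤ Real.exp q := Real.add_one_le_exp _
    have hA0 := Real.exp_pos A
    have h6 : (q : ℝ) * Real.exp A ≤ q * (Real.exp A * Real.exp (1 / p)) := by
      apply mul_le_mul_of_nonneg_left _ (Nat.cast_nonneg q)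
      exact le_mul_of_one_le_right hA0.le hexp1
    calc _ ≤ (q : ℝ) * (Real.exp A * Real.exp (1 / p)) + Real.exp A * Real.exp (1 / p) := by
          linarith
      _ = Real.exp A * Real.exp (1 / p) * (q + 1) := by ring
      _ ≤ _ := mul_le_mul_of_nonneg_left h5 (by positivity)
  have hZ1 := one_le_ZZ h0 h1 hP hlam.le
  have := Real.log_le_log (by linarith) hZ
  rw [Real.log_exp] at this
  refine this.trans (le_of_eq ?_)
  rw [hA]; ring

/-- the Gibbs inequality -/
theorem gibbs (h0 : ∀ k, 0 ≤ P k) (h1 : ∀ k, P k ≤ 1) (hP : P 0 = 1) {lam : ℝ} (hl : 0 < lam)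
    (a : ℝ) : Real.log (ZZ P lam) + a * mn P lam ≤ Real.log (ZZ P (lam * Real.exp a)) := by
  set m := mn P lam with hm
  have hZ := one_le_ZZ h0 h1 hP hl.le
  have hle : 0 < lam * Real.exp a := by positivity
  have hs1 := summable_mul_wt h0 h1 hl.le
  have hs2 := summable_wt h0 h1 hl.le
  have hs3 : Summable (wt P (lam * Real.exp a)) := summable_wt h0 h1 hle.le
  have hsumk : ∑' k : ℕ, (k : ℝ) * wt P lam k = m * ZZ P lam := by
    rw [hm, mn, div_mul_cancel₀]
    linarith
  have hterm : ∀ k : ℕ, Real.exp (a * m) * ((1 - a * m) * wt P lam k +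
      a * ((k : ℝ) * wt P lam k)) ≤ wt P (lam * Real.exp a) k := by
    intro k
    have h2 : wt P (lam * Real.exp a) k = Real.exp (a * k) * wt P lam k := by
      unfold wt
      have h3 : Real.exp (a * k) = Real.exp a ^ k := by
        rw [mul_comm, Real.exp_nat_mul]
      rw [h3, mul_pow]
      ring
    rw [h2]
    have h4 : Real.exp (a * k) = Real.exp (a * m) * Real.exp (a * (k - m)) := by
      rw [← Real.exp_add]; congr 1; ring
    rw [h4]
    have h5 := Real.add_one_le_exp (a * (k - m))
    have h6 := wt_nonneg h0 hl.le (P := P) (lam := lam) k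
    have h7 := (Real.exp_pos (a * m)).le
    calc Real.exp (a * m) * ((1 - a * m) * wt P lam k + a * ((k : ℝ) * wt P lam k))
        = Real.exp (a * m) * ((a * (k - m) + 1) * wt P lam k) := by ring
      _ ≤ Real.exp (a * m) * (Real.exp (a * (k - m)) * wt P lam k) := by gcongr
      _ = _ := by ring
  have hZ1 : Real.exp (a * m) * ZZ P lam ≤ ZZ P (lam * Real.exp a) := by
    have h8 := ((hs2.mul_left (1 - a * m)).add (hs1.mul_left a)).mul_left
      (Real.exp (a * m))
    have h9 := h8.tsum_le_tsum hterm hs3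
    rw [tsum_mul_left, (hs2.mul_left (1 - a * m)).tsum_add (hs1.mul_left a), tsum_mul_left,
      tsum_mul_left, hsumk] at h9
    have e : (1 - a * m) * ∑' k, wt P lam k + a * (m * ZZ P lam) = ZZ P lam := by
      unfold ZZ; ring
    rw [e] at h9
    exact h9
  have hZ0 : 0 < ZZ P lam := by linarith
  have h10 := Real.log_le_log (by positivity) hZ1
  rw [Real.log_mul (Real.exp_pos _).ne' hZ0.ne', Real.log_exp] at h10
  linarith

end Pool.Agent.Helper63.RKS
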