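import Pool.Agent.Helper63.RKS.ZLow
import Pool.Agent.Helper63.RKS.ZNum

/-!
The partition function of the hard-core model from above, and the mean number of balls.
-/

set_option autoImplicit false

open MeasureTheory Set Metric ProbabilityTheory Filter Topology
open scoped ENNReal RealInnerProductSpace Nat
open Pool.Agent.Helper47.KP

namespace Pool.Agent.Helper63.RKS

open Pool.Agent.Helper84.RK Pool.Agent.Helper49.EJ

lemma W_lt_num : Real.logb 2 (2 / Real.sqrt 3) < 1 / 4 := by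
  have hs0 : 0 < Real.sqrt 3 := Real.sqrt_pos.2 (by norm_num)
  rw [Real.logb_lt_iff_lt_rpow (by norm_num) (by positivity)]
  have h1 : (2 / Real.sqrt 3) ^ (4 : ℕ) < ((2 : ℝ) ^ (1 / 4 : ℝ)) ^ (4 : ℕ) := by
    rw [← Real.rpow_natCast ((2 : ℝ) ^ (1 / 4 : ℝ)), ← Real.rpow_mul (by norm_num), div_pow,
      show Real.sqrt 3 ^ 4 = (Real.sqrt 3 ^ 2) ^ 2 by ring, Real.sq_sqrt (by norm_num)]
    norm_num
  exact lt_of_pow_lt_pow_left₀ 4 (by positivity) h1

lemma sst_gt : 0.3044 < Real.logb 2 (2 / Real.sqrt 3) + gst := by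
  rw [threshold_eq]
  exact threshold_gt

lemma gst_pos : 0 < gst := by
  have h1 := sst_gt
  have h2 := W_lt_num
  norm_num at h1
  linarith

lemma sT_le : sT ≤ Real.logb 2 (2 / Real.sqrt 3) + gst := le_rfl

/-- `log (lam p)` is at most linear -/
lemma log_lp_le {η : ℝ} (hη : 0 < η) (s₂ : ℝ) : ∀ᶠ d : ℕ in atTop, ∀ lam : ℝ, 0 < lam →
    lam ≤ 2 ^ (s₂ * d) →
    Real.log (lam * pc d) ≤ (s₂ - Real.logb 2 (2 / Real.sqrt 3) + η) * Real.log 2 * d := by
  set s0 := Real.logb 2 (2 / Real.sqrt 3) with hs0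
  have hev := const_le_rpow (C := 10) (η := η) hη
  filter_upwards [hev, eventually_ge_atTop 4] with d hd hd4 lam hl0 hl
  have hp := pc_pos hd4
  have hd0 : (1 : ℝ) ≤ d := by exact_mod_cast (by omega : 1 ≤ d)
  have h1 : pc d ≤ 2 ^ ((-s0 + η) * d) := by
    refine (Pool.Agent.Helper84.RK.pc_le hd4).trans ?_
    have h2 : (Real.sqrt 3 / 2) ^ d = 2 ^ (-s0 * d) := by
      have h3 := two_rpow_W d
      rw [← hs0] at h3
      rw [neg_mul, Real.rpow_neg (by norm_num), h3, ← inv_pow, inv_div]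
    rw [h2]
    calc 10 * (2 : ℝ) ^ (-s0 * d) / Real.sqrt d ≤ 10 * (2 : ℝ) ^ (-s0 * d) := by
          apply div_le_self (by positivity)
          rw [Real.one_le_sqrt]
          exact hd0
      _ ≤ 2 ^ (η * d) * (2 : ℝ) ^ (-s0 * d) := mul_le_mul_of_nonneg_right hd (by positivity)
      _ = 2 ^ ((-s0 + η) * d) := by
          rw [← Real.rpow_add (by norm_num)]; congr 1; ring
  have h2 : lam * pc d ≤ 2 ^ ((s₂ - s0 + η) * d) := by
    calc lam * pc d ≤ 2 ^ (s₂ * d) * 2 ^ ((-s0 + η) * d) :=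
          mul_le_mul hl h1 hp.le (by positivity)
      _ = _ := by rw [← Real.rpow_add (by norm_num)]; congr 1; ring
  have h3 := Real.log_le_log (by positivity) h2
  rw [Real.log_rpow (by norm_num)] at h3
  linarith

/-- **The partition function from above.** -/
theorem Z_upper {s₁ s₂ : ℝ} (h1 : Real.logb 2 (2 / Real.sqrt 3) < s₁)
    (h2 : s₂ < Real.logb 2 (2 / Real.sqrt 3) + gst) {ε : ℝ} (hε : 0 < ε) (hε1 : ε < 1) :
    ∀ᶠ d : ℕ in atTop, 4 ≤ d ∧ ∀ lam : ℝ, (2 : ℝ) ^ (s₁ * d) ≤ lam → lam ≤ 2 ^ (s₂ * d) →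
      Real.log (ZZ (kp d) lam) ≤ (1 + ε) * Real.log (lam * pc d) ^ 2 / (2 * pc d) := by
  set s0 := Real.logb 2 (2 / Real.sqrt 3) with hs0
  have hl2 : 0 < Real.log 2 := Real.log_pos (by norm_num)
  -- parameters
  obtain ⟨g0, hg01, hg02, hg03⟩ : ∃ g0 : ℝ, 0 < g0 ∧ s₂ - s0 < g0 ∧ (g0 < gst) := by
    have hgst : 0 < gst := gst_pos
    refine ⟨max (gst / 2) ((s₂ - s0 + gst) / 2), ?_, ?_, ?_⟩
    · exact lt_max_of_lt_left (by linarith)
    · exact lt_max_of_lt_right (by linarith)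
    · exact max_lt (by linarith) (by linarith)
  set g : ℝ := (g0 + gst) / 2 with hg
  have hgl : g < gst := by rw [hg]; linarith
  have hg0g : g0 < g := by rw [hg]; linarith
  have hg0 : 0 < g := hg01.trans hg0g
  set κ : ℝ := min (ε / 4) ((g - g0) / (2 * g)) with hκ
  have hκ0 : 0 < κ := by rw [hκ]; exact lt_min (by positivity) (div_pos (by linarith) (by positivity))
  have hκε : κ ≤ ε / 4 := min_le_left _ _
  have hκ1 : κ < 1 := by linarith
  have hκg : κ * g ≤ (g - g0) / 2 := by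
    have : κ ≤ (g - g0) / (2 * g) := min_le_right _ _
    calc κ * g ≤ (g - g0) / (2 * g) * g := mul_le_mul_of_nonneg_right this hg0.le
      _ = (g - g0) / 2 := by field_simp
  obtain ⟨K, hK1, hKp⟩ := kp_upper (g := g) hgl hκ0 hκ1
  obtain ⟨c, hc, hcev⟩ := log_np h1
  set B : ℝ := 8 * (Real.exp K + 1 + 2 + 1) / ε with hB
  have hB0 : 0 < B := by rw [hB]; positivity
  have hev : ∀ᶠ d : ℕ in atTop, max B 1 ≤ c * Real.log 2 * d := by
    have := (tendsto_natCast_atTop_atTop (R := ℝ)).const_mul_atTop (mul_pos hc hl2)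
    exact this.eventually_ge_atTop _
  have hev2 : ∀ᶠ d : ℕ in atTop, 1 ≤ (g - g0) / 4 * Real.log 2 * d := by
    have := (tendsto_natCast_atTop_atTop (R := ℝ)).const_mul_atTop
      (show 0 < (g - g0) / 4 * Real.log 2 from mul_pos (by linarith) hl2)
    exact this.eventually_ge_atTop _
  filter_upwards [hKp, kp_rec (g := g) hgl hκ0 hκ1, hcev, hev, hev2,
    log_lp_le (η := g0 - (s₂ - s0)) (by linarith) s₂] with d hk hr hnp hbig hbig2 hlp
  obtain ⟨hd4, hr⟩ := hr
  refine ⟨hd4, fun lam hlam1 hlam2 => ?_⟩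
  have : NeZero d := ⟨by omega⟩
  have hp := pc_pos hd4
  have hp1 : pc d ≤ 1 := pc_le_one (by omega)
  have hlam0 : 0 < lam := lt_of_lt_of_le (by positivity) hlam1
  obtain ⟨-, hlog⟩ := hnp lam hlam1
  have hlup := hlp lam hlam0 hlam2
  rw [← hs0, show s₂ - s0 + (g0 - (s₂ - s0)) = g0 by ring] at hlup
  set p := pc d with hpd
  set L := Real.log (lam * p) with hL
  have hLB : B ≤ L := (le_max_left _ _).trans (hbig.trans hlog)
  have hL1 : 1 ≤ L := (le_max_right _ _).trans (hbig.trans hlog)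
  set c' : ℝ := (1 - κ) * p with hc'
  have h1κ : 0 < 1 - κ := by linarith
  have hc'0 : 0 < c' := mul_pos h1κ hp
  set q : ℕ := ⌈L / c'⌉₊ with hq
  have hq1 : L ≤ c' * q := by
    have : L / c' ≤ q := Nat.le_ceil _
    rwa [div_le_iff₀' hc'0] at this
  have hq2 : (q : ℝ) ≤ L / c' + 1 := (Nat.ceil_lt_add_one (by positivity)).le
  have hpq : p * q ≤ g * Real.log 2 * d := by
    have h3 : c' * q ≤ L + c' := by
      have := mul_le_mul_of_nonneg_left hq2 hc'0.le
      have h4 : c' * (L / c' + 1) = L + c' := by field_simp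
      linarith
    have hc'1 : c' ≤ 1 := by
      rw [hc']
      calc (1 - κ) * p ≤ 1 * 1 := mul_le_mul (by linarith) hp1 hp.le zero_le_one
        _ = 1 := one_mul 1
    have h4 : (1 - κ) * (p * q) ≤ g0 * Real.log 2 * d + (g - g0) / 4 * Real.log 2 * d := by
      have : (1 - κ) * (p * q) = c' * q := by rw [hc']; ring
      linarith
    have hX : 0 < Real.log 2 * (d : ℝ) := mul_pos hl2 (by exact_mod_cast (by omega : 0 < d))
    have h5 : (1 - κ) * (g * Real.log 2 * d) ≥ (g0 + (g - g0) / 4) * (Real.log 2 * d) := by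
      have : (1 - κ) * (g * Real.log 2 * d) = (g - κ * g) * (Real.log 2 * d) := by ring
      rw [this]
      apply mul_le_mul_of_nonneg_right _ hX.le
      linarith
    have h6 : (1 - κ) * (p * q) ≤ (1 - κ) * (g * Real.log 2 * d) := by linarith
    exact le_of_mul_le_mul_left h6 h1κ
  have hpqk : ∀ k : ℕ, k ≤ q → p * k ≤ g * Real.log 2 * d := by
    intro k hk
    refine le_trans ?_ hpq
    have : (k : ℝ) ≤ q := by exact_mod_cast hk
    exact mul_le_mul_of_nonneg_left this hp.le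
  have hmain := Z_num (P := kp d) (kp_nonneg d) (kp_le_one d) (kp_zero d) (p := p) (c := c')
    (K := K) (lam := lam) hp hc'0 hlam0 (q := q) hq1
    (fun k hkq => by
      refine (hk k (hpqk k hkq)).trans (le_of_eq ?_)
      rw [hc'])
    (fun k hkq => by
      apply hr k q hkq
      refine le_trans ?_ hpq
      have : (1 - κ) * p ≤ p := mul_le_of_le_one_left hp.le (by linarith)
      exact mul_le_mul_of_nonneg_right this (Nat.cast_nonneg q))
  refine hmain.trans ?_
  rw [← hL]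
  -- numerical end
  have hk4 : 1 / (1 - κ) ≤ 1 + ε / 2 := by
    rw [div_le_iff₀ h1κ]
    have e3 : (1 + ε / 2) * (1 - κ) = 1 + ε / 2 - κ - ε * κ / 2 := by ring
    have h6 : ε * κ ≤ 1 * κ := mul_le_mul_of_nonneg_right hε1.le hκ0.le
    linarith
  have h3 : L ^ 2 / (2 * c') ≤ (1 + ε / 2) * L ^ 2 / (2 * p) := by
    calc L ^ 2 / (2 * c') = (1 / (1 - κ)) * (L ^ 2 / (2 * p)) := by
          rw [hc']; field_simp
      _ ≤ (1 + ε / 2) * (L ^ 2 / (2 * p)) := mul_le_mul_of_nonneg_right hk4 (by positivity)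
      _ = _ := by ring
  have h4 : (q : ℝ) ≤ 2 * L / p + 1 / p := by
    have h5 : L / c' ≤ 2 * L / p := by
      rw [hc']
      rw [div_le_div_iff₀ (mul_pos h1κ hp) hp]
      have : 1 ≤ 2 * (1 - κ) := by linarith
      have h6 : L * p * 1 ≤ L * p * (2 * (1 - κ)) :=
        mul_le_mul_of_nonneg_left this (mul_pos (by linarith) hp).le
      linarith
    have h6 : 1 ≤ 1 / p := by rw [le_div_iff₀ hp]; linarith
    linarith
  have h5 : (Real.exp K + 1) / p + (2 * L / p + 1 / p) ≤ (ε / 2) * L ^ 2 / (2 * p) := by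
    have h6 : (Real.exp K + 1) / p + (2 * L / p + 1 / p) ≤
        ((Real.exp K + 1 + 2 + 1) * L) / p := by
      rw [← add_div, ← add_div]
      apply div_le_div_of_nonneg_right _ hp.le
      have : 0 < Real.exp K := Real.exp_pos K
      have h7 : (Real.exp K + 2) * 1 ≤ (Real.exp K + 2) * L :=
        mul_le_mul_of_nonneg_left hL1 (by linarith)
      linarith
    refine h6.trans ?_
    rw [div_le_div_iff₀ hp (by positivity)]
    have h7 : (Real.exp K + 1 + 2 + 1) = ε * B / 8 := by rw [hB]; field_simp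
    rw [h7]
    have h8 : B * L ≤ L * L := mul_le_mul_of_nonneg_right hLB (by linarith)
    have h9 : 0 < ε * p := by positivity
    have h10 := mul_le_mul_of_nonneg_left h8 h9.le
    have h11 : 0 ≤ ε * p * (L * L) := by positivity
    linarith
  have h6 : (1 + ε) * L ^ 2 / (2 * p) = (1 + ε / 2) * L ^ 2 / (2 * p) +
      (ε / 2) * L ^ 2 / (2 * p) := by ring
  rw [h6]
  linarith

/-- **The mean number of balls.** -/
theorem mean {s₁ s₂ : ℝ} (h1 : Real.logb 2 (2 / Real.sqrt 3) < s₁) (h2 : s₂ < sT)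
    (h12 : s₁ ≤ s₂) {ε : ℝ} (hε : 0 < ε) (hε1 : ε < 1) :
    ∀ᶠ d : ℕ in atTop, 4 ≤ d ∧ ∀ lam : ℝ, (2 : ℝ) ^ (s₁ * d) ≤ lam → lam ≤ 2 ^ (s₂ * d) →
      (1 - ε) * Real.log (lam * pc d) / pc d ≤ mn (kp d) lam ∧
        mn (kp d) lam ≤ (1 + ε) * Real.log (lam * pc d) / pc d := by
  set s0 := Real.logb 2 (2 / Real.sqrt 3) with hs0
  have hl2 : 0 < Real.log 2 := Real.log_pos (by norm_num)
  have hs0p : 0 < s0 := W_pos
  have hs3u := sT_le
  have hs31 := sT_lt_one
  -- the step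
  set θ : ℝ := min (ε / 4) (min ((s₁ - s0) / 2) ((sT - s₂) / 2)) with hθ
  have hθ0 : 0 < θ := by
    rw [hθ]
    exact lt_min (by positivity) (lt_min (by linarith) (by linarith))
  have hθε : θ ≤ ε / 4 := min_le_left _ _
  have hθ1 : θ ≤ (s₁ - s0) / 2 := (min_le_right _ _).trans (min_le_left _ _)
  have hθ2 : θ ≤ (sT - s₂) / 2 := (min_le_right _ _).trans (min_le_right _ _)
  have hθl : θ < 1 / 4 := by linarith
  set e : ℝ := θ ^ 2 with he
  have he0 : 0 < e := by rw [he]; positivity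
  have he1 : e < 1 := by rw [he]; exact pow_lt_one₀ hθ0.le (by linarith) two_ne_zero
  obtain ⟨c, hc, hcev⟩ := log_np h1
  have hev : ∀ᶠ d : ℕ in atTop, 1 ≤ c * Real.log 2 * d := by
    have := (tendsto_natCast_atTop_atTop (R := ℝ)).const_mul_atTop (mul_pos hc hl2)
    exact this.eventually_ge_atTop _
  filter_upwards [Z_upper (s₁ := s₁ - θ) (s₂ := s₂ + θ) (by linarith) (by linarith) he0 he1,
    Z_lower (s₁ := s₁ - θ) (s₂ := s₂ + θ) (by linarith) (by linarith) (by linarith) he0 he1,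
    hcev, hev] with d hU hL' hnp hbig
  obtain ⟨hd4, hU⟩ := hU
  obtain ⟨-, hLo⟩ := hL'
  refine ⟨hd4, fun lam hlam1 hlam2 => ?_⟩
  have : NeZero d := ⟨by omega⟩
  have hp := pc_pos hd4
  have hp1 : pc d ≤ 1 := pc_le_one (by omega)
  have hlam0 : 0 < lam := lt_of_lt_of_le (by positivity) hlam1
  have hd0 : (0 : ℝ) ≤ d := Nat.cast_nonneg d
  obtain ⟨-, hlog⟩ := hnp lam hlam1
  set p := pc d with hpd
  set L := Real.log (lam * p) with hL
  have hL1 : 1 ≤ L := hbig.trans hlog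
  have hLd : L ≤ Real.log 2 * d := by
    have h3 : lam * p ≤ 2 ^ ((1 : ℝ) * d) := by
      calc lam * p ≤ 2 ^ (s₂ * d) * 1 := mul_le_mul hlam2 hp1 hp.le (by positivity)
        _ ≤ 2 ^ ((1 : ℝ) * d) := by
            rw [mul_one]
            apply Real.rpow_le_rpow_of_exponent_le (by norm_num)
            apply mul_le_mul_of_nonneg_right _ hd0
            linarith
    have h4 := Real.log_le_log (by positivity) h3
    rw [Real.log_rpow (by norm_num), one_mul] at h4
    linarith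
  have hexp : Real.exp (θ * L) ≤ 2 ^ (θ * d) := by
    rw [Real.rpow_def_of_pos (by norm_num)]
    apply Real.exp_le_exp.2
    have h3 := mul_le_mul_of_nonneg_left hLd hθ0.le
    linarith
  have hexp1 : 1 ≤ Real.exp (θ * L) := Real.one_le_exp (by positivity)
  have hexpm : (2 : ℝ) ^ (-θ * d) ≤ Real.exp (-(θ * L)) := by
    rw [Real.rpow_def_of_pos (by norm_num)]
    apply Real.exp_le_exp.2
    have h3 := mul_le_mul_of_nonneg_left hLd hθ0.le
    linarith
  have hexpm1 : Real.exp (-(θ * L)) ≤ 1 := by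
    rw [Real.exp_le_one_iff]
    have : 0 ≤ θ * L := by positivity
    linarith
  have hθd := mul_nonneg hθ0.le hd0
  have hup1 : (2 : ℝ) ^ ((s₁ - θ) * d) ≤ 2 ^ (s₁ * d) := by
    apply Real.rpow_le_rpow_of_exponent_le (by norm_num)
    linarith
  have hup2 : (2 : ℝ) ^ (s₂ * d) ≤ 2 ^ ((s₂ + θ) * d) := by
    apply Real.rpow_le_rpow_of_exponent_le (by norm_num)
    linarith
  have hq1 : θ * θ ≤ θ * (ε / 4) := mul_le_mul_of_nonneg_left hθε hθ0.le
  have hq2 : θ * θ ≤ 1 / 4 * (1 / 4) := mul_le_mul hθl.le hθl.le hθ0.le (by norm_num)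
  have hq3 : (θ * θ) * (θ * θ) ≤ (θ * θ) * (1 / 4 * (1 / 4)) :=
    mul_le_mul_of_nonneg_left hq2 (mul_pos hθ0 hθ0).le
  have hq4 : (θ * θ) * θ ≤ (θ * θ) * (1 / 4) :=
    mul_le_mul_of_nonneg_left hθl.le (mul_pos hθ0 hθ0).le
  have hq5 : 0 < θ * θ * θ := mul_pos (mul_pos hθ0 hθ0) hθ0
  have hq6 : 0 < θ * ε := mul_pos hθ0 hε
  have hZl := hLo lam (hup1.trans hlam1) (hlam2.trans hup2)
  have hZu := hU lam (hup1.trans hlam1) (hlam2.trans hup2)
  constructor
  · -- the lower bound for the mean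
    have hlamr : (2 : ℝ) ^ ((s₁ - θ) * d) ≤ lam * Real.exp (-(θ * L)) := by
      calc (2 : ℝ) ^ ((s₁ - θ) * d) = 2 ^ (s₁ * d) * 2 ^ (-θ * d) := by
            rw [← Real.rpow_add (by norm_num)]; congr 1; ring
        _ ≤ lam * Real.exp (-(θ * L)) := mul_le_mul hlam1 hexpm (by positivity) hlam0.le
    have hlamr2 : lam * Real.exp (-(θ * L)) ≤ 2 ^ ((s₂ + θ) * d) :=
      (mul_le_of_le_one_right hlam0.le hexpm1).trans (hlam2.trans hup2)
    have hZu' := hU _ hlamr hlamr2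
    have hlogr : Real.log (lam * Real.exp (-(θ * L)) * p) = (1 - θ) * L := by
      rw [show lam * Real.exp (-(θ * L)) * p = lam * p * Real.exp (-(θ * L)) by ring,
        Real.log_mul (by positivity) (Real.exp_pos _).ne', Real.log_exp]
      ring
    rw [hlogr] at hZu'
    have hG := gibbs (P := kp d) (kp_nonneg d) (kp_le_one d) (kp_zero d)
      hlam0 (-(θ * L))
    have h3 : (1 - e) * L ^ 2 / (2 * p) - (1 + e) * ((1 - θ) * L) ^ 2 / (2 * p) ≤
        θ * L * mn (kp d) lam := by linarith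
    have h4 : θ * L * ((1 - ε) * L / p) ≤
        (1 - e) * L ^ 2 / (2 * p) - (1 + e) * ((1 - θ) * L) ^ 2 / (2 * p) := by
      have h5 : θ * L * ((1 - ε) * L / p) = (2 * θ * (1 - ε)) * (L ^ 2 / (2 * p)) := by
        field_simp
      have h6 : (1 - e) * L ^ 2 / (2 * p) - (1 + e) * ((1 - θ) * L) ^ 2 / (2 * p) =
          ((1 - e) - (1 + e) * (1 - θ) ^ 2) * (L ^ 2 / (2 * p)) := by ring
      rw [h5, h6]
      apply mul_le_mul_of_nonneg_right _ (by positivity)
      rw [he]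
      have e3 : (1 - θ ^ 2) - (1 + θ ^ 2) * (1 - θ) ^ 2 =
          2 * θ - 3 * (θ * θ) + 2 * (θ * θ * θ) - (θ * θ) * (θ * θ) := by ring
      rw [e3]
      linarith
    exact le_of_mul_le_mul_left (h4.trans h3) (by positivity)
  · have hlamr : (2 : ℝ) ^ ((s₁ - θ) * d) ≤ lam * Real.exp (θ * L) :=
      (hup1.trans hlam1).trans (le_mul_of_one_le_right hlam0.le hexp1)
    have hlamr2 : lam * Real.exp (θ * L) ≤ 2 ^ ((s₂ + θ) * d) := by
      calc lam * Real.exp (θ * L) ≤ 2 ^ (s₂ * d) * 2 ^ (θ * d) :=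
            mul_le_mul hlam2 hexp (by positivity) (by positivity)
        _ = 2 ^ ((s₂ + θ) * d) := by
            rw [← Real.rpow_add (by norm_num)]; congr 1; ring
    have hZu' := hU _ hlamr hlamr2
    have hlogr : Real.log (lam * Real.exp (θ * L) * p) = (1 + θ) * L := by
      rw [show lam * Real.exp (θ * L) * p = lam * p * Real.exp (θ * L) by ring,
        Real.log_mul (by positivity) (Real.exp_pos _).ne', Real.log_exp]
      ring
    rw [hlogr] at hZu'
    have hG := gibbs (P := kp d) (kp_nonneg d) (kp_le_one d) (kp_zero d)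
      hlam0 (θ * L)
    have h3 : θ * L * mn (kp d) lam ≤
        (1 + e) * ((1 + θ) * L) ^ 2 / (2 * p) - (1 - e) * L ^ 2 / (2 * p) := by linarith
    have h4 : (1 + e) * ((1 + θ) * L) ^ 2 / (2 * p) - (1 - e) * L ^ 2 / (2 * p) ≤
        θ * L * ((1 + ε) * L / p) := by
      have h5 : θ * L * ((1 + ε) * L / p) = (2 * θ * (1 + ε)) * (L ^ 2 / (2 * p)) := by
        field_simp
      have h6 : (1 + e) * ((1 + θ) * L) ^ 2 / (2 * p) - (1 - e) * L ^ 2 / (2 * p) =
          ((1 + e) * (1 + θ) ^ 2 - (1 - e)) * (L ^ 2 / (2 * p)) := by ring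
      rw [h5, h6]
      apply mul_le_mul_of_nonneg_right _ (by positivity)
      rw [he]
      have e3 : (1 + θ ^ 2) * (1 + θ) ^ 2 - (1 - θ ^ 2) =
          2 * θ + 3 * (θ * θ) + 2 * (θ * θ * θ) + (θ * θ) * (θ * θ) := by ring
      rw [e3]
      linarith
    exact le_of_mul_le_mul_left (h3.trans h4) (by positivity)

end Pool.Agent.Helper63.RKS
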