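import Pool.Agent.Helper63.RKS.PkNum
import Pool.Agent.Helper63.RKS.ZUp

/-!
The probability that `k` random balls touching the central ball do not overlap, from below.
-/

set_option autoImplicit false

open MeasureTheory Set Metric ProbabilityTheory Filter Topology
open scoped ENNReal RealInnerProductSpace Nat
open Pool.Agent.Helper47.KP

namespace Pool.Agent.Helper63.RKS

open Pool.Agent.Helper84.RK Pool.Agent.Helper49.EJ

lemma kp_anti (d : ℕ) [NeZero d] {j k : ℕ} (h : k ≤ j) : kp d j ≤ kp d k := by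
  have hmp := measurePreserving_comp' (sig d) (Fin.castLE h) (Fin.castLE_injective h)
  have hsub : Kiss d j ⊆ (fun x : Fin j → Sph d => x ∘ Fin.castLE h) ⁻¹' Kiss d k := by
    intro x hx a b hab
    exact hx _ _ (fun h' => hab (Fin.castLE_injective h h'))
  unfold kp
  refine (measureReal_mono hsub (measure_ne_top _ _)).trans (le_of_eq ?_)
  rw [measureReal_def, measureReal_def,
    hmp.measure_preimage (measurableSet_Kiss d _).nullMeasurableSet]

/-- the measure of the cap from above -/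
lemma pc_up2 {η : ℝ} (hη : 0 < η) : ∀ᶠ d : ℕ in atTop,
    pc d ≤ (2 : ℝ) ^ ((-Real.logb 2 (2 / Real.sqrt 3) + η) * d) := by
  set s0 := Real.logb 2 (2 / Real.sqrt 3) with hs0
  have hev := const_le_rpow (C := 10) (η := η) hη
  filter_upwards [hev, eventually_ge_atTop 4] with d hd hd4
  have hd0 : (1 : ℝ) ≤ d := by exact_mod_cast (by omega : 1 ≤ d)
  refine (Pool.Agent.Helper84.RK.pc_le hd4).trans ?_
  have h2 : (Real.sqrt 3 / 2) ^ d = 2 ^ (-s0 * d) := by
    have h3 := two_rpow_W d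
    rw [← hs0] at h3
    rw [neg_mul, Real.rpow_neg (by norm_num), h3, ← inv_pow, inv_div]
  rw [h2]
  calc 10 * (2 : ℝ) ^ (-s0 * d) / Real.sqrt d ≤ 10 * (2 : ℝ) ^ (-s0 * d) := by
        apply div_le_self (by positivity)
        rw [Real.one_le_sqrt]
        exact hd0
    _ ≤ 2 ^ (η * d) * (2 : ℝ) ^ (-s0 * d) := mul_le_mul_of_nonneg_right hd (by positivity)
    _ = 2 ^ ((-s0 + η) * d) := by
        rw [← Real.rpow_add (by norm_num)]; congr 1; ring

/-- **The probability of no overlap from below.** -/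
theorem pk_lower {c₁ c₂ : ℝ} (hc1 : 0 < c₁)
    (hc2 : c₂ < (sT - Real.logb 2 (2 / Real.sqrt 3)) * Real.log 2) {ε : ℝ} (hε : 0 < ε)
    (hε1 : ε < 1) :
    ∀ᶠ d : ℕ in atTop, 4 ≤ d ∧ ∀ k : ℕ, c₁ * d ≤ pc d * k → pc d * k ≤ c₂ * d →
      Real.exp (-((1 + ε) * pc d * k ^ 2 / 2)) ≤ kp d k := by
  rcases lt_or_ge c₂ c₁ with h12 | h12
  · filter_upwards [eventually_ge_atTop 4] with d hd
    refine ⟨hd, fun k h1 h2 => ?_⟩
    exfalso
    have hd0 : (0 : ℝ) < d := by exact_mod_cast (by omega : 0 < d)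
    nlinarith
  set s0 := Real.logb 2 (2 / Real.sqrt 3) with hs0
  have hl2 : 0 < Real.log 2 := Real.log_pos (by norm_num)
  have hgst := gst_pos
  have hs3u := sT_le
  rw [← hs0] at hs3u
  have hc20 : 0 < c₂ := lt_of_lt_of_le hc1 h12
  -- the parameter `a`
  set w : ℝ := (sT - s0) * Real.log 2 with hw
  have hw0 : 0 < w := hc20.trans hc2
  set a : ℝ := min (ε / 16) ((w - c₂) / (8 * w)) with ha
  have ha0 : 0 < a := by
    rw [ha]; exact lt_min (by positivity) (div_pos (by linarith) (by positivity))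
  have ha1 : a ≤ ε / 16 := min_le_left _ _
  have ha2 : a * w ≤ (w - c₂) / 8 := by
    have : a ≤ (w - c₂) / (8 * w) := min_le_right _ _
    calc a * w ≤ (w - c₂) / (8 * w) * w := mul_le_mul_of_nonneg_right this hw0.le
      _ = (w - c₂) / 8 := by field_simp
  have ha4 : a ≤ 1 / 4 := by linarith
  have hac : a * c₂ ≤ (w - c₂) / 8 := (mul_le_mul_of_nonneg_left hc2.le ha0.le).trans ha2
  set κ : ℝ := a ^ 2 / 8 with hκ
  have hκ0 : 0 < κ := by rw [hκ]; positivity
  have hκ1 : κ < 1 := by rw [hκ]; nlinarith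
  set e : ℝ := a ^ 2 / 16 with he
  have he0 : 0 < e := by rw [he]; positivity
  have he1 : e < 1 := by rw [he]; nlinarith
  -- the range of fugacities
  set t₁ : ℝ := c₁ / (2 * Real.log 2) with ht1
  have ht10 : 0 < t₁ := by rw [ht1]; positivity
  set t₂ : ℝ := (w + c₂) / (2 * Real.log 2) with ht2
  have ht2l : t₂ * Real.log 2 = (w + c₂) / 2 := by rw [ht2]; field_simp
  have ht1l : t₁ * Real.log 2 = c₁ / 2 := by rw [ht1]; field_simp
  have hwl : (sT - s0) * Real.log 2 = w := rfl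
  have ht2s : s0 + t₂ < sT := by
    have : t₂ * Real.log 2 < (sT - s0) * Real.log 2 := by rw [ht2l, hwl]; linarith
    have := lt_of_mul_lt_mul_right this hl2.le
    linarith
  have ht12 : t₁ ≤ t₂ := by
    have : t₁ * Real.log 2 ≤ t₂ * Real.log 2 := by rw [ht1l, ht2l]; linarith
    exact le_of_mul_le_mul_right this hl2
  set g : ℝ := t₂ with hg
  have hgl : g < gst := by linarith
  obtain ⟨K, hK1, hKp⟩ := kp_upper (g := g) (κ := κ) hgl hκ0 hκ1
  set η₁ : ℝ := t₁ / 2 with hη1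
  set η₂ : ℝ := (w - c₂) / (8 * Real.log 2) with hη2
  have hη20 : 0 < η₂ := by rw [hη2]; exact div_pos (by linarith) (by positivity)
  have hη2l : η₂ * Real.log 2 = (w - c₂) / 8 := by rw [hη2]; field_simp
  have hev : ∀ᶠ d : ℕ in atTop, 16 * (Real.exp K + 8) / (a ^ 2 * c₁) + 1 / ((w - c₂) / 8) ≤ d := by
    exact (tendsto_natCast_atTop_atTop (R := ℝ)).eventually_ge_atTop _
  filter_upwards [hKp, kp_rec (g := g) (κ := κ) hgl hκ0 hκ1, hev,
    Z_lower (s₁ := s0 + t₁) (s₂ := s0 + t₂) (by linarith) (by linarith) (by linarith) he0 he1,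
    pc_up2 (η := t₁) ht10, pc_lower (η := η₂) hη20] with d hk hrec hbig hZ hpu hpl
  obtain ⟨hd4, hrec⟩ := hrec
  obtain ⟨-, hZ⟩ := hZ
  refine ⟨hd4, fun k hk1 hk2 => ?_⟩
  have : NeZero d := ⟨by omega⟩
  have hp := pc_pos hd4
  have hp1 : pc d ≤ 1 := pc_le_one (by omega)
  set p := pc d with hpd
  have hd0 : (0 : ℝ) < d := by exact_mod_cast (by omega : 0 < d)
  have hb1 : 0 < 16 * (Real.exp K + 8) / (a ^ 2 * c₁) := by positivity
  have hb2 : 0 < 1 / ((w - c₂) / 8) := by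
    have : 0 < w - c₂ := by linarith
    positivity
  have hd1 : 16 * (Real.exp K + 8) / (a ^ 2 * c₁) ≤ d := by linarith
  have hd2 : 1 / ((w - c₂) / 8) ≤ d := by linarith
  rw [div_le_iff₀ (by positivity)] at hd1
  rw [div_le_iff₀ (by linarith)] at hd2
  set u : ℝ := p * k with hu
  have hu0 : 0 < u := lt_of_lt_of_le (by positivity) hk1
  have huC : 16 * (Real.exp K + 8) ≤ a ^ 2 * u := by
    calc 16 * (Real.exp K + 8) ≤ d * (a ^ 2 * c₁) := hd1
      _ = a ^ 2 * (c₁ * d) := by ring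
      _ ≤ a ^ 2 * u := mul_le_mul_of_nonneg_left hk1 (by positivity)
  set q : ℕ := ⌈(1 + 3 * a) * k⌉₊ with hq
  have hq2 : (q : ℝ) ≤ (1 + 3 * a) * k + 1 := by
    rw [hq]; exact (Nat.ceil_lt_add_one (by positivity)).le
  have hpq : p * q ≤ g * Real.log 2 * d := by
    have h3 : p * q ≤ (1 + 3 * a) * u + 1 := by
      have := mul_le_mul_of_nonneg_left hq2 hp.le
      have e1 : p * ((1 + 3 * a) * k + 1) = (1 + 3 * a) * u + p := by rw [hu]; ring
      linarith
    have h4 : (1 + 3 * a) * u ≤ (c₂ + 3 * ((w - c₂) / 8)) * d := by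
      calc (1 + 3 * a) * u ≤ (1 + 3 * a) * (c₂ * d) := mul_le_mul_of_nonneg_left hk2 (by positivity)
        _ = (c₂ + 3 * (a * c₂)) * d := by ring
        _ ≤ _ := by
          apply mul_le_mul_of_nonneg_right _ hd0.le
          linarith
    have h5 : g * Real.log 2 * d = (w + c₂) / 2 * d := by rw [hg, ht2l]
    rw [h5]
    linarith
  have hpqk : ∀ j : ℕ, j ≤ q → p * j ≤ g * Real.log 2 * d := by
    intro j hj
    refine le_trans ?_ hpq
    have : (j : ℝ) ≤ q := by exact_mod_cast hj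
    exact mul_le_mul_of_nonneg_left this hp.le
  -- the fugacity
  set l : ℝ := (1 + a) * u with hl
  have hlam1 : (2 : ℝ) ^ ((s0 + t₁) * d) ≤ Real.exp l / p := by
    rw [le_div_iff₀ hp]
    have h3 : (2 : ℝ) ^ ((s0 + t₁) * d) * p ≤ 2 ^ ((s0 + t₁) * d) * 2 ^ ((-s0 + t₁) * d) :=
      mul_le_mul_of_nonneg_left hpu (by positivity)
    refine h3.trans ?_
    rw [← Real.rpow_add (by norm_num), Real.rpow_def_of_pos (by norm_num)]
    apply Real.exp_le_exp.2
    have e1 : Real.log 2 * ((s0 + t₁) * d + (-s0 + t₁) * d) = 2 * (t₁ * Real.log 2) * d := by ring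
    rw [e1, ht1l]
    have : 0 < a * u := by positivity
    linarith
  have hlam2 : Real.exp l / p ≤ (2 : ℝ) ^ ((s0 + t₂) * d) := by
    rw [div_le_iff₀ hp]
    have h3 : (2 : ℝ) ^ ((s0 + t₂) * d) * 2 ^ (-((s0 + η₂) * d)) ≤ 2 ^ ((s0 + t₂) * d) * p :=
      mul_le_mul_of_nonneg_left hpl (by positivity)
    refine le_trans ?_ h3
    rw [← Real.rpow_add (by norm_num), Real.rpow_def_of_pos (by norm_num)]
    apply Real.exp_le_exp.2
    have e1 : Real.log 2 * ((s0 + t₂) * d + -((s0 + η₂) * d)) =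
        (t₂ * Real.log 2 - η₂ * Real.log 2) * d := by ring
    rw [e1, ht2l, hη2l]
    calc l = (1 + a) * u := hl
      _ ≤ (1 + a) * (c₂ * d) := mul_le_mul_of_nonneg_left hk2 (by positivity)
      _ = (c₂ + a * c₂) * d := by ring
      _ ≤ _ := by
        apply mul_le_mul_of_nonneg_right _ hd0.le
        linarith
  have hZ1 := hZ _ hlam1 hlam2
  rw [div_mul_cancel₀ _ hp.ne', Real.log_exp] at hZ1
  have hmain := pk_num (P := kp d) (kp_nonneg d) (kp_le_one d) (fun j k h => kp_anti d h)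
    (p := p) (κ := κ) (K := K) (a := a) (e := e) (u := u) (k := k) (q := q) hp hp1 ha0 ha4 hκ0
    le_rfl he0 le_rfl hu hq huC
    (fun j hj => hk j (hpqk j hj))
    (fun j hj => hrec j q hj (by
      refine le_trans ?_ hpq
      have : (1 - κ) * p ≤ p := mul_le_of_le_one_left hp.le (by linarith)
      exact mul_le_mul_of_nonneg_right this (Nat.cast_nonneg q)))
    hZ1
  refine le_trans (Real.exp_le_exp.2 ?_) hmain
  have e1 : (1 + 13 * a) * u ^ 2 / (2 * p) = (1 + 13 * a) * (p * k ^ 2 / 2) := by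
    rw [hu]; field_simp
  have e2 : (1 + ε) * p * k ^ 2 / 2 = (1 + ε) * (p * k ^ 2 / 2) := by ring
  rw [e1, e2]
  have : (1 + 13 * a) * (p * k ^ 2 / 2) ≤ (1 + ε) * (p * k ^ 2 / 2) :=
    mul_le_mul_of_nonneg_right (by linarith) (by positivity)
  linarith

/-- **The probability of no overlap from above.** -/
theorem pk_upper {c₁ c₂ : ℝ} (hc1 : 0 < c₁) (hc2 : c₂ < gst * Real.log 2) {ε : ℝ} (hε : 0 < ε)
    (hε1 : ε < 1) :
    ∀ᶠ d : ℕ in atTop, ∀ k : ℕ, c₁ * d ≤ pc d * k → pc d * k ≤ c₂ * d →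
      kp d k ≤ Real.exp (-((1 - ε) * pc d * k ^ 2 / 2)) := by
  have hl2 : 0 < Real.log 2 := Real.log_pos (by norm_num)
  obtain ⟨K, hK1, hKp⟩ := kp_upper (g := c₂ / Real.log 2) (κ := ε / 2)
    (by rw [div_lt_iff₀ hl2]; exact hc2) (by positivity) (by linarith)
  have hev : ∀ᶠ d : ℕ in atTop, 4 * K / (ε * c₁) ≤ d :=
    (tendsto_natCast_atTop_atTop (R := ℝ)).eventually_ge_atTop _
  filter_upwards [hKp, hev] with d hk hbig k hk1 hk2
  refine (hk k (by rw [div_mul_cancel₀ _ hl2.ne']; exact hk2)).trans (Real.exp_le_exp.2 ?_)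
  rw [div_le_iff₀ (by positivity)] at hbig
  have h3 : 4 * K ≤ ε * (pc d * k) := by
    calc 4 * K ≤ d * (ε * c₁) := hbig
      _ = ε * (c₁ * d) := by ring
      _ ≤ _ := mul_le_mul_of_nonneg_left hk1 hε.le
  have h4 : 4 * K * k ≤ ε * (pc d * k) * k := mul_le_mul_of_nonneg_right h3 (Nat.cast_nonneg k)
  nlinarith

end Pool.Agent.Helper63.RKS
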