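import Pool.Agent.Helper63.RKS.LargeUp
import Pool.Agent.Helper63.RKS.PkLow

/-!
The sharp theorems with the explicit constants: assembly.
-/

set_option autoImplicit false

open MeasureTheory Set Metric ProbabilityTheory Filter Topology
open scoped ENNReal RealInnerProductSpace Nat
open Pool.Agent.Helper47.KP

namespace Pool.Agent.Helper63.RKS

open Pool.Agent.Helper84.RK Pool.Agent.Helper49.EJ

/-- the sharp asymptotics of the cap -/
def CapAsymp : Prop := Tendsto (fun d : ℕ => pc d * (Real.sqrt d * (2 / Real.sqrt 3) ^ d)) atTop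
  (𝓝 (Real.sqrt (8 / (3 * Real.pi))))

/-- the constant `√(3π/8) log 2` -/
noncomputable def AA : ℝ := Real.sqrt (3 * Real.pi / 8) * Real.log 2

lemma AA_pos : 0 < AA := by
  unfold AA
  have := Real.log_pos (show (1 : ℝ) < 2 by norm_num)
  positivity

lemma AA_le_one : AA ≤ 1 := by
  unfold AA
  have h1 : Real.sqrt (3 * Real.pi / 8) ≤ 1.2 := by
    rw [Real.sqrt_le_left (by norm_num)]
    have := Real.pi_lt_d2
    norm_num at this ⊢
    linarith
  have h2 : Real.log 2 ≤ 0.7 := by have := Real.log_two_lt_d9; norm_num at this ⊢; linarith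
  have h3 : 0 ≤ Real.log 2 := (Real.log_pos (by norm_num)).le
  calc Real.sqrt (3 * Real.pi / 8) * Real.log 2 ≤ 1.2 * 0.7 :=
        mul_le_mul h1 h2 h3 (by norm_num)
    _ ≤ 1 := by norm_num

/-- the scale `d log 2 / p` -/
noncomputable def RR (d : ℕ) : ℝ := d * Real.log 2 / pc d

lemma RR_tendsto (h : CapAsymp) : Tendsto (fun d : ℕ => RR d / ord d) atTop (𝓝 AA) := by
  have hlim : Real.sqrt (8 / (3 * Real.pi)) ≠ 0 := by positivity
  have h1 := (h.inv₀ hlim).mul_const (Real.log 2)
  have e1 : (Real.sqrt (8 / (3 * Real.pi)))⁻¹ * Real.log 2 = AA := by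
    unfold AA
    rw [← Real.sqrt_inv, inv_div]
  rw [e1] at h1
  refine h1.congr' ?_
  filter_upwards [eventually_ge_atTop 4] with d hd
  have hp := pc_pos hd
  have hd0 : (0 : ℝ) < d := by exact_mod_cast (by omega : 0 < d)
  have hs3 : 0 < Real.sqrt 3 := Real.sqrt_pos.2 (by norm_num)
  have e2 : (d : ℝ) ^ (3 / 2 : ℝ) = d * Real.sqrt d := by
    rw [Real.sqrt_eq_rpow, show (3 / 2 : ℝ) = 1 + 1 / 2 by norm_num, Real.rpow_add hd0,
      Real.rpow_one]
  unfold RR ord
  rw [e2]
  field_simp

lemma ord_pos {d : ℕ} (hd : 1 ≤ d) : 0 < ord d := by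
  have hd0 : (0 : ℝ) < d := by exact_mod_cast hd
  unfold ord
  positivity

lemma RR_close (h : CapAsymp) {ε : ℝ} (hε : 0 < ε) : ∀ᶠ d : ℕ in atTop,
    (AA - ε) * ord d ≤ RR d ∧ RR d ≤ (AA + ε) * ord d := by
  filter_upwards [(RR_tendsto h).eventually (Icc_mem_nhds (show AA - ε < AA by linarith)
    (show AA < AA + ε by linarith)), eventually_ge_atTop 1] with d hd hd1
  have ho := ord_pos hd1
  obtain ⟨h1, h2⟩ := hd
  rw [le_div_iff₀ ho] at h1
  rw [div_le_iff₀ ho] at h2
  exact ⟨h1, h2⟩

/-- the logarithm of `2 ^ (s d) p` -/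
lemma log_close {ε : ℝ} (hε : 0 < ε) : ∀ᶠ d : ℕ in atTop, ∀ s : ℝ,
    (s - Real.logb 2 (2 / Real.sqrt 3) - ε) * (Real.log 2 * d) ≤
      Real.log (2 ^ (s * d) * pc d) ∧
    Real.log (2 ^ (s * d) * pc d) ≤ (s - Real.logb 2 (2 / Real.sqrt 3)) * (Real.log 2 * d) := by
  set s0 := Real.logb 2 (2 / Real.sqrt 3) with hs0
  filter_upwards [pc_lower (η := ε) hε, eventually_ge_atTop 100] with d hd hd4 s
  have hp := pc_pos (by omega : 4 ≤ d)
  have hd0 : (100 : ℝ) ≤ d := by exact_mod_cast hd4
  have e1 : Real.log (2 ^ (s * d) * pc d) = s * (Real.log 2 * d) + Real.log (pc d) := by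
    rw [Real.log_mul (by positivity) hp.ne', Real.log_rpow (by norm_num)]
    ring
  rw [e1]
  constructor
  · have h1 := Real.log_le_log (by positivity) hd
    rw [Real.log_rpow (by norm_num), ← hs0] at h1
    linarith
  · have h1 : pc d ≤ 2 ^ (-s0 * d) := by
      refine (Pool.Agent.Helper84.RK.pc_le (by omega)).trans ?_
      have h2 : (Real.sqrt 3 / 2) ^ d = 2 ^ (-s0 * d) := by
        have h3 := two_rpow_W d
        rw [← hs0] at h3
        rw [neg_mul, Real.rpow_neg (by norm_num), h3, ← inv_pow, inv_div]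
      rw [h2, div_le_iff₀ (Real.sqrt_pos.2 (by linarith)), mul_comm]
      apply mul_le_mul_of_nonneg_left _ (by positivity)
      rw [show (10 : ℝ) = Real.sqrt (10 ^ 2) by rw [Real.sqrt_sq (by norm_num)]]
      apply Real.sqrt_le_sqrt
      linarith
    have h2 := Real.log_le_log hp h1
    rw [Real.log_rpow (by norm_num)] at h2
    linarith

/-- **The hard-core model, with the constants.** -/
theorem hardcore_sharp (hcap : CapAsymp) {s₁ s₂ : ℝ} (h1 : Real.logb 2 (2 / Real.sqrt 3) < s₁)
    (h2 : s₂ < sT) {ε : ℝ} (hε : 0 < ε) : ∀ᶠ d : ℕ in atTop, ∀ s : ℝ, s₁ ≤ s → s ≤ s₂ →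
      |mn (kp d) (2 ^ (s * d)) - AA * (s - Real.logb 2 (2 / Real.sqrt 3)) * ord d| ≤ ε * ord d ∧
      |Real.log (ZZ (kp d) (2 ^ (s * d))) -
        AA * Real.log 2 / 2 * (s - Real.logb 2 (2 / Real.sqrt 3)) ^ 2 * (d * ord d)| ≤
          ε * (d * ord d) := by
  rcases lt_or_ge s₂ s₁ with h12 | h12
  · filter_upwards with d s hs1 hs2
    exfalso; linarith
  set s0 := Real.logb 2 (2 / Real.sqrt 3) with hs0
  have hs0p : 0 < s0 := W_pos
  have hs31 := sT_lt_one
  have hl2 : 0 < Real.log 2 := Real.log_pos (by norm_num)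
  have hl21 : Real.log 2 ≤ 1 := by have := Real.log_two_lt_d9; linarith
  have hA := AA_pos
  have hA1 := AA_le_one
  set e : ℝ := min (ε / 16) (1 / 2) with he
  have he0 : 0 < e := by rw [he]; positivity
  have heε : e ≤ ε / 16 := min_le_left _ _
  have he1 : e ≤ 1 / 2 := min_le_right _ _
  filter_upwards [mean (s₁ := s₁) (s₂ := s₂) h1 h2 h12 he0 (by linarith),
    Z_lower (s₁ := s₁) (s₂ := s₂) h1 h2 h12 he0 (by linarith),
    Z_upper (s₁ := s₁) (s₂ := s₂) h1 (h2.trans_le sT_le) he0 (by linarith),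
    RR_close hcap he0, log_close he0] with d hm hZl hZu hR hlog s hs1 hs2
  obtain ⟨hd4, hm⟩ := hm
  obtain ⟨-, hZl⟩ := hZl
  obtain ⟨-, hZu⟩ := hZu
  obtain ⟨hR1, hR2⟩ := hR
  obtain ⟨hL1, hL2⟩ := hlog s
  have hp := pc_pos hd4
  have hd0 : (0 : ℝ) < d := by exact_mod_cast (by omega : 0 < d)
  have hs1' : (2 : ℝ) ^ (s₁ * d) ≤ 2 ^ (s * d) :=
    Real.rpow_le_rpow_of_exponent_le (by norm_num) (mul_le_mul_of_nonneg_right hs1 hd0.le)
  have hs2' : (2 : ℝ) ^ (s * d) ≤ 2 ^ (s₂ * d) :=
    Real.rpow_le_rpow_of_exponent_le (by norm_num) (mul_le_mul_of_nonneg_right hs2 hd0.le)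
  obtain ⟨hm1, hm2⟩ := hm _ hs1' hs2'
  have hz1 := hZl _ hs1' hs2'
  have hz2 := hZu _ hs1' hs2'
  set p := pc d with hpd
  set L := Real.log (2 ^ (s * d) * p) with hL
  set t : ℝ := s - s0 with ht
  set o := ord d with ho
  have ho0 : 0 < o := ord_pos (by omega)
  have ht0 : 0 < t := by rw [ht]; linarith
  have ht1 : t ≤ 1 := by rw [ht]; linarith
  set D : ℝ := Real.log 2 * d with hD
  have hD0 : 0 < D := mul_pos hl2 hd0
  set τ : ℝ := L / D with hτ
  have hLτ : L = τ * D := by rw [hτ]; field_simp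
  have hτ1 : t - e ≤ τ := by
    rw [hτ, le_div_iff₀ hD0]; exact hL1
  have hτ2 : τ ≤ t := by
    rw [hτ, div_le_iff₀ hD0]; exact hL2
  have hRp : D / p = RR d := by
    rw [hD]; unfold RR; rw [← hpd]; ring
  have hR0 : 0 ≤ RR d := by
    unfold RR; positivity
  have hRo : RR d ≤ 2 * o := hR2.trans (mul_le_mul_of_nonneg_right (by linarith) ho0.le)
  constructor
  · have e1 : ∀ c : ℝ, c * L / p = c * τ * RR d := by
      intro c
      rw [hLτ, ← hRp]; ring
    rw [e1] at hm1 hm2
    rw [abs_le]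
    constructor
    · -- lower
      have h3 : (t - 2 * e) * RR d ≤ (1 - e) * τ * RR d := by
        apply mul_le_mul_of_nonneg_right _ hR0
        have k1 : (1 - e) * (t - e) ≤ (1 - e) * τ := mul_le_mul_of_nonneg_left hτ1 (by linarith)
        have k2 : e * t ≤ e * 1 := mul_le_mul_of_nonneg_left ht1 he0.le
        have k3 : (1 - e) * (t - e) = t - e - e * t + e * e := by ring
        have k4 : 0 < e * e := mul_pos he0 he0
        linarith
      have h4 : t * ((AA - e) * o) ≤ t * RR d := mul_le_mul_of_nonneg_left hR1 ht0.le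
      have h5 : 2 * e * RR d ≤ 2 * e * (2 * o) := mul_le_mul_of_nonneg_left hRo (by positivity)
      have h6 : t * (e * o) ≤ 1 * (e * o) := mul_le_mul_of_nonneg_right ht1 (by positivity)
      have h7 : e * o ≤ ε / 16 * o := mul_le_mul_of_nonneg_right heε ho0.le
      have h8 : 0 < ε * o := by positivity
      have k1 : t * ((AA - e) * o) = AA * t * o - t * (e * o) := by ring
      have k2 : (t - 2 * e) * RR d = t * RR d - 2 * e * RR d := by ring
      linarith
    · have h3 : (1 + e) * τ * RR d ≤ (t + e) * RR d := by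
        apply mul_le_mul_of_nonneg_right _ hR0
        have k1 : (1 + e) * τ ≤ (1 + e) * t := mul_le_mul_of_nonneg_left hτ2 (by linarith)
        have k2 : e * t ≤ e * 1 := mul_le_mul_of_nonneg_left ht1 he0.le
        linarith
      have h4 : t * RR d ≤ t * ((AA + e) * o) := mul_le_mul_of_nonneg_left hR2 ht0.le
      have h5 : e * RR d ≤ e * (2 * o) := mul_le_mul_of_nonneg_left hRo (by positivity)
      have h6 : t * (e * o) ≤ 1 * (e * o) := mul_le_mul_of_nonneg_right ht1 (by positivity)
      have h7 : e * o ≤ ε / 16 * o := mul_le_mul_of_nonneg_right heε ho0.le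
      have h8 : 0 < ε * o := by positivity
      have k1 : t * ((AA + e) * o) = AA * t * o + t * (e * o) := by ring
      have k2 : (t + e) * RR d = t * RR d + e * RR d := by ring
      linarith
  · have e1 : ∀ c : ℝ, c * L ^ 2 / (2 * p) = c * τ ^ 2 * (Real.log 2 / 2 * (d * RR d)) := by
      intro c
      rw [hLτ, ← hRp, hD]; ring
    rw [e1] at hz1 hz2
    set X : ℝ := Real.log 2 / 2 * (d * RR d) with hX
    have hX0 : 0 ≤ X := by rw [hX]; positivity
    have hX1 : Real.log 2 / 2 * (d * ((AA - e) * o)) ≤ X := by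
      rw [hX]
      apply mul_le_mul_of_nonneg_left _ (by positivity)
      exact mul_le_mul_of_nonneg_left hR1 hd0.le
    have hX2 : X ≤ Real.log 2 / 2 * (d * ((AA + e) * o)) := by
      rw [hX]
      apply mul_le_mul_of_nonneg_left _ (by positivity)
      exact mul_le_mul_of_nonneg_left hR2 hd0.le
    have hXo : X ≤ d * o := by
      rw [hX]
      calc Real.log 2 / 2 * (d * RR d) ≤ 1 / 2 * (d * (2 * o)) := by
            apply mul_le_mul (by linarith) _ (by positivity) (by norm_num)
            exact mul_le_mul_of_nonneg_left hRo hd0.le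
        _ = d * o := by ring
    have hdo : 0 < d * o := by positivity
    have hτ0 : -(1 / 2) ≤ τ := by linarith
    have e2 : AA * Real.log 2 / 2 * t ^ 2 * (d * o) =
        t ^ 2 * (Real.log 2 / 2 * (d * (AA * o))) := by ring
    rw [e2]
    have h9 : Real.log 2 / 2 * (d * (e * o)) ≤ ε / 16 * (d * o) := by
      calc Real.log 2 / 2 * (d * (e * o)) = Real.log 2 / 2 * e * (d * o) := by ring
        _ ≤ ε / 16 * (d * o) := by
          apply mul_le_mul_of_nonneg_right _ hdo.le
          have k1 : Real.log 2 * e ≤ 1 * e := mul_le_mul_of_nonneg_right hl21 he0.le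
          linarith
    have ht2 : t ^ 2 ≤ 1 := pow_le_one₀ ht0.le ht1
    rw [abs_le]
    constructor
    · have h3 : (t ^ 2 - 5 * e) * X ≤ (1 - e) * τ ^ 2 * X := by
        apply mul_le_mul_of_nonneg_right _ hX0
        rcases lt_or_ge t e with h | h
        · have : t ^ 2 ≤ e := by
            have k1 : t * t ≤ 1 * e := mul_le_mul ht1 h.le ht0.le zero_le_one
            linarith
          have h5 : 0 ≤ (1 - e) * τ ^ 2 := by
            have : 0 ≤ 1 - e := by linarith
            positivity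
          linarith
        · have h5 : (t - e) ^ 2 ≤ τ ^ 2 := pow_le_pow_left₀ (by linarith) hτ1 2
          have h6 : (1 - e) * (t - e) ^ 2 ≤ (1 - e) * τ ^ 2 :=
            mul_le_mul_of_nonneg_left h5 (by linarith)
          have h7 : (t - e) ^ 2 ≤ 1 := by
            have : t - e ≤ 1 := by linarith
            exact pow_le_one₀ (by linarith) this
          have h8 : e * (t - e) ^ 2 ≤ e * 1 := mul_le_mul_of_nonneg_left h7 he0.le
          have h9 : t * e ≤ 1 * e := mul_le_mul_of_nonneg_right ht1 he0.le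
          have e4 : (1 - e) * (t - e) ^ 2 = t ^ 2 - 2 * (t * e) + e ^ 2 - e * (t - e) ^ 2 := by
            ring
          have h10 : 0 ≤ e ^ 2 := sq_nonneg e
          linarith
      have h4 : t ^ 2 * (Real.log 2 / 2 * (d * ((AA - e) * o))) ≤ t ^ 2 * X :=
        mul_le_mul_of_nonneg_left hX1 (by positivity)
      have h5 : 5 * e * X ≤ 5 * (ε / 16) * (d * o) :=
        mul_le_mul (by linarith) hXo hX0 (by positivity)
      have h6 : t ^ 2 * (Real.log 2 / 2 * (d * (e * o))) ≤
          1 * (Real.log 2 / 2 * (d * (e * o))) :=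
        mul_le_mul_of_nonneg_right ht2 (by positivity)
      have h8 : 0 < ε * (d * o) := by positivity
      have e3 : t ^ 2 * (Real.log 2 / 2 * (d * ((AA - e) * o))) =
          t ^ 2 * (Real.log 2 / 2 * (d * (AA * o))) - t ^ 2 * (Real.log 2 / 2 * (d * (e * o))) := by
        ring
      linarith
    · have h3 : (1 + e) * τ ^ 2 * X ≤ (t ^ 2 + 5 * e) * X := by
        apply mul_le_mul_of_nonneg_right _ hX0
        have h5 : τ ^ 2 ≤ t ^ 2 + e := by
          rcases lt_or_ge τ 0 with h | h
          · have k0 : -e ≤ τ := by linarith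
            have : τ ^ 2 ≤ e ^ 2 := by
              rw [sq_le_sq, abs_of_neg h, abs_of_pos he0]
              linarith
            have k1 : e * e ≤ 1 * e := mul_le_mul_of_nonneg_right (by linarith) he0.le
            have k2 : 0 ≤ t ^ 2 := sq_nonneg t
            linarith
          · have : τ ^ 2 ≤ t ^ 2 := pow_le_pow_left₀ h hτ2 2
            linarith
        have k1 : (1 + e) * τ ^ 2 ≤ (1 + e) * (t ^ 2 + e) :=
          mul_le_mul_of_nonneg_left h5 (by linarith)
        have k2 : e * (t ^ 2 + e) ≤ e * 2 := mul_le_mul_of_nonneg_left (by linarith) he0.le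
        linarith
      have h4 : t ^ 2 * X ≤ t ^ 2 * (Real.log 2 / 2 * (d * ((AA + e) * o))) :=
        mul_le_mul_of_nonneg_left hX2 (by positivity)
      have h5 : 5 * e * X ≤ 5 * (ε / 16) * (d * o) :=
        mul_le_mul (by linarith) hXo hX0 (by positivity)
      have h6 : t ^ 2 * (Real.log 2 / 2 * (d * (e * o))) ≤
          1 * (Real.log 2 / 2 * (d * (e * o))) :=
        mul_le_mul_of_nonneg_right ht2 (by positivity)
      have h8 : 0 < ε * (d * o) := by positivity
      have e3 : t ^ 2 * (Real.log 2 / 2 * (d * ((AA + e) * o))) =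
          t ^ 2 * (Real.log 2 / 2 * (d * (AA * o))) + t ^ 2 * (Real.log 2 / 2 * (d * (e * o))) := by
        ring
      linarith

end Pool.Agent.Helper63.RKS
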