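import Pool.Agent.Helper63.RKS.Occ

/-!
The local argument: conditioning on the independent set outside the neighbourhood of a vertex.
-/

set_option autoImplicit false

open Finset

namespace Pool.Agent.Helper63.RKS

open Pool.Agent.Helper84.RK

variable {ι : Type*} [DecidableEq ι] {R : ι → ι → Prop} [DecidableRel R]

/-- the description of a fibre -/
lemma fiber_eq (hsym : ∀ a b, R a b → R b a) (hirr : ∀ a, ¬ R a a) {M : Finset ι} {v : ι}
    (hv : v ∈ M) {W₀ : Finset ι} (hW₀ : W₀ ∈ Ind R M) :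
    (Ind R M).filter (fun W => W \ insert v (Nb R M v) = W₀ \ insert v (Nb R M v)) =
      insert (insert v (W₀ \ insert v (Nb R M v)))
        ((Ind R ((Nb R M v).filter (fun u => ∀ a ∈ W₀ \ insert v (Nb R M v), ¬ R a u))).image
          (fun Y => (W₀ \ insert v (Nb R M v)) ∪ Y)) := by
  obtain ⟨hWM, hWI⟩ := mem_Ind.1 hW₀
  set N := Nb R M v with hN
  set S := W₀ \ insert v N with hS
  have hSM : S ⊆ M := fun a ha => hWM (mem_sdiff.1 ha).1
  have hSI : ∀ a ∈ S, ∀ b ∈ S, ¬ R a b := fun a ha b hb =>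
    hWI a (mem_sdiff.1 ha).1 b (mem_sdiff.1 hb).1
  have hSv : ∀ a ∈ S, ¬ R v a := by
    intro a ha h
    have : a ∈ insert v N := mem_insert_of_mem (mem_Nb.2 ⟨hSM ha, h⟩)
    exact (mem_sdiff.1 ha).2 this
  ext W
  simp only [mem_filter, mem_insert, mem_image]
  constructor
  · rintro ⟨hW, hWS⟩
    obtain ⟨hWM', hWI'⟩ := mem_Ind.1 hW
    by_cases hvW : v ∈ W
    · left
      ext a
      constructor
      · intro ha
        by_cases hav : a = v
        · rw [hav]; exact mem_insert_self _ _
        · apply mem_insert_of_mem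
          rw [← hWS, mem_sdiff, mem_insert, not_or]
          refine ⟨ha, hav, fun h => ?_⟩
          exact hWI' v hvW a ha (mem_Nb.1 h).2
      · intro ha
        rcases mem_insert.1 ha with ha' | ha'
        · rw [ha']; exact hvW
        · rw [← hWS] at ha'
          exact (mem_sdiff.1 ha').1
    · right
      refine ⟨W ∩ N, ?_, ?_⟩
      · rw [mem_Ind]
        refine ⟨?_, fun a ha b hb => hWI' a (mem_inter.1 ha).1 b (mem_inter.1 hb).1⟩
        intro u hu
        rw [mem_inter] at hu
        rw [mem_filter]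
        refine ⟨hu.2, fun a ha => ?_⟩
        rw [← hWS] at ha
        exact hWI' a (mem_sdiff.1 ha).1 u hu.1
      · ext a
        rw [mem_union, ← hWS, mem_sdiff, mem_inter, mem_insert]
        constructor
        · rintro (h | h)
          · exact h.1
          · exact h.1
        · intro ha
          by_cases haN : a ∈ N
          · exact Or.inr ⟨ha, haN⟩
          · refine Or.inl ⟨ha, ?_⟩
            rintro (h | h)
            · rw [h] at ha; exact hvW ha
            · exact haN h
  · rintro (hWe | ⟨Y, hY, hWe⟩)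
    · rw [hWe]
      constructor
      · rw [mem_Ind]
        constructor
        · exact insert_subset hv hSM
        · intro a ha b hb
          rcases mem_insert.1 ha with ha' | ha'
          · rcases mem_insert.1 hb with hb' | hb'
            · rw [ha', hb']; exact hirr _
            · rw [ha']; exact hSv b hb'
          · rcases mem_insert.1 hb with hb' | hb'
            · rw [hb']; exact fun h => hSv a ha' (hsym _ _ h)
            · exact hSI a ha' b hb'
      · ext a
        rw [mem_sdiff, mem_insert, mem_insert]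
        constructor
        · rintro ⟨h1 | h1, h2⟩
          · exact absurd (Or.inl h1) h2
          · exact h1
        · intro ha
          exact ⟨Or.inr ha, fun h => (mem_sdiff.1 ha).2 (mem_insert.2 h)⟩
    · rw [← hWe]
      obtain ⟨hYX, hYI⟩ := mem_Ind.1 hY
      have hYN : ∀ u ∈ Y, u ∈ N := fun u hu => (mem_filter.1 (hYX hu)).1
      have hYS : ∀ u ∈ Y, ∀ a ∈ S, ¬ R a u := fun u hu => (mem_filter.1 (hYX hu)).2
      constructor
      · rw [mem_Ind]
        constructor
        · exact union_subset hSM fun u hu => (mem_Nb.1 (hYN u hu)).1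
        · intro a ha b hb
          rcases mem_union.1 ha with ha' | ha'
          · rcases mem_union.1 hb with hb' | hb'
            · exact hSI a ha' b hb'
            · exact hYS b hb' a ha'
          · rcases mem_union.1 hb with hb' | hb'
            · exact fun h => hYS a ha' b hb' (hsym _ _ h)
            · exact hYI a ha' b hb'
      · ext a
        rw [mem_sdiff, mem_union]
        constructor
        · rintro ⟨h1 | h1, h2⟩
          · exact h1
          · exact absurd (mem_insert_of_mem (hYN a h1)) h2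
        · intro ha
          exact ⟨Or.inl ha, (mem_sdiff.1 ha).2⟩

lemma num_ineq {z z0 lam A κ : ℝ} (hz : 1 ≤ z) (hz0 : 0 < z0) (hκ0 : 0 ≤ κ) (hκ1 : κ ≤ 1)
    (hA : (1 - κ) * (1 + Real.log z0) * lam + z0 ≤ A * lam) :
    (1 - κ) * (1 + Real.log z0) * (lam + z) ≤ A * lam + (1 - κ) * (z * Real.log z) := by
  have hzp : 0 < z := by linarith
  have h1 : z * (1 + Real.log z0) - z0 ≤ z * Real.log z := by
    have h2 := Real.log_le_sub_one_of_pos (div_pos hz0 hzp)
    rw [Real.log_div hz0.ne' hzp.ne'] at h2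
    have h3 : z * (Real.log z0 - Real.log z) ≤ z * (z0 / z - 1) :=
      mul_le_mul_of_nonneg_left h2 hzp.le
    have h4 : z * (z0 / z - 1) = z0 - z := by field_simp
    rw [h4] at h3
    linarith
  have h5 : (1 - κ) * (z * (1 + Real.log z0) - z0) ≤ (1 - κ) * (z * Real.log z) :=
    mul_le_mul_of_nonneg_left h1 (by linarith)
  have h6 : (1 - κ) * z0 ≤ z0 := mul_le_of_le_one_left hz0.le (by linarith)
  nlinarith

/-- the inequality for one fibre -/
lemma fiber_ineq (hsym : ∀ a b, R a b → R b a) (hirr : ∀ a, ¬ R a a) {M : Finset ι}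
    {v : ι} (hv : v ∈ M) {D lam A z0 : ℝ} (hD : 0 ≤ D) (hl : 0 < lam)
    (hloc : ∀ X ⊆ Nb R M v, ∑ u ∈ X, ((Nb R X u).card : ℝ) ≤ 2 * D * X.card)
    (hk : lam * (1 + 2 * D) ≤ 1) (hz0 : 0 < z0)
    (hA : (1 - lam * (1 + 2 * D)) * (1 + Real.log z0) * lam + z0 ≤ A * lam)
    {W₀ : Finset ι} (hW₀ : W₀ ∈ Ind R M) :
    (1 - lam * (1 + 2 * D)) * (1 + Real.log z0) * ∑ W ∈ (Ind R M).filter
      (fun W => W \ insert v (Nb R M v) = W₀ \ insert v (Nb R M v)), lam ^ W.card ≤
    ∑ W ∈ (Ind R M).filter (fun W => W \ insert v (Nb R M v) = W₀ \ insert v (Nb R M v)),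
      ((if v ∈ W then A else 0) + ((W ∩ Nb R M v).card : ℝ)) * lam ^ W.card := by
  rw [fiber_eq hsym hirr hv hW₀]
  set N := Nb R M v with hN
  set S := W₀ \ insert v N with hS
  set X := N.filter (fun u => ∀ a ∈ S, ¬ R a u) with hX
  have hvS : v ∉ S := fun h => (mem_sdiff.1 h).2 (mem_insert_self _ _)
  have hvN : v ∉ N := fun h => hirr v (mem_Nb.1 h).2
  have hSN : ∀ a ∈ S, a ∉ N := fun a ha h => (mem_sdiff.1 ha).2 (mem_insert_of_mem h)
  have hXN : X ⊆ N := filter_subset _ _
  have hIX : ∀ Y ∈ Ind R X, Y ⊆ X := fun Y hY => (mem_Ind.1 hY).1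
  have hnot : insert v S ∉ (Ind R X).image (fun Y => S ∪ Y) := by
    intro h
    obtain ⟨Y, hY, hYe⟩ := mem_image.1 h
    have : v ∈ S ∪ Y := by rw [hYe]; exact mem_insert_self _ _
    rcases mem_union.1 this with h1 | h1
    · exact hvS h1
    · exact hvN (hXN (hIX Y hY h1))
  have hdis : ∀ Y ∈ Ind R X, Disjoint S Y := by
    intro Y hY
    rw [Finset.disjoint_left]
    intro a ha ha2
    exact hSN a ha (hXN (hIX Y hY ha2))
  have hinj : Set.InjOn (fun Y => S ∪ Y) (Ind R X : Set (Finset ι)) := by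
    intro Y hY Z hZ h
    have hY' := hdis Y (mem_coe.1 hY)
    have hZ' := hdis Z (mem_coe.1 hZ)
    have h' : S ∪ Y = S ∪ Z := h
    calc Y = (S ∪ Y) \ S := (union_sdiff_cancel_left hY').symm
      _ = (S ∪ Z) \ S := by rw [h']
      _ = Z := union_sdiff_cancel_left hZ'
  rw [sum_insert hnot, sum_insert hnot, sum_image hinj, sum_image hinj]
  have h1 : ((insert v S) ∩ N) = ∅ := by
    ext a
    simp only [mem_inter, mem_insert, notMem_empty, iff_false, not_and]
    rintro (h | h)
    · rw [h]; exact hvN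
    · exact hSN a h
  have h2 : ∀ Y ∈ Ind R X, ((if v ∈ S ∪ Y then A else 0) + (((S ∪ Y) ∩ N).card : ℝ)) *
      lam ^ (S ∪ Y).card = lam ^ S.card * ((Y.card : ℝ) * lam ^ Y.card) := by
    intro Y hY
    have hvY : v ∉ S ∪ Y := by
      intro h
      rcases mem_union.1 h with h | h
      · exact hvS h
      · exact hvN (hXN (hIX Y hY h))
    rw [if_neg hvY, zero_add, card_union_of_disjoint (hdis Y hY), pow_add]
    have h3 : (S ∪ Y) ∩ N = Y := by
      ext a
      simp only [mem_inter, mem_union]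
      constructor
      · rintro ⟨h | h, h'⟩
        · exact absurd h' (hSN a h)
        · exact h
      · intro h
        exact ⟨Or.inr h, hXN (hIX Y hY h)⟩
    rw [h3]
    ring
  have h2' : ∀ Y ∈ Ind R X, lam ^ (S ∪ Y).card = lam ^ S.card * lam ^ Y.card := by
    intro Y hY
    rw [card_union_of_disjoint (hdis Y hY), pow_add]
  rw [sum_congr rfl h2, sum_congr rfl h2', h1, if_pos (mem_insert_self _ _), ← mul_sum, ← mul_sum,
    card_insert_of_notMem hvS, pow_succ]
  have h3 := Nf_ge hsym hirr hl (hloc X hXN) hk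
  have hZ := one_le_Zf (R := R) X hl.le
  have hκ0 : 0 ≤ lam * (1 + 2 * D) := by positivity
  have h4 := num_ineq (lam := lam) (A := A) hZ hz0 hκ0 hk hA
  have h5 : 0 ≤ lam ^ S.card := by positivity
  change _ * (lam ^ S.card * lam + lam ^ S.card * Zf R X lam) ≤
    _ + lam ^ S.card * Nf R X lam
  simp only [card_empty, Nat.cast_zero, add_zero]
  have h6 := mul_le_mul_of_nonneg_left (h4.trans (add_le_add_right h3 (A * lam))) h5
  linarith

/-- **The occupancy inequality.** -/
theorem occ (hsym : ∀ a b, R a b → R b a) (hirr : ∀ a, ¬ R a a) {M : Finset ι}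
    {D lam A z0 Δ : ℝ} (hD : 0 ≤ D) (hl : 0 < lam)
    (hloc : ∀ v ∈ M, ∀ X ⊆ Nb R M v, ∑ u ∈ X, ((Nb R X u).card : ℝ) ≤ 2 * D * X.card)
    (hk : lam * (1 + 2 * D) ≤ 1) (hz0 : 0 < z0)
    (hA : (1 - lam * (1 + 2 * D)) * (1 + Real.log z0) * lam + z0 ≤ A * lam)
    (hdeg : ∀ v ∈ M, ((Nb R M v).card : ℝ) ≤ Δ) :
    M.card * ((1 - lam * (1 + 2 * D)) * (1 + Real.log z0)) * Zf R M lam ≤
      (A + Δ) * Nf R M lam := by
  set B := (1 - lam * (1 + 2 * D)) * (1 + Real.log z0) with hB
  have h1 : ∀ v ∈ M, B * Zf R M lam ≤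
      ∑ W ∈ Ind R M, ((if v ∈ W then A else 0) + ((W ∩ Nb R M v).card : ℝ)) * lam ^ W.card := by
    intro v hv
    have e1 := sum_fiberwise_of_maps_to (s := Ind R M)
      (t := (Ind R M).image (fun W => W \ insert v (Nb R M v)))
      (g := fun W => W \ insert v (Nb R M v)) (fun W hW => mem_image_of_mem _ hW)
      (fun W => lam ^ W.card)
    have e2 := sum_fiberwise_of_maps_to (s := Ind R M)
      (t := (Ind R M).image (fun W => W \ insert v (Nb R M v)))
      (g := fun W => W \ insert v (Nb R M v)) (fun W hW => mem_image_of_mem _ hW)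
      (fun W => ((if v ∈ W then A else 0) + ((W ∩ Nb R M v).card : ℝ)) * lam ^ W.card)
    rw [← e2, Zf, ← e1, mul_sum]
    apply sum_le_sum
    intro S hS
    obtain ⟨W₀, hW₀, rfl⟩ := mem_image.1 hS
    exact fiber_ineq hsym hirr hv hD hl (hloc v hv) hk hz0 hA hW₀
  have h2 : ∀ W ∈ Ind R M, ∑ v ∈ M, ((if v ∈ W then A else 0) + ((W ∩ Nb R M v).card : ℝ)) ≤
      (A + Δ) * W.card := by
    intro W hW
    obtain ⟨hWM, hWI⟩ := mem_Ind.1 hW
    rw [sum_add_distrib]
    have a1 : ∑ v ∈ M, (if v ∈ W then A else 0) = A * W.card := by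
      rw [← sum_filter, sum_const, nsmul_eq_mul, mul_comm]
      congr 2
      apply congrArg
      ext a
      simp only [mem_filter]
      exact ⟨fun h => h.2, fun h => ⟨hWM h, h⟩⟩
    have a2 : ∑ v ∈ M, ((W ∩ Nb R M v).card : ℝ) = ∑ u ∈ W, ((Nb R M u).card : ℝ) := by
      have b1 : ∀ v ∈ M, ((W ∩ Nb R M v).card : ℝ) = ∑ u ∈ W, if R v u then (1 : ℝ) else 0 := by
        intro v _
        rw [← sum_filter, sum_const, nsmul_eq_mul, mul_one]
        congr 2
        ext u
        simp only [mem_inter, mem_Nb, mem_filter]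
        exact ⟨fun h => ⟨h.1, h.2.2⟩, fun h => ⟨h.1, hWM h.1, h.2⟩⟩
      have b2 : ∀ u ∈ W, ((Nb R M u).card : ℝ) = ∑ v ∈ M, if R v u then (1 : ℝ) else 0 := by
        intro u _
        rw [← sum_filter, sum_const, nsmul_eq_mul, mul_one]
        congr 2
        ext w
        simp only [mem_Nb, mem_filter]
        exact ⟨fun h => ⟨h.1, hsym _ _ h.2⟩, fun h => ⟨h.1, hsym _ _ h.2⟩⟩
      rw [sum_congr rfl b1, sum_congr rfl b2, sum_comm]
    have a3 : ∑ u ∈ W, ((Nb R M u).card : ℝ) ≤ Δ * W.card := by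
      calc ∑ u ∈ W, ((Nb R M u).card : ℝ) ≤ ∑ _u ∈ W, Δ := by
            apply sum_le_sum
            intro u hu
            exact hdeg u (hWM hu)
        _ = Δ * W.card := by rw [sum_const, nsmul_eq_mul, mul_comm]
    rw [a1, a2]
    linarith
  calc M.card * B * Zf R M lam = ∑ _v ∈ M, B * Zf R M lam := by
        rw [sum_const, nsmul_eq_mul]; ring
    _ ≤ ∑ v ∈ M, ∑ W ∈ Ind R M,
        ((if v ∈ W then A else 0) + ((W ∩ Nb R M v).card : ℝ)) * lam ^ W.card := sum_le_sum h1
    _ = ∑ W ∈ Ind R M, (∑ v ∈ M, ((if v ∈ W then A else 0) + ((W ∩ Nb R M v).card : ℝ))) *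
        lam ^ W.card := by
          rw [sum_comm]
          apply sum_congr rfl
          intro W _
          rw [sum_mul]
    _ ≤ ∑ W ∈ Ind R M, ((A + Δ) * W.card) * lam ^ W.card := by
          apply sum_le_sum
          intro W hW
          exact mul_le_mul_of_nonneg_right (h2 W hW) (by positivity)
    _ = (A + Δ) * Nf R M lam := by
          unfold Nf
          rw [mul_sum]
          apply sum_congr rfl
          intro W _
          ring

end Pool.Agent.Helper63.RKS
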