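import Pool.Agent.Helper63.RC.Good
import Pool.Agent.Helper84.RK.Lower
import Pool.Agent.Helper63.RKS.OccFib

/-!
Random points: almost all have at most `(1 + ε) n p` neighbours, and no point has a neighbour with
`K` common neighbours which are closer to the first point than the neighbour.
-/

set_option autoImplicit false

open MeasureTheory Set Metric ProbabilityTheory
open scoped ENNReal RealInnerProductSpace
open Pool.Agent.Helper47.KP

namespace Pool.Agent.Helper63.RKS

open Pool.Agent.Helper63.RC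

variable {d : ℕ}

/-- Chebyshev -/
lemma cheb [NeZero d] (hd : 3 ≤ d) {n : ℕ} (hn : 1 ≤ n) {V : ℝ}
    (hV : V = (den d).real (Ioi (1 / 2))) (hV0 : 0 < V) {ε : ℝ} (hε : 0 < ε) (i : Fin n) :
    (Measure.pi fun _ : Fin n => sig d).real {x | (1 + ε) * n * V < deg d i x} ≤ 1 / (ε ^ 2 * n * V) := by
  classical
  set μ := Measure.pi fun _ : Fin n => sig d with hμ
  have hn0 : (1 : ℝ) ≤ n := by exact_mod_cast hn
  set Y : Fin n → (Fin n → Sph d) → ℝ := fun j x =>
    (Ev (1 / 2) d i j).indicator (1 : (Fin n → Sph d) → ℝ) x - V with hY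
  have hi1 : ∀ j, Integrable ((Ev (1 / 2) d i j).indicator (1 : (Fin n → Sph d) → ℝ)) μ := fun j =>
    (integrable_const (1 : ℝ)).indicator (measurableSet_Ev _ i j)
  have hmul : ∀ j k, (fun x => Y j x * Y k x) =
      fun x => (Ev (1 / 2) d i j ∩ Ev (1 / 2) d i k).indicator (1 : (Fin n → Sph d) → ℝ) x
        - V * (Ev (1 / 2) d i j).indicator (1 : (Fin n → Sph d) → ℝ) x
        - V * (Ev (1 / 2) d i k).indicator (1 : (Fin n → Sph d) → ℝ) x + V * V := by
    intro j k
    funext x
    have : (Ev (1 / 2) d i j ∩ Ev (1 / 2) d i k).indicator (1 : (Fin n → Sph d) → ℝ) x =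
        (Ev (1 / 2) d i j).indicator (1 : (Fin n → Sph d) → ℝ) x *
          (Ev (1 / 2) d i k).indicator (1 : (Fin n → Sph d) → ℝ) x := by
      rw [inter_indicator_one]
      rfl
    rw [this]
    simp only [hY]
    ring
  have hi2 : ∀ j k, Integrable
      ((Ev (1 / 2) d i j ∩ Ev (1 / 2) d i k).indicator (1 : (Fin n → Sph d) → ℝ)) μ := fun j k =>
    (integrable_const (1 : ℝ)).indicator ((measurableSet_Ev _ i j).inter (measurableSet_Ev _ i k))
  have hint : ∀ j k, Integrable (fun x => Y j x * Y k x) μ := by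
    intro j k
    rw [hmul]
    exact (((hi2 j k).sub ((hi1 j).const_mul V)).sub ((hi1 k).const_mul V)).add (integrable_const _)
  have hval : ∀ j k, j ≠ i → k ≠ i → ∫ x, Y j x * Y k x ∂μ =
      μ.real (Ev (1 / 2) d i j ∩ Ev (1 / 2) d i k) - V * V := by
    intro j k hj hk
    have s1 : Integrable (fun x => (Ev (1 / 2) d i j ∩ Ev (1 / 2) d i k).indicator
        (1 : (Fin n → Sph d) → ℝ) x - V * (Ev (1 / 2) d i j).indicator (1 : (Fin n → Sph d) → ℝ) x) μ :=
      (hi2 j k).sub ((hi1 j).const_mul V)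
    have s2 : Integrable (fun x => (Ev (1 / 2) d i j ∩ Ev (1 / 2) d i k).indicator
        (1 : (Fin n → Sph d) → ℝ) x - V * (Ev (1 / 2) d i j).indicator (1 : (Fin n → Sph d) → ℝ) x
        - V * (Ev (1 / 2) d i k).indicator (1 : (Fin n → Sph d) → ℝ) x) μ :=
      s1.sub ((hi1 k).const_mul V)
    rw [hmul, integral_add s2 (integrable_const _), integral_sub s1 ((hi1 k).const_mul V),
      integral_sub (hi2 j k) ((hi1 j).const_mul V), integral_const_mul, integral_const_mul,
      integral_indicator_one ((measurableSet_Ev _ i j).inter (measurableSet_Ev _ i k)),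
      integral_indicator_one (measurableSet_Ev _ i j), integral_indicator_one (measurableSet_Ev _ i k),
      hμ, real_Ev hd _ hj, real_Ev hd _ hk, ← hV, integral_const, probReal_univ]
    simp only [smul_eq_mul]
    ring
  have hvar : ∫ x, (∑ j ∈ Finset.univ.erase i, Y j x) ^ 2 ∂μ ≤ n * V := by
    have h1 : ∀ x, (∑ j ∈ Finset.univ.erase i, Y j x) ^ 2 =
        ∑ j ∈ Finset.univ.erase i, ∑ k ∈ Finset.univ.erase i, Y j x * Y k x := by
      intro x
      rw [sq, Finset.sum_mul_sum]
    simp only [h1]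
    rw [integral_finsetSum _ fun j _ => integrable_finsetSum _ fun k _ => hint j k]
    have h2 : ∀ j ∈ Finset.univ.erase i, ∫ x, ∑ k ∈ Finset.univ.erase i, Y j x * Y k x ∂μ ≤ V := by
      intro j hj
      have hj' := Finset.ne_of_mem_erase hj
      rw [integral_finsetSum _ fun k _ => hint j k, Finset.sum_eq_single_of_mem j hj]
      · rw [hval j j hj' hj', inter_self, hμ, real_Ev hd _ hj', ← hV]
        nlinarith
      · intro k hk hkj
        rw [hval j k hj' (Finset.ne_of_mem_erase hk), hμ,
          real_Ev_inter hd _ hj' (Finset.ne_of_mem_erase hk) hkj.symm, ← hV, sub_self]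
    refine (Finset.sum_le_sum h2).trans ?_
    rw [Finset.sum_const, nsmul_eq_mul]
    refine mul_le_mul_of_nonneg_right ?_ hV0.le
    have : (Finset.univ.erase i).card ≤ n := by
      refine (Finset.card_le_card (Finset.erase_subset _ _)).trans ?_
      rw [Finset.card_univ, Fintype.card_fin]
    exact_mod_cast this
  have hintsq : Integrable (fun x => (∑ j ∈ Finset.univ.erase i, Y j x) ^ 2) μ := by
    have h1 : (fun x => (∑ j ∈ Finset.univ.erase i, Y j x) ^ 2) =
        fun x => ∑ j ∈ Finset.univ.erase i, ∑ k ∈ Finset.univ.erase i, Y j x * Y k x := by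
      funext x
      rw [sq, Finset.sum_mul_sum]
    rw [h1]
    exact integrable_finsetSum _ fun j _ => integrable_finsetSum _ fun k _ => hint j k
  have hMar := mul_meas_ge_le_integral_of_nonneg (μ := μ)
    (f := fun x => (∑ j ∈ Finset.univ.erase i, Y j x) ^ 2)
    (Filter.Eventually.of_forall fun x => sq_nonneg _) hintsq ((ε * n * V) ^ 2)
  have hsub : {x | (1 + ε) * n * V < deg d i x} ⊆
      {x | (ε * n * V) ^ 2 ≤ (∑ j ∈ Finset.univ.erase i, Y j x) ^ 2} := by
    intro x hx
    rw [mem_ofPred_eq] at hx ⊢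
    have h1 : ∑ j ∈ Finset.univ.erase i, Y j x = deg d i x - (Finset.univ.erase i).card * V := by
      rw [hY, deg, Finset.sum_sub_distrib, Finset.sum_const, nsmul_eq_mul]
    have h2 : ((Finset.univ.erase i).card : ℝ) ≤ n := by
      have : (Finset.univ.erase i).card ≤ n := by
        refine (Finset.card_le_card (Finset.erase_subset _ _)).trans ?_
        rw [Finset.card_univ, Fintype.card_fin]
      exact_mod_cast this
    rw [h1]
    apply pow_le_pow_left₀ (by positivity)
    nlinarith [mul_le_mul_of_nonneg_right h2 hV0.le]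
  have h3 : (ε * n * V) ^ 2 * μ.real {x | (1 + ε) * n * V < deg d i x} ≤ n * V :=
    (mul_le_mul_of_nonneg_left (measureReal_mono hsub) (sq_nonneg _)).trans (hMar.trans hvar)
  rw [le_div_iff₀ (by positivity)]
  have h4 : (n * V) * (μ.real {x | (1 + ε) * n * V < deg d i x} * (ε ^ 2 * n * V)) ≤ (n * V) * 1 := by
    calc _ = (ε * n * V) ^ 2 * μ.real {x | (1 + ε) * n * V < deg d i x} := by ring
      _ ≤ _ := by rw [mul_one]; exact h3
  exact le_of_mul_le_mul_left h4 (by positivity)


/-- most points have few neighbours -/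
lemma many_low [NeZero d] (hd : 3 ≤ d) {n : ℕ} (hn : 1 ≤ n) {V : ℝ}
    (hV : V = (den d).real (Ioi (1 / 2))) (hV0 : 0 < V) {ε : ℝ} (hε : 0 < ε) :
    (Measure.pi fun _ : Fin n => sig d).real {x | ε * n ≤
      ((Finset.univ.filter fun i => (1 + ε) * n * V < deg d i x).card : ℝ)} ≤
        1 / (ε ^ 3 * n * V) := by
  classical
  set μ := Measure.pi fun _ : Fin n => sig d with hμ
  have hn0 : (1 : ℝ) ≤ n := by exact_mod_cast hn
  set H : Fin n → Set (Fin n → Sph d) := fun i => {x | (1 + ε) * n * V < deg d i x} with hH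
  have hHm : ∀ i, MeasurableSet (H i) := fun i =>
    measurableSet_lt measurable_const (measurable_deg i)
  set X : (Fin n → Sph d) → ℝ := fun x => ∑ i, (H i).indicator 1 x with hX
  have hiH : ∀ i, Integrable ((H i).indicator (1 : (Fin n → Sph d) → ℝ)) μ := fun i =>
    (integrable_const (1 : ℝ)).indicator (hHm i)
  have hiX : Integrable X μ := integrable_finsetSum _ fun i _ => hiH i
  have hX1 : ∫ x, X x ∂μ ≤ n * (1 / (ε ^ 2 * n * V)) := by
    have h0 : ∫ x, X x ∂μ = ∑ i, ∫ x, (H i).indicator (1 : (Fin n → Sph d) → ℝ) x ∂μ :=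
      integral_finsetSum _ fun i _ => hiH i
    rw [h0]
    have h1 : ∀ i ∈ (Finset.univ : Finset (Fin n)),
        ∫ x, (H i).indicator (1 : (Fin n → Sph d) → ℝ) x ∂μ ≤ 1 / (ε ^ 2 * n * V) := by
      intro i _
      rw [integral_indicator_one (hHm i)]
      exact cheb hd hn hV hV0 hε i
    refine (Finset.sum_le_sum h1).trans ?_
    rw [Finset.sum_const, nsmul_eq_mul, Finset.card_univ, Fintype.card_fin]
  have hX0 : ∀ x, 0 ≤ X x := fun x => Finset.sum_nonneg fun i _ =>
    indicator_nonneg (fun _ _ => zero_le_one) x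
  have hMar := mul_meas_ge_le_integral_of_nonneg (μ := μ) (f := X)
    (Filter.Eventually.of_forall hX0) hiX (ε * n)
  have hXc : ∀ x, X x = ((Finset.univ.filter fun i => (1 + ε) * n * V < deg d i x).card : ℝ) := by
    intro x
    rw [Finset.card_filter, Nat.cast_sum]
    simp only [hX]
    refine Finset.sum_congr rfl fun i _ => ?_
    by_cases h : (1 + ε) * n * V < deg d i x
    · rw [indicator_of_mem (show x ∈ H i from h), if_pos h]; simp
    · rw [indicator_of_notMem (show x ∉ H i from h), if_neg h]; simp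
  simp only [hXc] at hMar
  have h3 := hMar.trans (by simpa only [hXc] using hX1)
  have hεn : 0 < ε * n := by positivity
  have h4 : ε * n * μ.real {x | ε * n ≤
      ((Finset.univ.filter fun i => (1 + ε) * n * V < deg d i x).card : ℝ)} ≤
        ε * n * (1 / (ε ^ 3 * n * V)) := by
    refine h3.trans (le_of_eq ?_)
    field_simp
  exact le_of_mul_le_mul_left h4 hεn

/-- the common neighbours `w` of `u` and `v` which are at least as close to `v` as `u` -/
def Lens (v u w : Sph d) : Prop :=
  1 / 2 < ⟪(v : EE d), (u : EE d)⟫ ∧ 1 / 2 < ⟪(u : EE d), (w : EE d)⟫ ∧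
    ⟪(v : EE d), (u : EE d)⟫ ≤ ⟪(v : EE d), (w : EE d)⟫

/-- the lens is contained in a cap -/
lemma lens_sub {v u w : Sph d} (h : Lens v u w) :
    1 / Real.sqrt 3 * ‖(v : EE d) + u‖ < ⟪((v : EE d) + u), (w : EE d)⟫ := by
  obtain ⟨h1, h2, h3⟩ := h
  have hv := norm_S v
  have hu := norm_S u
  set c := ⟪(v : EE d), (u : EE d)⟫ with hc
  have hc1 : c ≤ 1 := by
    have := real_inner_le_norm (v : EE d) (u : EE d)
    rw [hv, hu] at this; linarith
  rw [inner_add_left]
  have hn : ‖(v : EE d) + u‖ ^ 2 = 2 + 2 * c := by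
    rw [norm_add_sq_real, hv, hu]; ring
  have h4 : c + 1 / 2 < ⟪(v : EE d), (w : EE d)⟫ + ⟪(u : EE d), (w : EE d)⟫ := by linarith
  refine lt_of_le_of_lt ?_ h4
  apply le_of_sq_le_sq _ (by linarith)
  rw [mul_pow, hn, div_pow, Real.sq_sqrt (by norm_num)]
  nlinarith

lemma lens_measure [NeZero d] (hd : 3 ≤ d) (v u : Sph d) :
    sig d {w | Lens v u w} ≤ den d (Ioi (1 / Real.sqrt 3)) := by
  by_cases h : 1 / 2 < ⟪(v : EE d), (u : EE d)⟫
  · have hv := norm_S v
    have hu := norm_S u
    have hn : ‖(v : EE d) + u‖ ^ 2 = 2 + 2 * ⟪(v : EE d), (u : EE d)⟫ := by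
      rw [norm_add_sq_real, hv, hu]; ring
    have hn0 : 0 < ‖(v : EE d) + u‖ := by
      have h1 : 0 < ‖(v : EE d) + u‖ ^ 2 := by rw [hn]; linarith
      have h2 := norm_nonneg ((v : EE d) + u)
      exact lt_of_le_of_ne h2 (fun h3 => by rw [← h3] at h1; norm_num at h1)
    set m : EE d := (‖(v : EE d) + u‖)⁻¹ • ((v : EE d) + u) with hm
    have hmn : ‖m‖ = 1 := by
      rw [hm, norm_smul, norm_inv, norm_norm, inv_mul_cancel₀ hn0.ne']
    set m' : Sph d := ⟨m, mem_sphere_zero_iff_norm.2 hmn⟩ with hm'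
    rw [← cap_right hd (1 / Real.sqrt 3) m']
    apply measure_mono
    intro w hw
    have h1 := lens_sub hw
    show 1 / Real.sqrt 3 < ⟪m, (w : EE d)⟫
    rw [hm, real_inner_smul_left, lt_inv_mul_iff₀ hn0]
    linarith
  · have : {w | Lens v u w} = ∅ := by
      ext w
      simp only [mem_ofPred_eq, mem_empty_iff_false, iff_false]
      exact fun hw => h hw.1
    rw [this, measure_empty]
    exact zero_le

lemma measurableSet_Lens : MeasurableSet {q : (Sph d × Sph d) × Sph d | Lens q.1.1 q.1.2 q.2} := by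
  have h1 : MeasurableSet {q : (Sph d × Sph d) × Sph d | 1 / 2 < ⟪(q.1.1 : EE d), (q.1.2 : EE d)⟫} :=
    (isOpen_lt continuous_const ((continuous_subtype_val.comp (continuous_fst.comp
      continuous_fst)).inner (continuous_subtype_val.comp (continuous_snd.comp
        continuous_fst)))).measurableSet
  have h2 : MeasurableSet {q : (Sph d × Sph d) × Sph d | 1 / 2 < ⟪(q.1.2 : EE d), (q.2 : EE d)⟫} :=
    (isOpen_lt continuous_const ((continuous_subtype_val.comp (continuous_snd.comp
      continuous_fst)).inner (continuous_subtype_val.comp continuous_snd))).measurableSet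
  have h3 : MeasurableSet {q : (Sph d × Sph d) × Sph d |
      ⟪(q.1.1 : EE d), (q.1.2 : EE d)⟫ ≤ ⟪(q.1.1 : EE d), (q.2 : EE d)⟫} :=
    (isClosed_le ((continuous_subtype_val.comp (continuous_fst.comp
      continuous_fst)).inner (continuous_subtype_val.comp (continuous_snd.comp
        continuous_fst))) ((continuous_subtype_val.comp (continuous_fst.comp
      continuous_fst)).inner (continuous_subtype_val.comp continuous_snd))).measurableSet
  exact h1.inter (h2.inter h3)

/-- selecting coordinates, general index type -/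
lemma measurePreserving_comp' {X κ ι : Type*} [MeasurableSpace X] [Fintype κ] [Fintype ι]
    (μ : Measure X) [IsProbabilityMeasure μ] (f : κ → ι) (hf : Function.Injective f) :
    MeasurePreserving (fun x : ι → X => x ∘ f) (Measure.pi fun _ : ι => μ)
      (Measure.pi fun _ : κ => μ) := by
  classical
  have hm : Measurable (fun x : ι → X => x ∘ f) :=
    measurable_pi_lambda _ fun j => measurable_pi_apply (f j)
  refine ⟨hm, ?_⟩
  symm
  apply Measure.pi_eq
  intro s hs
  rw [Measure.map_apply hm (MeasurableSet.univ_pi hs)]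
  set t : ι → Set X := fun i => if h : ∃ j, f j = i then s h.choose else Set.univ with ht
  have htf : ∀ j, t (f j) = s j := by
    intro j
    have h : ∃ j', f j' = f j := ⟨j, rfl⟩
    simp only [ht, dif_pos h]
    rw [hf h.choose_spec]
  have e : (fun x : ι → X => x ∘ f) ⁻¹' Set.univ.pi s = Set.univ.pi t := by
    ext x
    simp only [Set.mem_preimage, Set.mem_univ_pi, Function.comp_apply]
    constructor
    · intro h i
      by_cases hi : ∃ j, f j = i
      · obtain ⟨j, rfl⟩ := hi
        rw [htf]; exact h j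
      · simp only [ht, dif_neg hi]; trivial
    · intro h j
      have := h (f j)
      rwa [htf] at this
  rw [e, Measure.pi_pi]
  have h1 : ∏ i, μ (t i) = ∏ i ∈ Finset.univ.image f, μ (t i) := by
    symm
    apply Finset.prod_subset (Finset.subset_univ _)
    intro i _ hi
    have hne : ¬ ∃ j, f j = i := by
      rintro ⟨j, rfl⟩
      exact hi (Finset.mem_image_of_mem f (Finset.mem_univ j))
    simp only [ht, dif_neg hne, measure_univ]
  rw [h1, Finset.prod_image fun a _ b _ h => hf h]
  exact Finset.prod_congr rfl fun j _ => by rw [htf]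

/-- `K` points in the lens of two points -/
lemma lens_tuple [NeZero d] (hd : 3 ≤ d) {n K : ℕ} (e : Fin 2 ⊕ Fin K → Fin n)
    (he : Function.Injective e) :
    (Measure.pi fun _ : Fin n => sig d) {x | ∀ k : Fin K,
      Lens (x (e (Sum.inl 0))) (x (e (Sum.inl 1))) (x (e (Sum.inr k)))} ≤
        (den d (Ioi (1 / Real.sqrt 3))) ^ K := by
  set E : Set ((Fin 2 → Sph d) × (Fin K → Sph d)) :=
    {w | ∀ k, Lens (w.1 0) (w.1 1) (w.2 k)} with hE
  have hEm : MeasurableSet E := by
    have : E = ⋂ k : Fin K, {w : (Fin 2 → Sph d) × (Fin K → Sph d) |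
        Lens (w.1 0) (w.1 1) (w.2 k)} := by
      ext w; simp [hE]
    rw [this]
    refine MeasurableSet.iInter fun k => ?_
    exact (show Measurable (fun w : (Fin 2 → Sph d) × (Fin K → Sph d) =>
      ((w.1 0, w.1 1), w.2 k)) by fun_prop) measurableSet_Lens
  have h1 := measurePreserving_comp' (sig d) e he
  have h2 := measurePreserving_sumPiEquivProdPi (fun _ : Fin 2 ⊕ Fin K => sig d)
  have h3 := h2.comp h1
  have e1 : {x : Fin n → Sph d | ∀ k : Fin K,
      Lens (x (e (Sum.inl 0))) (x (e (Sum.inl 1))) (x (e (Sum.inr k)))} =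
      ((MeasurableEquiv.sumPiEquivProdPi fun _ : Fin 2 ⊕ Fin K => Sph d) ∘
        fun x : Fin n → Sph d => x ∘ e) ⁻¹' E := rfl
  rw [e1, h3.measure_preimage hEm.nullMeasurableSet, Measure.prod_apply hEm]
  have h4 : ∀ u : Fin 2 → Sph d, (Measure.pi fun _ : Fin K => sig d) (Prod.mk u ⁻¹' E) ≤
      (den d (Ioi (1 / Real.sqrt 3))) ^ K := by
    intro u
    have e2 : Prod.mk u ⁻¹' E = Set.pi univ (fun _ : Fin K => {w | Lens (u 0) (u 1) w}) := by
      ext v
      simp [hE]
    rw [e2, Measure.pi_pi, Finset.prod_const, Finset.card_univ, Fintype.card_fin]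
    gcongr
    exact lens_measure hd _ _
  calc ∫⁻ u, (Measure.pi fun _ : Fin K => sig d) (Prod.mk u ⁻¹' E)
        ∂(Measure.pi fun _ : Fin 2 => sig d)
      ≤ ∫⁻ _, (den d (Ioi (1 / Real.sqrt 3))) ^ K ∂(Measure.pi fun _ : Fin 2 => sig d) :=
        lintegral_mono h4
    _ = (den d (Ioi (1 / Real.sqrt 3))) ^ K := by rw [lintegral_const, measure_univ, mul_one]

end Pool.Agent.Helper63.RKS
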