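import Pool.Agent.Helper63.RKS.Good

/-!
The graph of random points is good with high probability: almost all points have almost the
expected degree, and the neighbourhoods are sparse.
-/

set_option autoImplicit false

open MeasureTheory Set Metric ProbabilityTheory
open scoped ENNReal RealInnerProductSpace
open Pool.Agent.Helper47.KP

namespace Pool.Agent.Helper63.RKS

open Pool.Agent.Helper63.RC Pool.Agent.Helper84.RK

variable {d : ℕ}

open Classical in
/-- the good sets of points -/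
def GoodG {d n : ℕ} (x : Fin n → Sph d) (ε V : ℝ) (K : ℕ) (M : Finset (Fin n)) : Prop :=
  (1 - ε) * n ≤ M.card ∧ (∀ v ∈ M, ((Nb (Ad x) M v).card : ℝ) ≤ (1 + ε) * n * V) ∧
    ∀ v ∈ M, ∀ X ⊆ Nb (Ad x) M v,
      ∑ u ∈ X, ((Nb (Ad x) X u).card : ℝ) ≤ 2 * (K : ℝ) * X.card

/-- there are `K` points in the lens of two neighbours -/
def LensBad {d n : ℕ} (K : ℕ) : Set (Fin n → Sph d) :=
  ⋃ e : Fin 2 ⊕ Fin K ↪ Fin n, {x | ∀ k : Fin K,
    Lens (x (e (Sum.inl 0))) (x (e (Sum.inl 1))) (x (e (Sum.inr k)))}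

lemma LensBad_le [NeZero d] (hd : 3 ≤ d) {n K : ℕ} :
    (Measure.pi fun _ : Fin n => sig d).real (LensBad (d := d) (n := n) K) ≤
      (n : ℝ) ^ (K + 2) * (den d).real (Ioi (1 / Real.sqrt 3)) ^ K := by
  have hfin : den d (Ioi (1 / Real.sqrt 3)) ≠ ∞ := measure_ne_top _ _
  have h1 : (Measure.pi fun _ : Fin n => sig d) (LensBad (d := d) (n := n) K) ≤
      (n : ENNReal) ^ (K + 2) * (den d (Ioi (1 / Real.sqrt 3))) ^ K := by
    calc (Measure.pi fun _ : Fin n => sig d) (LensBad (d := d) (n := n) K)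
        ≤ ∑ e : Fin 2 ⊕ Fin K ↪ Fin n, (Measure.pi fun _ : Fin n => sig d) {x | ∀ k : Fin K,
            Lens (x (e (Sum.inl 0))) (x (e (Sum.inl 1))) (x (e (Sum.inr k)))} :=
          measure_iUnion_fintype_le _ _
      _ ≤ ∑ _e : Fin 2 ⊕ Fin K ↪ Fin n, (den d (Ioi (1 / Real.sqrt 3))) ^ K :=
          Finset.sum_le_sum fun e _ => lens_tuple hd e e.injective
      _ = (Fintype.card (Fin 2 ⊕ Fin K ↪ Fin n) : ENNReal) *
            (den d (Ioi (1 / Real.sqrt 3))) ^ K := by
          rw [Finset.sum_const, Finset.card_univ, nsmul_eq_mul]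
      _ ≤ (n : ENNReal) ^ (K + 2) * (den d (Ioi (1 / Real.sqrt 3))) ^ K := by
          gcongr
          have h2 : Fintype.card (Fin 2 ⊕ Fin K ↪ Fin n) ≤
              Fintype.card (Fin 2 ⊕ Fin K → Fin n) :=
            Fintype.card_le_of_injective (fun e => (e : Fin 2 ⊕ Fin K → Fin n))
              DFunLike.coe_injective
          rw [Fintype.card_fun, Fintype.card_sum, Fintype.card_fin, Fintype.card_fin,
            Fintype.card_fin, add_comm 2 K] at h2
          exact_mod_cast h2
  have h3 := ENNReal.toReal_mono (ENNReal.mul_ne_top (ENNReal.pow_ne_top (ENNReal.natCast_ne_top n))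
    (ENNReal.pow_ne_top hfin)) h1
  rw [ENNReal.toReal_mul, ENNReal.toReal_pow, ENNReal.toReal_pow, ENNReal.toReal_natCast] at h3
  exact h3

open Classical in
/-- few points in the lens -/
lemma lens_card {n K : ℕ} {x : Fin n → Sph d} (hx : x ∉ LensBad (d := d) (n := n) K)
    {v u : Fin n} (hvu : v ≠ u) :
    (Finset.univ.filter fun w : Fin n => w ≠ v ∧ w ≠ u ∧ Lens (x v) (x u) (x w)).card ≤ K := by
  set L := Finset.univ.filter fun w : Fin n => w ≠ v ∧ w ≠ u ∧ Lens (x v) (x u) (x w) with hL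
  by_contra hcon
  push Not at hcon
  obtain ⟨S, hS, hSc⟩ := Finset.exists_subset_card_eq hcon.le
  have hSL : ∀ w ∈ S, w ≠ v ∧ w ≠ u ∧ Lens (x v) (x u) (x w) := fun w hw =>
    (Finset.mem_filter.1 (hS hw)).2
  let g := S.orderEmbOfFin hSc
  have hg : ∀ k, g k ∈ S := fun k => Finset.orderEmbOfFin_mem S hSc k
  let f : Fin 2 ⊕ Fin K → Fin n := Sum.elim (fun i => if i = 0 then v else u) (fun k => g k)
  have hf : Function.Injective f := by
    intro a b hab
    rcases a with a | a <;> rcases b with b | b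
    · simp only [f, Sum.elim_inl] at hab
      fin_cases a <;> fin_cases b <;> simp_all
    · simp only [f, Sum.elim_inl, Sum.elim_inr] at hab
      have h1 := hSL _ (hg b)
      rw [← hab] at h1
      split_ifs at h1
      · exact absurd rfl h1.1
      · exact absurd rfl h1.2.1
    · simp only [f, Sum.elim_inl, Sum.elim_inr] at hab
      have h1 := hSL _ (hg a)
      rw [hab] at h1
      split_ifs at h1
      · exact absurd rfl h1.1
      · exact absurd rfl h1.2.1
    · simp only [f, Sum.elim_inr] at hab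
      rw [g.injective hab]
  apply hx
  refine mem_iUnion.2 ⟨⟨f, hf⟩, fun k => ?_⟩
  exact (hSL _ (hg k)).2.2

open Classical in
lemma sparse {n K : ℕ} {x : Fin n → Sph d} (hx : x ∉ LensBad (d := d) (n := n) K)
    {M : Finset (Fin n)} {v : Fin n} {X : Finset (Fin n)} (hX : X ⊆ Nb (Ad x) M v) :
    ∑ u ∈ X, ((Nb (Ad x) X u).card : ℝ) ≤ 2 * (K : ℝ) * X.card := by
  set c : Fin n → ℝ := fun u => ⟪(x v : EE d), (x u : EE d)⟫ with hc
  set Au : Fin n → Finset (Fin n) := fun u => (Nb (Ad x) X u).filter (fun w => c u ≤ c w) with hAu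
  set Bu : Fin n → Finset (Fin n) := fun u => (Nb (Ad x) X u).filter (fun w => ¬ c u ≤ c w)
    with hBu
  have hcomm : ∀ a b, Ad x a b → Ad x b a := fun a b h => ⟨h.1.symm, by
    rw [real_inner_comm]; exact h.2⟩
  have h1 : ∀ u ∈ X, ((Nb (Ad x) X u).card : ℝ) = (Au u).card + (Bu u).card := by
    intro u _
    rw [hAu, hBu]
    exact_mod_cast (Finset.card_filter_add_card_filter_not (s := Nb (Ad x) X u)
      (fun w => c u ≤ c w)).symm
  have hA : ∀ u ∈ X, (Au u).card ≤ K := by
    intro u hu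
    have hvu := (mem_Nb.1 (hX hu)).2
    refine le_trans (Finset.card_le_card ?_) (lens_card hx hvu.1)
    intro w hw
    obtain ⟨hw1, hw2⟩ := Finset.mem_filter.1 hw
    obtain ⟨hw3, hw4⟩ := mem_Nb.1 hw1
    have hvw := (mem_Nb.1 (hX hw3)).2
    rw [Finset.mem_filter]
    exact ⟨Finset.mem_univ _, hvw.1.symm, hw4.1.symm, hvu.2, hw4.2, hw2⟩
  have hB : ∑ u ∈ X, (Bu u).card ≤ ∑ u ∈ X, (Au u).card := by
    have e1 : ∀ u ∈ X, (Bu u).card = ∑ w ∈ X, if Ad x u w ∧ ¬ c u ≤ c w then 1 else 0 := by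
      intro u _
      rw [hBu, ← Finset.card_filter]
      congr 1
      ext w
      simp only [Finset.mem_filter, mem_Nb, and_assoc]
    have e2 : ∀ u ∈ X, (Au u).card = ∑ w ∈ X, if Ad x u w ∧ c u ≤ c w then 1 else 0 := by
      intro u _
      rw [hAu, ← Finset.card_filter]
      congr 1
      ext w
      simp only [Finset.mem_filter, mem_Nb, and_assoc]
    rw [Finset.sum_congr rfl e1, Finset.sum_congr rfl e2, Finset.sum_comm]
    apply Finset.sum_le_sum
    intro w _
    apply Finset.sum_le_sum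
    intro u _
    by_cases h : Ad x u w ∧ ¬ c u ≤ c w
    · have h' : Ad x w u ∧ c w ≤ c u := ⟨hcomm _ _ h.1, (not_le.1 h.2).le⟩
      rw [if_pos h, if_pos h']
    · rw [if_neg h]; exact Nat.zero_le _
  have hAs : ∑ u ∈ X, (Au u).card ≤ K * X.card := by
    calc ∑ u ∈ X, (Au u).card ≤ ∑ _u ∈ X, K := Finset.sum_le_sum hA
      _ = K * X.card := by rw [Finset.sum_const, smul_eq_mul, mul_comm]
  rw [Finset.sum_congr rfl h1, Finset.sum_add_distrib]
  have h2 : (∑ u ∈ X, ((Bu u).card : ℝ)) ≤ ∑ u ∈ X, ((Au u).card : ℝ) := by exact_mod_cast hB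
  have h3 : (∑ u ∈ X, ((Au u).card : ℝ)) ≤ K * X.card := by exact_mod_cast hAs
  linarith

open Classical in
/-- **Random points are good.** -/
theorem good_prob [NeZero d] (hd : 3 ≤ d) {n : ℕ} (hn : 1 ≤ n) {V : ℝ}
    (hV : V = (den d).real (Ioi (1 / 2))) (hV0 : 0 < V) {ε : ℝ} (hε : 0 < ε) (K : ℕ) :
    (Measure.pi fun _ : Fin n => sig d).real {x | ¬ ∃ M : Finset (Fin n), GoodG x ε V K M} ≤
      1 / (ε ^ 3 * n * V) + (n : ℝ) ^ (K + 2) * (den d).real (Ioi (1 / Real.sqrt 3)) ^ K := by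
  set μ := Measure.pi fun _ : Fin n => sig d with hμ
  have hsub : {x : Fin n → Sph d | ¬ ∃ M : Finset (Fin n), GoodG x ε V K M} ⊆
      {x | ε * n ≤ ((Finset.univ.filter fun i => (1 + ε) * n * V < deg d i x).card : ℝ)} ∪
        LensBad (d := d) (n := n) K := by
    intro x hx
    by_contra hcon
    rw [mem_union, not_or] at hcon
    obtain ⟨h1, h2⟩ := hcon
    apply hx
    simp only [mem_ofPred_eq, not_le] at h1
    set M := Finset.univ.filter fun i : Fin n => ¬ (1 + ε) * n * V < deg d i x with hM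
    refine ⟨M, ?_, ?_, ?_⟩
    · have h3 := Finset.card_filter_add_card_filter_not (s := (Finset.univ : Finset (Fin n)))
        (fun i => (1 + ε) * n * V < deg d i x)
      rw [Finset.card_univ, Fintype.card_fin, ← hM] at h3
      have h4 : (((Finset.univ.filter fun i : Fin n => (1 + ε) * n * V < deg d i x).card : ℝ) +
        M.card) = n := by exact_mod_cast h3
      linarith
    · intro v hv
      have h3 := not_lt.1 (Finset.mem_filter.1 hv).2
      refine le_trans ?_ h3
      rw [deg_eq]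
      have h4 : (Nb (Ad x) M v).card ≤ ((Finset.univ.erase v).filter
          fun j => 1 / 2 < ⟪(x v : EE d), (x j : EE d)⟫).card := by
        apply Finset.card_le_card
        intro w hw
        obtain ⟨-, hw2⟩ := mem_Nb.1 hw
        rw [Finset.mem_filter, Finset.mem_erase]
        exact ⟨⟨hw2.1.symm, Finset.mem_univ _⟩, hw2.2⟩
      exact_mod_cast h4
    · intro v _ X hX
      exact sparse h2 hX
  calc μ.real {x : Fin n → Sph d | ¬ ∃ M : Finset (Fin n), GoodG x ε V K M}
      ≤ μ.real ({x | ε * n ≤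
          ((Finset.univ.filter fun i => (1 + ε) * n * V < deg d i x).card : ℝ)} ∪
          LensBad (d := d) (n := n) K) := measureReal_mono hsub (measure_ne_top _ _)
    _ ≤ _ := measureReal_union_le _ _
    _ ≤ _ := add_le_add (many_low hd hn hV hV0 hε) (LensBad_le hd)

end Pool.Agent.Helper63.RKS
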