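import Pool.Agent.Helper84.RK.Tri

/-!
The hard-core model on a finite graph with locally sparse neighbourhoods: the mean size of the
independent set is at least `(1-o(1)) (n/Δ) log (λ Δ)`.
-/

set_option autoImplicit false

open Finset

namespace Pool.Agent.Helper63.RKS

open Pool.Agent.Helper84.RK

variable {ι : Type*} [DecidableEq ι] {R : ι → ι → Prop} [DecidableRel R]

/-- the partition function -/
noncomputable def Zf (R : ι → ι → Prop) [DecidableRel R] (M : Finset ι) (lam : ℝ) : ℝ :=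
  ∑ W ∈ Ind R M, lam ^ W.card

/-- the weighted sum of the sizes -/
noncomputable def Nf (R : ι → ι → Prop) [DecidableRel R] (M : Finset ι) (lam : ℝ) : ℝ :=
  ∑ W ∈ Ind R M, (W.card : ℝ) * lam ^ W.card

lemma empty_mem_Ind (M : Finset ι) : ∅ ∈ Ind R M := mem_Ind.2 ⟨empty_subset _, by simp⟩

lemma one_le_Zf (M : Finset ι) {lam : ℝ} (hl : 0 ≤ lam) : 1 ≤ Zf R M lam := by
  have h := single_le_sum (f := fun W : Finset ι => lam ^ W.card) (fun W _ => by positivity)
    (empty_mem_Ind (R := R) M)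
  simpa [Zf] using h

omit [DecidableEq ι] in
/-- the partition function is at most that of the empty graph -/
lemma Zf_le (M : Finset ι) {lam : ℝ} (hl : 0 ≤ lam) : Zf R M lam ≤ Real.exp (lam * M.card) := by
  calc Zf R M lam ≤ ∑ W ∈ M.powerset, lam ^ W.card := by
        apply sum_le_sum_of_subset_of_nonneg (filter_subset _ _)
        intro W _ _; positivity
    _ = (lam + 1) ^ M.card := by
        have h := Finset.sum_pow_mul_eq_add_pow lam 1 M
        simpa using h
    _ ≤ Real.exp lam ^ M.card := pow_le_pow_left₀ (by positivity) (Real.add_one_le_exp lam) _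
    _ = Real.exp (lam * M.card) := by rw [← Real.exp_nat_mul]; congr 1; ring

/-- the weight of the independent sets which contain `u` -/
noncomputable def Pu (R : ι → ι → Prop) [DecidableRel R] (M : Finset ι) (lam : ℝ) (u : ι) : ℝ :=
  ∑ W ∈ (Ind R M).filter (fun W => u ∈ W), lam ^ W.card

lemma Pu_nonneg (M : Finset ι) {lam : ℝ} (hl : 0 ≤ lam) (u : ι) : 0 ≤ Pu R M lam u :=
  sum_nonneg fun W _ => by positivity

lemma Nf_eq (M : Finset ι) (lam : ℝ) : Nf R M lam = ∑ u ∈ M, Pu R M lam u := by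
  unfold Nf Pu
  simp_rw [sum_filter]
  rw [sum_comm]
  apply sum_congr rfl
  intro W hW
  rw [← sum_filter, sum_const, nsmul_eq_mul]
  congr 2
  apply congrArg
  ext a
  simp only [mem_filter]
  exact ⟨fun h => ⟨(mem_Ind.1 hW).1 h, h⟩, fun h => h.2⟩

/-- removing `u` from the independent sets which contain it -/
lemma Pu_eq (hsym : ∀ a b, R a b → R b a) (hirr : ∀ a, ¬ R a a) {M : Finset ι} {u : ι}
    (hu : u ∈ M) (lam : ℝ) : Pu R M lam u =
      lam * ∑ W ∈ (Ind R M).filter (fun W => u ∉ W ∧ ∀ a ∈ W, ¬ R u a), lam ^ W.card := by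
  unfold Pu
  rw [mul_sum]
  symm
  refine sum_bij' (fun W _ => insert u W) (fun W _ => W.erase u) ?_ ?_ ?_ ?_ ?_
  · intro W hW
    obtain ⟨h1, h2, h3⟩ := mem_filter.1 hW
    obtain ⟨h4, h5⟩ := mem_Ind.1 h1
    rw [mem_filter, mem_Ind]
    refine ⟨⟨insert_subset hu h4, ?_⟩, mem_insert_self _ _⟩
    intro a ha b hb
    rcases mem_insert.1 ha with ha' | ha'
    · rcases mem_insert.1 hb with hb' | hb'
      · rw [ha', hb']; exact hirr _
      · rw [ha']; exact h3 b hb'
    · rcases mem_insert.1 hb with hb' | hb'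
      · rw [hb']; exact fun h => h3 a ha' (hsym _ _ h)
      · exact h5 a ha' b hb'
  · intro W hW
    obtain ⟨h1, h2⟩ := mem_filter.1 hW
    obtain ⟨h4, h5⟩ := mem_Ind.1 h1
    rw [mem_filter, mem_Ind]
    refine ⟨⟨(erase_subset _ _).trans h4, ?_⟩, notMem_erase _ _, ?_⟩
    · intro a ha b hb
      exact h5 a (mem_of_mem_erase ha) b (mem_of_mem_erase hb)
    · intro a ha
      exact h5 u h2 a (mem_of_mem_erase ha)
  · intro W hW
    obtain ⟨h1, h2, h3⟩ := mem_filter.1 hW
    exact erase_insert h2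
  · intro W hW
    exact insert_erase (mem_filter.1 hW).2
  · intro W hW
    obtain ⟨h1, h2, h3⟩ := mem_filter.1 hW
    rw [card_insert_of_notMem h2, pow_succ']

lemma Pu_le (hsym : ∀ a b, R a b → R b a) (hirr : ∀ a, ¬ R a a) {M : Finset ι} {u : ι}
    (hu : u ∈ M) {lam : ℝ} (hl : 0 ≤ lam) : Pu R M lam u ≤ lam * Zf R M lam := by
  rw [Pu_eq hsym hirr hu]
  apply mul_le_mul_of_nonneg_left _ hl
  apply sum_le_sum_of_subset_of_nonneg (filter_subset _ _)
  intro W _ _; positivity

lemma Pu_ge (hsym : ∀ a b, R a b → R b a) (hirr : ∀ a, ¬ R a a) {M : Finset ι} {u : ι}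
    (hu : u ∈ M) {lam : ℝ} (hl : 0 ≤ lam) :
    lam * Zf R M lam * (1 - lam * (1 + (Nb R M u).card)) ≤ Pu R M lam u := by
  have h1 : Zf R M lam ≤ (∑ W ∈ (Ind R M).filter (fun W => u ∉ W ∧ ∀ a ∈ W, ¬ R u a),
      lam ^ W.card) + (Pu R M lam u + ∑ w ∈ Nb R M u, Pu R M lam w) := by
    unfold Zf
    rw [← sum_filter_add_sum_filter_not (Ind R M) (fun W => u ∉ W ∧ ∀ a ∈ W, ¬ R u a)]
    apply add_le_add_right
    unfold Pu
    have h2 : ∀ W ∈ (Ind R M).filter (fun W => ¬ (u ∉ W ∧ ∀ a ∈ W, ¬ R u a)), lam ^ W.card ≤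
        (if u ∈ W then lam ^ W.card else 0) +
          ∑ w ∈ Nb R M u, (if w ∈ W then lam ^ W.card else 0) := by
      intro W hW
      obtain ⟨hW1, hW2⟩ := mem_filter.1 hW
      have hp : 0 ≤ lam ^ W.card := by positivity
      have hs : 0 ≤ ∑ w ∈ Nb R M u, (if w ∈ W then lam ^ W.card else 0) :=
        sum_nonneg fun w _ => by split_ifs <;> simp [hp]
      by_cases huW : u ∈ W
      · rw [if_pos huW]; linarith
      · rw [if_neg huW, zero_add]
        have hex : ∃ a ∈ W, R u a := by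
          by_contra hcon
          push Not at hcon
          exact hW2 ⟨huW, hcon⟩
        obtain ⟨a, haW, hua⟩ := hex
        have haN : a ∈ Nb R M u := mem_Nb.2 ⟨(mem_Ind.1 hW1).1 haW, hua⟩
        have h3 := single_le_sum (f := fun w => if w ∈ W then lam ^ W.card else 0)
          (fun w _ => by split_ifs <;> simp [hp]) haN
        simp only [if_pos haW] at h3
        exact h3
    refine (sum_le_sum h2).trans ?_
    rw [sum_add_distrib, sum_comm]
    apply add_le_add
    · rw [sum_filter (s := Ind R M) (p := fun W => u ∈ W)]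
      apply sum_le_sum_of_subset_of_nonneg (filter_subset _ _)
      intro W _ _; split_ifs <;> positivity
    · apply sum_le_sum
      intro w _
      rw [sum_filter (s := Ind R M) (p := fun W => w ∈ W)]
      apply sum_le_sum_of_subset_of_nonneg (filter_subset _ _)
      intro W _ _; split_ifs <;> positivity
  have h2 : Pu R M lam u ≤ lam * Zf R M lam := Pu_le hsym hirr hu hl
  have h3 : ∑ w ∈ Nb R M u, Pu R M lam w ≤ (Nb R M u).card * (lam * Zf R M lam) := by
    calc ∑ w ∈ Nb R M u, Pu R M lam w ≤ ∑ _w ∈ Nb R M u, lam * Zf R M lam := by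
          apply sum_le_sum
          intro w hw
          exact Pu_le hsym hirr (mem_Nb.1 hw).1 hl
      _ = _ := by rw [sum_const, nsmul_eq_mul]
  rw [Pu_eq hsym hirr hu] at *
  set S := ∑ W ∈ (Ind R M).filter (fun W => u ∉ W ∧ ∀ a ∈ W, ¬ R u a), lam ^ W.card
  have h4 : Zf R M lam * (1 - lam * (1 + (Nb R M u).card)) ≤ S := by nlinarith
  calc lam * Zf R M lam * (1 - lam * (1 + (Nb R M u).card)) =
      lam * (Zf R M lam * (1 - lam * (1 + (Nb R M u).card))) := by ring
    _ ≤ lam * S := mul_le_mul_of_nonneg_left h4 hl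

/-- a locally sparse graph: the mean is almost the logarithm of the partition function -/
lemma Nf_ge (hsym : ∀ a b, R a b → R b a) (hirr : ∀ a, ¬ R a a) {X : Finset ι} {lam D : ℝ}
    (hl : 0 < lam) (hX : ∑ u ∈ X, ((Nb R X u).card : ℝ) ≤ 2 * D * X.card)
    (hk : lam * (1 + 2 * D) ≤ 1) :
    (1 - lam * (1 + 2 * D)) * (Zf R X lam * Real.log (Zf R X lam)) ≤ Nf R X lam := by
  have hZ := one_le_Zf (R := R) X hl.le
  have h1 : lam * Zf R X lam * (X.card * (1 - lam * (1 + 2 * D))) ≤ Nf R X lam := by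
    rw [Nf_eq]
    calc lam * Zf R X lam * (X.card * (1 - lam * (1 + 2 * D)))
        ≤ lam * Zf R X lam * ∑ u ∈ X, (1 - lam * (1 + (Nb R X u).card)) := by
          apply mul_le_mul_of_nonneg_left _ (by positivity)
          have e : ∑ u ∈ X, (1 - lam * (1 + ((Nb R X u).card : ℝ))) =
              X.card - lam * (X.card + ∑ u ∈ X, ((Nb R X u).card : ℝ)) := by
            rw [sum_sub_distrib, ← mul_sum, sum_add_distrib, sum_const, nsmul_eq_mul, mul_one]
          rw [e]
          nlinarith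
      _ = ∑ u ∈ X, lam * Zf R X lam * (1 - lam * (1 + (Nb R X u).card)) := by rw [mul_sum]
      _ ≤ ∑ u ∈ X, Pu R X lam u := sum_le_sum fun u hu => Pu_ge hsym hirr hu hl.le
  have h2 : Real.log (Zf R X lam) ≤ lam * X.card := by
    rw [Real.log_le_iff_le_exp (by linarith)]
    exact Zf_le X hl.le
  calc (1 - lam * (1 + 2 * D)) * (Zf R X lam * Real.log (Zf R X lam))
      ≤ (1 - lam * (1 + 2 * D)) * (Zf R X lam * (lam * X.card)) := by
        apply mul_le_mul_of_nonneg_left _ (by linarith)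
        exact mul_le_mul_of_nonneg_left h2 (by linarith)
    _ = lam * Zf R X lam * (X.card * (1 - lam * (1 + 2 * D))) := by ring
    _ ≤ _ := h1

end Pool.Agent.Helper63.RKS
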