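import Pool.Agent.Helper63.RKS.OccNum

/-!
The occupancy inequality for graphs whose neighbourhoods satisfy a truncated local inequality.
-/

set_option autoImplicit false

open Finset

namespace Pool.Agent.Helper63.RKS

open Pool.Agent.Helper84.RK hiding fiber_eq num_ineq fiber_ineq

variable {ι : Type*} [DecidableEq ι] {R : ι → ι → Prop} [DecidableRel R]

lemma num_ineqL {z z0 lam A κ L : ℝ} (hz : 1 ≤ z) (hz0 : 0 < z0) (hκ0 : 0 ≤ κ) (hκ1 : κ ≤ 1)
    (hA : (1 - κ) * (1 + Real.log z0) * lam + z0 ≤ A * lam) (hL : 1 + Real.log z0 ≤ L) :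
    (1 - κ) * (1 + Real.log z0) * (lam + z) ≤
      A * lam + (1 - κ) * (z * min (Real.log z) L) := by
  rcases le_total (Real.log z) L with h | h
  · rw [min_eq_left h]
    exact num_ineq hz hz0 hκ0 hκ1 hA
  · rw [min_eq_right h]
    have h1 : (1 - κ) * z * (1 + Real.log z0) ≤ (1 - κ) * z * L :=
      mul_le_mul_of_nonneg_left hL (mul_nonneg (by linarith) (by linarith))
    nlinarith

/-- the inequality for one fibre -/
lemma fiber_ineqL (hsym : ∀ a b, R a b → R b a) (hirr : ∀ a, ¬ R a a) {M : Finset ι}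
    {v : ι} (hv : v ∈ M) {κ L lam A z0 : ℝ} (hκ0 : 0 ≤ κ) (hκ1 : κ ≤ 1) (hl : 0 < lam)
    (hloc : ∀ X ⊆ Nb R M v,
      (1 - κ) * (Zf R X lam * min (Real.log (Zf R X lam)) L) ≤ Nf R X lam)
    (hz0 : 0 < z0) (hL : 1 + Real.log z0 ≤ L)
    (hA : (1 - κ) * (1 + Real.log z0) * lam + z0 ≤ A * lam)
    {W₀ : Finset ι} (hW₀ : W₀ ∈ Ind R M) :
    (1 - κ) * (1 + Real.log z0) * ∑ W ∈ (Ind R M).filter
      (fun W => W \ insert v (Nb R M v) = W₀ \ insert v (Nb R M v)), lam ^ W.card ≤
    ∑ W ∈ (Ind R M).filter (fun W => W \ insert v (Nb R M v) = W₀ \ insert v (Nb R M v)),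
      ((if v ∈ W then A else 0) + ((W ∩ Nb R M v).card : ℝ)) * lam ^ W.card := by
  rw [fiber_eq hsym hirr hv hW₀]
  set N := Nb R M v with hN
  set S := W₀ \ insert v N with hS
  set X := N.filter (fun u => ∀ a ∈ S, ¬ R a u) with hX
  have hvS : v ∉ S := fun h => (mem_sdiff.1 h).2 (mem_insert_self _ _)
  have hvN : v ∉ N := fun h => hirr v (mem_Nb.1 h).2
  have hSN : ∀ a ∈ S, a ∉ N := fun a ha h => (mem_sdiff.1 ha).2 (mem_insert_of_mem h)
  have hXN : X ⊆ N := filter_subset _ _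
  have hIX : ∀ Y ∈ Ind R X, Y ⊆ X := fun Y hY => (mem_Ind.1 hY).1
  have hnot : insert v S ∉ (Ind R X).image (fun Y => S ∪ Y) := by
    intro h
    obtain ⟨Y, hY, hYe⟩ := mem_image.1 h
    have : v ∈ S ∪ Y := by rw [hYe]; exact mem_insert_self _ _
    rcases mem_union.1 this with h1 | h1
    · exact hvS h1
    · exact hvN (hXN (hIX Y hY h1))
  have hdis : ∀ Y ∈ Ind R X, Disjoint S Y := by
    intro Y hY
    rw [Finset.disjoint_left]
    intro a ha ha2
    exact hSN a ha (hXN (hIX Y hY ha2))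
  have hinj : Set.InjOn (fun Y => S ∪ Y) (Ind R X : Set (Finset ι)) := by
    intro Y hY Z hZ h
    have hY' := hdis Y (mem_coe.1 hY)
    have hZ' := hdis Z (mem_coe.1 hZ)
    have h' : S ∪ Y = S ∪ Z := h
    calc Y = (S ∪ Y) \ S := (union_sdiff_cancel_left hY').symm
      _ = (S ∪ Z) \ S := by rw [h']
      _ = Z := union_sdiff_cancel_left hZ'
  rw [sum_insert hnot, sum_insert hnot, sum_image hinj, sum_image hinj]
  have h1 : ((insert v S) ∩ N) = ∅ := by
    ext a
    simp only [mem_inter, mem_insert, notMem_empty, iff_false, not_and]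
    rintro (h | h)
    · rw [h]; exact hvN
    · exact hSN a h
  have h2 : ∀ Y ∈ Ind R X, ((if v ∈ S ∪ Y then A else 0) + (((S ∪ Y) ∩ N).card : ℝ)) *
      lam ^ (S ∪ Y).card = lam ^ S.card * ((Y.card : ℝ) * lam ^ Y.card) := by
    intro Y hY
    have hvY : v ∉ S ∪ Y := by
      intro h
      rcases mem_union.1 h with h | h
      · exact hvS h
      · exact hvN (hXN (hIX Y hY h))
    rw [if_neg hvY, zero_add, card_union_of_disjoint (hdis Y hY), pow_add]
    have h3 : (S ∪ Y) ∩ N = Y := by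
      ext a
      simp only [mem_inter, mem_union]
      constructor
      · rintro ⟨h | h, h'⟩
        · exact absurd h' (hSN a h)
        · exact h
      · intro h
        exact ⟨Or.inr h, hXN (hIX Y hY h)⟩
    rw [h3]
    ring
  have h2' : ∀ Y ∈ Ind R X, lam ^ (S ∪ Y).card = lam ^ S.card * lam ^ Y.card := by
    intro Y hY
    rw [card_union_of_disjoint (hdis Y hY), pow_add]
  rw [sum_congr rfl h2, sum_congr rfl h2', h1, if_pos (mem_insert_self _ _), ← mul_sum, ← mul_sum,
    card_insert_of_notMem hvS, pow_succ]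
  have h3 := hloc X hXN
  have hZ := one_le_Zf (R := R) X hl.le
  have h4 := num_ineqL (lam := lam) (A := A) hZ hz0 hκ0 hκ1 hA hL
  have h5 : 0 ≤ lam ^ S.card := by positivity
  change _ * (lam ^ S.card * lam + lam ^ S.card * Zf R X lam) ≤
    _ + lam ^ S.card * Nf R X lam
  simp only [card_empty, Nat.cast_zero, add_zero]
  have h6 := mul_le_mul_of_nonneg_left (h4.trans (add_le_add_right h3 (A * lam))) h5
  linarith

/-- **The occupancy inequality.** -/
theorem occL (hsym : ∀ a b, R a b → R b a) (hirr : ∀ a, ¬ R a a) {M : Finset ι}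
    {κ L lam A z0 Δ : ℝ} (hκ0 : 0 ≤ κ) (hκ1 : κ ≤ 1) (hl : 0 < lam)
    (hloc : ∀ v ∈ M, ∀ X ⊆ Nb R M v,
      (1 - κ) * (Zf R X lam * min (Real.log (Zf R X lam)) L) ≤ Nf R X lam)
    (hz0 : 0 < z0) (hL : 1 + Real.log z0 ≤ L)
    (hA : (1 - κ) * (1 + Real.log z0) * lam + z0 ≤ A * lam)
    (hdeg : ∀ v ∈ M, ((Nb R M v).card : ℝ) ≤ Δ) :
    M.card * ((1 - κ) * (1 + Real.log z0)) * Zf R M lam ≤
      (A + Δ) * Nf R M lam := by
  set B := (1 - κ) * (1 + Real.log z0) with hB
  have h1 : ∀ v ∈ M, B * Zf R M lam ≤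
      ∑ W ∈ Ind R M, ((if v ∈ W then A else 0) + ((W ∩ Nb R M v).card : ℝ)) * lam ^ W.card := by
    intro v hv
    have e1 := sum_fiberwise_of_maps_to (s := Ind R M)
      (t := (Ind R M).image (fun W => W \ insert v (Nb R M v)))
      (g := fun W => W \ insert v (Nb R M v)) (fun W hW => mem_image_of_mem _ hW)
      (fun W => lam ^ W.card)
    have e2 := sum_fiberwise_of_maps_to (s := Ind R M)
      (t := (Ind R M).image (fun W => W \ insert v (Nb R M v)))
      (g := fun W => W \ insert v (Nb R M v)) (fun W hW => mem_image_of_mem _ hW)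
      (fun W => ((if v ∈ W then A else 0) + ((W ∩ Nb R M v).card : ℝ)) * lam ^ W.card)
    rw [← e2, Zf, ← e1, mul_sum]
    apply sum_le_sum
    intro S hS
    obtain ⟨W₀, hW₀, rfl⟩ := mem_image.1 hS
    exact fiber_ineqL hsym hirr hv hκ0 hκ1 hl (hloc v hv) hz0 hL hA hW₀
  have h2 : ∀ W ∈ Ind R M, ∑ v ∈ M, ((if v ∈ W then A else 0) + ((W ∩ Nb R M v).card : ℝ)) ≤
      (A + Δ) * W.card := by
    intro W hW
    obtain ⟨hWM, hWI⟩ := mem_Ind.1 hW
    rw [sum_add_distrib]
    have a1 : ∑ v ∈ M, (if v ∈ W then A else 0) = A * W.card := by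
      rw [← sum_filter, sum_const, nsmul_eq_mul, mul_comm]
      congr 2
      apply congrArg
      ext a
      simp only [mem_filter]
      exact ⟨fun h => h.2, fun h => ⟨hWM h, h⟩⟩
    have a2 : ∑ v ∈ M, ((W ∩ Nb R M v).card : ℝ) = ∑ u ∈ W, ((Nb R M u).card : ℝ) := by
      have b1 : ∀ v ∈ M, ((W ∩ Nb R M v).card : ℝ) = ∑ u ∈ W, if R v u then (1 : ℝ) else 0 := by
        intro v _
        rw [← sum_filter, sum_const, nsmul_eq_mul, mul_one]
        congr 2
        ext u
        simp only [mem_inter, mem_Nb, mem_filter]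
        exact ⟨fun h => ⟨h.1, h.2.2⟩, fun h => ⟨h.1, hWM h.1, h.2⟩⟩
      have b2 : ∀ u ∈ W, ((Nb R M u).card : ℝ) = ∑ v ∈ M, if R v u then (1 : ℝ) else 0 := by
        intro u _
        rw [← sum_filter, sum_const, nsmul_eq_mul, mul_one]
        congr 2
        ext w
        simp only [mem_Nb, mem_filter]
        exact ⟨fun h => ⟨h.1, hsym _ _ h.2⟩, fun h => ⟨h.1, hsym _ _ h.2⟩⟩
      rw [sum_congr rfl b1, sum_congr rfl b2, sum_comm]
    have a3 : ∑ u ∈ W, ((Nb R M u).card : ℝ) ≤ Δ * W.card := by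
      calc ∑ u ∈ W, ((Nb R M u).card : ℝ) ≤ ∑ _u ∈ W, Δ := by
            apply sum_le_sum
            intro u hu
            exact hdeg u (hWM hu)
        _ = Δ * W.card := by rw [sum_const, nsmul_eq_mul, mul_comm]
    rw [a1, a2]
    linarith
  calc M.card * B * Zf R M lam = ∑ _v ∈ M, B * Zf R M lam := by
        rw [sum_const, nsmul_eq_mul]; ring
    _ ≤ ∑ v ∈ M, ∑ W ∈ Ind R M,
        ((if v ∈ W then A else 0) + ((W ∩ Nb R M v).card : ℝ)) * lam ^ W.card := sum_le_sum h1
    _ = ∑ W ∈ Ind R M, (∑ v ∈ M, ((if v ∈ W then A else 0) + ((W ∩ Nb R M v).card : ℝ))) *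
        lam ^ W.card := by
          rw [sum_comm]
          apply sum_congr rfl
          intro W _
          rw [sum_mul]
    _ ≤ ∑ W ∈ Ind R M, ((A + Δ) * W.card) * lam ^ W.card := by
          apply sum_le_sum
          intro W hW
          exact mul_le_mul_of_nonneg_right (h2 W hW) (by positivity)
    _ = (A + Δ) * Nf R M lam := by
          unfold Nf
          rw [mul_sum]
          apply sum_congr rfl
          intro W _
          ring

/-- the occupancy inequality with a choice of the parameters -/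
lemma occL' (hsym : ∀ a b, R a b → R b a) (hirr : ∀ a, ¬ R a a) {M : Finset ι}
    {κ L lam η Δ : ℝ} (hκ0 : 0 ≤ κ) (hκ1 : κ ≤ 1) (hl : 0 < lam) (hl1 : lam ≤ Real.exp (-1))
    (hloc : ∀ v ∈ M, ∀ X ⊆ Nb R M v,
      (1 - κ) * (Zf R X lam * min (Real.log (Zf R X lam)) L) ≤ Nf R X lam)
    (hη : 0 < η) (hΔ : 0 < Δ) (hL : 1 + Real.log (η * lam * Δ / 2) ≤ L)
    (hdeg : ∀ v ∈ M, ((Nb R M v).card : ℝ) ≤ Δ) :
    M.card * ((1 - κ) * (1 + Real.log (η * lam * Δ / 2))) * Zf R M lam ≤
      ((1 + η) * Δ) * Nf R M lam := by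
  have h := occL hsym hirr (A := η * Δ) (z0 := η * lam * Δ / 2) hκ0 hκ1 hl hloc (by positivity) hL
    ?_ hdeg
  · rw [show η * Δ + Δ = (1 + η) * Δ by ring] at h
    exact h
  · have h1 : (1 - κ) * (1 + Real.log (η * lam * Δ / 2)) ≤ η * Δ / 2 := by
      by_cases h2 : 1 + Real.log (η * lam * Δ / 2) ≤ 0
      · have h3 : (1 - κ) * (1 + Real.log (η * lam * Δ / 2)) ≤ 0 :=
          mul_nonpos_of_nonneg_of_nonpos (by linarith) h2
        have : 0 ≤ η * Δ / 2 := by positivity
        linarith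
      · push Not at h2
        have h3 : (1 - κ) * (1 + Real.log (η * lam * Δ / 2)) ≤
            1 + Real.log (η * lam * Δ / 2) := by
          apply mul_le_of_le_one_left h2.le
          linarith
        have h4 : Real.log (η * lam * Δ / 2) = Real.log lam + Real.log (η * Δ / 2) := by
          rw [← Real.log_mul hl.ne' (by positivity)]
          congr 1; ring
        have h5 : Real.log lam ≤ -1 := by
          rw [← Real.log_exp (-1)]
          exact Real.log_le_log hl hl1
        have h6 := Real.log_le_sub_one_of_pos (show 0 < η * Δ / 2 by positivity)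
        linarith
    have h2 := mul_le_mul_of_nonneg_right h1 hl.le
    have h3 : η * Δ / 2 * lam + η * lam * Δ / 2 = η * Δ * lam := by ring
    linarith

/-- **A large independent set.** -/
theorem exists_largeL (hsym : ∀ a b, R a b → R b a) (hirr : ∀ a, ¬ R a a) {M : Finset ι}
    {κ L lam η Δ : ℝ} (hκ0 : 0 ≤ κ) (hκ1 : κ ≤ 1) (hl : 0 < lam) (hl1 : lam ≤ Real.exp (-1))
    (hloc : ∀ v ∈ M, ∀ X ⊆ Nb R M v,
      (1 - κ) * (Zf R X lam * min (Real.log (Zf R X lam)) L) ≤ Nf R X lam)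
    (hη : 0 < η) (hΔ : 0 < Δ) (hL : 1 + Real.log (η * lam * Δ / 2) ≤ L)
    (hdeg : ∀ v ∈ M, ((Nb R M v).card : ℝ) ≤ Δ) :
    ∃ W ∈ Ind R M, M.card * ((1 - κ) * (1 + Real.log (η * lam * Δ / 2))) ≤
      ((1 + η) * Δ) * W.card := by
  have h := occL' hsym hirr hκ0 hκ1 hl hl1 hloc hη hΔ hL hdeg
  by_contra hcon
  push Not at hcon
  have h1 : ((1 + η) * Δ) * Nf R M lam <
      M.card * ((1 - κ) * (1 + Real.log (η * lam * Δ / 2))) * Zf R M lam := by
    unfold Nf Zf
    rw [mul_sum, mul_sum]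
    apply sum_lt_sum_of_nonempty ⟨∅, empty_mem_Ind M⟩
    intro W hW
    have h2 : 0 < lam ^ W.card := by positivity
    have h3 := mul_lt_mul_of_pos_right (hcon W hW) h2
    linarith
  linarith

/-- **The partition function.** -/
theorem logZ_geL (hsym : ∀ a b, R a b → R b a) (hirr : ∀ a, ¬ R a a) {M : Finset ι}
    {κ L lam η Δ : ℝ} (hκ0 : 0 ≤ κ) (hκ1 : κ ≤ 1) (hl : 0 < lam) (hl1 : lam ≤ Real.exp (-1))
    (hloc : ∀ t : ℝ, 0 < t → t ≤ lam → ∀ v ∈ M, ∀ X ⊆ Nb R M v,
      (1 - κ) * (Zf R X t * min (Real.log (Zf R X t)) L) ≤ Nf R X t)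
    (hη : 0 < η) (hΔ : 0 < Δ) (hL : 1 + Real.log (η * lam * Δ / 2) ≤ L)
    (hdeg : ∀ v ∈ M, ((Nb R M v).card : ℝ) ≤ Δ)
    (hb : 0 ≤ 1 + Real.log (η * lam * Δ / 2)) :
    M.card * (1 - κ) / ((1 + η) * Δ) *
      (1 + Real.log (η * lam * Δ / 2)) ^ 2 / 2 ≤ Real.log (Zf R M lam) := by
  set b : ℝ := 1 + Real.log (η * Δ / 2) with hbdef
  set c : ℝ := M.card * (1 - κ) / ((1 + η) * Δ) with hc
  set t1 : ℝ := Real.log lam with ht1
  have hc0 : 0 ≤ c := by
    rw [hc]
    apply div_nonneg (mul_nonneg (Nat.cast_nonneg _) (by linarith)) (by positivity)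
  have hlog : ∀ t : ℝ, 1 + Real.log (η * Real.exp t * Δ / 2) = t + b := by
    intro t
    have h4 : η * Real.exp t * Δ / 2 = Real.exp t * (η * Δ / 2) := by ring
    rw [h4, Real.log_mul (Real.exp_pos t).ne' (by positivity), Real.log_exp, hbdef]
    ring
  have hlam : Real.exp t1 = lam := Real.exp_log hl
  have hb' : 0 ≤ t1 + b := by rw [← hlog, hlam]; exact hb
  set f : ℝ → ℝ := fun t => Real.log (Zf R M (Real.exp t)) - c * (t + b) ^ 2 / 2 with hf
  have hZpos : ∀ t : ℝ, 0 < Zf R M (Real.exp t) := fun t =>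
    lt_of_lt_of_le one_pos (one_le_Zf M (Real.exp_pos t).le)
  have hder : ∀ t : ℝ, HasDerivAt f
      (Nf R M (Real.exp t) / Zf R M (Real.exp t) - c * (t + b)) t := by
    intro t
    have h1 := (hasDerivAt_Zf (R := R) M t).log (hZpos t).ne'
    have h2 : HasDerivAt (fun t : ℝ => c * (t + b) ^ 2 / 2) (c * (t + b)) t := by
      have h3 : HasDerivAt (fun t : ℝ => t + b) 1 t := (hasDerivAt_id t).add_const b
      have h4 := ((h3.pow 2).const_mul c).div_const 2
      refine HasDerivAt.congr_deriv h4 ?_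
      push_cast
      ring
    exact h1.sub h2
  have hmono : MonotoneOn f (Set.Icc (-b) t1) := by
    apply monotoneOn_of_deriv_nonneg (convex_Icc _ _)
    · exact fun t _ => (hder t).continuousAt.continuousWithinAt
    · exact fun t _ => (hder t).differentiableAt.differentiableWithinAt
    · intro t ht
      rw [interior_Icc] at ht
      rw [(hder t).deriv]
      have hexp : Real.exp t ≤ lam := by rw [← hlam]; exact Real.exp_le_exp.2 ht.2.le
      have htt : t + b ≤ t1 + b := by linarith [ht.2]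
      have h1 := occL' hsym hirr hκ0 hκ1 (Real.exp_pos t) (hexp.trans hl1)
        (hloc _ (Real.exp_pos t) hexp) hη hΔ
        (by rw [hlog]; refine htt.trans ?_; rw [← hlog, hlam]; exact hL) hdeg
      rw [hlog] at h1
      have h2 : (M.card : ℝ) * ((1 - κ) * (t + b)) ≤ M.card * ((1 - κ) * (t + b)) := le_rfl
      have h3 : c * (t + b) ≤ Nf R M (Real.exp t) / Zf R M (Real.exp t) := by
        rw [le_div_iff₀ (hZpos t), hc, div_mul_eq_mul_div, div_mul_eq_mul_div,
          div_le_iff₀ (by positivity)]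
        have h4 := mul_le_mul_of_nonneg_right h2 (hZpos t).le
        calc (M.card : ℝ) * (1 - κ) * (t + b) * Zf R M (Real.exp t)
            = (M.card : ℝ) * ((1 - κ) * (t + b)) * Zf R M (Real.exp t) := by ring
          _ ≤ _ := h4
          _ ≤ (1 + η) * Δ * Nf R M (Real.exp t) := h1
          _ = _ := by ring
      linarith
  have h1 := hmono (Set.left_mem_Icc.2 (by linarith)) (Set.right_mem_Icc.2 (by linarith))
    (by linarith)
  have h2 : 0 ≤ f (-b) := by
    simp only [hf]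
    have : 0 ≤ Real.log (Zf R M (Real.exp (-b))) :=
      Real.log_nonneg (one_le_Zf M (Real.exp_pos _).le)
    simp only [neg_add_cancel]
    linarith
  have h3 : f t1 = Real.log (Zf R M lam) - c * (t1 + b) ^ 2 / 2 := by
    simp only [hf]
    rw [hlam]
  have h4 : 1 + Real.log (η * lam * Δ / 2) = t1 + b := by rw [← hlog, hlam]
  rw [h4]
  linarith

end Pool.Agent.Helper63.RKS
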