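import Pool.Agent.Helper63.RKS.OccL

/-!
The truncated local inequality for graphs all of whose subsets `X` have average degree at most
`2 C √|X|`.
-/

set_option autoImplicit false

open Finset

namespace Pool.Agent.Helper63.RKS

open Pool.Agent.Helper84.RK hiding fiber_eq num_ineq fiber_ineq

variable {ι : Type*} [DecidableEq ι] {R : ι → ι → Prop} [DecidableRel R]

omit [DecidableEq ι] in
/-- the mean size increases with the fugacity -/
lemma mean_mono (M : Finset ι) {t lam : ℝ} (ht : 0 < t) (htl : t ≤ lam) :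
    Nf R M t * Zf R M lam ≤ Nf R M lam * Zf R M t := by
  have hl : 0 < lam := ht.trans_le htl
  unfold Nf Zf
  rw [sum_mul_sum, sum_mul_sum]
  have hsymm : ∀ f : Finset ι → Finset ι → ℝ,
      ∑ W ∈ Ind R M, ∑ V ∈ Ind R M, f W V = ∑ W ∈ Ind R M, ∑ V ∈ Ind R M, f V W := fun f =>
    sum_comm
  have key : 0 ≤ ∑ W ∈ Ind R M, ∑ V ∈ Ind R M,
      (((W.card : ℝ) * lam ^ W.card * t ^ V.card - (W.card : ℝ) * t ^ W.card * lam ^ V.card) +
      ((V.card : ℝ) * lam ^ V.card * t ^ W.card - (V.card : ℝ) * t ^ V.card * lam ^ W.card)) := by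
    apply sum_nonneg
    intro W _
    apply sum_nonneg
    intro V _
    have e : ((W.card : ℝ) * lam ^ W.card * t ^ V.card - (W.card : ℝ) * t ^ W.card * lam ^ V.card) +
        ((V.card : ℝ) * lam ^ V.card * t ^ W.card - (V.card : ℝ) * t ^ V.card * lam ^ W.card) =
        ((W.card : ℝ) - V.card) * (lam ^ W.card * t ^ V.card - t ^ W.card * lam ^ V.card) := by
      ring
    rw [e]
    have main : ∀ a b : ℕ, b ≤ a →
        0 ≤ ((a : ℝ) - b) * (lam ^ a * t ^ b - t ^ a * lam ^ b) := by
      intro a b hab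
      obtain ⟨c, rfl⟩ := Nat.exists_eq_add_of_le hab
      have h1 : lam ^ (b + c) * t ^ b - t ^ (b + c) * lam ^ b =
          lam ^ b * t ^ b * (lam ^ c - t ^ c) := by
        rw [pow_add, pow_add]; ring
      rw [h1]
      have h2 : t ^ c ≤ lam ^ c := pow_le_pow_left₀ ht.le htl c
      have h3 : (0 : ℝ) ≤ ((b + c : ℕ) : ℝ) - b := by push_cast; linarith [Nat.cast_nonneg (α := ℝ) c]
      exact mul_nonneg h3 (mul_nonneg (by positivity) (by linarith))
    rcases le_total V.card W.card with h | h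
    · exact main _ _ h
    · have h1 := main _ _ h
      have e2 : ((W.card : ℝ) - V.card) * (lam ^ W.card * t ^ V.card - t ^ W.card * lam ^ V.card) =
          ((V.card : ℝ) - W.card) * (lam ^ V.card * t ^ W.card - t ^ V.card * lam ^ W.card) := by
        ring
      rw [e2]; exact h1
  simp only [sum_add_distrib, sum_sub_distrib] at key
  have s1 := hsymm (fun W V => (V.card : ℝ) * lam ^ V.card * t ^ W.card)
  have s2 := hsymm (fun W V => (V.card : ℝ) * t ^ V.card * lam ^ W.card)
  rw [s1, s2] at key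
  linarith

/-- small subsets -/
lemma loc_small (hsym : ∀ a b, R a b → R b a) (hirr : ∀ a, ¬ R a a) {X : Finset ι}
    {t lam L C κ : ℝ} (ht : 0 < t) (htl : t ≤ lam) (hC : 0 ≤ C)
    (hX : ∑ u ∈ X, ((Nb R X u).card : ℝ) ≤ 2 * C * (Real.sqrt X.card * X.card))
    (hL : t * X.card ≤ L) (hκ : lam + 2 * C * Real.sqrt lam * Real.sqrt L ≤ κ) :
    (1 - κ) * (t * Zf R X t * X.card) ≤ Nf R X t := by
  have hZ := one_le_Zf (R := R) X ht.le
  have hXc : (0 : ℝ) ≤ X.card := Nat.cast_nonneg _
  have h1 : t * (2 * C * Real.sqrt X.card) ≤ 2 * C * Real.sqrt lam * Real.sqrt L := by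
    have e1 : t * (2 * C * Real.sqrt X.card) = 2 * C * (Real.sqrt t * Real.sqrt (t * X.card)) := by
      rw [Real.sqrt_mul ht.le, ← mul_assoc (Real.sqrt t), Real.mul_self_sqrt ht.le]
      ring
    rw [e1, mul_assoc (2 * C)]
    apply mul_le_mul_of_nonneg_left _ (by positivity)
    exact mul_le_mul (Real.sqrt_le_sqrt htl) (Real.sqrt_le_sqrt hL) (Real.sqrt_nonneg _)
      (Real.sqrt_nonneg _)
  have h2 : t * Zf R X t * (X.card * (1 - t * (1 + 2 * (C * Real.sqrt X.card)))) ≤ Nf R X t := by
    rw [Nf_eq]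
    calc t * Zf R X t * (X.card * (1 - t * (1 + 2 * (C * Real.sqrt X.card))))
        ≤ t * Zf R X t * ∑ u ∈ X, (1 - t * (1 + (Nb R X u).card)) := by
          apply mul_le_mul_of_nonneg_left _ (by positivity)
          have e : ∑ u ∈ X, (1 - t * (1 + ((Nb R X u).card : ℝ))) =
              X.card - t * (X.card + ∑ u ∈ X, ((Nb R X u).card : ℝ)) := by
            rw [sum_sub_distrib, ← mul_sum, sum_add_distrib, sum_const, nsmul_eq_mul, mul_one]
          rw [e]
          have := mul_le_mul_of_nonneg_left hX ht.le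
          nlinarith
      _ = ∑ u ∈ X, t * Zf R X t * (1 - t * (1 + (Nb R X u).card)) := by rw [mul_sum]
      _ ≤ ∑ u ∈ X, Pu R X t u := sum_le_sum fun u hu => Pu_ge hsym hirr hu ht.le
  refine le_trans ?_ h2
  have h3 : 1 - κ ≤ 1 - t * (1 + 2 * (C * Real.sqrt X.card)) := by
    have : t * (1 + 2 * (C * Real.sqrt X.card)) = t + t * (2 * C * Real.sqrt X.card) := by ring
    rw [this]
    linarith
  have h4 := mul_le_mul_of_nonneg_right h3 (show 0 ≤ t * Zf R X t * X.card by positivity)
  linarith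

/-- **The truncated local inequality.** -/
lemma loc_ge (hsym : ∀ a b, R a b → R b a) (hirr : ∀ a, ¬ R a a) {X : Finset ι}
    {t lam L C κ : ℝ} (ht : 0 < t) (htl : t ≤ lam) (hC : 0 ≤ C)
    (hX : ∑ u ∈ X, ((Nb R X u).card : ℝ) ≤ 2 * C * (Real.sqrt X.card * X.card))
    (hL : 0 < L) (hκ : lam + 2 * C * Real.sqrt lam * Real.sqrt L ≤ κ) (hκ1 : κ ≤ 1) :
    (1 - κ) * (Zf R X t * min (Real.log (Zf R X t)) L) ≤ Nf R X t := by
  have hZ := one_le_Zf (R := R) X ht.le
  rcases le_or_gt (t * X.card) L with h | h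
  · have h1 := loc_small hsym hirr ht htl hC hX h hκ
    refine le_trans ?_ h1
    have h2 : Real.log (Zf R X t) ≤ t * X.card := by
      rw [Real.log_le_iff_le_exp (by linarith)]
      exact Zf_le X ht.le
    have h3 : min (Real.log (Zf R X t)) L ≤ t * X.card := (min_le_left _ _).trans h2
    calc (1 - κ) * (Zf R X t * min (Real.log (Zf R X t)) L)
        ≤ (1 - κ) * (Zf R X t * (t * X.card)) := by
          apply mul_le_mul_of_nonneg_left _ (by linarith)
          exact mul_le_mul_of_nonneg_left h3 (by linarith)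
      _ = _ := by ring
  · have hXc : (0 : ℝ) < X.card := by
      by_contra hcon
      push Not at hcon
      nlinarith
    set t' := L / X.card with ht'
    have ht'0 : 0 < t' := div_pos hL hXc
    have ht't : t' ≤ t := by
      rw [ht', div_le_iff₀ hXc]; exact h.le
    have hLe : t' * X.card = L := by rw [ht']; field_simp
    have h1 := loc_small hsym hirr ht'0 (ht't.trans htl) hC hX hLe.le hκ
    have hZ' := one_le_Zf (R := R) X ht'0.le
    have h2 := mean_mono (R := R) X ht'0 ht't
    have h3 : (1 - κ) * (t' * Zf R X t' * X.card) = (1 - κ) * L * Zf R X t' := by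
      have : t' * Zf R X t' * X.card = (t' * X.card) * Zf R X t' := by ring
      rw [this, hLe]; ring
    rw [h3] at h1
    have h4 : (1 - κ) * L * Zf R X t' * Zf R X t ≤ Nf R X t * Zf R X t' :=
      (mul_le_mul_of_nonneg_right h1 (by linarith)).trans h2
    have h5 : (1 - κ) * L * Zf R X t ≤ Nf R X t := by
      have h6 : Zf R X t' * ((1 - κ) * L * Zf R X t) ≤ Zf R X t' * Nf R X t := by linarith
      exact le_of_mul_le_mul_left h6 (by linarith)
    refine le_trans ?_ h5
    calc (1 - κ) * (Zf R X t * min (Real.log (Zf R X t)) L)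
        ≤ (1 - κ) * (Zf R X t * L) := by
          apply mul_le_mul_of_nonneg_left _ (by linarith)
          exact mul_le_mul_of_nonneg_left (min_le_right _ _) (by linarith)
      _ = _ := by ring

end Pool.Agent.Helper63.RKS
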