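import Pool.Agent.Helper63.RKS.OccFib

/-!
Consequences of the occupancy inequality: a large independent set, and the partition function.
-/

set_option autoImplicit false

open Finset

namespace Pool.Agent.Helper63.RKS

open Pool.Agent.Helper84.RK

variable {ι : Type*} [DecidableEq ι] {R : ι → ι → Prop} [DecidableRel R]

/-- the occupancy inequality with a choice of the parameters -/
lemma occ' (hsym : ∀ a b, R a b → R b a) (hirr : ∀ a, ¬ R a a) {M : Finset ι}
    {K lam η Δ : ℝ} (hK : 0 ≤ K) (hl : 0 < lam) (hl1 : lam ≤ Real.exp (-1))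
    (hloc : ∀ v ∈ M, ∀ X ⊆ Nb R M v, ∑ u ∈ X, ((Nb R X u).card : ℝ) ≤ 2 * K * X.card)
    (hk : lam * (1 + 2 * K) ≤ 1) (hη : 0 < η) (hΔ : 0 < Δ)
    (hdeg : ∀ v ∈ M, ((Nb R M v).card : ℝ) ≤ Δ) :
    M.card * ((1 - lam * (1 + 2 * K)) * (1 + Real.log (η * lam * Δ / 2))) * Zf R M lam ≤
      ((1 + η) * Δ) * Nf R M lam := by
  have h := occ hsym hirr (A := η * Δ) (z0 := η * lam * Δ / 2) hK hl hloc hk (by positivity) ?_
    hdeg
  · rw [show η * Δ + Δ = (1 + η) * Δ by ring] at h
    exact h
  · have h1 : (1 - lam * (1 + 2 * K)) * (1 + Real.log (η * lam * Δ / 2)) ≤ η * Δ / 2 := by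
      by_cases h2 : 1 + Real.log (η * lam * Δ / 2) ≤ 0
      · have h3 : (1 - lam * (1 + 2 * K)) * (1 + Real.log (η * lam * Δ / 2)) ≤ 0 :=
          mul_nonpos_of_nonneg_of_nonpos (by linarith) h2
        have : 0 ≤ η * Δ / 2 := by positivity
        linarith
      · push Not at h2
        have h3 : (1 - lam * (1 + 2 * K)) * (1 + Real.log (η * lam * Δ / 2)) ≤
            1 + Real.log (η * lam * Δ / 2) := by
          apply mul_le_of_le_one_left h2.le
          have : 0 ≤ lam * (1 + 2 * K) := by positivity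
          linarith
        have h4 : Real.log (η * lam * Δ / 2) = Real.log lam + Real.log (η * Δ / 2) := by
          rw [← Real.log_mul hl.ne' (by positivity)]
          congr 1; ring
        have h5 : Real.log lam ≤ -1 := by
          rw [← Real.log_exp (-1)]
          exact Real.log_le_log hl hl1
        have h6 := Real.log_le_sub_one_of_pos (show 0 < η * Δ / 2 by positivity)
        linarith
    have h2 := mul_le_mul_of_nonneg_right h1 hl.le
    have h3 : η * Δ / 2 * lam + η * lam * Δ / 2 = η * Δ * lam := by ring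
    linarith

/-- **A large independent set.** -/
theorem exists_large (hsym : ∀ a b, R a b → R b a) (hirr : ∀ a, ¬ R a a) {M : Finset ι}
    {K lam η Δ : ℝ} (hK : 0 ≤ K) (hl : 0 < lam) (hl1 : lam ≤ Real.exp (-1))
    (hloc : ∀ v ∈ M, ∀ X ⊆ Nb R M v, ∑ u ∈ X, ((Nb R X u).card : ℝ) ≤ 2 * K * X.card)
    (hk : lam * (1 + 2 * K) ≤ 1) (hη : 0 < η) (hΔ : 0 < Δ)
    (hdeg : ∀ v ∈ M, ((Nb R M v).card : ℝ) ≤ Δ) :
    ∃ W ∈ Ind R M, M.card * ((1 - lam * (1 + 2 * K)) * (1 + Real.log (η * lam * Δ / 2))) ≤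
      ((1 + η) * Δ) * W.card := by
  have h := occ' hsym hirr hK hl hl1 hloc hk hη hΔ hdeg
  by_contra hcon
  push Not at hcon
  have h1 : ((1 + η) * Δ) * Nf R M lam <
      M.card * ((1 - lam * (1 + 2 * K)) * (1 + Real.log (η * lam * Δ / 2))) * Zf R M lam := by
    unfold Nf Zf
    rw [mul_sum, mul_sum]
    apply sum_lt_sum_of_nonempty ⟨∅, empty_mem_Ind M⟩
    intro W hW
    have h2 : 0 < lam ^ W.card := by positivity
    have h3 := mul_lt_mul_of_pos_right (hcon W hW) h2
    linarith
  linarith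

omit [DecidableEq ι] in
lemma hasDerivAt_Zf (M : Finset ι) (t : ℝ) :
    HasDerivAt (fun t => Zf R M (Real.exp t)) (Nf R M (Real.exp t)) t := by
  unfold Zf Nf
  have h : ∀ W ∈ Ind R M, HasDerivAt (fun t => Real.exp t ^ W.card)
      ((W.card : ℝ) * Real.exp t ^ W.card) t := by
    intro W _
    have h1 : (fun t : ℝ => Real.exp t ^ W.card) = fun t => Real.exp (W.card * t) := by
      funext t
      rw [Real.exp_nat_mul]
    rw [h1]
    have h2 : HasDerivAt (fun t : ℝ => (W.card : ℝ) * t) (W.card : ℝ) t := by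
      simpa using (hasDerivAt_id t).const_mul (W.card : ℝ)
    have h3 := h2.exp
    rw [Real.exp_nat_mul] at h3
    convert h3 using 1
    ring
  have := HasDerivAt.fun_sum h
  exact this

/-- **The partition function.** -/
theorem logZ_ge (hsym : ∀ a b, R a b → R b a) (hirr : ∀ a, ¬ R a a) {M : Finset ι}
    {K lam η Δ : ℝ} (hK : 0 ≤ K) (hl : 0 < lam) (hl1 : lam ≤ Real.exp (-1))
    (hloc : ∀ v ∈ M, ∀ X ⊆ Nb R M v, ∑ u ∈ X, ((Nb R X u).card : ℝ) ≤ 2 * K * X.card)
    (hk : lam * (1 + 2 * K) ≤ 1) (hη : 0 < η) (hΔ : 0 < Δ)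
    (hdeg : ∀ v ∈ M, ((Nb R M v).card : ℝ) ≤ Δ)
    (hb : 0 ≤ 1 + Real.log (η * lam * Δ / 2)) :
    M.card * (1 - lam * (1 + 2 * K)) / ((1 + η) * Δ) *
      (1 + Real.log (η * lam * Δ / 2)) ^ 2 / 2 ≤ Real.log (Zf R M lam) := by
  set b : ℝ := 1 + Real.log (η * Δ / 2) with hbdef
  set c : ℝ := M.card * (1 - lam * (1 + 2 * K)) / ((1 + η) * Δ) with hc
  set t1 : ℝ := Real.log lam with ht1
  have hc0 : 0 ≤ c := by
    rw [hc]
    apply div_nonneg (mul_nonneg (Nat.cast_nonneg _) (by linarith)) (by positivity)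
  have hlog : ∀ t : ℝ, 1 + Real.log (η * Real.exp t * Δ / 2) = t + b := by
    intro t
    have h4 : η * Real.exp t * Δ / 2 = Real.exp t * (η * Δ / 2) := by ring
    rw [h4, Real.log_mul (Real.exp_pos t).ne' (by positivity), Real.log_exp, hbdef]
    ring
  have hlam : Real.exp t1 = lam := Real.exp_log hl
  have hb' : 0 ≤ t1 + b := by rw [← hlog, hlam]; exact hb
  set f : ℝ → ℝ := fun t => Real.log (Zf R M (Real.exp t)) - c * (t + b) ^ 2 / 2 with hf
  have hZpos : ∀ t : ℝ, 0 < Zf R M (Real.exp t) := fun t =>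
    lt_of_lt_of_le one_pos (one_le_Zf M (Real.exp_pos t).le)
  have hder : ∀ t : ℝ, HasDerivAt f
      (Nf R M (Real.exp t) / Zf R M (Real.exp t) - c * (t + b)) t := by
    intro t
    have h1 := (hasDerivAt_Zf (R := R) M t).log (hZpos t).ne'
    have h2 : HasDerivAt (fun t : ℝ => c * (t + b) ^ 2 / 2) (c * (t + b)) t := by
      have h3 : HasDerivAt (fun t : ℝ => t + b) 1 t := (hasDerivAt_id t).add_const b
      have h4 := ((h3.pow 2).const_mul c).div_const 2
      refine HasDerivAt.congr_deriv h4 ?_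
      push_cast
      ring
    exact h1.sub h2
  have hmono : MonotoneOn f (Set.Icc (-b) t1) := by
    apply monotoneOn_of_deriv_nonneg (convex_Icc _ _)
    · exact fun t _ => (hder t).continuousAt.continuousWithinAt
    · exact fun t _ => (hder t).differentiableAt.differentiableWithinAt
    · intro t ht
      rw [interior_Icc] at ht
      rw [(hder t).deriv]
      have hexp : Real.exp t ≤ lam := by rw [← hlam]; exact Real.exp_le_exp.2 ht.2.le
      have h1 := occ' hsym hirr hK (Real.exp_pos t) (hexp.trans hl1) hloc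
        ((mul_le_mul_of_nonneg_right hexp (by positivity)).trans hk) hη hΔ hdeg
      rw [hlog] at h1
      have h2 : (M.card : ℝ) * ((1 - lam * (1 + 2 * K)) * (t + b)) ≤
          M.card * ((1 - Real.exp t * (1 + 2 * K)) * (t + b)) := by
        apply mul_le_mul_of_nonneg_left _ (Nat.cast_nonneg _)
        apply mul_le_mul_of_nonneg_right _ (by linarith [ht.1])
        have := mul_le_mul_of_nonneg_right hexp (show 0 ≤ 1 + 2 * K by positivity)
        linarith
      have h3 : c * (t + b) ≤ Nf R M (Real.exp t) / Zf R M (Real.exp t) := by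
        rw [le_div_iff₀ (hZpos t), hc, div_mul_eq_mul_div, div_mul_eq_mul_div,
          div_le_iff₀ (by positivity)]
        have h4 := mul_le_mul_of_nonneg_right h2 (hZpos t).le
        calc (M.card : ℝ) * (1 - lam * (1 + 2 * K)) * (t + b) * Zf R M (Real.exp t)
            = (M.card : ℝ) * ((1 - lam * (1 + 2 * K)) * (t + b)) * Zf R M (Real.exp t) := by ring
          _ ≤ _ := h4
          _ ≤ (1 + η) * Δ * Nf R M (Real.exp t) := h1
          _ = _ := by ring
      linarith
  have h1 := hmono (Set.left_mem_Icc.2 (by linarith)) (Set.right_mem_Icc.2 (by linarith))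
    (by linarith)
  have h2 : 0 ≤ f (-b) := by
    simp only [hf]
    have : 0 ≤ Real.log (Zf R M (Real.exp (-b))) :=
      Real.log_nonneg (one_le_Zf M (Real.exp_pos _).le)
    simp only [neg_add_cancel]
    linarith
  have h3 : f t1 = Real.log (Zf R M lam) - c * (t1 + b) ^ 2 / 2 := by
    simp only [hf]
    rw [hlam]
  have h4 : 1 + Real.log (η * lam * Δ / 2) = t1 + b := by rw [← hlog, hlam]
  rw [h4]
  linarith

end Pool.Agent.Helper63.RKS
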