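import Pool.Agent.Helper63.RKS.ZNum

/-!
From the partition function back to the single probabilities.
-/

set_option autoImplicit false

open scoped Nat

namespace Pool.Agent.Helper63.RKS

open Pool.Agent.Helper49.EJ

variable {P : ℕ → ℝ}

/-- one weight without the quadratic term -/
lemma pow_div_factorial_le {p K lam : ℝ} (hp : 0 < p) (hlam : 0 < lam) (k : ℕ) :
    lam ^ k / (k ! : ℝ) * Real.exp (K * k) ≤
      Real.exp (k * Real.log (lam * p) + Real.exp K / p) := by
  set l := Real.log (lam * p) with hl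
  have hE : 0 < Real.exp K := Real.exp_pos K
  rcases Nat.eq_zero_or_pos k with rfl | hk
  · simp only [pow_zero, Nat.factorial_zero, Nat.cast_one, div_one, Nat.cast_zero, mul_zero,
      Real.exp_zero, mul_one, zero_mul, zero_add]
    exact Real.one_le_exp (by positivity)
  have hk0 : (0 : ℝ) < k := by exact_mod_cast hk
  have h2 : (k : ℝ) ^ k / (k ! : ℝ) ≤ Real.exp k :=
    Real.pow_div_factorial_le_exp (x := (k : ℝ)) hk0.le k
  have h3 : lam ^ k / (k ! : ℝ) = ((k : ℝ) ^ k / (k ! : ℝ)) * (lam / k) ^ k := by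
    rw [div_pow]; field_simp
  have h4 : (lam / k) ^ k = Real.exp (k * (l - Real.log (p * k))) := by
    have h5 : l - Real.log (p * k) = Real.log (lam / k) := by
      rw [hl, ← Real.log_div (by positivity) (by positivity)]
      congr 1
      field_simp
    rw [h5, Real.exp_nat_mul, Real.exp_log (by positivity)]
  have h6 : lam ^ k / (k ! : ℝ) * Real.exp (K * k) ≤
      Real.exp (k + k * (l - Real.log (p * k)) + K * k) := by
    rw [h3, h4, Real.exp_add, Real.exp_add]
    apply mul_le_mul_of_nonneg_right _ (Real.exp_pos _).le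
    exact mul_le_mul_of_nonneg_right h2 (Real.exp_pos _).le
  refine h6.trans (Real.exp_le_exp.2 ?_)
  have h8 : k * (1 + K - Real.log (p * k)) ≤ Real.exp K / p := by
    have h9 := Real.log_le_sub_one_of_pos (show 0 < Real.exp K / (p * k) by positivity)
    rw [Real.log_div (by positivity) (by positivity), Real.log_exp] at h9
    have h10 : 1 + K - Real.log (p * k) ≤ Real.exp K / (p * k) := by linarith
    calc k * (1 + K - Real.log (p * k)) ≤ k * (Real.exp K / (p * k)) :=
          mul_le_mul_of_nonneg_left h10 hk0.le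
      _ = Real.exp K / p := by field_simp
  linarith

/-- **From the partition function to the probabilities.** -/
theorem pk_num (h0 : ∀ k, 0 ≤ P k) (h1 : ∀ k, P k ≤ 1)
    (hanti : ∀ j k, k ≤ j → P j ≤ P k) {p κ K a e u : ℝ} {k q : ℕ} (hp : 0 < p) (hp1 : p ≤ 1)
    (ha : 0 < a) (ha1 : a ≤ 1 / 4) (hκ0 : 0 < κ) (hκ : κ ≤ a ^ 2 / 8) (he0 : 0 < e)
    (he : e ≤ a ^ 2 / 16) (hu : u = p * k) (hq : q = ⌈(1 + 3 * a) * k⌉₊)
    (huC : 16 * (Real.exp K + 8) ≤ a ^ 2 * u)
    (H1 : ∀ j ≤ q, P j ≤ Real.exp (-((1 - κ) * p * j ^ 2 / 2) + K * j))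
    (H2 : ∀ j, q ≤ j → P j ≤ (j.choose q : ℝ) * P q *
      Real.exp (-((1 - κ) * p * q * (j - q : ℕ))))
    (HZ : (1 - e) * ((1 + a) * u) ^ 2 / (2 * p) ≤
      Real.log (ZZ P (Real.exp ((1 + a) * u) / p))) :
    Real.exp (-((1 + 13 * a) * u ^ 2 / (2 * p))) ≤ P k := by
  have hE : 0 < Real.exp K := Real.exp_pos K
  have ha2 : a ^ 2 ≤ 1 / 16 := by nlinarith
  have hu1 : 1 ≤ u := by
    by_contra hcon
    push Not at hcon
    have h3 : a ^ 2 * u ≤ a ^ 2 * 1 := mul_le_mul_of_nonneg_left hcon.le (by positivity)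
    linarith
  have hu0 : 0 < u := by linarith
  have hau : 10 ≤ a * u := by
    have h3 : a ^ 2 * u = a * (a * u) := by ring
    have h4 : 0 < a * u := by positivity
    nlinarith
  have hk0 : (0 : ℝ) < k := by
    rw [hu] at hu0
    exact (mul_pos_iff_of_pos_left hp).1 hu0
  have hke : (k : ℝ) = u / p := by rw [hu]; field_simp
  set l : ℝ := (1 + a) * u with hl
  set lam : ℝ := Real.exp l / p with hlam
  have hlam0 : 0 < lam := by rw [hlam]; positivity
  have hlog : Real.log (lam * p) = l := by
    rw [hlam, div_mul_cancel₀ _ hp.ne', Real.log_exp]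
  have hs := summable_wt h0 h1 hlam0.le
  have hq1 : (1 + 3 * a) * k ≤ q := by rw [hq]; exact Nat.le_ceil _
  have hq2 : (q : ℝ) ≤ (1 + 3 * a) * k + 1 := by
    rw [hq]; exact (Nat.ceil_lt_add_one (by positivity)).le
  have hkq : k ≤ q := by
    have : (k : ℝ) ≤ q := by
      have : 0 < 3 * a * k := by positivity
      linarith
    exact_mod_cast this
  -- the weights
  have hw : ∀ j ≤ q, wt P lam j ≤ Real.exp (j * l - (1 - κ) * p * j ^ 2 / 2 + Real.exp K / p) := by
    intro j hj
    have h3 := pow_div_factorial_le (K := K) hp hlam0 j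
    rw [hlog] at h3
    unfold wt
    calc lam ^ j / (j ! : ℝ) * P j ≤ lam ^ j / (j ! : ℝ) *
          Real.exp (-((1 - κ) * p * j ^ 2 / 2) + K * j) :=
            mul_le_mul_of_nonneg_left (H1 j hj) (by positivity)
      _ = (lam ^ j / (j ! : ℝ) * Real.exp (K * j)) * Real.exp (-((1 - κ) * p * j ^ 2 / 2)) := by
          rw [Real.exp_add]; ring
      _ ≤ Real.exp (j * l + Real.exp K / p) * Real.exp (-((1 - κ) * p * j ^ 2 / 2)) :=
          mul_le_mul_of_nonneg_right h3 (Real.exp_pos _).le
      _ = _ := by rw [← Real.exp_add]; congr 1; ring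
  have h1κ : 0 < 1 - κ := by linarith
  -- the three exponents
  set B : ℝ := Real.exp (u ^ 2 * (1 / 2 + a + 3 * a ^ 2 / 8) / p) with hB
  have hBpos : 0 < B := Real.exp_pos _
  have hZB : B ≤ ZZ P lam := by
    have hZ1 : 0 < ZZ P lam := by
      by_contra hcon
      push Not at hcon
      have h3 : 0 ≤ ZZ P lam := tsum_nonneg (wt_nonneg h0 hlam0.le)
      have h4 : ZZ P lam = 0 := le_antisymm hcon h3
      rw [h4, Real.log_zero] at HZ
      have h5 : 0 < (1 - e) * l ^ 2 / (2 * p) := by
        have : 0 < 1 - e := by linarith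
        positivity
      linarith
    rw [hB, ← Real.exp_log hZ1]
    apply Real.exp_le_exp.2
    refine le_trans ?_ HZ
    rw [div_le_div_iff₀ hp (by positivity)]
    have h3 : u ^ 2 * (1 / 2 + a + 3 * a ^ 2 / 8) * 2 ≤ (1 - e) * l ^ 2 := by
      rw [hl, mul_pow]
      have h4 : (1 / 2 + a + 3 * a ^ 2 / 8) * 2 ≤ (1 - e) * (1 + a) ^ 2 := by nlinarith
      calc u ^ 2 * (1 / 2 + a + 3 * a ^ 2 / 8) * 2 = ((1 / 2 + a + 3 * a ^ 2 / 8) * 2) * u ^ 2 := by
            ring
        _ ≤ ((1 - e) * (1 + a) ^ 2) * u ^ 2 := mul_le_mul_of_nonneg_right h4 (by positivity)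
        _ = _ := by ring
    nlinarith
  have hhead : ∑ j ∈ Finset.range k, wt P lam j ≤ B / 4 := by
    have h3 : ∀ j ∈ Finset.range k, wt P lam j ≤
        Real.exp (u ^ 2 * (1 / 2 + a + a ^ 2 / 16) / p + Real.exp K / p) := by
      intro j hj
      have hjk : j < k := Finset.mem_range.1 hj
      have hjk' : (j : ℝ) ≤ k := by exact_mod_cast hjk.le
      refine (hw j (hjk.le.trans hkq)).trans (Real.exp_le_exp.2 ?_)
      have h4 : (j : ℝ) * l - (1 - κ) * p * j ^ 2 / 2 ≤ k * l - (1 - κ) * p * k ^ 2 / 2 := by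
        have h5 : 0 ≤ (k - j : ℝ) * (l - (1 - κ) * p * (k + j) / 2) := by
          apply mul_nonneg (by linarith)
          have h6 : (1 - κ) * p * (k + j) / 2 ≤ p * k := by
            have h7 : (1 - κ) * (p * ((k + j) / 2)) ≤ 1 * (p * k) := by
              apply mul_le_mul (by linarith) _ (by positivity) (by norm_num)
              exact mul_le_mul_of_nonneg_left (by linarith) hp.le
            linarith
          rw [← hu] at h6
          have : 0 < a * u := by positivity
          linarith
        nlinarith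
      have h5 : k * l - (1 - κ) * p * k ^ 2 / 2 = u ^ 2 * (1 / 2 + a + κ / 2) / p := by
        rw [hke, hl]; field_simp; ring
      have h6 : u ^ 2 * (1 / 2 + a + κ / 2) / p ≤ u ^ 2 * (1 / 2 + a + a ^ 2 / 16) / p := by
        apply div_le_div_of_nonneg_right _ hp.le
        apply mul_le_mul_of_nonneg_left _ (by positivity)
        linarith
      linarith
    have h4 : ∑ j ∈ Finset.range k, wt P lam j ≤
        k * Real.exp (u ^ 2 * (1 / 2 + a + a ^ 2 / 16) / p + Real.exp K / p) := by
      calc _ ≤ ∑ _j ∈ Finset.range k,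
            Real.exp (u ^ 2 * (1 / 2 + a + a ^ 2 / 16) / p + Real.exp K / p) :=
            Finset.sum_le_sum h3
        _ = _ := by simp
    refine h4.trans ?_
    rw [le_div_iff₀ (by norm_num)]
    have h5 : (k : ℝ) * 4 ≤ Real.exp (4 * k) := by
      have := Real.add_one_le_exp (4 * (k : ℝ))
      linarith
    calc (k : ℝ) * Real.exp (u ^ 2 * (1 / 2 + a + a ^ 2 / 16) / p + Real.exp K / p) * 4
        = (k * 4) * Real.exp (u ^ 2 * (1 / 2 + a + a ^ 2 / 16) / p + Real.exp K / p) := by ring
      _ ≤ Real.exp (4 * k) *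
          Real.exp (u ^ 2 * (1 / 2 + a + a ^ 2 / 16) / p + Real.exp K / p) :=
          mul_le_mul_of_nonneg_right h5 (Real.exp_pos _).le
      _ ≤ B := by
          rw [← Real.exp_add, hB]
          apply Real.exp_le_exp.2
          rw [hke]
          have h6 : 4 * (u / p) + (u ^ 2 * (1 / 2 + a + a ^ 2 / 16) / p + Real.exp K / p) =
              (4 * u + u ^ 2 * (1 / 2 + a + a ^ 2 / 16) + Real.exp K) / p := by ring
          rw [h6]
          apply div_le_div_of_nonneg_right _ hp.le
          have h7 : 16 * (Real.exp K + 8) * u ≤ a ^ 2 * u * u :=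
            mul_le_mul_of_nonneg_right huC hu0.le
          have h8 : Real.exp K ≤ Real.exp K * u := le_mul_of_one_le_right hE.le hu1
          nlinarith
  have htail : ∑' j, wt P lam (j + q) ≤ B / 4 := by
    set b : ℝ := lam * Real.exp (-((1 - κ) * p * q)) with hb
    have hb0 : 0 ≤ b := by rw [hb]; positivity
    have hpq : (1 + 3 * a) * u ≤ p * q := by
      calc (1 + 3 * a) * u = p * ((1 + 3 * a) * k) := by rw [hu]; ring
        _ ≤ p * q := mul_le_mul_of_nonneg_left hq1 hp.le
    have hcq : l ≤ (1 - κ) * (p * q) := by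
      have h3 : (1 - κ) * ((1 + 3 * a) * u) ≤ (1 - κ) * (p * q) :=
        mul_le_mul_of_nonneg_left hpq h1κ.le
      refine le_trans ?_ h3
      have h4 : 1 + a ≤ (1 - κ) * (1 + 3 * a) := by nlinarith
      calc l = (1 + a) * u := hl
        _ ≤ ((1 - κ) * (1 + 3 * a)) * u := mul_le_mul_of_nonneg_right h4 hu0.le
        _ = _ := by ring
    have hbp : b ≤ 1 / p := by
      have h3 : Real.exp (-((1 - κ) * p * q)) ≤ Real.exp (-l) := by
        apply Real.exp_le_exp.2
        linarith
      calc b ≤ lam * Real.exp (-l) := mul_le_mul_of_nonneg_left h3 hlam0.le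
        _ = 1 / p := by
            rw [hlam, Real.exp_neg]; field_simp
    have hterm : ∀ j, wt P lam (j + q) ≤ wt P lam q * (b ^ j / (j ! : ℝ)) := by
      intro j
      have h3 := H2 (j + q) (Nat.le_add_left q j)
      rw [Nat.add_sub_cancel] at h3
      have h4 : ((j + q).choose q : ℝ) * (q ! : ℝ) * (j ! : ℝ) = ((j + q)! : ℝ) := by
        have := Nat.choose_mul_factorial_mul_factorial (Nat.le_add_left q j)
        rw [Nat.add_sub_cancel] at this
        exact_mod_cast this
      unfold wt
      calc lam ^ (j + q) / ((j + q)! : ℝ) * P (j + q)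
          ≤ lam ^ (j + q) / ((j + q)! : ℝ) * (((j + q).choose q : ℝ) * P q *
            Real.exp (-((1 - κ) * p * q * j))) := mul_le_mul_of_nonneg_left h3 (by positivity)
        _ = lam ^ q / (q ! : ℝ) * P q * (b ^ j / (j ! : ℝ)) := by
            have h5 : Real.exp (-((1 - κ) * p * q * j)) = Real.exp (-((1 - κ) * p * q)) ^ j := by
              rw [← Real.exp_nat_mul]; congr 1; ring
            have h6 : (0 : ℝ) < ((j + q).choose q : ℝ) := by
              exact_mod_cast Nat.choose_pos (Nat.le_add_left q j)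
            rw [h5, ← h4, hb, mul_pow, pow_add]
            field_simp
    have h3 : Summable (fun j => wt P lam q * (b ^ j / (j ! : ℝ))) :=
      (Real.summable_pow_div_factorial b).mul_left _
    have h4 : Summable (fun j => wt P lam (j + q)) := (summable_nat_add_iff q).2 hs
    have h5 : ∑' k, wt P lam (k + q) ≤
        Real.exp (q * l - (1 - κ) * p * q ^ 2 / 2 + Real.exp K / p) * Real.exp (1 / p) := by
      calc ∑' k, wt P lam (k + q) ≤ ∑' j, wt P lam q * (b ^ j / (j ! : ℝ)) :=
            h4.tsum_le_tsum hterm h3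
        _ = wt P lam q * Real.exp b := by
            rw [tsum_mul_left, Real.exp_eq_exp_ℝ, NormedSpace.exp_eq_tsum_div]
        _ ≤ _ := by
            apply mul_le_mul (hw q le_rfl) (Real.exp_le_exp.2 hbp) (Real.exp_pos _).le
              (Real.exp_pos _).le
    refine h5.trans ?_
    rw [le_div_iff₀ (by norm_num)]
    have h6 : (4 : ℝ) ≤ Real.exp 4 := by
      have := Real.add_one_le_exp (4 : ℝ)
      linarith
    calc Real.exp (q * l - (1 - κ) * p * q ^ 2 / 2 + Real.exp K / p) * Real.exp (1 / p) * 4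
        ≤ Real.exp (q * l - (1 - κ) * p * q ^ 2 / 2 + Real.exp K / p) * Real.exp (1 / p) *
          Real.exp 4 := mul_le_mul_of_nonneg_left h6 (by positivity)
      _ ≤ B := by
          rw [← Real.exp_add, ← Real.exp_add, hB]
          apply Real.exp_le_exp.2
          -- monotonicity of the exponent beyond `(1 + 3 a) k`
          set x : ℝ := (1 + 3 * a) * k with hx
          have h7 : q * l - (1 - κ) * p * q ^ 2 / 2 ≤ x * l - (1 - κ) * p * x ^ 2 / 2 := by
            have h8 : 0 ≤ ((q : ℝ) - x) * ((1 - κ) * p * (q + x) / 2 - l) := by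
              apply mul_nonneg (by linarith)
              have h9 : l ≤ (1 - κ) * (p * x) := by
                have h10 : p * x = (1 + 3 * a) * u := by rw [hx, hu]; ring
                rw [h10]
                have h4 : 1 + a ≤ (1 - κ) * (1 + 3 * a) := by nlinarith
                calc l = (1 + a) * u := hl
                  _ ≤ ((1 - κ) * (1 + 3 * a)) * u := mul_le_mul_of_nonneg_right h4 hu0.le
                  _ = _ := by ring
              have h11 : (1 - κ) * p * (q + x) / 2 = ((1 - κ) * (p * q) + (1 - κ) * (p * x)) / 2 := by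
                ring
              rw [h11]
              linarith
            nlinarith
          have h8 : x * l - (1 - κ) * p * x ^ 2 / 2 ≤ u ^ 2 * (1 / 2 + a - a ^ 2) / p := by
            have h9 : x * l - (1 - κ) * p * x ^ 2 / 2 = u ^ 2 * ((1 + 3 * a) * (1 + a) -
                (1 - κ) * (1 + 3 * a) ^ 2 / 2) / p := by
              rw [hx, hke, hl]; field_simp
            rw [h9]
            apply div_le_div_of_nonneg_right _ hp.le
            apply mul_le_mul_of_nonneg_left _ (by positivity)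
            have h10 : (1 + 3 * a) ^ 2 ≤ 4 := by nlinarith
            nlinarith
          have h9 : (4 : ℝ) ≤ 4 / p := by rw [le_div_iff₀ hp]; linarith
          have h10 : u ^ 2 * (1 / 2 + a - a ^ 2) / p + Real.exp K / p + 1 / p + 4 / p ≤
              u ^ 2 * (1 / 2 + a + 3 * a ^ 2 / 8) / p := by
            rw [← add_div, ← add_div, ← add_div]
            apply div_le_div_of_nonneg_right _ hp.le
            have h7 : 16 * (Real.exp K + 8) * u ≤ a ^ 2 * u * u :=
              mul_le_mul_of_nonneg_right huC hu0.le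
            have h8 : Real.exp K ≤ Real.exp K * u := le_mul_of_one_le_right hE.le hu1
            nlinarith
          linarith
  have hmid : ∑ j ∈ Finset.Ico k q, wt P lam j ≤ P k * (q * Real.exp (q * l + 1 / p)) := by
    have h3 : ∀ j ∈ Finset.Ico k q, wt P lam j ≤ P k * Real.exp (q * l + 1 / p) := by
      intro j hj
      obtain ⟨hj1, hj2⟩ := Finset.mem_Ico.1 hj
      have h4 := pow_div_factorial_le (K := 0) hp hlam0 j
      rw [hlog, zero_mul, Real.exp_zero, mul_one] at h4
      unfold wt
      calc lam ^ j / (j ! : ℝ) * P j ≤ Real.exp (j * l + 1 / p) * P k :=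
            mul_le_mul h4 (hanti j k hj1) (h0 j) (Real.exp_pos _).le
        _ ≤ Real.exp (q * l + 1 / p) * P k := by
            apply mul_le_mul_of_nonneg_right _ (h0 k)
            apply Real.exp_le_exp.2
            have : (j : ℝ) ≤ q := by exact_mod_cast hj2.le
            have hl0 : 0 ≤ l := by rw [hl]; positivity
            have := mul_le_mul_of_nonneg_right this hl0
            linarith
        _ = _ := mul_comm _ _
    calc ∑ j ∈ Finset.Ico k q, wt P lam j ≤ ∑ _j ∈ Finset.Ico k q,
          P k * Real.exp (q * l + 1 / p) := Finset.sum_le_sum h3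
      _ = ((q - k : ℕ) : ℝ) * (P k * Real.exp (q * l + 1 / p)) := by simp
      _ ≤ q * (P k * Real.exp (q * l + 1 / p)) := by
          apply mul_le_mul_of_nonneg_right _ (mul_nonneg (h0 k) (Real.exp_pos _).le)
          exact_mod_cast Nat.sub_le q k
      _ = _ := by ring
  have hsplit : ZZ P lam = (∑ j ∈ Finset.range k, wt P lam j + ∑ j ∈ Finset.Ico k q, wt P lam j) +
      ∑' j, wt P lam (j + q) := by
    rw [Finset.sum_range_add_sum_Ico _ hkq]
    unfold ZZ
    rw [hs.sum_add_tsum_nat_add q]
  have h3 : B / 2 ≤ P k * (q * Real.exp (q * l + 1 / p)) := by linarith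
  have h4 : (q : ℝ) * 2 ≤ Real.exp q := by
    have h5 := Real.add_one_le_exp ((q : ℝ) - 1)
    have h6 : Real.exp q = Real.exp ((q : ℝ) - 1) * Real.exp 1 := by
      rw [← Real.exp_add]; congr 1; ring
    have h7 : (2 : ℝ) ≤ Real.exp 1 := by have := Real.add_one_le_exp (1 : ℝ); linarith
    rw [h6]
    have h8 : (q : ℝ) ≤ Real.exp ((q : ℝ) - 1) := by linarith
    exact mul_le_mul h8 h7 (by norm_num) (Real.exp_pos _).le
  have h5 : B ≤ P k * Real.exp (q + (q * l + 1 / p)) := by
    rw [Real.exp_add]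
    calc B = B / 2 * 2 := by ring
      _ ≤ (P k * (q * Real.exp (q * l + 1 / p))) * 2 := mul_le_mul_of_nonneg_right h3 (by norm_num)
      _ = P k * ((q * 2) * Real.exp (q * l + 1 / p)) := by ring
      _ ≤ P k * (Real.exp q * Real.exp (q * l + 1 / p)) := by
          apply mul_le_mul_of_nonneg_left _ (h0 k)
          exact mul_le_mul_of_nonneg_right h4 (Real.exp_pos _).le
  have h6 : B * Real.exp (-(q + (q * l + 1 / p))) ≤ P k := by
    rw [Real.exp_neg, mul_inv_le_iff₀ (Real.exp_pos _)]
    exact h5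
  refine le_trans ?_ h6
  rw [hB, ← Real.exp_add]
  apply Real.exp_le_exp.2
  have h7 : (q : ℝ) ≤ ((1 + 3 * a) * u + 1) / p := by
    refine hq2.trans ?_
    rw [hke, le_div_iff₀ hp]
    have : ((1 + 3 * a) * (u / p) + 1) * p = (1 + 3 * a) * u + p := by field_simp
    rw [this]
    linarith
  have h8 : (q : ℝ) * (1 + l) ≤ ((1 + 3 * a) * u + 1) / p * (1 + l) := by
    apply mul_le_mul_of_nonneg_right h7
    rw [hl]; positivity
  have h9 : ((1 + 3 * a) * u + 1) / p * (1 + l) + 1 / p ≤ ((1 + 4 * a + 3 * a ^ 2) * u ^ 2 +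
      5 * u) / p := by
    have h10 : ((1 + 3 * a) * u + 1) / p * (1 + l) + 1 / p =
        (((1 + 3 * a) * u + 1) * (1 + l) + 1) / p := by ring
    rw [h10]
    apply div_le_div_of_nonneg_right _ hp.le
    rw [hl]
    nlinarith
  have h10 : -((1 + 13 * a) * u ^ 2 / (2 * p)) ≤
      u ^ 2 * (1 / 2 + a + 3 * a ^ 2 / 8) / p - ((1 + 4 * a + 3 * a ^ 2) * u ^ 2 + 5 * u) / p := by
    rw [← sub_div, ← neg_div, div_le_div_iff₀ (by positivity) hp]
    have h11 : -((1 + 13 * a) * u ^ 2) ≤ (u ^ 2 * (1 / 2 + a + 3 * a ^ 2 / 8) -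
        ((1 + 4 * a + 3 * a ^ 2) * u ^ 2 + 5 * u)) * 2 := by
      have h12 : 10 * u ≤ a * u ^ 2 := by
        calc 10 * u ≤ (a * u) * u := mul_le_mul_of_nonneg_right hau hu0.le
          _ = _ := by ring
      have h13 : a ^ 2 * u ^ 2 ≤ a / 4 * u ^ 2 := by
        apply mul_le_mul_of_nonneg_right _ (by positivity)
        nlinarith
      nlinarith
    calc -((1 + 13 * a) * u ^ 2) * p ≤ _ := mul_le_mul_of_nonneg_right h11 hp.le
      _ = _ := by ring
  linarith

end Pool.Agent.Helper63.RKS
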