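import Pool.Agent.Helper49.EJ.Upper

/-!
Containers in stages: if every set of measure at least `a` contains at least the mean field number
of conflicts, then the probability `P k` that `k` independent random points have no conflict
satisfies `P k ≤ (k choose q) P q b^(k-q)`, `b = max a ((1 - (1-ε) p)^q)`.
-/

set_option autoImplicit false

open MeasureTheory Set

namespace Pool.Agent.Helper63.RKS

open Pool.Agent.Helper49.EJ

variable {X : Type*} [MeasurableSpace X] {μ : Measure X} {R : X → X → Prop}

/-- sets of measure at least `a` contain at least the proportion `p` of conflicts -/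
def Sat (μ : Measure X) (R : X → X → Prop) (p a : ℝ) : Prop :=
  ∀ A : Set X, MeasurableSet A → a ≤ μ.real A →
    p * μ.real A ^ 2 ≤ ∫ x in A, μ.real (A ∩ {z | R x z}) ∂μ

lemma step [IsProbabilityMeasure μ] (hR : MeasurableSet {p : X × X | R p.1 p.2}) {p ε a : ℝ}
    (hp0 : 0 < p) (hε0 : 0 < ε) (hε1 : ε < 1) (hpε : p ≤ ε) (ha : 0 < a) (hs : Sat μ R p a)
    (j : ℕ) (t : ℕ → X) :
    μ.real (Av μ R (j + 1) t) ≤ max a ((1 - (1 - ε) * p) * μ.real (Av μ R j t)) := by
  set A := Av μ R j t with hA
  have hAm : MeasurableSet A := measurable_Av_slice hR j t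
  have hA'm : MeasurableSet (Av μ R (j + 1) t) := measurable_Av_slice hR (j + 1) t
  have hRm : ∀ x, MeasurableSet {z | R x z} := fun x => (measurable_prodMk_left (x := x)) hR
  set δ := μ.real (A ∩ {z | R (t j) z}) with hδ
  have hA0 : 0 ≤ μ.real A := measureReal_nonneg
  by_cases hc : (1 - ε) * p * μ.real A ≤ δ
  · refine le_trans ?_ (le_max_right _ _)
    have h1 : μ.real (Av μ R (j + 1) t) ≤ μ.real (A \ {z | R (t j) z}) := by
      exact measureReal_mono (fun y hy => ⟨hy.1, hy.2.2⟩) (measure_ne_top _ _)
    have h2 : μ.real (A \ {z | R (t j) z}) + δ = μ.real A := by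
      have := measureReal_inter_add_sdiff (μ := μ) (s := A) (hRm (t j))
      linarith
    linarith
  · push Not at hc
    set L := {y | y ∈ A ∧ μ (A ∩ {z | R y z}) ≤ μ (A ∩ {z | R (t j) z})} with hL
    have hsub : Av μ R (j + 1) t ⊆ L := fun y hy => ⟨hy.1, hy.2.1⟩
    have hle : μ.real (Av μ R (j + 1) t) ≤ μ.real L := measureReal_mono hsub
    by_cases hLa : μ.real L < a
    · exact (hle.trans hLa.le).trans (le_max_left _ _)
    · push Not at hLa
      refine le_trans ?_ (le_max_right _ _)
      have hLm : MeasurableSet L := by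
        have hdeg : Measurable (fun y : X => μ (A ∩ {z | R y z})) := by
          have hS : MeasurableSet {p : X × X | p.2 ∈ A ∧ R p.1 p.2} :=
            (measurable_snd hAm).inter hR
          exact measurable_measure_prodMk_left hS
        exact hAm.inter (measurableSet_le hdeg measurable_const)
      have h1 := hs L hLm hLa
      have h2 : ∫ x in L, μ.real (L ∩ {z | R x z}) ∂μ ≤ ∫ x in L, δ ∂μ := by
        apply setIntegral_mono_on
        · apply Integrable.integrableOn
          apply Integrable.of_bound (C := 1)
          · have hS : MeasurableSet {p : X × X | p.2 ∈ L ∧ R p.1 p.2} :=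
              (measurable_snd hLm).inter hR
            exact (measurable_measure_prodMk_left hS).ennreal_toReal.aestronglyMeasurable
          · exact Filter.Eventually.of_forall fun x => by
              rw [Real.norm_eq_abs, abs_of_nonneg measureReal_nonneg]
              exact measureReal_le_one
        · exact integrableOn_const
        · exact hLm
        · intro x hx
          have h3 : μ.real (L ∩ {z | R x z}) ≤ μ.real (A ∩ {z | R x z}) := by
            exact measureReal_mono (fun y hy => ⟨hy.1.1, hy.2⟩) (measure_ne_top _ _)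
          refine h3.trans ?_
          exact ENNReal.toReal_mono (measure_ne_top _ _) hx.2
      rw [setIntegral_const, smul_eq_mul] at h2
      have hL0 : 0 < μ.real L := ha.trans_le hLa
      have h4 : p * μ.real L ^ 2 < μ.real L * ((1 - ε) * p * μ.real A) := by
        calc p * μ.real L ^ 2 ≤ μ.real L * δ := h1.trans h2
          _ < μ.real L * ((1 - ε) * p * μ.real A) := mul_lt_mul_of_pos_left hc hL0
      have h5 : μ.real L < (1 - ε) * μ.real A := by
        have h6 : μ.real L * (p * (μ.real L)) < μ.real L * (p * ((1 - ε) * μ.real A)) := by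
          nlinarith
        have h7 := lt_of_mul_lt_mul_left h6 hL0.le
        exact lt_of_mul_lt_mul_left h7 hp0.le
      have h8 : (1 - ε) * p ≤ ε := by nlinarith
      nlinarith

/-- the available sets shrink at the mean field rate -/
lemma Av_bound [IsProbabilityMeasure μ] (hR : MeasurableSet {p : X × X | R p.1 p.2}) {p ε a : ℝ}
    (hp0 : 0 < p) (hε0 : 0 < ε) (hε1 : ε < 1) (hpε : p ≤ ε) (ha : 0 < a) (hs : Sat μ R p a)
    (j : ℕ) (t : ℕ → X) :
    μ.real (Av μ R j t) ≤ max a ((1 - (1 - ε) * p) ^ j) := by
  have h0 : (0 : ℝ) ≤ 1 - (1 - ε) * p := by nlinarith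
  induction j with
  | zero => rw [pow_zero]; exact measureReal_le_one.trans (le_max_right _ _)
  | succ j ih =>
    refine (step hR hp0 hε0 hε1 hpε ha hs j t).trans (max_le (le_max_left _ _) ?_)
    refine (mul_le_mul_of_nonneg_left ih h0).trans ?_
    rw [mul_max_of_nonneg _ _ h0]
    refine max_le ?_ ?_
    · exact (mul_le_of_le_one_left ha.le (by nlinarith)).trans (le_max_left _ _)
    · rw [pow_succ']; exact le_max_right _ _

/-- the degree of `y` in the available set -/
noncomputable def key (μ : Measure X) (R : X → X → Prop) (j : ℕ) (t : ℕ → X) (y : X) : ENNReal :=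
  μ (Av μ R j t ∩ {z | R y z})

lemma key_congr {j : ℕ} {t s : ℕ → X} (h : ∀ i < j, t i = s i) (y : X) :
    key μ R j t y = key μ R j s y := by
  unfold key
  rw [Av_congr h]

/-- the points `t 0, ..., t (q-1)` come in the order of the algorithm; ties are broken by `r` -/
def Srt (μ : Measure X) (R : X → X → Prop) {k : ℕ} (q : ℕ) (t : ℕ → X) (r : ℕ → Fin k) : Prop :=
  ∀ j l, j < l → l < q → key μ R j t (t l) < key μ R j t (t j) ∨
    (key μ R j t (t l) = key μ R j t (t j) ∧ r j < r l)

/-- one selected point beats the others -/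
def Pick (μ : Measure X) (R : X → X → Prop) {k : ℕ} (j : ℕ) (τ : ℕ → Fin k) (x : Fin k → X) :
    Prop :=
  ∀ i, (∀ l ≤ j, τ l ≠ i) → key μ R j (x ∘ τ) (x i) < key μ R j (x ∘ τ) (x (τ j)) ∨
    (key μ R j (x ∘ τ) (x i) = key μ R j (x ∘ τ) (x (τ j)) ∧ τ j < i)

/-- the fingerprint of an independent tuple, with ties broken -/
lemma exists_fp {k : ℕ} (x : Fin k → X) (hx : ∀ i j, i ≠ j → ¬ R (x i) (x j)) (q : ℕ)
    (hq : q ≤ k) (hk : 0 < k) :
    ∃ τ : ℕ → Fin k, (∀ i < q, ∀ j < q, τ i = τ j → i = j) ∧ (∀ j < q, Pick μ R j τ x) ∧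
      ∀ i, (∀ l < q, τ l ≠ i) → x i ∈ Av μ R q (x ∘ τ) := by
  classical
  induction q with
  | zero => exact ⟨fun _ => ⟨0, hk⟩, by simp, by simp, fun i _ => by rw [Av_zero]; trivial⟩
  | succ q ih =>
    obtain ⟨τ, hinj, hpick, hτ⟩ := ih (by omega)
    set F : Finset (Fin k) := Finset.univ.filter fun i => ∀ l < q, τ l ≠ i with hF
    have hFne : F.Nonempty := by
      by_contra hcon
      rw [Finset.not_nonempty_iff_eq_empty] at hcon
      have h1 : (Finset.univ : Finset (Fin k)) ⊆ (Finset.range q).image τ := by
        intro i _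
        have h2 : i ∉ F := by rw [hcon]; simp
        simp only [hF, Finset.mem_filter, Finset.mem_univ, true_and, not_forall, not_not] at h2
        obtain ⟨l, hl, hl2⟩ := h2
        exact Finset.mem_image.2 ⟨l, Finset.mem_range.2 hl, hl2⟩
      have h3 := Finset.card_le_card h1
      rw [Finset.card_univ, Fintype.card_fin] at h3
      have h4 := (Finset.card_image_le (s := Finset.range q) (f := τ))
      rw [Finset.card_range] at h4
      omega
    obtain ⟨m, hmF, hm⟩ := F.exists_max_image
      (fun i => toLex (key μ R q (x ∘ τ) (x i), OrderDual.toDual i)) hFne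
    have hmF' : ∀ l < q, τ l ≠ m := by simpa [hF] using hmF
    set τ' := Function.update τ q m with hτ'
    have hlt : ∀ l < q, τ' l = τ l := fun l hl => by rw [hτ', Function.update_of_ne (by omega)]
    have hqm : τ' q = m := by rw [hτ', Function.update_self]
    have hc : ∀ j ≤ q, ∀ i < j, (x ∘ τ') i = (x ∘ τ) i := by
      intro j hj i hi
      simp only [Function.comp_apply]
      rw [hlt i (by omega)]
    refine ⟨τ', ?_, ?_, ?_⟩
    · intro i hi j hj hij
      rcases Nat.lt_succ_iff_lt_or_eq.1 hi with hi | rfl <;>
        rcases Nat.lt_succ_iff_lt_or_eq.1 hj with hj | rfl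
      · rw [hlt i hi, hlt j hj] at hij
        exact hinj i hi j hj hij
      · rw [hlt i hi, hqm] at hij
        exact absurd hij (hmF' i hi)
      · rw [hlt j hj, hqm] at hij
        exact absurd hij.symm (hmF' j hj)
      · rfl
    · intro j hj i hi
      rcases Nat.lt_succ_iff_lt_or_eq.1 hj with hj | rfl
      · rw [key_congr (hc j hj.le), key_congr (hc j hj.le), hlt j hj]
        apply hpick j hj i
        intro l hl
        rw [← hlt l (by omega)]
        exact hi l hl
      · rw [key_congr (hc j le_rfl), key_congr (hc j le_rfl), hqm]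
        have hiF : i ∈ F := by
          simp only [hF, Finset.mem_filter, Finset.mem_univ, true_and]
          intro l hl
          rw [← hlt l hl]
          exact hi l hl.le
        have him : i ≠ m := by
          intro h
          exact hi j le_rfl (by rw [hqm, h])
        have h := hm i hiF
        rw [Prod.Lex.toLex_le_toLex] at h
        rcases h with h | ⟨h1, h2⟩
        · exact Or.inl h
        · refine Or.inr ⟨h1, lt_of_le_of_ne ?_ him.symm⟩
          exact OrderDual.toDual_le_toDual.1 h2
    · intro i hi
      have hi1 : ∀ l < q, τ l ≠ i := by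
        intro l hl
        rw [← hlt l hl]
        exact hi l (by omega)
      have hi2 : m ≠ i := by
        rw [← hqm]; exact hi q (by omega)
      have hiF : i ∈ F := by simp [hF]; exact hi1
      rw [mem_Av_succ, Av_congr (hc q le_rfl)]
      simp only [Function.comp_apply, hqm]
      refine ⟨hτ i hi1, ?_, hx m i hi2⟩
      have h := hm i hiF
      rw [Prod.Lex.toLex_le_toLex] at h
      rcases h with h | ⟨h1, h2⟩
      · exact h.le
      · exact h1.le

end Pool.Agent.Helper63.RKS
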