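import Pool.Agent.Helper63.RKS.OccLoc

/-!
Graphs without large cliques in which two non-adjacent vertices have few common neighbours above
them: the average degree of every subset `X` is at most `2 C √|X|`.
-/

set_option autoImplicit false

open Finset

namespace Pool.Agent.Helper63.RKS

open Pool.Agent.Helper84.RK hiding fiber_eq num_ineq fiber_ineq

variable {ι : Type*} [DecidableEq ι] {R : ι → ι → Prop} [DecidableRel R]

/-- **Turán's inequality.** -/
lemma turan (hsym : ∀ a b, R a b → R b a) (hirr : ∀ a, ¬ R a a) (Q : ℕ) :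
    ∀ Y : Finset ι, (∀ S ⊆ Y, (∀ a ∈ S, ∀ b ∈ S, a ≠ b → R a b) → S.card ≤ Q) →
      (Q : ℝ) * ∑ a ∈ Y, ((Nb R Y a).card : ℝ) ≤ (Q - 1) * (Y.card : ℝ) ^ 2 := by
  induction Q with
  | zero =>
    intro Y hY
    have hY0 : Y = ∅ := by
      rw [Finset.eq_empty_iff_forall_notMem]
      intro a ha
      have := hY {a} (singleton_subset_iff.2 ha) (by
        intro x hx y hy hxy
        rw [mem_singleton] at hx hy
        exact absurd (hx.trans hy.symm) hxy)
      simp at this
    rw [hY0]; simp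
  | succ Q ih =>
    intro Y hY
    rcases Y.eq_empty_or_nonempty with rfl | hne
    · simp
    obtain ⟨u, hu, hmax⟩ := Y.exists_max_image (fun a => (Nb R Y a).card) hne
    set N := Nb R Y u with hN
    have hNY : N ⊆ Y := filter_subset _ _
    have hcl : ∀ S ⊆ N, (∀ a ∈ S, ∀ b ∈ S, a ≠ b → R a b) → S.card ≤ Q := by
      intro S hS hSc
      have huS : u ∉ S := fun h => hirr u (mem_Nb.1 (hS h)).2
      have h1 := hY (insert u S) (insert_subset hu (hS.trans hNY)) (by
        intro a ha b hb hab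
        rcases mem_insert.1 ha with ha1 | ha1
        · rcases mem_insert.1 hb with hb1 | hb1
          · exact absurd (ha1.trans hb1.symm) hab
          · rw [ha1]; exact (mem_Nb.1 (hS hb1)).2
        · rcases mem_insert.1 hb with hb1 | hb1
          · rw [hb1]; exact hsym _ _ (mem_Nb.1 (hS ha1)).2
          · exact hSc a ha1 b hb1 hab)
      rw [card_insert_of_notMem huS] at h1
      omega
    have hih := ih N hcl
    set D : ℝ := (N.card : ℝ) with hD
    set T := ∑ a ∈ Y, ((Nb R Y a).card : ℝ) with hT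
    set TN := ∑ a ∈ N, ((Nb R N a).card : ℝ) with hTN
    have hD0 : 0 ≤ D := Nat.cast_nonneg _
    have hdeg : ∀ a ∈ Y, ((Nb R Y a).card : ℝ) ≤ D := fun a ha => by
      rw [hD]
      exact_mod_cast hmax a ha
    -- the pairs inside and outside
    have h1 : T = ∑ a ∈ Y \ N, ((Nb R Y a).card : ℝ) + ∑ a ∈ N, ((Nb R Y a).card : ℝ) := by
      rw [hT, sum_sdiff hNY]
    have h2 : ∑ a ∈ N, ((Nb R Y a).card : ℝ) = TN + ∑ a ∈ N, ((Nb R (Y \ N) a).card : ℝ) := by
      rw [hTN, ← sum_add_distrib]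
      apply sum_congr rfl
      intro a _
      have : Nb R Y a = Nb R N a ∪ Nb R (Y \ N) a := by
        ext b
        simp only [mem_Nb, mem_union, mem_sdiff]
        constructor
        · rintro ⟨hb, hab⟩
          by_cases h : b ∈ N
          · exact Or.inl ⟨h, hab⟩
          · exact Or.inr ⟨⟨hb, h⟩, hab⟩
        · rintro (⟨hb, hab⟩ | ⟨⟨hb, _⟩, hab⟩)
          · exact ⟨hNY hb, hab⟩
          · exact ⟨hb, hab⟩
      rw [this, card_union_of_disjoint]
      · push_cast; ring
      · rw [Finset.disjoint_left]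
        intro b hb1 hb2
        exact (mem_sdiff.1 (mem_Nb.1 hb2).1).2 (mem_Nb.1 hb1).1
    have h3 : ∑ a ∈ N, ((Nb R (Y \ N) a).card : ℝ) = ∑ b ∈ Y \ N, ((Nb R N b).card : ℝ) := by
      have e1 : ∀ a, ((Nb R (Y \ N) a).card : ℝ) = ∑ b ∈ Y \ N, if R a b then (1 : ℝ) else 0 := by
        intro a
        rw [← sum_filter, sum_const, nsmul_eq_mul, mul_one]; rfl
      have e2 : ∀ b, ((Nb R N b).card : ℝ) = ∑ a ∈ N, if R a b then (1 : ℝ) else 0 := by
        intro b
        rw [← sum_filter, sum_const, nsmul_eq_mul, mul_one]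
        congr 2
        ext a
        simp only [mem_Nb, mem_filter]
        exact ⟨fun h => ⟨h.1, hsym _ _ h.2⟩, fun h => ⟨h.1, hsym _ _ h.2⟩⟩
      simp only [e1, e2]
      exact sum_comm
    have h4 : ∑ b ∈ Y \ N, ((Nb R N b).card : ℝ) ≤ ∑ b ∈ Y \ N, ((Nb R Y b).card : ℝ) := by
      apply sum_le_sum
      intro b _
      have : Nb R N b ⊆ Nb R Y b := fun c hc =>
        mem_Nb.2 ⟨hNY (mem_Nb.1 hc).1, (mem_Nb.1 hc).2⟩
      exact_mod_cast card_le_card this
    have h5 : ∑ b ∈ Y \ N, ((Nb R Y b).card : ℝ) ≤ ((Y.card : ℝ) - D) * D := by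
      calc ∑ b ∈ Y \ N, ((Nb R Y b).card : ℝ) ≤ ∑ _b ∈ Y \ N, D :=
            sum_le_sum fun b hb => hdeg b (mem_sdiff.1 hb).1
        _ = ((Y.card : ℝ) - D) * D := by
            rw [sum_const, nsmul_eq_mul, card_sdiff_of_subset hNY, Nat.cast_sub (card_le_card hNY)]
    have h6 : T ≤ TN + 2 * (((Y.card : ℝ) - D) * D) := by linarith
    rcases Nat.eq_zero_or_pos Q with hQ | hQ
    · subst hQ
      have hN0 : N.card ≤ 0 := by
        by_contra hcon
        push Not at hcon
        obtain ⟨a, ha⟩ := card_pos.1 hcon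
        have := hcl {a} (singleton_subset_iff.2 ha) (by
          intro x hx y hy hxy
          rw [mem_singleton] at hx hy
          exact absurd (hx.trans hy.symm) hxy)
        simp at this
      have hD0' : D = 0 := by
        rw [hD]; exact_mod_cast Nat.le_zero.1 hN0
      have hT0 : T ≤ 0 := by
        rw [hT]
        calc ∑ a ∈ Y, ((Nb R Y a).card : ℝ) ≤ ∑ _a ∈ Y, (0 : ℝ) :=
              sum_le_sum fun a ha => by have := hdeg a ha; linarith
          _ = 0 := by simp
      push_cast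
      linarith
    · have hQ' : (0 : ℝ) < Q := by exact_mod_cast hQ
      push_cast
      have h7 : (Q : ℝ) * T ≤ (Q - 1) * D ^ 2 + 2 * Q * (((Y.card : ℝ) - D) * D) := by
        have := mul_le_mul_of_nonneg_left h6 hQ'.le
        linarith
      have h8 : (Q : ℝ) * (((Q : ℝ) + 1) * T) ≤ Q * ((Q + 1 - 1) * (Y.card : ℝ) ^ 2) := by
        have h9 : ((Q : ℝ) + 1) * (Q * T) ≤
            (Q + 1) * ((Q - 1) * D ^ 2 + 2 * Q * (((Y.card : ℝ) - D) * D)) :=
          mul_le_mul_of_nonneg_left h7 (by linarith)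
        have h10 := sq_nonneg ((Q : ℝ) * Y.card - (Q + 1) * D)
        nlinarith
      exact le_of_mul_le_mul_left h8 hQ'

/-- **Sparse subsets.** -/
lemma sparse_abs (hsym : ∀ a b, R a b → R b a) (hirr : ∀ a, ¬ R a a) {X : Finset ι} (c : ι → ℝ)
    {Q K : ℕ} (hQ : ∀ S ⊆ X, (∀ a ∈ S, ∀ b ∈ S, a ≠ b → R a b) → S.card ≤ Q)
    (hK : ∀ a ∈ X, ∀ b ∈ X, a ≠ b → ¬ R a b →
      (X.filter (fun w => R w a ∧ R w b ∧ c a ≤ c w ∧ c b ≤ c w)).card ≤ K) :
    ∑ u ∈ X, ((Nb R X u).card : ℝ) ≤ 2 * (Q + K + 1 : ℝ) * (Real.sqrt X.card * X.card) := by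
  set I : ι → Finset ι := fun w => (Nb R X w).filter (fun u => c u ≤ c w) with hI
  have hIX : ∀ w, I w ⊆ X := fun w => (filter_subset _ _).trans (filter_subset _ _)
  have hmI : ∀ w u, u ∈ I w ↔ u ∈ X ∧ R w u ∧ c u ≤ c w := by
    intro w u
    simp only [hI, mem_filter, mem_Nb, and_assoc]
  have hX0 : (0 : ℝ) ≤ X.card := Nat.cast_nonneg _
  set E : ℝ := ∑ w ∈ X, ((I w).card : ℝ) with hE
  have hE0 : 0 ≤ E := sum_nonneg fun w _ => Nat.cast_nonneg _
  -- each edge is counted
  have h1 : ∑ u ∈ X, ((Nb R X u).card : ℝ) ≤ 2 * E := by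
    have a1 : ∀ u ∈ X, ((Nb R X u).card : ℝ) ≤ (I u).card +
        ∑ w ∈ X, (if u ∈ I w then (1 : ℝ) else 0) := by
      intro u hu
      rw [← sum_filter, sum_const, nsmul_eq_mul, mul_one, ← Nat.cast_add, Nat.cast_le]
      refine le_trans (card_le_card ?_) (card_union_le _ _)
      intro w hw
      obtain ⟨hwX, hw2⟩ := mem_Nb.1 hw
      rcases le_total (c w) (c u) with h | h
      · exact mem_union_left _ ((hmI u w).2 ⟨hwX, hw2, h⟩)
      · exact mem_union_right _ (mem_filter.2 ⟨hwX, (hmI w u).2 ⟨hu, hsym _ _ hw2, h⟩⟩)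
    have a2 : ∑ u ∈ X, ∑ w ∈ X, (if u ∈ I w then (1 : ℝ) else 0) = E := by
      rw [sum_comm, hE]
      apply sum_congr rfl
      intro w _
      rw [← sum_filter, sum_const, nsmul_eq_mul, mul_one]
      congr 2
      ext u
      simp only [mem_filter]
      exact ⟨fun h => h.2, fun h => ⟨hIX w h, h⟩⟩
    calc ∑ u ∈ X, ((Nb R X u).card : ℝ) ≤ ∑ u ∈ X, (((I u).card : ℝ) +
          ∑ w ∈ X, (if u ∈ I w then (1 : ℝ) else 0)) := sum_le_sum a1
      _ = 2 * E := by rw [sum_add_distrib, a2]; ring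
  -- Turán inside the sets `I w`
  have h2 : ∀ w ∈ X, ((I w).card : ℝ) ^ 2 ≤ Q * (((I w).card : ℝ) +
      ∑ a ∈ I w, (((I w).filter (fun b => a ≠ b ∧ ¬ R a b)).card : ℝ)) := by
    intro w hw
    have b1 := turan hsym hirr Q (I w) (fun S hS => hQ S (hS.trans (hIX w)))
    have b2 : ∑ a ∈ I w, ((Nb R (I w) a).card : ℝ) + (((I w).card : ℝ) +
        ∑ a ∈ I w, (((I w).filter (fun b => a ≠ b ∧ ¬ R a b)).card : ℝ)) =
        ((I w).card : ℝ) ^ 2 := by
      have b3 : ∀ a ∈ I w, ((Nb R (I w) a).card : ℝ) + (1 +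
          (((I w).filter (fun b => a ≠ b ∧ ¬ R a b)).card : ℝ)) = (I w).card := by
        intro a ha
        have c1 : (I w) = (Nb R (I w) a) ∪ ({a} ∪ (I w).filter (fun b => a ≠ b ∧ ¬ R a b)) := by
          ext b
          simp only [mem_union, mem_Nb, mem_singleton, mem_filter]
          constructor
          · intro hb
            by_cases hab : R a b
            · exact Or.inl ⟨hb, hab⟩
            · by_cases hba : b = a
              · exact Or.inr (Or.inl hba)
              · exact Or.inr (Or.inr ⟨hb, fun h => hba h.symm, hab⟩)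
          · rintro (h | h | h)
            · exact h.1
            · rw [h]; exact ha
            · exact h.1
        have c2 : Disjoint (Nb R (I w) a) ({a} ∪ (I w).filter (fun b => a ≠ b ∧ ¬ R a b)) := by
          rw [Finset.disjoint_left]
          intro b hb hb2
          have hab := (mem_Nb.1 hb).2
          rcases mem_union.1 hb2 with h | h
          · rw [mem_singleton] at h
            rw [h] at hab
            exact hirr a hab
          · exact (mem_filter.1 h).2.2 hab
        have c3 : Disjoint {a} ((I w).filter (fun b => a ≠ b ∧ ¬ R a b)) := by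
          rw [disjoint_singleton_left]
          intro h
          exact (mem_filter.1 h).2.1 rfl
        have c4 := congrArg Finset.card c1
        rw [card_union_of_disjoint c2, card_union_of_disjoint c3, card_singleton] at c4
        rw [c4]
        push_cast
        ring
      calc ∑ a ∈ I w, ((Nb R (I w) a).card : ℝ) + (((I w).card : ℝ) +
            ∑ a ∈ I w, (((I w).filter (fun b => a ≠ b ∧ ¬ R a b)).card : ℝ))
          = ∑ a ∈ I w, (((Nb R (I w) a).card : ℝ) + (1 +
            (((I w).filter (fun b => a ≠ b ∧ ¬ R a b)).card : ℝ))) := by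
            rw [sum_add_distrib, sum_add_distrib, sum_const, nsmul_eq_mul, mul_one]
        _ = ∑ _a ∈ I w, ((I w).card : ℝ) := sum_congr rfl b3
        _ = _ := by rw [sum_const, nsmul_eq_mul, sq]
    have b4 : (Q : ℝ) * (((I w).card : ℝ) +
        ∑ a ∈ I w, (((I w).filter (fun b => a ≠ b ∧ ¬ R a b)).card : ℝ)) =
        Q * ((I w).card : ℝ) ^ 2 - Q * ∑ a ∈ I w, ((Nb R (I w) a).card : ℝ) := by
      rw [← b2]; ring
    rw [b4]
    linarith
  -- counting the pairs
  have h3 : ∑ w ∈ X, ∑ a ∈ I w, (((I w).filter (fun b => a ≠ b ∧ ¬ R a b)).card : ℝ) ≤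
      K * (X.card : ℝ) ^ 2 := by
    have a1 : ∀ w ∈ X, ∑ a ∈ I w, (((I w).filter (fun b => a ≠ b ∧ ¬ R a b)).card : ℝ) =
        ∑ a ∈ X, ∑ b ∈ X, (if (a ≠ b ∧ ¬ R a b) ∧ a ∈ I w ∧ b ∈ I w then (1 : ℝ) else 0) := by
      intro w _
      have e1 : ∀ a, (((I w).filter (fun b => a ≠ b ∧ ¬ R a b)).card : ℝ) =
          ∑ b ∈ X, (if (a ≠ b ∧ ¬ R a b) ∧ b ∈ I w then (1 : ℝ) else 0) := by
        intro a
        rw [← sum_filter, sum_const, nsmul_eq_mul, mul_one]
        congr 2
        ext b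
        simp only [mem_filter]
        exact ⟨fun h => ⟨hIX w h.1, h.2, h.1⟩, fun h => ⟨h.2.2, h.2.1⟩⟩
      simp only [e1]
      have e2 : ∑ a ∈ I w, ∑ b ∈ X, (if (a ≠ b ∧ ¬ R a b) ∧ b ∈ I w then (1 : ℝ) else 0) =
          ∑ a ∈ X, (if a ∈ I w then
            ∑ b ∈ X, (if (a ≠ b ∧ ¬ R a b) ∧ b ∈ I w then (1 : ℝ) else 0) else 0) := by
        rw [← sum_filter]
        congr 1
        ext a
        simp only [mem_filter]
        exact ⟨fun h => ⟨hIX w h, h⟩, fun h => h.2⟩
      rw [e2]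
      apply sum_congr rfl
      intro a _
      by_cases ha : a ∈ I w
      · rw [if_pos ha]
        apply sum_congr rfl
        intro b _
        simp [ha]
      · rw [if_neg ha]
        symm
        apply sum_eq_zero
        intro b _
        rw [if_neg]
        exact fun h => ha h.2.1
    rw [sum_congr rfl a1, sum_comm]
    have a2 : ∀ a ∈ X, ∑ w ∈ X, ∑ b ∈ X,
        (if (a ≠ b ∧ ¬ R a b) ∧ a ∈ I w ∧ b ∈ I w then (1 : ℝ) else 0) ≤ K * X.card := by
      intro a ha
      rw [sum_comm]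
      calc ∑ b ∈ X, ∑ w ∈ X, (if (a ≠ b ∧ ¬ R a b) ∧ a ∈ I w ∧ b ∈ I w then (1 : ℝ) else 0)
          ≤ ∑ _b ∈ X, (K : ℝ) := by
            apply sum_le_sum
            intro b hb
            by_cases hab : a ≠ b ∧ ¬ R a b
            · rw [← sum_filter, sum_const, nsmul_eq_mul, mul_one]
              have h := hK a ha b hb hab.1 hab.2
              refine le_trans ?_ (Nat.cast_le.2 h)
              rw [Nat.cast_le]
              apply card_le_card
              intro w hw
              obtain ⟨hwX, -, h1, h2⟩ := mem_filter.1 hw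
              obtain ⟨-, h3, h4⟩ := (hmI w a).1 h1
              obtain ⟨-, h5, h6⟩ := (hmI w b).1 h2
              exact mem_filter.2 ⟨hwX, h3, h5, h4, h6⟩
            · refine le_trans (le_of_eq (sum_eq_zero ?_)) (Nat.cast_nonneg _)
              intro w _
              rw [if_neg]
              exact fun h => hab h.1
        _ = K * X.card := by rw [sum_const, nsmul_eq_mul]; ring
    calc ∑ a ∈ X, ∑ w ∈ X, ∑ b ∈ X,
          (if (a ≠ b ∧ ¬ R a b) ∧ a ∈ I w ∧ b ∈ I w then (1 : ℝ) else 0)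
        ≤ ∑ _a ∈ X, (K : ℝ) * X.card := sum_le_sum a2
      _ = K * (X.card : ℝ) ^ 2 := by rw [sum_const, nsmul_eq_mul]; ring
  have h4 : E ≤ (X.card : ℝ) ^ 2 := by
    calc E ≤ ∑ _w ∈ X, (X.card : ℝ) := by
          apply sum_le_sum
          intro w _
          exact_mod_cast card_le_card (hIX w)
      _ = (X.card : ℝ) ^ 2 := by rw [sum_const, nsmul_eq_mul, sq]
  have h5 : ∑ w ∈ X, ((I w).card : ℝ) ^ 2 ≤ Q * ((1 + K) * (X.card : ℝ) ^ 2) := by
    calc ∑ w ∈ X, ((I w).card : ℝ) ^ 2 ≤ ∑ w ∈ X, Q * (((I w).card : ℝ) +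
          ∑ a ∈ I w, (((I w).filter (fun b => a ≠ b ∧ ¬ R a b)).card : ℝ)) := sum_le_sum h2
      _ = Q * (E + ∑ w ∈ X, ∑ a ∈ I w,
          (((I w).filter (fun b => a ≠ b ∧ ¬ R a b)).card : ℝ)) := by
          rw [← mul_sum, sum_add_distrib]
      _ ≤ _ := by
          apply mul_le_mul_of_nonneg_left _ (Nat.cast_nonneg _)
          linarith
  have h6 : E ^ 2 ≤ X.card * ∑ w ∈ X, ((I w).card : ℝ) ^ 2 := by
    rw [hE]; exact sq_sum_le_card_mul_sum_sq
  have hQ0 : (0 : ℝ) ≤ Q := Nat.cast_nonneg _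
  have hK0 : (0 : ℝ) ≤ K := Nat.cast_nonneg _
  have h7 : E ≤ (Q + K + 1) * (Real.sqrt X.card * X.card) := by
    refine le_of_pow_le_pow_left₀ two_ne_zero (by positivity) ?_
    have e : ((Q + K + 1 : ℝ) * (Real.sqrt X.card * X.card)) ^ 2 =
        (Q + K + 1) ^ 2 * (X.card * (X.card : ℝ) ^ 2) := by
      rw [mul_pow, mul_pow, Real.sq_sqrt hX0]
    rw [e]
    calc E ^ 2 ≤ X.card * (Q * ((1 + K) * (X.card : ℝ) ^ 2)) :=
          h6.trans (mul_le_mul_of_nonneg_left h5 hX0)
      _ = (Q * (1 + K)) * (X.card * (X.card : ℝ) ^ 2) := by ring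
      _ ≤ (Q + K + 1) ^ 2 * (X.card * (X.card : ℝ) ^ 2) := by
          apply mul_le_mul_of_nonneg_right _ (by positivity)
          nlinarith
  linarith

end Pool.Agent.Helper63.RKS
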