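import Pool.Agent.Helper63.RKS.GoodG
import Pool.Agent.Helper63.RKS.Turan

/-!
Random points: no three points have `K` further points in the cap around their sum.  Then the
neighbourhoods are sparse: the average degree of a subset `X` of a neighbourhood is `O(√|X|)`.
-/

set_option autoImplicit false

open MeasureTheory Set Metric ProbabilityTheory
open scoped ENNReal RealInnerProductSpace
open Pool.Agent.Helper47.KP

namespace Pool.Agent.Helper63.RKS

open Pool.Agent.Helper63.RC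
open Pool.Agent.Helper84.RK hiding fiber_eq num_ineq fiber_ineq

variable {d : ℕ}

/-- `w` lies in a cap around `a + b + c` -/
def Tri (a b c w : Sph d) : Prop :=
  3 / 5 * ‖(a : EE d) + b + c‖ < ⟪(a : EE d) + b + c, (w : EE d)⟫

lemma tri_measure [NeZero d] (hd : 3 ≤ d) (a b c : Sph d) :
    sig d {w | Tri a b c w} ≤ den d (Ioi (3 / 5)) := by
  rcases eq_or_ne ‖(a : EE d) + b + c‖ 0 with h | h
  · have h0 : (a : EE d) + b + c = 0 := norm_eq_zero.1 h
    have : {w | Tri a b c w} = ∅ := by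
      ext w
      simp only [mem_ofPred_eq, mem_empty_iff_false, iff_false, Tri, h0, norm_zero, mul_zero,
        inner_zero_left, lt_irrefl, not_false_eq_true]
    rw [this, measure_empty]
    exact zero_le
  · have hn0 : 0 < ‖(a : EE d) + b + c‖ := lt_of_le_of_ne (norm_nonneg _) (Ne.symm h)
    set m : EE d := (‖(a : EE d) + b + c‖)⁻¹ • ((a : EE d) + b + c) with hm
    have hmn : ‖m‖ = 1 := by
      rw [hm, norm_smul, norm_inv, norm_norm, inv_mul_cancel₀ hn0.ne']
    set m' : Sph d := ⟨m, mem_sphere_zero_iff_norm.2 hmn⟩ with hm'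
    rw [← cap_right hd (3 / 5) m']
    apply measure_mono
    intro w hw
    show 3 / 5 < ⟪m, (w : EE d)⟫
    rw [hm, real_inner_smul_left, lt_inv_mul_iff₀ hn0]
    have h1 : 3 / 5 * ‖(a : EE d) + b + c‖ < ⟪(a : EE d) + b + c, (w : EE d)⟫ := hw
    linarith

lemma measurableSet_Tri :
    MeasurableSet {q : (Sph d × Sph d × Sph d) × Sph d | Tri q.1.1 q.1.2.1 q.1.2.2 q.2} := by
  have hs : Continuous (fun q : (Sph d × Sph d × Sph d) × Sph d =>
      (q.1.1 : EE d) + q.1.2.1 + q.1.2.2) := by fun_prop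
  exact (isOpen_lt (continuous_const.mul hs.norm)
    (hs.inner (continuous_subtype_val.comp continuous_snd))).measurableSet

/-- `K` points in the cap around the sum of three points -/
lemma tri_tuple [NeZero d] (hd : 3 ≤ d) {n K : ℕ} (e : Fin 3 ⊕ Fin K → Fin n)
    (he : Function.Injective e) :
    (Measure.pi fun _ : Fin n => sig d) {x | ∀ k : Fin K,
      Tri (x (e (Sum.inl 0))) (x (e (Sum.inl 1))) (x (e (Sum.inl 2))) (x (e (Sum.inr k)))} ≤
        (den d (Ioi (3 / 5))) ^ K := by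
  set E : Set ((Fin 3 → Sph d) × (Fin K → Sph d)) :=
    {w | ∀ k, Tri (w.1 0) (w.1 1) (w.1 2) (w.2 k)} with hE
  have hEm : MeasurableSet E := by
    have : E = ⋂ k : Fin K, {w : (Fin 3 → Sph d) × (Fin K → Sph d) |
        Tri (w.1 0) (w.1 1) (w.1 2) (w.2 k)} := by
      ext w; simp [hE]
    rw [this]
    refine MeasurableSet.iInter fun k => ?_
    exact (show Measurable (fun w : (Fin 3 → Sph d) × (Fin K → Sph d) =>
      ((w.1 0, w.1 1, w.1 2), w.2 k)) by fun_prop) measurableSet_Tri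
  have h1 := measurePreserving_comp' (sig d) e he
  have h2 := measurePreserving_sumPiEquivProdPi (fun _ : Fin 3 ⊕ Fin K => sig d)
  have h3 := h2.comp h1
  have e1 : {x : Fin n → Sph d | ∀ k : Fin K,
      Tri (x (e (Sum.inl 0))) (x (e (Sum.inl 1))) (x (e (Sum.inl 2))) (x (e (Sum.inr k)))} =
      ((MeasurableEquiv.sumPiEquivProdPi fun _ : Fin 3 ⊕ Fin K => Sph d) ∘
        fun x : Fin n → Sph d => x ∘ e) ⁻¹' E := rfl
  rw [e1, h3.measure_preimage hEm.nullMeasurableSet, Measure.prod_apply hEm]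
  have h4 : ∀ u : Fin 3 → Sph d, (Measure.pi fun _ : Fin K => sig d) (Prod.mk u ⁻¹' E) ≤
      (den d (Ioi (3 / 5))) ^ K := by
    intro u
    have e2 : Prod.mk u ⁻¹' E =
        Set.pi univ (fun _ : Fin K => {w | Tri (u 0) (u 1) (u 2) w}) := by
      ext v
      simp [hE]
    rw [e2, Measure.pi_pi, Finset.prod_const, Finset.card_univ, Fintype.card_fin]
    gcongr
    exact tri_measure hd _ _ _
  calc ∫⁻ u, (Measure.pi fun _ : Fin K => sig d) (Prod.mk u ⁻¹' E)
        ∂(Measure.pi fun _ : Fin 3 => sig d)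
      ≤ ∫⁻ _, (den d (Ioi (3 / 5))) ^ K ∂(Measure.pi fun _ : Fin 3 => sig d) :=
        lintegral_mono h4
    _ = (den d (Ioi (3 / 5))) ^ K := by rw [lintegral_const, measure_univ, mul_one]

/-- there are `K` points in the cap around the sum of three points -/
def TriBad {d n : ℕ} (K : ℕ) : Set (Fin n → Sph d) :=
  ⋃ e : Fin 3 ⊕ Fin K ↪ Fin n, {x | ∀ k : Fin K,
    Tri (x (e (Sum.inl 0))) (x (e (Sum.inl 1))) (x (e (Sum.inl 2))) (x (e (Sum.inr k)))}

lemma TriBad_le [NeZero d] (hd : 3 ≤ d) {n K : ℕ} :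
    (Measure.pi fun _ : Fin n => sig d).real (TriBad (d := d) (n := n) K) ≤
      (n : ℝ) ^ (K + 3) * (den d).real (Ioi (3 / 5)) ^ K := by
  have hfin : den d (Ioi (3 / 5)) ≠ ∞ := measure_ne_top _ _
  have h1 : (Measure.pi fun _ : Fin n => sig d) (TriBad (d := d) (n := n) K) ≤
      (n : ENNReal) ^ (K + 3) * (den d (Ioi (3 / 5))) ^ K := by
    calc (Measure.pi fun _ : Fin n => sig d) (TriBad (d := d) (n := n) K)
        ≤ ∑ e : Fin 3 ⊕ Fin K ↪ Fin n, (Measure.pi fun _ : Fin n => sig d) {x | ∀ k : Fin K,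
            Tri (x (e (Sum.inl 0))) (x (e (Sum.inl 1))) (x (e (Sum.inl 2)))
              (x (e (Sum.inr k)))} :=
          measure_iUnion_fintype_le _ _
      _ ≤ ∑ _e : Fin 3 ⊕ Fin K ↪ Fin n, (den d (Ioi (3 / 5))) ^ K :=
          Finset.sum_le_sum fun e _ => tri_tuple hd e e.injective
      _ = (Fintype.card (Fin 3 ⊕ Fin K ↪ Fin n) : ENNReal) * (den d (Ioi (3 / 5))) ^ K := by
          rw [Finset.sum_const, Finset.card_univ, nsmul_eq_mul]
      _ ≤ (n : ENNReal) ^ (K + 3) * (den d (Ioi (3 / 5))) ^ K := by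
          gcongr
          have h2 : Fintype.card (Fin 3 ⊕ Fin K ↪ Fin n) ≤
              Fintype.card (Fin 3 ⊕ Fin K → Fin n) :=
            Fintype.card_le_of_injective (fun e => (e : Fin 3 ⊕ Fin K → Fin n))
              DFunLike.coe_injective
          rw [Fintype.card_fun, Fintype.card_sum, Fintype.card_fin, Fintype.card_fin,
            Fintype.card_fin, add_comm 3 K] at h2
          exact_mod_cast h2
  have h3 := ENNReal.toReal_mono (ENNReal.mul_ne_top (ENNReal.pow_ne_top (ENNReal.natCast_ne_top n))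
    (ENNReal.pow_ne_top hfin)) h1
  rw [ENNReal.toReal_mul, ENNReal.toReal_pow, ENNReal.toReal_pow, ENNReal.toReal_natCast] at h3
  exact h3

open Classical in
/-- few points in the cap -/
lemma tri_card {n K : ℕ} {x : Fin n → Sph d} (hx : x ∉ TriBad (d := d) (n := n) K)
    {a b c : Fin n} (hab : a ≠ b) (hac : a ≠ c) (hbc : b ≠ c) :
    (Finset.univ.filter fun w : Fin n => w ≠ a ∧ w ≠ b ∧ w ≠ c ∧
      Tri (x a) (x b) (x c) (x w)).card ≤ K := by
  set L := Finset.univ.filter fun w : Fin n => w ≠ a ∧ w ≠ b ∧ w ≠ c ∧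
    Tri (x a) (x b) (x c) (x w) with hL
  by_contra hcon
  push Not at hcon
  obtain ⟨S, hS, hSc⟩ := Finset.exists_subset_card_eq hcon.le
  have hSL : ∀ w ∈ S, w ≠ a ∧ w ≠ b ∧ w ≠ c ∧ Tri (x a) (x b) (x c) (x w) := fun w hw =>
    (Finset.mem_filter.1 (hS hw)).2
  let g := S.orderEmbOfFin hSc
  have hg : ∀ k, g k ∈ S := fun k => Finset.orderEmbOfFin_mem S hSc k
  let t : Fin 3 → Fin n := ![a, b, c]
  have ht : Function.Injective t := by
    intro i j hij
    fin_cases i <;> fin_cases j <;> simp_all [t]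
  have htg : ∀ i k, t i ≠ g k := by
    intro i k h
    have h1 := hSL _ (hg k)
    rw [← h] at h1
    fin_cases i
    · exact h1.1 rfl
    · exact h1.2.1 rfl
    · exact h1.2.2.1 rfl
  let f : Fin 3 ⊕ Fin K → Fin n := Sum.elim t (fun k => g k)
  have hf : Function.Injective f := by
    intro u v huv
    rcases u with u | u <;> rcases v with v | v
    · simp only [f, Sum.elim_inl] at huv
      rw [ht huv]
    · simp only [f, Sum.elim_inl, Sum.elim_inr] at huv
      exact absurd huv (htg u v)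
    · simp only [f, Sum.elim_inl, Sum.elim_inr] at huv
      exact absurd huv.symm (htg v u)
    · simp only [f, Sum.elim_inr] at huv
      rw [g.injective huv]
  apply hx
  refine mem_iUnion.2 ⟨⟨f, hf⟩, fun k => ?_⟩
  exact (hSL _ (hg k)).2.2.2

lemma norm_sum3 (a b c : Sph d) : ‖(a : EE d) + b + c‖ ^ 2 =
    3 + 2 * (⟪(a : EE d), (b : EE d)⟫ + ⟪(a : EE d), (c : EE d)⟫ + ⟪(b : EE d), (c : EE d)⟫) := by
  rw [norm_add_sq_real, norm_add_sq_real, norm_S a, norm_S b, norm_S c, inner_add_left]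
  ring

/-- two non-adjacent points and a common neighbour above them -/
lemma tri_of_le {v a b w : Sph d} (h1 : 1 / 2 < ⟪(v : EE d), (w : EE d)⟫)
    (h2 : 1 / 2 < ⟪(w : EE d), (a : EE d)⟫) (h3 : 1 / 2 < ⟪(w : EE d), (b : EE d)⟫)
    (h4 : ⟪(v : EE d), (a : EE d)⟫ ≤ ⟪(v : EE d), (w : EE d)⟫)
    (h5 : ⟪(v : EE d), (b : EE d)⟫ ≤ ⟪(v : EE d), (w : EE d)⟫)
    (h6 : ⟪(a : EE d), (b : EE d)⟫ ≤ 1 / 2) : Tri v a b w := by
  unfold Tri
  have hn := norm_sum3 v a b
  have e : ⟪(v : EE d) + a + b, (w : EE d)⟫ = ⟪(v : EE d), (w : EE d)⟫ +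
      ⟪(w : EE d), (a : EE d)⟫ + ⟪(w : EE d), (b : EE d)⟫ := by
    rw [inner_add_left, inner_add_left, real_inner_comm (w : EE d) (a : EE d),
      real_inner_comm (w : EE d) (b : EE d)]
  rw [e]
  set c := ⟪(v : EE d), (w : EE d)⟫
  have h7 : 3 / 5 * ‖(v : EE d) + a + b‖ ≤ c + 1 := by
    apply le_of_sq_le_sq _ (by linarith)
    rw [mul_pow, hn]
    nlinarith
  linarith

open Classical in
/-- there are no large cliques -/
lemma clique_card {n K : ℕ} {x : Fin n → Sph d} (hx : x ∉ TriBad (d := d) (n := n) K)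
    {S : Finset (Fin n)} (hS : ∀ a ∈ S, ∀ b ∈ S, a ≠ b → Ad x a b) : S.card ≤ K + 3 := by
  by_contra hcon
  push Not at hcon
  set g : Fin n → Fin n → ℝ := fun a b => ⟪(x a : EE d), (x b : EE d)⟫ with hg
  have hsym : ∀ a b, g a b = g b a := fun a b => real_inner_comm _ _
  -- the triple with the smallest sum
  set T : Finset (Fin n × Fin n × Fin n) := (S ×ˢ S ×ˢ S).filter
    (fun t => t.1 ≠ t.2.1 ∧ t.1 ≠ t.2.2 ∧ t.2.1 ≠ t.2.2) with hT
  have hTne : T.Nonempty := by
    obtain ⟨a, ha, b, hb, c, hc, hab, hac, hbc⟩ := Finset.two_lt_card.1 (by omega : 2 < S.card)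
    exact ⟨(a, b, c), Finset.mem_filter.2 ⟨Finset.mem_product.2 ⟨ha, Finset.mem_product.2
      ⟨hb, hc⟩⟩, hab, hac, hbc⟩⟩
  obtain ⟨⟨a, b, c⟩, ht, hmin⟩ := T.exists_min_image
    (fun t => g t.1 t.2.1 + g t.1 t.2.2 + g t.2.1 t.2.2) hTne
  obtain ⟨ht1, hab, hac, hbc⟩ := Finset.mem_filter.1 ht
  obtain ⟨ha, ht2⟩ := Finset.mem_product.1 ht1
  obtain ⟨hb, hc⟩ := Finset.mem_product.1 ht2
  simp only at hab hac hbc ha hb hc hmin
  have hmin' : ∀ p ∈ S, ∀ q ∈ S, ∀ r ∈ S, p ≠ q → p ≠ r → q ≠ r →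
      g a b + g a c + g b c ≤ g p q + g p r + g q r := by
    intro p hp q hq r hr hpq hpr hqr
    exact hmin (p, q, r) (Finset.mem_filter.2 ⟨Finset.mem_product.2 ⟨hp, Finset.mem_product.2
      ⟨hq, hr⟩⟩, hpq, hpr, hqr⟩)
  have h1 := tri_card hx hab hac hbc
  have hsub : ((S.erase a).erase b).erase c ⊆ Finset.univ.filter fun w : Fin n => w ≠ a ∧ w ≠ b ∧
      w ≠ c ∧ Tri (x a) (x b) (x c) (x w) := by
    intro w hw
    obtain ⟨hwc, hw⟩ := Finset.mem_erase.1 hw
    obtain ⟨hwb, hw⟩ := Finset.mem_erase.1 hw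
    obtain ⟨hwa, hwS⟩ := Finset.mem_erase.1 hw
    refine Finset.mem_filter.2 ⟨Finset.mem_univ _, hwa, hwb, hwc, ?_⟩
    have k1 := hmin' w hwS b hb c hc hwb hwc hbc
    have k2 := hmin' a ha w hwS c hc (Ne.symm hwa) hac hwc
    have k3 := hmin' a ha b hb w hwS hab (Ne.symm hwa) (Ne.symm hwb)
    have a1 : 1 / 2 < g a b := (hS a ha b hb hab).2
    have a2 : 1 / 2 < g a c := (hS a ha c hc hac).2
    have a3 : 1 / 2 < g b c := (hS b hb c hc hbc).2
    rw [hsym w b, hsym w c] at k1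
    rw [hsym w c] at k2
    unfold Tri
    have hn := norm_sum3 (x a) (x b) (x c)
    have e : ⟪(x a : EE d) + x b + x c, (x w : EE d)⟫ = g a w + g b w + g c w := by
      rw [inner_add_left, inner_add_left]
    rw [e]
    set σ := g a b + g a c + g b c with hσ
    have hn' : ‖(x a : EE d) + x b + x c‖ ^ 2 = 3 + 2 * σ := hn
    have h4 : σ ≤ g a w + g b w + g c w := by linarith
    have h5 : 3 / 5 * ‖(x a : EE d) + x b + x c‖ < σ := by
      apply lt_of_pow_lt_pow_left₀ 2 (by linarith)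
      rw [mul_pow, hn']
      nlinarith
    linarith
  have h2 := Finset.card_le_card hsub
  have h3 : S.card ≤ (((S.erase a).erase b).erase c).card + 3 := by
    have e1 := Finset.card_erase_add_one ha
    have e2 : (S.erase a).card ≤ ((S.erase a).erase b).card + 1 := by
      have := Finset.pred_card_le_card_erase (s := S.erase a) (a := b)
      omega
    have e3 : ((S.erase a).erase b).card ≤ (((S.erase a).erase b).erase c).card + 1 := by
      have := Finset.pred_card_le_card_erase (s := (S.erase a).erase b) (a := c)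
      omega
    omega
  omega

open Classical in
/-- **Sparse neighbourhoods.** -/
lemma sparse3 {n K : ℕ} {x : Fin n → Sph d} (hx : x ∉ TriBad (d := d) (n := n) K)
    {M : Finset (Fin n)} {v : Fin n} {X : Finset (Fin n)} (hX : X ⊆ Nb (Ad x) M v) :
    ∑ u ∈ X, ((Nb (Ad x) X u).card : ℝ) ≤ 2 * (2 * K + 4 : ℝ) *
      (Real.sqrt X.card * X.card) := by
  have hcomm : ∀ a b, Ad x a b → Ad x b a := fun a b h => ⟨h.1.symm, by
    rw [real_inner_comm]; exact h.2⟩
  have h := sparse_abs (R := Ad x) hcomm (fun a h => h.1 rfl) (X := X)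
    (fun u => ⟪(x v : EE d), (x u : EE d)⟫) (Q := K + 3) (K := K)
    (fun S hS hSc => clique_card hx hSc) (fun a ha b hb hab hR => by
      have hva := (mem_Nb.1 (hX ha)).2
      have hvb := (mem_Nb.1 (hX hb)).2
      refine le_trans (Finset.card_le_card ?_) (tri_card hx hva.1 hvb.1 hab)
      intro w hw
      obtain ⟨hwX, hwa, hwb, hca, hcb⟩ := Finset.mem_filter.1 hw
      have hvw := (mem_Nb.1 (hX hwX)).2
      refine Finset.mem_filter.2 ⟨Finset.mem_univ _, hvw.1.symm, hwa.1, hwb.1, ?_⟩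
      refine tri_of_le hvw.2 hwa.2 hwb.2 hca hcb ?_
      by_contra hcon
      push Not at hcon
      exact hR ⟨hab, hcon⟩)
  refine h.trans (le_of_eq ?_)
  push_cast
  ring

open Classical in
/-- the good sets of points -/
def Good3 {d n : ℕ} (x : Fin n → Sph d) (ε V : ℝ) (K : ℕ) (M : Finset (Fin n)) : Prop :=
  (1 - ε) * n ≤ M.card ∧ (∀ v ∈ M, ((Nb (Ad x) M v).card : ℝ) ≤ (1 + ε) * n * V) ∧
    ∀ v ∈ M, ∀ X ⊆ Nb (Ad x) M v,
      ∑ u ∈ X, ((Nb (Ad x) X u).card : ℝ) ≤ 2 * (2 * K + 4 : ℝ) * (Real.sqrt X.card * X.card)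

open Classical in
/-- **Random points are good.** -/
theorem good3_prob [NeZero d] (hd : 3 ≤ d) {n : ℕ} (hn : 1 ≤ n) {V : ℝ}
    (hV : V = (den d).real (Ioi (1 / 2))) (hV0 : 0 < V) {ε : ℝ} (hε : 0 < ε) (K : ℕ) :
    (Measure.pi fun _ : Fin n => sig d).real {x | ¬ ∃ M : Finset (Fin n), Good3 x ε V K M} ≤
      1 / (ε ^ 3 * n * V) + (n : ℝ) ^ (K + 3) * (den d).real (Ioi (3 / 5)) ^ K := by
  set μ := Measure.pi fun _ : Fin n => sig d with hμ
  have hsub : {x : Fin n → Sph d | ¬ ∃ M : Finset (Fin n), Good3 x ε V K M} ⊆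
      {x | ε * n ≤ ((Finset.univ.filter fun i => (1 + ε) * n * V < deg d i x).card : ℝ)} ∪
        TriBad (d := d) (n := n) K := by
    intro x hx
    by_contra hcon
    rw [mem_union, not_or] at hcon
    obtain ⟨h1, h2⟩ := hcon
    apply hx
    simp only [mem_ofPred_eq, not_le] at h1
    set M := Finset.univ.filter fun i : Fin n => ¬ (1 + ε) * n * V < deg d i x with hM
    refine ⟨M, ?_, ?_, ?_⟩
    · have h3 := Finset.card_filter_add_card_filter_not (s := (Finset.univ : Finset (Fin n)))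
        (fun i => (1 + ε) * n * V < deg d i x)
      rw [Finset.card_univ, Fintype.card_fin, ← hM] at h3
      have h4 : (((Finset.univ.filter fun i : Fin n => (1 + ε) * n * V < deg d i x).card : ℝ) +
        M.card) = n := by exact_mod_cast h3
      linarith
    · intro v hv
      have h3 := not_lt.1 (Finset.mem_filter.1 hv).2
      refine le_trans ?_ h3
      rw [deg_eq]
      have h4 : (Nb (Ad x) M v).card ≤ ((Finset.univ.erase v).filter
          fun j => 1 / 2 < ⟪(x v : EE d), (x j : EE d)⟫).card := by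
        apply Finset.card_le_card
        intro w hw
        obtain ⟨-, hw2⟩ := mem_Nb.1 hw
        rw [Finset.mem_filter, Finset.mem_erase]
        exact ⟨⟨hw2.1.symm, Finset.mem_univ _⟩, hw2.2⟩
      exact_mod_cast h4
    · intro v _ X hX
      exact sparse3 h2 hX
  calc μ.real {x : Fin n → Sph d | ¬ ∃ M : Finset (Fin n), Good3 x ε V K M}
      ≤ μ.real ({x | ε * n ≤
          ((Finset.univ.filter fun i => (1 + ε) * n * V < deg d i x).card : ℝ)} ∪
          TriBad (d := d) (n := n) K) := measureReal_mono hsub (measure_ne_top _ _)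
    _ ≤ _ := measureReal_union_le _ _
    _ ≤ _ := add_le_add (many_low hd hn hV hV0 hε) (TriBad_le hd)

end Pool.Agent.Helper63.RKS
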