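import Pool.Agent.Helper63.RKS.LowSph

/-!
The partition function of the hard-core model from below.
-/

set_option autoImplicit false

open MeasureTheory Set Metric ProbabilityTheory Filter Topology
open scoped ENNReal RealInnerProductSpace Nat
open Pool.Agent.Helper47.KP

namespace Pool.Agent.Helper63.RKS

open Pool.Agent.Helper84.RK Pool.Agent.Helper49.EJ

variable {d : ℕ}

lemma measurableSet_KisS {n : ℕ} (W : Finset (Fin n)) :
    MeasurableSet {x : Fin n → Sph d | Pool.Agent.Helper84.RK.Kis x W} := by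
  have : {x : Fin n → Sph d | Pool.Agent.Helper84.RK.Kis x W} = ⋂ i ∈ W, ⋂ j ∈ W,
      {x : Fin n → Sph d | i ≠ j → ⟪(x i : EE d), (x j : EE d)⟫ ≤ 1 / 2} := by
    ext x
    simp [Pool.Agent.Helper84.RK.Kis]
  rw [this]
  refine Finset.measurableSet_biInter _ fun i _ => Finset.measurableSet_biInter _ fun j _ => ?_
  by_cases hij : i = j
  · subst hij
    simp
  · have e : {x : Fin n → Sph d | i ≠ j → ⟪(x i : EE d), (x j : EE d)⟫ ≤ 1 / 2} =
        {x : Fin n → Sph d | ⟪(x i : EE d), (x j : EE d)⟫ ≤ 1 / 2} := by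
      ext x; simp [hij]
    rw [e]
    have hc : Continuous (fun x : Fin n → Sph d => ⟪(x i : EE d), (x j : EE d)⟫) :=
      (continuous_subtype_val.comp (continuous_apply i)).inner
        (continuous_subtype_val.comp (continuous_apply j))
    exact (isClosed_Iic.preimage hc).measurableSet

lemma real_Kis [NeZero d] {n : ℕ} (W : Finset (Fin n)) :
    (Measure.pi fun _ : Fin n => sig d).real {x | Pool.Agent.Helper84.RK.Kis x W} =
      kp d W.card := by
  have hmp := measurePreserving_comp' (sig d) (W.orderEmbOfFin rfl) (W.orderEmbOfFin rfl).injective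
  have e : {x : Fin n → Sph d | Pool.Agent.Helper84.RK.Kis x W} =
      (fun x : Fin n → Sph d => x ∘ W.orderEmbOfFin rfl) ⁻¹' Kiss d W.card := by
    ext x
    constructor
    · intro h i j hij
      exact h _ (W.orderEmbOfFin_mem rfl i) _ (W.orderEmbOfFin_mem rfl j)
        (fun h' => hij ((W.orderEmbOfFin rfl).injective h'))
    · intro h i hi j hj hij
      have hi' : i ∈ Set.range (W.orderEmbOfFin rfl) := by
        rw [Finset.range_orderEmbOfFin]; exact hi
      have hj' : j ∈ Set.range (W.orderEmbOfFin rfl) := by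
        rw [Finset.range_orderEmbOfFin]; exact hj
      obtain ⟨a, rfl⟩ := hi'
      obtain ⟨b, rfl⟩ := hj'
      exact h a b (fun h' => hij (by rw [h']))
  rw [e]
  unfold kp Measure.real
  rw [hmp.measure_preimage (measurableSet_Kiss d _).nullMeasurableSet]

open Classical in
lemma Zf_univ {n : ℕ} (x : Fin n → Sph d) (lam : ℝ) : Zf (Ad x) Finset.univ lam =
    ∑ W : Finset (Fin n), {x : Fin n → Sph d | Pool.Agent.Helper84.RK.Kis x W}.indicator
      (fun _ => lam ^ W.card) x := by
  unfold Zf Ind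
  rw [Finset.sum_filter, Finset.powerset_univ]
  apply Finset.sum_congr rfl
  intro W _
  have h : (∀ a ∈ W, ∀ b ∈ W, ¬ Ad x a b) ↔ Pool.Agent.Helper84.RK.Kis x W := by
    constructor
    · intro h i hi j hj hij
      by_contra hcon
      exact h i hi j hj ⟨hij, not_le.1 hcon⟩
    · intro h a ha b hb hab
      exact absurd hab.2 (not_lt.2 (h a ha b hb hab.1))
  by_cases hk : Pool.Agent.Helper84.RK.Kis x W
  · rw [if_pos (h.2 hk), indicator_of_mem (show x ∈ {x : Fin n → Sph d |
      Pool.Agent.Helper84.RK.Kis x W} from hk)]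
  · rw [if_neg (fun h' => hk (h.1 h')), indicator_of_notMem (show x ∉ {x : Fin n → Sph d |
      Pool.Agent.Helper84.RK.Kis x W} from hk)]

open Classical in
/-- the mean of the partition function of the random graph -/
lemma integral_Zf [NeZero d] {n : ℕ} {lam : ℝ} (hl : 0 ≤ lam) :
    Integrable (fun x : Fin n → Sph d => Zf (Ad x) Finset.univ lam)
      (Measure.pi fun _ : Fin n => sig d) ∧
    ∫ x, Zf (Ad x) Finset.univ lam ∂(Measure.pi fun _ : Fin n => sig d) ≤
      ZZ (kp d) (n * lam) := by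
  set μ := Measure.pi fun _ : Fin n => sig d with hμ
  have hi : ∀ W : Finset (Fin n), Integrable ({x : Fin n → Sph d |
      Pool.Agent.Helper84.RK.Kis x W}.indicator (fun _ => lam ^ W.card)) μ := fun W =>
    (integrable_const _).indicator (measurableSet_KisS W)
  have e : (fun x : Fin n → Sph d => Zf (Ad x) Finset.univ lam) = fun x =>
      ∑ W : Finset (Fin n), {x : Fin n → Sph d | Pool.Agent.Helper84.RK.Kis x W}.indicator
        (fun _ => lam ^ W.card) x := by
    funext x
    exact Zf_univ x lam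
  rw [e]
  refine ⟨integrable_finsetSum _ fun W _ => hi W, ?_⟩
  rw [integral_finsetSum _ fun W _ => hi W]
  have h1 : ∀ W : Finset (Fin n), ∫ x, {x : Fin n → Sph d |
      Pool.Agent.Helper84.RK.Kis x W}.indicator (fun _ => lam ^ W.card) x ∂μ =
      kp d W.card * lam ^ W.card := by
    intro W
    rw [integral_indicator_const _ (measurableSet_KisS W), real_Kis, smul_eq_mul]
  simp only [h1]
  have h2 : ∑ W ∈ (Finset.univ : Finset (Fin n)).powerset, kp d W.card * lam ^ W.card = _ :=
    Finset.sum_powerset_apply_card (fun k => kp d k * lam ^ k)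
  rw [Finset.powerset_univ, Finset.card_univ, Fintype.card_fin] at h2
  rw [h2]
  have hnl : 0 ≤ n * lam := by positivity
  calc ∑ m ∈ Finset.range (n + 1), n.choose m • (kp d m * lam ^ m)
      ≤ ∑ m ∈ Finset.range (n + 1), wt (kp d) (n * lam) m := by
        apply Finset.sum_le_sum
        intro m _
        have h3 : (n.choose m : ℝ) ≤ (n : ℝ) ^ m / (m ! : ℝ) := Nat.choose_le_pow_div m n
        unfold Pool.Agent.Helper49.EJ.wt
        rw [nsmul_eq_mul, mul_pow]
        calc (n.choose m : ℝ) * (kp d m * lam ^ m) ≤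
            (n : ℝ) ^ m / (m ! : ℝ) * (kp d m * lam ^ m) :=
              mul_le_mul_of_nonneg_right h3 (mul_nonneg (kp_nonneg d m) (by positivity))
          _ = _ := by ring
    _ ≤ ZZ (kp d) (n * lam) :=
        (summable_wt (kp_nonneg d) (kp_le_one d) hnl).sum_le_tsum _
          fun i _ => wt_nonneg (kp_nonneg d) hnl i

open Classical in
/-- **The partition function from below.** -/
theorem Z_lower {s₁ s₂ : ℝ} (h1 : Real.logb 2 (2 / Real.sqrt 3) < s₁) (h2 : s₂ < sT)
    (h12 : s₁ ≤ s₂) {ε : ℝ} (hε : 0 < ε) (hε1 : ε < 1) :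
    ∀ᶠ d : ℕ in atTop, 4 ≤ d ∧ ∀ lam : ℝ, (2 : ℝ) ^ (s₁ * d) ≤ lam → lam ≤ 2 ^ (s₂ * d) →
      (1 - ε) * Real.log (lam * pc d) ^ 2 / (2 * pc d) ≤ Real.log (ZZ (kp d) lam) := by
  set e : ℝ := ε / 10 with he
  have he0 : 0 < e := by rw [he]; positivity
  have he1 : e < 1 / 10 := by rw [he]; linarith
  -- the number of candidates
  set s₄ : ℝ := (s₂ + sT) / 2 with hs4
  have h24 : s₂ < s₄ := by rw [hs4]; linarith
  have h43 : s₄ < sT := by rw [hs4]; linarith
  set s₅ : ℝ := (s₄ + sT) / 2 with hs5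
  have h45 : s₄ < s₅ := by rw [hs5]; linarith
  have h53 : s₅ < sT := by rw [hs5]; linarith
  obtain ⟨K, δ, hδ, hgood⟩ := good_small (s₁ := s₄) (s₂ := s₅) (h1.trans (by linarith)) h53 he0
  obtain ⟨c, hc, hcev⟩ := log_np h1
  have hK0 : (0 : ℝ) ≤ K := Nat.cast_nonneg K
  set B : ℝ := 2 * K + 4 with hB
  have hB0 : 0 < B := by rw [hB]; positivity
  set c₂ : ℝ := min (e / 2) ((e / (4 * B)) ^ 2) with hc2
  have hc20 : 0 < c₂ := by rw [hc2]; exact lt_min (by positivity) (by positivity)
  have hc2a : c₂ ≤ e / 2 := min_le_left _ _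
  have hc2b : c₂ ≤ (e / (4 * B)) ^ 2 := min_le_right _ _
  set C : ℝ := Real.log (e / 2) with hC
  have hl2 : 0 < Real.log 2 := Real.log_pos (by norm_num)
  have hev : ∀ᶠ d : ℕ in atTop, (|C| + 2) / e ≤ c * Real.log 2 * d := by
    have := (tendsto_natCast_atTop_atTop (R := ℝ)).const_mul_atTop (mul_pos hc hl2)
    exact this.eventually_ge_atTop _
  have hev2 := const_le_rpow (C := 1 / c₂) (η := (s₄ - s₂) / 2) (by linarith)
  have hev6 := lin_le_rpow |s₂| (η := (s₄ - s₂) / 2) (by linarith)
  have hev3 := const_le_rpow (C := Real.exp 1) (η := s₄ - s₂) (by linarith)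
  have hev4 := const_le_rpow (C := 2) (η := s₅ - s₄) (by linarith)
  have hev5 := const_le_rpow (C := 2) (η := δ) hδ
  have hs40 : 0 < s₄ := lt_trans W_pos (h1.trans (by linarith))
  filter_upwards [hgood, hcev, hev, hev2, hev3, hev4, hev5, hev6]
    with d hg hnp hbig hb2 hb3 hb4 hb5 hb6
  obtain ⟨hd4, hg⟩ := hg
  refine ⟨hd4, fun lam hlam1 hlam2 => ?_⟩
  have : NeZero d := ⟨by omega⟩
  have hp := pc_pos hd4
  have hlam0 : 0 < lam := lt_of_lt_of_le (by positivity) hlam1
  obtain ⟨-, hlog⟩ := hnp lam hlam1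
  set p := pc d with hpd
  set L := Real.log (lam * p) with hL
  have hLe : |C| + 2 ≤ e * L := by
    have h3 := hbig.trans hlog
    rw [div_le_iff₀ he0] at h3
    linarith
  have hL0 : 0 < L := by
    have : 0 < e * L := by have := abs_nonneg C; linarith
    exact (mul_pos_iff_of_pos_left he0).1 this
  -- the number of candidates
  set N : ℕ := ⌈(2 : ℝ) ^ (s₄ * d)⌉₊ with hN
  have hN1 : (2 : ℝ) ^ (s₄ * d) ≤ N := Nat.le_ceil _
  have hN2 : (N : ℝ) ≤ 2 ^ (s₅ * d) := by
    have h3 : (N : ℝ) < 2 ^ (s₄ * d) + 1 := Nat.ceil_lt_add_one (by positivity)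
    have h4 : (1 : ℝ) ≤ 2 ^ (s₄ * d) := Real.one_le_rpow (by norm_num) (by positivity)
    have h5 : (2 : ℝ) ^ (s₅ * d) = 2 ^ (s₄ * d) * 2 ^ ((s₅ - s₄) * d) := by
      rw [← Real.rpow_add (by norm_num)]; congr 1; ring
    rw [h5]
    have h6 : (2 : ℝ) ^ (s₄ * d) * 2 ≤ 2 ^ (s₄ * d) * 2 ^ ((s₅ - s₄) * d) :=
      mul_le_mul_of_nonneg_left hb4 (by positivity)
    linarith
  have hN0 : (0 : ℝ) < N := lt_of_lt_of_le (by positivity) hN1
  set la : ℝ := lam / N with hla
  have hla0 : 0 < la := by rw [hla]; positivity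
  have hla1 : la * 2 ^ ((s₄ - s₂) * d) ≤ 1 := by
    rw [hla, div_mul_eq_mul_div, div_le_one hN0]
    calc lam * 2 ^ ((s₄ - s₂) * d) ≤ 2 ^ (s₂ * d) * 2 ^ ((s₄ - s₂) * d) := by gcongr
      _ = 2 ^ (s₄ * d) := by rw [← Real.rpow_add (by norm_num)]; congr 1; ring
      _ ≤ N := hN1
  -- `la (1 + L) ≤ c₂`
  have hL1 : 1 + L ≤ |s₂| * d + 1 := by
    have h3 : lam * p ≤ 2 ^ (s₂ * d) := by
      calc lam * p ≤ 2 ^ (s₂ * d) * 1 :=
            mul_le_mul hlam2 (pc_le_one (by omega)) hp.le (by positivity)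
        _ = _ := mul_one _
    have h4 := Real.log_le_log (by positivity) h3
    rw [Real.log_rpow (by norm_num), ← hL] at h4
    have h5 : s₂ * d * Real.log 2 ≤ |s₂| * d * 1 := by
      apply mul_le_mul _ (by have := Real.log_two_lt_d9; linarith) hl2.le (by positivity)
      exact mul_le_mul_of_nonneg_right (le_abs_self _) (Nat.cast_nonneg _)
    linarith
  have hla2 : la * (1 + L) ≤ c₂ := by
    have h3 : 1 / c₂ * (1 + L) ≤ 2 ^ ((s₄ - s₂) * d) := by
      have h4 : (2 : ℝ) ^ ((s₄ - s₂) * d) =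
          2 ^ ((s₄ - s₂) / 2 * d) * 2 ^ ((s₄ - s₂) / 2 * d) := by
        rw [← Real.rpow_add (by norm_num)]; congr 1; ring
      rw [h4]
      exact mul_le_mul hb2 (hL1.trans hb6) (by positivity) (by positivity)
    have h5 : la * (1 / c₂ * (1 + L)) ≤ 1 := (mul_le_mul_of_nonneg_left h3 hla0.le).trans hla1
    have h6 : la * (1 / c₂ * (1 + L)) = la * (1 + L) / c₂ := by ring
    rw [h6, div_le_one hc20] at h5
    exact h5
  have hla4 : la ≤ e / 2 :=
    ((le_mul_of_one_le_right hla0.le (by linarith)).trans hla2).trans hc2a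
  have hκ : la + 2 * B * Real.sqrt la * Real.sqrt (1 + L) ≤ e := by
    have h4 : Real.sqrt la * Real.sqrt (1 + L) ≤ e / (4 * B) := by
      rw [← Real.sqrt_mul hla0.le, Real.sqrt_le_left (by positivity)]
      exact hla2.trans hc2b
    have h5 : 2 * B * (Real.sqrt la * Real.sqrt (1 + L)) ≤ e / 2 := by
      calc 2 * B * (Real.sqrt la * Real.sqrt (1 + L)) ≤ 2 * B * (e / (4 * B)) :=
            mul_le_mul_of_nonneg_left h4 (by positivity)
        _ = e / 2 := by field_simp; ring
    rw [mul_assoc]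
    linarith
  have hla3 : la ≤ Real.exp (-1) := by
    rw [Real.exp_neg, ← one_div, le_div_iff₀ (Real.exp_pos 1)]
    exact (mul_le_mul_of_nonneg_left hb3 hla0.le).trans hla1
  set z0 : ℝ := Real.exp ((1 - e) ^ 6 * L ^ 2 / (2 * p)) with hz0
  -- good points have a large partition function
  have hgoodZ : {x : Fin N → Sph d | ∃ M : Finset (Fin N), Good3 x e p K M} ⊆
      {x | z0 ≤ Zf (Ad x) Finset.univ la} := by
    intro x hM
    obtain ⟨M, hM1, hM2, hM3⟩ := hM
    have hcomm : ∀ a b, Ad x a b → Ad x b a := fun a b h => ⟨h.1.symm, by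
      rw [real_inner_comm]; exact h.2⟩
    have hΔ : 0 < (1 + e) * N * p := by positivity
    have h3 : Real.log (e * la * ((1 + e) * N * p) / 2) = C + Real.log (1 + e) + L := by
      rw [hC, hL, ← Real.log_mul (by positivity) (by positivity),
        ← Real.log_mul (by positivity) (by positivity)]
      congr 1
      rw [hla]
      field_simp
    have h4 : 0 ≤ Real.log (1 + e) := Real.log_nonneg (by linarith)
    have h5 : (1 - e) * L ≤ 1 + Real.log (e * la * ((1 + e) * N * p) / 2) := by
      rw [h3]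
      have := neg_abs_le C
      linarith
    have h1e : 0 ≤ 1 - e := by linarith
    have h4' : Real.log (1 + e) ≤ e := by
      have := Real.log_le_sub_one_of_pos (show 0 < 1 + e by linarith); linarith
    have hC' : C ≤ -1 + Real.log 2 - Real.log 2 + 1 - e := by
      have h7 := Real.log_le_sub_one_of_pos (show 0 < e / 2 by positivity)
      rw [← hC] at h7
      linarith
    have hLr : 1 + Real.log (e * la * ((1 + e) * N * p) / 2) ≤ 1 + L := by
      rw [h3]; linarith
    have h6 := logZ_geL (R := Ad x) hcomm (fun a h => h.1 rfl) (M := M)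
      (κ := e) (L := 1 + L) (lam := la) (η := e) (Δ := (1 + e) * N * p) he0.le (by linarith)
      hla0 hla3 (fun t ht0 ht v hv X hX => loc_ge (R := Ad x) hcomm (fun a h => h.1 rfl) ht0 ht
        hB0.le (hM3 v hv X hX) (by linarith) hκ (by linarith))
      he0 hΔ hLr hM2 (le_trans (by positivity) h5)
    have h7 : (1 - e) ^ 6 * L ^ 2 / (2 * p) ≤ M.card * (1 - e) /
        ((1 + e) * ((1 + e) * N * p)) * (1 + Real.log (e * la * ((1 + e) * N * p) / 2)) ^ 2 / 2 := by
      have h8 : ((1 - e) * L) ^ 2 ≤ (1 + Real.log (e * la * ((1 + e) * N * p) / 2)) ^ 2 :=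
        pow_le_pow_left₀ (by positivity) h5 2
      have h9 : (1 - e) ^ 4 / p ≤ M.card * (1 - e) /
          ((1 + e) * ((1 + e) * N * p)) := by
        rw [div_le_div_iff₀ hp (by positivity)]
        have h10 : ((1 - e) * N) * (1 - e) ≤ M.card * (1 - e) := by
          apply mul_le_mul hM1 (by linarith) h1e (Nat.cast_nonneg _)
        have h11 : ((1 - e) * (1 + e)) ^ 2 ≤ 1 := by
          have h12 : (1 - e) * (1 + e) ≤ 1 := by
            have : 0 < e * e := mul_pos he0 he0
            have e3 : (1 - e) * (1 + e) = 1 - e * e := by ring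
            linarith
          exact pow_le_one₀ (by positivity) h12
        calc (1 - e) ^ 4 * ((1 + e) * ((1 + e) * N * p)) =
            (((1 - e) * (1 + e)) ^ 2) * ((((1 - e) * N) * (1 - e)) * p) := by ring
          _ ≤ 1 * ((((1 - e) * N) * (1 - e)) * p) :=
              mul_le_mul_of_nonneg_right h11 (by positivity)
          _ = (((1 - e) * N) * (1 - e)) * p := one_mul _
          _ ≤ _ := mul_le_mul_of_nonneg_right h10 hp.le
      calc (1 - e) ^ 6 * L ^ 2 / (2 * p) = (1 - e) ^ 4 / p * ((1 - e) * L) ^ 2 / 2 := by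
            field_simp
        _ ≤ _ := by
            apply div_le_div_of_nonneg_right _ (by norm_num)
            apply mul_le_mul h9 h8 (by positivity)
            apply div_nonneg _ (by positivity)
            apply mul_nonneg (Nat.cast_nonneg _); linarith
    have h8 : Zf (Ad x) M la ≤ Zf (Ad x) Finset.univ la := by
      unfold Zf
      apply Finset.sum_le_sum_of_subset_of_nonneg
      · intro W hW
        rw [mem_Ind] at hW ⊢
        exact ⟨Finset.subset_univ _, hW.2⟩
      · intro W _ _; positivity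
    have h9 : z0 ≤ Zf (Ad x) M la := by
      rw [hz0, ← Real.exp_log (lt_of_lt_of_le one_pos (one_le_Zf (R := Ad x) M hla0.le))]
      exact Real.exp_le_exp.2 (h7.trans h6)
    exact h9.trans h8
  -- Markov
  set μ := Measure.pi fun _ : Fin N => sig d with hμ
  obtain ⟨hint, hZ⟩ := integral_Zf (d := d) (n := N) (lam := la) hla0.le
  have hNla : (N : ℝ) * la = lam := by rw [hla]; field_simp
  rw [hNla] at hZ
  have hMar := mul_meas_ge_le_integral_of_nonneg (μ := μ)
    (f := fun x : Fin N → Sph d => Zf (Ad x) Finset.univ la)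
    (Filter.Eventually.of_forall fun x => le_trans zero_le_one (one_le_Zf _ hla0.le)) hint z0
  have hhalf : 1 / 2 ≤ μ.real {x : Fin N → Sph d | z0 ≤ Zf (Ad x) Finset.univ la} := by
    have h3 := hg N hN1 hN2
    have h4 : (2 : ℝ) ^ (-(δ * d)) ≤ 1 / 2 := by
      rw [Real.rpow_neg (by norm_num), ← one_div]
      exact one_div_le_one_div_of_le (by norm_num) hb5
    have h5 : (1 : ℝ) ≤ μ.real {x : Fin N → Sph d | z0 ≤ Zf (Ad x) Finset.univ la} +
        μ.real {x | ¬ ∃ M : Finset (Fin N), Good3 x e p K M} := by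
      refine le_trans ?_ (measureReal_union_le _ _)
      have h6 : {x : Fin N → Sph d | z0 ≤ Zf (Ad x) Finset.univ la} ∪
          {x | ¬ ∃ M : Finset (Fin N), Good3 x e p K M} = Set.univ := by
        apply Set.eq_univ_of_forall
        intro x
        by_cases h7 : ∃ M : Finset (Fin N), Good3 x e p K M
        · exact Or.inl (hgoodZ h7)
        · exact Or.inr h7
      rw [h6]
      simp
    linarith
  have hz0pos : 0 < z0 := Real.exp_pos _
  have h3 : z0 / 2 ≤ ZZ (kp d) lam := by
    have h4 : z0 * (1 / 2) ≤ z0 * μ.real {x : Fin N → Sph d | z0 ≤ Zf (Ad x) Finset.univ la} :=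
      mul_le_mul_of_nonneg_left hhalf hz0pos.le
    linarith
  have h4 := Real.log_le_log (by positivity) h3
  rw [Real.log_div hz0pos.ne' (by norm_num), hz0, Real.log_exp] at h4
  refine le_trans ?_ h4
  -- the numerical end
  have hL2 : 2 ≤ L := by
    have h6 := abs_nonneg C
    have h7 : e * L ≤ 1 * L := mul_le_mul_of_nonneg_right (by linarith) hL0.le
    linarith
  have hp1 : p ≤ 1 := pc_le_one (by omega)
  have h5 : 1 ≤ e * L ^ 2 / (2 * p) := by
    rw [le_div_iff₀ (by positivity)]
    have h6 : 2 ≤ e * L := by have := abs_nonneg C; linarith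
    have h7 : 2 * 2 ≤ e * L * L := mul_le_mul h6 hL2 (by norm_num) (by linarith)
    have e3 : e * L ^ 2 = e * L * L := by ring
    linarith
  have h6 : Real.log 2 ≤ e * L ^ 2 / (2 * p) := by
    have := Real.log_two_lt_d9
    linarith
  have h7 : (1 - ε) * L ^ 2 / (2 * p) + e * L ^ 2 / (2 * p) ≤ (1 - e) ^ 6 * L ^ 2 / (2 * p) := by
    rw [← add_div, ← add_mul]
    apply div_le_div_of_nonneg_right _ (by positivity)
    apply mul_le_mul_of_nonneg_right _ (by positivity)
    have h8 : 1 + (6 : ℕ) * (-e) ≤ (1 + -e) ^ 6 := one_add_mul_le_pow (by linarith) 6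
    have h9 : ε = 10 * e := by rw [he]; ring
    rw [h9]
    push_cast at h8
    have h10 : (1 + -e) ^ 6 = (1 - e) ^ 6 := by ring
    rw [h10] at h8
    linarith
  linarith

end Pool.Agent.Helper63.RKS
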